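import Mathlib

/-!
# Gaussian concentration for Lipschitz functions: exponential moment (Maurey-Pisier)
-/

namespace Pool.Agent.Helper81.RIP
open MeasureTheory ProbabilityTheory Filter Topology

lemma A1_pi_ac (μ ν : Measure ℝ) [SigmaFinite μ] [SigmaFinite ν] (h : μ ≪ ν) (n : ℕ) :
    Measure.pi (fun _ : Fin n => μ) ≪ Measure.pi (fun _ : Fin n => ν) := by
  induction n with
  | zero =>
    rw [Measure.pi_of_empty (fun _ : Fin 0 => μ), Measure.pi_of_empty (fun _ : Fin 0 => ν)]
  | succ n ih =>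
    have h1 := ((measurePreserving_piFinSuccAbove (fun _ : Fin (n + 1) => μ) 0).symm _).map_eq
    have h2 := ((measurePreserving_piFinSuccAbove (fun _ : Fin (n + 1) => ν) 0).symm _).map_eq
    rw [← h1, ← h2]
    exact (Measure.AbsolutelyContinuous.prod h ih).map (MeasurableEquiv.measurable _)

section
variable {E : Type*} [NormedAddCommGroup E] [InnerProductSpace ℝ E]
    [FiniteDimensional ℝ E] [MeasurableSpace E] [BorelSpace E]

lemma A1_ae_diff {f : E → ℝ} {C : NNReal} (hf : LipschitzWith C f) :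
    ∀ᵐ x ∂(stdGaussian E), DifferentiableAt ℝ f x := by
  let e : (Fin (Module.finrank ℝ E) → ℝ) ≃L[ℝ] E :=
    ((stdOrthonormalBasis ℝ E).toBasis.equivFun.symm).toContinuousLinearEquiv
  have he : (fun x : Fin (Module.finrank ℝ E) → ℝ => ∑ i, x i • stdOrthonormalBasis ℝ E i) = e := by
    ext x
    have h := (stdOrthonormalBasis ℝ E).sum_repr_symm (WithLp.toLp 2 x)
    simpa [e] using h
  have hac : stdGaussian E ≪ (volume : Measure (Fin (Module.finrank ℝ E) → ℝ)).map e := by
    rw [stdGaussian, he]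
    refine Measure.AbsolutelyContinuous.map ?_ e.continuous.measurable
    exact A1_pi_ac _ _ (gaussianReal_absolutelyContinuous 0 one_ne_zero) _
  have : ((volume : Measure (Fin (Module.finrank ℝ E) → ℝ)).map e).IsAddHaarMeasure :=
    e.isAddHaarMeasure_map _
  exact hac.ae_le (hf.ae_differentiableAt (μ := (volume : Measure (Fin (Module.finrank ℝ E) → ℝ)).map e))

lemma A1_int_exp_norm (c : ℝ) : Integrable (fun x : E => Real.exp (c * ‖x‖)) (stdGaussian E) := by
  obtain ⟨C, hC, hi⟩ := IsGaussian.exists_integrable_exp_sq (stdGaussian E)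
  refine Integrable.mono' (hi.const_mul (Real.exp (c ^ 2 / (4 * C)))) ?_ ?_
  · exact (Continuous.aestronglyMeasurable (by fun_prop))
  · refine Eventually.of_forall fun x => ?_
    rw [Real.norm_eq_abs, Real.abs_exp, ← Real.exp_add]
    apply Real.exp_le_exp.mpr
    have : 0 ≤ (c / (2 * C) - ‖x‖) ^ 2 * C := by positivity
    have h2 : (c / (2 * C) - ‖x‖) ^ 2 * C = c ^ 2 / (4 * C) - c * ‖x‖ + C * ‖x‖ ^ 2 := by
      field_simp; ring
    linarith

lemma A1_cont {f : E → ℝ} {L : ℝ} (hL : 0 ≤ L) (hf : ∀ x y, |f x - f y| ≤ L * ‖x - y‖) :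
    LipschitzWith ⟨L, hL⟩ f := by
  refine LipschitzWith.of_dist_le_mul fun x y => ?_
  rw [Real.dist_eq, dist_eq_norm]
  exact hf x y

lemma A1_abs_le {f : E → ℝ} {L : ℝ} (hf : ∀ x y, |f x - f y| ≤ L * ‖x - y‖) (x : E) :
    |f x| ≤ |f 0| + L * ‖x‖ := by
  have h := hf x 0
  rw [sub_zero] at h
  have := abs_sub_abs_le_abs_sub (f x) (f 0)
  linarith

lemma A1_int_exp {f : E → ℝ} {L : ℝ} (hL : 0 ≤ L) (hf : ∀ x y, |f x - f y| ≤ L * ‖x - y‖) :
    Integrable (fun x => Real.exp (f x)) (stdGaussian E) := by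
  refine Integrable.mono' ((A1_int_exp_norm (E := E) L).const_mul (Real.exp |f 0|)) ?_ ?_
  · exact ((Real.continuous_exp.comp (A1_cont hL hf).continuous).aestronglyMeasurable)
  · refine Eventually.of_forall fun x => ?_
    rw [Real.norm_eq_abs, Real.abs_exp, ← Real.exp_add]
    exact Real.exp_le_exp.mpr ((le_abs_self _).trans (A1_abs_le hf x))

lemma A1_int {f : E → ℝ} {L : ℝ} (hL : 0 ≤ L) (hf : ∀ x y, |f x - f y| ≤ L * ‖x - y‖) :
    Integrable f (stdGaussian E) := by
  have hf' : ∀ x y, |(fun z => -f z) x - (fun z => -f z) y| ≤ L * ‖x - y‖ := by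
    intro x y
    have := hf x y
    rw [show (fun z => -f z) x - (fun z => -f z) y = -(f x - f y) by ring, abs_neg]
    exact this
  refine Integrable.mono' ((A1_int_exp hL hf).add (A1_int_exp hL hf')) ?_ ?_
  · exact (A1_cont hL hf).continuous.aestronglyMeasurable
  · refine Eventually.of_forall fun x => ?_
    rw [Real.norm_eq_abs]
    simp only [Pi.add_apply]
    have h1 := Real.add_one_le_exp (f x)
    have h2 := Real.add_one_le_exp (-f x)
    have h3 := Real.exp_pos (f x)
    have h4 := Real.exp_pos (-f x)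
    rcases abs_cases (f x) with h | h <;> linarith [h.1]

/-- the increment of one small rotation -/
noncomputable def A1g (f : E → ℝ) (h : ℝ) (p : E × E) : ℝ :=
  f (Real.cos h • p.1 + Real.sin h • p.2) - f p.1

lemma A1g_cont {f : E → ℝ} (hf : Continuous f) (h : ℝ) : Continuous (A1g f h) := by
  unfold A1g
  fun_prop

lemma A1_cos_sub_one (h : ℝ) (hh : 0 ≤ h) : |Real.cos h - 1| ≤ h := by
  have h1 := Real.cos_le_one h
  have h2 : |Real.cos h - Real.cos 0| ≤ |h - 0| := Real.abs_cos_sub_cos_le h 0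
  rw [Real.cos_zero, sub_zero, abs_of_nonneg hh] at h2
  exact h2

lemma A1g_le {f : E → ℝ} {L : ℝ} (hL : 0 ≤ L) (hf : ∀ x y, |f x - f y| ≤ L * ‖x - y‖)
    {h : ℝ} (hh : 0 ≤ h) (p : E × E) : |A1g f h p| ≤ L * h * (‖p.1‖ + ‖p.2‖) := by
  refine (hf _ _).trans ?_
  rw [mul_assoc]
  refine mul_le_mul_of_nonneg_left ?_ hL
  have : Real.cos h • p.1 + Real.sin h • p.2 - p.1 = (Real.cos h - 1) • p.1 + Real.sin h • p.2 := by
    rw [sub_smul, one_smul]; abel
  rw [this]
  refine (norm_add_le _ _).trans ?_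
  rw [norm_smul, norm_smul, mul_add]
  refine add_le_add (mul_le_mul_of_nonneg_right (A1_cos_sub_one h hh) (norm_nonneg _))
    (mul_le_mul_of_nonneg_right ?_ (norm_nonneg _))
  rw [Real.norm_eq_abs]
  have := Real.abs_sin_le_abs (x := h)
  rwa [abs_of_nonneg hh] at this


lemma A1_int_prod (c : ℝ) : Integrable (fun p : E × E => Real.exp (c * (‖p.1‖ + ‖p.2‖)))
    ((stdGaussian E).prod (stdGaussian E)) := by
  have := (A1_int_exp_norm (E := E) c).mul_prod (A1_int_exp_norm (E := E) c)
  refine this.congr (Eventually.of_forall fun p => ?_)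
  simp only
  rw [← Real.exp_add]; ring_nf

lemma A1_int_g {f : E → ℝ} {L : ℝ} (hL : 0 ≤ L) (hf : ∀ x y, |f x - f y| ≤ L * ‖x - y‖)
    {h : ℝ} (hh : 0 ≤ h) (n : ℝ) (hn : 0 ≤ n) : Integrable (fun p : E × E => Real.exp (n * A1g f h p))
    ((stdGaussian E).prod (stdGaussian E)) := by
  refine Integrable.mono' (A1_int_prod (E := E) (n * (L * h))) ?_ ?_
  · exact (Real.continuous_exp.comp (continuous_const.mul
      (A1g_cont (A1_cont hL hf).continuous h))).aestronglyMeasurable
  · refine Eventually.of_forall fun p => ?_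
    rw [Real.norm_eq_abs, Real.abs_exp]
    apply Real.exp_le_exp.mpr
    rw [mul_assoc]
    exact mul_le_mul_of_nonneg_left ((le_abs_self _).trans (A1g_le hL hf hh p)) hn

lemma A1_rot (θ : ℝ) : MeasurePreserving (ContinuousLinearMap.rotation (E := E) θ)
    ((stdGaussian E).prod (stdGaussian E)) ((stdGaussian E).prod (stdGaussian E)) :=
  ⟨(ContinuousLinearMap.continuous _).measurable,
    IsGaussian.map_rotation_eq_self (by simp) θ⟩

/-- One splitting of the quarter circle. -/
lemma A1_split {f : E → ℝ} {L : ℝ} (hL : 0 ≤ L) (hf : ∀ x y, |f x - f y| ≤ L * ‖x - y‖)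
    (n : ℕ) (hn : 0 < n) :
    ∫ p, Real.exp (f p.2 - f p.1) ∂((stdGaussian E).prod (stdGaussian E)) ≤
      ∫ p, Real.exp (n * A1g f (Real.pi / 2 / n) p) ∂((stdGaussian E).prod (stdGaussian E)) := by
  set h : ℝ := Real.pi / 2 / n with hh
  have hn' : (0 : ℝ) < n := by exact_mod_cast hn
  have hh0 : 0 ≤ h := by positivity
  have hnh : (n : ℝ) * h = Real.pi / 2 := by rw [hh]; field_simp
  set R : ℕ → E × E → E × E := fun k => ContinuousLinearMap.rotation (E := E) (k * h) with hR
  have hmp : ∀ k, MeasurePreserving (R k) ((stdGaussian E).prod (stdGaussian E))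
      ((stdGaussian E).prod (stdGaussian E)) := fun k => A1_rot _
  have hi := A1_int_g hL hf hh0 (n : ℝ) hn'.le
  have hik : ∀ k, Integrable (fun p => Real.exp (n * A1g f h (R k p)))
      ((stdGaussian E).prod (stdGaussian E)) := fun k => (hmp k).integrable_comp_of_integrable hi
  have hik' : ∀ k, ∫ p, Real.exp (n * A1g f h (R k p)) ∂((stdGaussian E).prod (stdGaussian E)) =
      ∫ p, Real.exp (n * A1g f h p) ∂((stdGaussian E).prod (stdGaussian E)) := by
    intro k
    rw [← integral_map (hmp k).measurable.aemeasurable (φ := R k)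
      (f := fun p => Real.exp (n * A1g f h p)), (hmp k).map_eq]
    rw [(hmp k).map_eq]; exact hi.aestronglyMeasurable
  -- telescoping
  have htel : ∀ (p : E × E) (m : ℕ), ∑ k ∈ Finset.range m, A1g f h (R k p) =
      f (Real.cos (m * h) • p.1 + Real.sin (m * h) • p.2) - f p.1 := by
    intro p m
    induction m with
    | zero => simp
    | succ m ih =>
      rw [Finset.sum_range_succ, ih]
      simp only [hR, A1g, ContinuousLinearMap.rotation_apply]
      have e1 : Real.cos h • (Real.cos (m * h) • p.1 + Real.sin (m * h) • p.2) +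
          Real.sin h • (-Real.sin (m * h) • p.1 + Real.cos (m * h) • p.2) =
          Real.cos ((m + 1 : ℕ) * h) • p.1 + Real.sin ((m + 1 : ℕ) * h) • p.2 := by
        push_cast
        rw [add_mul, one_mul, Real.cos_add, Real.sin_add]
        module
      rw [e1]
      ring
  have hpt : ∀ p : E × E, Real.exp (f p.2 - f p.1) ≤
      ∑ k ∈ Finset.range n, (1 / (n : ℝ)) * Real.exp (n * A1g f h (R k p)) := by
    intro p
    have h1 := htel p n
    rw [hnh, Real.cos_pi_div_two, Real.sin_pi_div_two, zero_smul, one_smul, zero_add] at h1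
    rw [← h1]
    have h2 := convexOn_exp.map_sum_le (t := Finset.range n) (w := fun _ => (1 / (n : ℝ)))
      (p := fun k => n * A1g f h (R k p)) (fun _ _ => by positivity)
      (by simp; field_simp) (fun _ _ => Set.mem_univ _)
    simp only [smul_eq_mul] at h2
    refine le_trans (le_of_eq ?_) h2
    congr 1
    refine Finset.sum_congr rfl fun k _ => ?_
    field_simp
  calc ∫ p, Real.exp (f p.2 - f p.1) ∂((stdGaussian E).prod (stdGaussian E))
      ≤ ∫ p, ∑ k ∈ Finset.range n, (1 / (n : ℝ)) * Real.exp (n * A1g f h (R k p))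
          ∂((stdGaussian E).prod (stdGaussian E)) := by
        apply integral_mono_of_nonneg (Eventually.of_forall fun p => (Real.exp_pos _).le)
        · exact integrable_finsetSum _ fun k _ => (hik k).const_mul _
        · exact Eventually.of_forall hpt
    _ = ∑ k ∈ Finset.range n, (1 / (n : ℝ)) *
          ∫ p, Real.exp (n * A1g f h p) ∂((stdGaussian E).prod (stdGaussian E)) := by
        rw [integral_finsetSum _ fun k _ => (hik k).const_mul _]
        refine Finset.sum_congr rfl fun k _ => ?_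
        rw [integral_const_mul, hik']
    _ = _ := by
        rw [Finset.sum_const, Finset.card_range, nsmul_eq_mul]
        field_simp

/-- Exponential moment of a linear functional. -/
lemma A1_lin (φ : StrongDual ℝ E) {L : ℝ} (hφ : ‖φ‖ ≤ L) :
    ∫ y, Real.exp (Real.pi / 2 * φ y) ∂(stdGaussian E) ≤ Real.exp (2 * L ^ 2) := by
  have h1 : (stdGaussian E).map φ = gaussianReal 0 (‖φ‖ ^ 2).toNNReal := by
    rw [IsGaussian.map_eq_gaussianReal, integral_strongDual_stdGaussian, variance_dual_stdGaussian]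
  have h2 := mgf_gaussianReal h1 (Real.pi / 2)
  rw [mgf] at h2
  rw [h2, Real.exp_le_exp]
  rw [Real.coe_toNNReal _ (by positivity)]
  have h3 : ‖φ‖ ^ 2 ≤ L ^ 2 := pow_le_pow_left₀ (norm_nonneg _) hφ 2
  have h4 : (Real.pi / 2) ^ 2 ≤ 4 := by
    have := Real.pi_le_four
    have := Real.pi_pos
    nlinarith
  have h5 : 0 ≤ ‖φ‖ ^ 2 := by positivity
  nlinarith [mul_le_mul h3 h4 (by positivity) (by positivity)]

/-- The limit of the increments. -/
lemma A1_lim {f : E → ℝ} {x : E} (hx : DifferentiableAt ℝ f x) (y : E) :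
    Tendsto (fun n : ℕ => ((n + 1 : ℕ) : ℝ) * A1g f (Real.pi / 2 / ((n + 1 : ℕ) : ℝ)) (x, y)) atTop
      (𝓝 (Real.pi / 2 * fderiv ℝ f x y)) := by
  have h0 : Tendsto (fun n : ℕ => Real.pi / 2 / ((n + 1 : ℕ) : ℝ)) atTop (𝓝 0) := by
    have := (tendsto_const_div_atTop_nhds_zero_nat (Real.pi / 2)).comp (tendsto_add_atTop_nat 1)
    exact this
  set dd : ℝ → E := fun h => (Real.cos h - 1) • x + Real.sin h • y with hdd
  have hd0 : HasDerivAt dd y 0 := by
    have h1 : HasDerivAt (fun h : ℝ => (Real.cos h - 1) • x) ((-Real.sin 0) • x) 0 :=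
      ((Real.hasDerivAt_cos 0).sub_const 1).smul_const x
    have h2 : HasDerivAt (fun h : ℝ => Real.sin h • y) ((Real.cos 0) • y) 0 :=
      (Real.hasDerivAt_sin 0).smul_const y
    have h3 : HasDerivAt dd ((-Real.sin 0) • x + (Real.cos 0) • y) 0 := h1.add h2
    exact h3.congr_deriv (by simp)
  have hdd0 : dd 0 = 0 := by simp [hdd]
  have hcomp : HasDerivAt (fun h => f (x + dd h)) (fderiv ℝ f x y) 0 := by
    have h1 : HasFDerivAt f (fderiv ℝ f x) (x + dd 0) := by
      rw [hdd0, add_zero]; exact hx.hasFDerivAt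
    exact h1.comp_hasDerivAt 0 (hd0.const_add x)
  have hslope := hcomp.tendsto_slope_zero
  have hne : Tendsto (fun n : ℕ => Real.pi / 2 / ((n + 1 : ℕ) : ℝ)) atTop (𝓝[≠] 0) := by
    rw [tendsto_nhdsWithin_iff]
    refine ⟨h0, Eventually.of_forall fun n => ?_⟩
    have : (0 : ℝ) < ((n + 1 : ℕ) : ℝ) := by positivity
    have h3 : 0 < Real.pi / 2 / ((n + 1 : ℕ) : ℝ) := by positivity
    exact h3.ne'
  have hfin := (hslope.comp hne).const_mul (Real.pi / 2)
  refine hfin.congr fun n => ?_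
  simp only [Function.comp, smul_eq_mul, zero_add, A1g, hdd]
  have e1 : Real.cos (Real.pi / 2 / ((n + 1 : ℕ) : ℝ)) • x + Real.sin (Real.pi / 2 / ((n + 1 : ℕ) : ℝ)) • y =
     x + ((Real.cos (Real.pi / 2 / ((n + 1 : ℕ) : ℝ)) - 1) • x +
      Real.sin (Real.pi / 2 / ((n + 1 : ℕ) : ℝ)) • y) := by
    rw [sub_smul, one_smul]; abel
  rw [e1]
  have : (0 : ℝ) < ((n + 1 : ℕ) : ℝ) := by positivity
  have hpi := Real.pi_pos
  field_simp
  simp


lemma A1_double {f : E → ℝ} {L : ℝ} (hL : 0 ≤ L) (hf : ∀ x y, |f x - f y| ≤ L * ‖x - y‖) :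
    ∫ p, Real.exp (f p.2 - f p.1) ∂((stdGaussian E).prod (stdGaussian E)) ≤
      Real.exp (2 * L ^ 2) := by
  set γ := stdGaussian E with hγ
  set c : ℝ := L * (Real.pi / 2) with hc
  have hpi := Real.pi_pos
  set F : ℕ → E × E → ℝ := fun n p =>
    Real.exp (((n + 1 : ℕ) : ℝ) * A1g f (Real.pi / 2 / ((n + 1 : ℕ) : ℝ)) p) with hF
  have hlip := A1_cont hL hf
  have hFc : ∀ n, Continuous (F n) := fun n =>
    Real.continuous_exp.comp (continuous_const.mul (A1g_cont hlip.continuous _))
  have hFb : ∀ n p, ‖F n p‖ ≤ Real.exp (c * (‖p.1‖ + ‖p.2‖)) := by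
    intro n p
    have hn : (0 : ℝ) < ((n + 1 : ℕ) : ℝ) := by positivity
    rw [hF, Real.norm_eq_abs, Real.abs_exp]
    apply Real.exp_le_exp.mpr
    have h1 := A1g_le hL hf (h := Real.pi / 2 / ((n + 1 : ℕ) : ℝ)) (by positivity) p
    calc ((n + 1 : ℕ) : ℝ) * A1g f (Real.pi / 2 / ((n + 1 : ℕ) : ℝ)) p
        ≤ ((n + 1 : ℕ) : ℝ) * (L * (Real.pi / 2 / ((n + 1 : ℕ) : ℝ)) * (‖p.1‖ + ‖p.2‖)) :=
          mul_le_mul_of_nonneg_left ((le_abs_self _).trans h1) hn.le
      _ = c * (‖p.1‖ + ‖p.2‖) := by rw [hc]; field_simp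
  have hFi : ∀ n, Integrable (F n) (γ.prod γ) := fun n =>
    Integrable.mono' (A1_int_prod (E := E) c) (hFc n).aestronglyMeasurable
      (Eventually.of_forall (hFb n))
  set G : ℕ → E → ℝ := fun n x => ∫ y, F n (x, y) ∂γ with hG
  set G' : E → ℝ := fun x => ∫ y, Real.exp (Real.pi / 2 * fderiv ℝ f x y) ∂γ with hG'
  have hb1 : Integrable (fun y : E => Real.exp (c * ‖y‖)) γ := A1_int_exp_norm c
  have hGlim : ∀ᵐ x ∂γ, Tendsto (fun n => G n x) atTop (𝓝 (G' x)) := by
    filter_upwards [A1_ae_diff hlip] with x hx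
    apply tendsto_integral_of_dominated_convergence (fun y => Real.exp (c * ‖x‖) * Real.exp (c * ‖y‖))
    · intro n
      exact ((hFc n).comp (Continuous.prodMk_right x)).aestronglyMeasurable
    · exact hb1.const_mul _
    · intro n
      refine Eventually.of_forall fun y => ?_
      refine (hFb n (x, y)).trans (le_of_eq ?_)
      rw [← Real.exp_add]; ring_nf
    · refine Eventually.of_forall fun y => ?_
      exact (Real.continuous_exp.tendsto _).comp (A1_lim hx y)
  have hGb : ∀ n x, ‖G n x‖ ≤ Real.exp (c * ‖x‖) * ∫ y, Real.exp (c * ‖y‖) ∂γ := by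
    intro n x
    rw [← integral_const_mul]
    apply norm_integral_le_of_norm_le (hb1.const_mul _)
    refine Eventually.of_forall fun y => ?_
    refine (hFb n (x, y)).trans (le_of_eq ?_)
    rw [← Real.exp_add]; ring_nf
  have hint : Tendsto (fun n => ∫ x, G n x ∂γ) atTop (𝓝 (∫ x, G' x ∂γ)) := by
    apply tendsto_integral_of_dominated_convergence
      (fun x => Real.exp (c * ‖x‖) * ∫ y, Real.exp (c * ‖y‖) ∂γ)
    · intro n
      exact (hFi n).integral_prod_left.aestronglyMeasurable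
    · exact hb1.mul_const _
    · intro n
      exact Eventually.of_forall (hGb n)
    · exact hGlim
  have hG'b : ∫ x, G' x ∂γ ≤ Real.exp (2 * L ^ 2) := by
    have h1 : ‖∫ x, G' x ∂γ‖ ≤ Real.exp (2 * L ^ 2) * γ.real Set.univ := by
      apply norm_integral_le_of_norm_le_const
      refine Eventually.of_forall fun x => ?_
      have hn : 0 ≤ G' x := integral_nonneg fun y => (Real.exp_pos _).le
      rw [Real.norm_eq_abs, abs_of_nonneg hn]
      apply A1_lin
      have := norm_fderiv_le_of_lipschitz ℝ hlip (x₀ := x)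
      exact this
    rw [probReal_univ, mul_one] at h1
    exact (Real.le_norm_self _).trans h1
  refine le_trans (ge_of_tendsto' hint fun n => ?_) hG'b
  rw [← integral_prod _ (hFi n)]
  exact A1_split hL hf (n + 1) (Nat.succ_pos n)

/-- A1: Gaussian concentration, exponential moment. -/
theorem gauss_mgf {E : Type*} [NormedAddCommGroup E] [InnerProductSpace ℝ E]
    [FiniteDimensional ℝ E] [MeasurableSpace E] [BorelSpace E] (f : E → ℝ) (L : ℝ) (hL : 0 ≤ L)
    (hf : ∀ x y, |f x - f y| ≤ L * ‖x - y‖) :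
    Integrable (fun x => Real.exp (f x)) (stdGaussian E) ∧ Integrable f (stdGaussian E) ∧
    ∫ x, Real.exp (f x) ∂(stdGaussian E) ≤ Real.exp (2 * L ^ 2 + ∫ x, f x ∂(stdGaussian E)) := by
  have hf' : ∀ x y, |(fun z => -f z) x - (fun z => -f z) y| ≤ L * ‖x - y‖ := by
    intro x y
    have := hf x y
    rw [show (fun z => -f z) x - (fun z => -f z) y = -(f x - f y) by ring, abs_neg]
    exact this
  have h1 := A1_int_exp hL hf
  have h1' := A1_int_exp hL hf'
  have h2 := A1_int hL hf
  refine ⟨h1, h2, ?_⟩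
  have h3 := A1_double hL hf
  have h4 : ∫ p, Real.exp (f p.2 - f p.1) ∂((stdGaussian E).prod (stdGaussian E)) =
      (∫ x, Real.exp (-f x) ∂(stdGaussian E)) * ∫ x, Real.exp (f x) ∂(stdGaussian E) := by
    rw [← integral_prod_mul (fun x : E => Real.exp (-f x)) (fun x : E => Real.exp (f x))]
    refine integral_congr_ae (Eventually.of_forall fun p => ?_)
    simp only
    rw [← Real.exp_add]; ring_nf
  rw [h4] at h3
  have h5 : Real.exp (-∫ x, f x ∂(stdGaussian E)) ≤ ∫ x, Real.exp (-f x) ∂(stdGaussian E) := by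
    rw [← integral_neg]
    exact ConvexOn.map_integral_le convexOn_exp Real.continuous_exp.continuousOn isClosed_univ
      (Eventually.of_forall fun _ => Set.mem_univ _) h2.neg h1'
  have h6 : 0 ≤ ∫ x, Real.exp (f x) ∂(stdGaussian E) := integral_nonneg fun _ => (Real.exp_pos _).le
  have h7 := (mul_le_mul_of_nonneg_right h5 h6).trans h3
  rw [Real.exp_add]
  have h8 : 0 < Real.exp (∫ x, f x ∂(stdGaussian E)) := Real.exp_pos _
  calc ∫ x, Real.exp (f x) ∂(stdGaussian E)
      = Real.exp (∫ x, f x ∂(stdGaussian E)) * (Real.exp (-∫ x, f x ∂(stdGaussian E)) *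
          ∫ x, Real.exp (f x) ∂(stdGaussian E)) := by
        rw [← mul_assoc, ← Real.exp_add, add_neg_cancel, Real.exp_zero, one_mul]
    _ ≤ Real.exp (∫ x, f x ∂(stdGaussian E)) * Real.exp (2 * L ^ 2) :=
        mul_le_mul_of_nonneg_left h7 h8.le
    _ = _ := mul_comm _ _

end
end Pool.Agent.Helper81.RIP
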