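import Pool.Agent.Helper81.RIP.Defs

/-!
# Part A2: the Cayley transform
-/

namespace Pool.Agent.Helper81.RIP
open MeasureTheory ProbabilityTheory Matrix

variable {d : ℕ}

/-- `Y = 1 - S/2` -/
noncomputable def cY (S : Mat d) : Mat d := 1 - (1 / 2 : ℝ) • S

lemma skew_dot {S : Mat d} (hS : Sᵀ = -S) (x : Fin d → ℝ) : x ⬝ᵥ (S *ᵥ x) = 0 := by
  have h : x ⬝ᵥ (S *ᵥ x) = -(x ⬝ᵥ (S *ᵥ x)) := by
    calc x ⬝ᵥ (S *ᵥ x) = (Sᵀ *ᵥ x) ⬝ᵥ x := dot_mulVec_transpose S x x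
      _ = -((S *ᵥ x) ⬝ᵥ x) := by rw [hS, Matrix.neg_mulVec, neg_dotProduct]
      _ = -(x ⬝ᵥ (S *ᵥ x)) := by rw [dotProduct_comm]
  linarith

lemma vn_cY_sq {S : Mat d} (hS : Sᵀ = -S) (x : Fin d → ℝ) :
    vn (cY S *ᵥ x) ^ 2 = vn x ^ 2 + vn (S *ᵥ x) ^ 2 / 4 := by
  have h := skew_dot hS x
  have h' : (S *ᵥ x) ⬝ᵥ x = 0 := by rw [dotProduct_comm]; exact h
  rw [← dot_self, ← dot_self, ← dot_self, cY, Matrix.sub_mulVec, Matrix.one_mulVec,
    Matrix.smul_mulVec]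
  simp only [sub_dotProduct, dotProduct_sub, smul_dotProduct, dotProduct_smul, smul_eq_mul, h, h']
  ring

lemma vn_le_cY {S : Mat d} (hS : Sᵀ = -S) (x : Fin d → ℝ) : vn x ≤ vn (cY S *ᵥ x) := by
  have h := vn_cY_sq hS x
  have h2 : vn x ^ 2 ≤ vn (cY S *ᵥ x) ^ 2 := by
    rw [h]
    have := sq_nonneg (vn (S *ᵥ x))
    linarith
  exact le_of_sq_le_sq h2 (vn_nonneg _)

lemma isUnit_cY {S : Mat d} (hS : Sᵀ = -S) : IsUnit (cY S).det := by
  rw [isUnit_iff_ne_zero]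
  intro h0
  obtain ⟨v, hv, hv'⟩ := Matrix.exists_mulVec_eq_zero_iff.2 h0
  have := vn_le_cY hS v
  rw [hv', vn_zero] at this
  exact hv (vn_eq_zero (le_antisymm this (vn_nonneg _)))

lemma cY_inv_mul {S : Mat d} (hS : Sᵀ = -S) : (cY S)⁻¹ * cY S = 1 :=
  Matrix.nonsing_inv_mul _ (isUnit_cY hS)

lemma cY_mul_inv {S : Mat d} (hS : Sᵀ = -S) : cY S * (cY S)⁻¹ = 1 :=
  Matrix.mul_nonsing_inv _ (isUnit_cY hS)

lemma opLe_cY_inv {S : Mat d} (hS : Sᵀ = -S) : OpLe (cY S)⁻¹ 1 := by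
  intro x
  have := vn_le_cY hS ((cY S)⁻¹ *ᵥ x)
  rw [Matrix.mulVec_mulVec, cY_mul_inv hS, Matrix.one_mulVec] at this
  rwa [one_mul]

lemma opLe_cY {S : Mat d} (hS : Sᵀ = -S) : OpLe (cY S) (Real.sqrt (1 + hs S ^ 2 / 4)) := by
  intro x
  have h := vn_cY_sq hS x
  have h1 := vn_mulVec_le_hs S x
  have h2 : vn (S *ᵥ x) ^ 2 ≤ (hs S * vn x) ^ 2 := pow_le_pow_left₀ (vn_nonneg _) h1 2
  apply le_of_sq_le_sq _ (mul_nonneg (Real.sqrt_nonneg _) (vn_nonneg _))
  rw [mul_pow, Real.sq_sqrt (by positivity), h]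
  nlinarith

lemma cay_eq {S : Mat d} (hS : Sᵀ = -S) : cay S = (2 : ℝ) • (cY S)⁻¹ - 1 := by
  have h : (1 + (1 / 2 : ℝ) • S : Mat d) = (2 : ℝ) • 1 - cY S := by
    rw [cY]; ext i j; simp only [Matrix.add_apply, Matrix.sub_apply, Matrix.smul_apply, smul_eq_mul]; ring
  have h2 : cay S = (cY S)⁻¹ * (1 + (1 / 2 : ℝ) • S) := rfl
  rw [h2, h, Matrix.mul_sub, cY_inv_mul hS, Matrix.mul_smul, Matrix.mul_one]

lemma cY_transpose {S : Mat d} (hS : Sᵀ = -S) : (cY S)ᵀ = cY (-S) := by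
  rw [cY, Matrix.transpose_sub, Matrix.transpose_one, Matrix.transpose_smul, hS, cY]

lemma skew_neg {S : Mat d} (hS : Sᵀ = -S) : (-S)ᵀ = -(-S) := by
  rw [Matrix.transpose_neg, hS]

/-- A2: the Cayley transform. -/
theorem cay_neg_transpose {S : Mat d} (hS : Sᵀ = -S) : (cay S)ᵀ = cay (-S) := by
  rw [cay_eq hS, cay_eq (skew_neg hS), Matrix.transpose_sub, Matrix.transpose_one,
    Matrix.transpose_smul, Matrix.transpose_nonsing_inv, cY_transpose hS]

theorem cay_orth {S : Mat d} (hS : Sᵀ = -S) : Orth (cay S) := by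
  have hS' := skew_neg hS
  unfold Orth
  rw [cay_neg_transpose hS, cay_eq hS, cay_eq hS']
  have h1 : cY S + cY (-S) = (2 : ℝ) • (1 : Mat d) := by
    rw [cY, cY]; ext i j
    simp only [Matrix.add_apply, Matrix.sub_apply, Matrix.smul_apply, Matrix.neg_apply, smul_eq_mul]
    ring
  have h2 : (cY (-S))⁻¹ + (cY S)⁻¹ = (2 : ℝ) • ((cY (-S))⁻¹ * (cY S)⁻¹) := by
    calc (cY (-S))⁻¹ + (cY S)⁻¹ = (cY (-S))⁻¹ * (cY S + cY (-S)) * (cY S)⁻¹ := by
          rw [Matrix.mul_add, Matrix.add_mul, cY_inv_mul hS', Matrix.one_mul, Matrix.mul_assoc,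
            cY_mul_inv hS, Matrix.mul_one]
      _ = _ := by rw [h1, Matrix.mul_smul, Matrix.mul_one, Matrix.smul_mul]
  have h3 : ((2 : ℝ) • (cY (-S))⁻¹ - 1) * ((2 : ℝ) • (cY S)⁻¹ - 1) =
      (4 : ℝ) • ((cY (-S))⁻¹ * (cY S)⁻¹) - (2 : ℝ) • ((cY (-S))⁻¹ + (cY S)⁻¹) + 1 := by
    simp only [Matrix.sub_mul, Matrix.mul_sub, Matrix.one_mul, Matrix.mul_one, Matrix.smul_mul,
      Matrix.mul_smul]
    module
  rw [h3, h2, smul_smul]
  norm_num

lemma cY_inv_sub {S S' : Mat d} (hS : Sᵀ = -S) (hS' : S'ᵀ = -S') :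
    (2 : ℝ) • ((cY S)⁻¹ - (cY S')⁻¹) = (cY S)⁻¹ * (S - S') * (cY S')⁻¹ := by
  have h1 : S - S' = (2 : ℝ) • (cY S' - cY S) := by
    rw [cY, cY]; ext i j
    simp only [Matrix.sub_apply, Matrix.smul_apply, smul_eq_mul]
    ring
  rw [h1, Matrix.mul_smul, Matrix.smul_mul, Matrix.mul_sub, Matrix.sub_mul, cY_inv_mul hS,
    Matrix.one_mul, Matrix.mul_assoc, cY_mul_inv hS', Matrix.mul_one]

theorem cay_lip {S S' : Mat d} (hS : Sᵀ = -S) (hS' : S'ᵀ = -S') :
    hs (cay S - cay S') ≤ hs (S - S') := by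
  have h : cay S - cay S' = (cY S)⁻¹ * (S - S') * (cY S')⁻¹ := by
    rw [cay_eq hS, cay_eq hS', ← cY_inv_sub hS hS', smul_sub]
    abel
  rw [h]
  have h1 := hs_mul_le_right (opLe_cY_inv hS') zero_le_one ((cY S)⁻¹ * (S - S'))
  have h2 := hs_mul_le_left (opLe_cY_inv hS) zero_le_one (S - S')
  linarith

lemma conj_skew {S Z : Mat d} (hS : Sᵀ = -S) : (Zᵀ * S * Z)ᵀ = -(Zᵀ * S * Z) := by
  rw [Matrix.transpose_mul, Matrix.transpose_mul, Matrix.transpose_transpose, hS,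
    Matrix.neg_mul, Matrix.mul_neg, Matrix.mul_assoc]

theorem cay_conj {S Z : Mat d} (hS : Sᵀ = -S) (hZ : Orth Z) :
    cay (Zᵀ * S * Z) = Zᵀ * cay S * Z := by
  have hZ1 : Zᵀ * Z = 1 := hZ
  have hZ2 : Z * Zᵀ = 1 := hZ.mul_transpose
  have h1 : cY (Zᵀ * S * Z) = Zᵀ * cY S * Z := by
    rw [cY, cY, Matrix.mul_sub, Matrix.sub_mul, Matrix.mul_one, hZ1, Matrix.mul_smul,
      Matrix.smul_mul]
  have h2 : (Zᵀ * cY S * Z)⁻¹ = Zᵀ * (cY S)⁻¹ * Z := by
    apply Matrix.inv_eq_right_inv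
    calc Zᵀ * cY S * Z * (Zᵀ * (cY S)⁻¹ * Z) = Zᵀ * cY S * (Z * Zᵀ) * (cY S)⁻¹ * Z := by
          simp only [Matrix.mul_assoc]
      _ = 1 := by
          rw [hZ2, Matrix.mul_one, Matrix.mul_assoc Zᵀ, cY_mul_inv hS, Matrix.mul_one, hZ1]
  rw [cay_eq (conj_skew hS), cay_eq hS, h1, h2, Matrix.mul_sub, Matrix.sub_mul, Matrix.mul_one,
    hZ1, Matrix.mul_smul, Matrix.smul_mul]

theorem cay_comm {S : Mat d} (hS : Sᵀ = -S) (K : Mat d) :
    hs (S * K - K * S) ≤ (1 + hs S ^ 2 / 4) * hs (cay S * K - K * cay S) := by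
  have h1 : cay S * K - K * cay S = (2 : ℝ) • ((cY S)⁻¹ * K - K * (cY S)⁻¹) := by
    rw [cay_eq hS, Matrix.sub_mul, Matrix.mul_sub, Matrix.one_mul, Matrix.mul_one,
      Matrix.smul_mul, Matrix.mul_smul, smul_sub]
    abel
  have h2 : S * K - K * S = cY S * (cay S * K - K * cay S) * cY S := by
    rw [h1, Matrix.mul_smul, Matrix.smul_mul, Matrix.mul_sub, Matrix.sub_mul, ← Matrix.mul_assoc,
      cY_mul_inv hS, Matrix.one_mul, Matrix.mul_assoc (cY S), Matrix.mul_assoc K, cY_inv_mul hS,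
      Matrix.mul_one, cY, Matrix.mul_sub, Matrix.sub_mul, Matrix.mul_one, Matrix.one_mul,
      Matrix.mul_smul, Matrix.smul_mul]
    ext i j
    simp only [Matrix.sub_apply, Matrix.smul_apply, smul_eq_mul]
    ring
  have h3 := hs_mul_le_right (opLe_cY hS) (Real.sqrt_nonneg _) (cY S * (cay S * K - K * cay S))
  have h4 := hs_mul_le_left (opLe_cY hS) (Real.sqrt_nonneg _) (cay S * K - K * cay S)
  rw [← h2] at h3
  have h5 : Real.sqrt (1 + hs S ^ 2 / 4) * Real.sqrt (1 + hs S ^ 2 / 4) = 1 + hs S ^ 2 / 4 :=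
    Real.mul_self_sqrt (by positivity)
  calc hs (S * K - K * S) ≤ _ := h3
    _ ≤ Real.sqrt (1 + hs S ^ 2 / 4) * (Real.sqrt (1 + hs S ^ 2 / 4) *
        hs (cay S * K - K * cay S)) := mul_le_mul_of_nonneg_left h4 (Real.sqrt_nonneg _)
    _ = _ := by rw [← mul_assoc, h5]

theorem cay_second {S : Mat d} (hS : Sᵀ = -S) : hs (cay S - 1 - S) ≤ hs S ^ 2 / 2 := by
  have h : cay S - 1 - S = (cY S)⁻¹ * ((1 / 2 : ℝ) • (S * S)) := by
    have h1 : (1 / 2 : ℝ) • (S * S) = (2 : ℝ) • 1 - cY S * ((2 : ℝ) • 1 + S) := by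
      rw [cY, Matrix.sub_mul, Matrix.one_mul, Matrix.mul_add, Matrix.smul_mul, Matrix.smul_mul,
        Matrix.mul_smul, Matrix.mul_one]
      ext i j
      simp only [Matrix.sub_apply, Matrix.smul_apply, Matrix.add_apply, smul_eq_mul]
      ring
    rw [h1, Matrix.mul_sub, ← Matrix.mul_assoc, cY_inv_mul hS, Matrix.one_mul, Matrix.mul_smul,
      Matrix.mul_one, cay_eq hS]
    ext i j
    simp only [Matrix.sub_apply, Matrix.smul_apply, Matrix.add_apply, smul_eq_mul]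
    ring
  rw [h]
  have h1 := hs_mul_le_left (opLe_cY_inv hS) zero_le_one ((1 / 2 : ℝ) • (S * S))
  rw [hs_smul] at h1
  have h2 := hs_mul_le S S
  have h3 : |(1 / 2 : ℝ)| = 1 / 2 := abs_of_pos (by norm_num)
  rw [h3] at h1
  nlinarith

/-- A2: facts on `XX`. -/
theorem sk_skew (t : ℝ) (x : GG d) : (sk t x)ᵀ = - sk t x := by
  rw [sk, Matrix.transpose_smul, Matrix.transpose_sub, Matrix.transpose_transpose, ← smul_neg]
  congr 1
  abel

lemma hs_toM (x : GG d) : hs (toM x) = ‖x‖ := by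
  rw [EuclideanSpace.norm_eq, hs, Fintype.sum_prod_type]
  simp [toM]

lemma toM_sub (x y : GG d) : toM (x - y) = toM x - toM y := by
  ext i j; simp [toM]

theorem sk_lip (t : ℝ) (ht : 0 ≤ t) (x y : GG d) : hs (sk t x - sk t y) ≤ t * ‖x - y‖ := by
  have h : sk t x - sk t y = (t / 2) • (toM (x - y) - (toM (x - y))ᵀ) := by
    rw [sk, sk, ← smul_sub, toM_sub, Matrix.transpose_sub]
    congr 1
    abel
  rw [h, hs_smul, abs_of_nonneg (by positivity)]
  have h1 := hs_sub_le (toM (x - y)) (toM (x - y))ᵀ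
  rw [hs_transpose, hs_toM] at h1
  nlinarith

theorem XX_orth (t : ℝ) (x : GG d) : Orth (XX t x) := cay_orth (sk_skew t x)

theorem XX_lip (t : ℝ) (ht : 0 ≤ t) (x y : GG d) : hs (XX t x - XX t y) ≤ t * ‖x - y‖ :=
  (cay_lip (sk_skew t x) (sk_skew t y)).trans (sk_lip t ht x y)

theorem continuous_XX (t : ℝ) (ht : 0 ≤ t) : Continuous (XX t : GG d → Mat d) := by
  apply continuous_pi
  intro i
  apply continuous_pi
  intro j
  have hl : LipschitzWith (Real.toNNReal t) (fun x : GG d => XX t x i j) := by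
    apply LipschitzWith.of_dist_le_mul
    intro x y
    rw [Real.dist_eq, dist_eq_norm, Real.coe_toNNReal t ht]
    have h1 := abs_entry_le_hs (XX t x - XX t y) i j
    rw [Matrix.sub_apply] at h1
    exact h1.trans (XX_lip t ht x y)
  exact hl.continuous

/-- conjugation on the Gaussian coordinates -/
noncomputable def conjL (Z : Mat d) : GG d →ₗ[ℝ] GG d where
  toFun x := WithLp.toLp 2 fun p => (Zᵀ * toM x * Z) p.1 p.2
  map_add' x y := by
    have : toM (x + y) = toM x + toM y := by ext i j; simp [toM]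
    ext p
    simp [this, Matrix.mul_add, Matrix.add_mul]
  map_smul' c x := by
    have : toM (c • x) = c • toM x := by ext i j; simp [toM]
    ext p
    simp [this]

lemma toM_conjL (Z : Mat d) (x : GG d) : toM (conjL Z x) = Zᵀ * toM x * Z := by
  ext i j; simp [toM, conjL]

lemma toM_injective : Function.Injective (toM : GG d → Mat d) := by
  intro x y h
  ext p
  have := congrFun (congrFun h p.1) p.2
  simpa [toM] using this

noncomputable def conjE {Z : Mat d} (hZ : Orth Z) : GG d ≃ₗᵢ[ℝ] GG d where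
  toLinearEquiv := LinearEquiv.ofLinearMap (conjL Z) (conjL Zᵀ)
    (by
      ext1 x
      apply toM_injective
      simp only [LinearMap.comp_apply, LinearMap.id_apply, toM_conjL, Matrix.transpose_transpose]
      calc Zᵀ * (Z * toM x * Zᵀ) * Z = (Zᵀ * Z) * toM x * (Zᵀ * Z) := by
            simp only [Matrix.mul_assoc]
        _ = toM x := by rw [show Zᵀ * Z = 1 from hZ, Matrix.one_mul, Matrix.mul_one])
    (by
      ext1 x
      apply toM_injective
      simp only [LinearMap.comp_apply, LinearMap.id_apply, toM_conjL, Matrix.transpose_transpose]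
      calc Z * (Zᵀ * toM x * Z) * Zᵀ = (Z * Zᵀ) * toM x * (Z * Zᵀ) := by
            simp only [Matrix.mul_assoc]
        _ = toM x := by rw [hZ.mul_transpose, Matrix.one_mul, Matrix.mul_one])
  norm_map' x := by
    change ‖conjL Z x‖ = ‖x‖
    rw [← hs_toM, toM_conjL, hZ.hs_mul', hZ.transpose.hs_mul, hs_toM]

lemma XX_neg_eq (t : ℝ) (x : GG d) : XX (-t) x = XX t (-x) := by
  have h : sk (-t) x = sk t (-x) := by
    have h1 : toM (-x) = -toM x := by ext i j; simp [toM]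
    rw [sk, sk, h1, Matrix.transpose_neg]
    module
  rw [XX, XX, h]

lemma continuous_XX_all (t : ℝ) : Continuous (XX t : GG d → Mat d) := by
  rcases le_total 0 t with ht | ht
  · exact continuous_XX t ht
  · have h : (XX t : GG d → Mat d) = fun x => XX (-t) (-x) := by
      funext x
      rw [← XX_neg_eq, neg_neg]
    rw [h]
    exact (continuous_XX (-t) (by linarith)).comp continuous_neg

/-- the law of `XX t` is invariant under conjugation -/
theorem XX_conj (t : ℝ) {Z : Mat d} (hZ : Orth Z) :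
    (gam d).map (fun x => Zᵀ * XX t x * Z) = (gam d).map (XX t) := by
  have h1 : (fun x : GG d => Zᵀ * XX t x * Z) = XX t ∘ conjE hZ := by
    funext x
    have h2 : sk t (conjE hZ x) = Zᵀ * sk t x * Z := by
      have h3 : toM (conjE hZ x) = Zᵀ * toM x * Z := toM_conjL Z x
      rw [sk, sk, h3, Matrix.transpose_mul, Matrix.transpose_mul, Matrix.transpose_transpose,
        Matrix.mul_smul, Matrix.smul_mul, Matrix.mul_sub, Matrix.sub_mul, Matrix.mul_assoc Zᵀ]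
      simp only [Matrix.mul_assoc]
    rw [Function.comp_apply, XX, XX, h2, cay_conj (sk_skew t x) hZ]
  rw [h1, ← Measure.map_map (continuous_XX_all t).measurable (conjE hZ).continuous.measurable]
  congr 1
  exact stdGaussian_map (conjE hZ)

end Pool.Agent.Helper81.RIP
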