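import Pool.Agent.Helper81.RIP.A2

/-!
# A3: contraction of one random step (MP_00538b_an)
-/

namespace Pool.Agent.Helper81.RIP
open MeasureTheory ProbabilityTheory Matrix

variable {d : ℕ}

namespace A3

lemma memLp_norm (p : ENNReal) (hp : p ≠ ⊤) : MemLp (fun x : GG d => ‖x‖) p (gam d) :=
  (IsGaussian.memLp_id (gam d) p hp).norm

lemma int_norm_pow4 : Integrable (fun x : GG d => ‖x‖ ^ 4) (gam d) := by
  have h := (memLp_norm (d := d) 4 (by simp)).integrable_norm_pow (by norm_num)
  simpa using h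

lemma int_norm_sq : Integrable (fun x : GG d => ‖x‖ ^ 2) (gam d) := by
  have h := (memLp_norm (d := d) 2 (by simp)).integrable_norm_pow (by norm_num)
  simpa using h

lemma int_coord_mul (a b : Fin d × Fin d) : Integrable (fun x : GG d => x a * x b) (gam d) := by
  refine Integrable.mono' (g := fun x : GG d => ‖x‖ ^ 2) int_norm_sq (by fun_prop) ?_
  refine Filter.Eventually.of_forall fun x => ?_
  have h1 : ‖x a‖ ≤ ‖x‖ := PiLp.norm_apply_le x a
  have h2 : ‖x b‖ ≤ ‖x‖ := PiLp.norm_apply_le x b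
  rw [norm_mul, sq]
  exact mul_le_mul h1 h2 (norm_nonneg _) (norm_nonneg _)

lemma integral_coord_mul (a b : Fin d × Fin d) :
    ∫ x : GG d, x a * x b ∂(gam d) = if a = b then 1 else 0 := by
  have h := covarianceBilin_apply (μ := gam d) (IsGaussian.memLp_two_id (μ := gam d))
    (EuclideanSpace.single a (1:ℝ)) (EuclideanSpace.single b (1:ℝ))
  rw [covarianceBilin_stdGaussian] at h
  have h' : (innerSL ℝ) (EuclideanSpace.single a (1:ℝ)) (EuclideanSpace.single b (1:ℝ)) =
    inner ℝ (EuclideanSpace.single a (1:ℝ)) (EuclideanSpace.single b (1:ℝ)) := rfl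
  rw [h'] at h
  simp only [EuclideanSpace.inner_single_left, id_eq,
    integral_id_stdGaussian, sub_zero, map_one, one_mul] at h
  rw [← h]
  by_cases hab : a = b
  · subst hab; simp
  · simp [hab]

lemma sk_apply (t : ℝ) (x : GG d) (i j : Fin d) :
    sk t x i j = t / 2 * (x (i, j) - x (j, i)) := by
  simp [sk, toM, Matrix.transpose_apply]

lemma int_sk_mul (t : ℝ) (i j k l : Fin d) :
    Integrable (fun x : GG d => sk t x i j * sk t x k l) (gam d) := by
  have h : (fun x : GG d => sk t x i j * sk t x k l) = fun x =>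
      (t / 2) ^ 2 * (x (i, j) * x (k, l) - x (i, j) * x (l, k) - x (j, i) * x (k, l)
        + x (j, i) * x (l, k)) := by
    funext x; rw [sk_apply, sk_apply]; ring
  rw [h]
  exact ((((int_coord_mul _ _).sub (int_coord_mul _ _)).sub (int_coord_mul _ _)).add
    (int_coord_mul _ _)).const_mul _

lemma ite_pair (i j k l : Fin d) : (if (i, j) = (k, l) then (1 : ℝ) else 0) =
    (if i = k then 1 else 0) * (if j = l then 1 else 0) := by
  by_cases h1 : i = k <;> by_cases h2 : j = l <;> simp [h1, h2]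

lemma integral_sk_mul (t : ℝ) (i j k l : Fin d) :
    ∫ x : GG d, sk t x i j * sk t x k l ∂(gam d) =
      t ^ 2 / 2 * ((if i = k then 1 else 0) * (if j = l then 1 else 0)
        - (if i = l then 1 else 0) * (if j = k then 1 else 0)) := by
  have h : (fun x : GG d => sk t x i j * sk t x k l) = fun x =>
      (t / 2) ^ 2 * (x (i, j) * x (k, l) - x (i, j) * x (l, k) - x (j, i) * x (k, l)
        + x (j, i) * x (l, k)) := by
    funext x; rw [sk_apply, sk_apply]; ring
  rw [h, integral_const_mul, integral_add, integral_sub, integral_sub,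
    integral_coord_mul, integral_coord_mul, integral_coord_mul, integral_coord_mul]
  · rw [ite_pair, ite_pair, ite_pair, ite_pair]
    ring
  · exact int_coord_mul _ _
  · exact int_coord_mul _ _
  · exact (int_coord_mul _ _).sub (int_coord_mul _ _)
  · exact int_coord_mul _ _
  · exact ((int_coord_mul _ _).sub (int_coord_mul _ _)).sub (int_coord_mul _ _)
  · exact int_coord_mul _ _

lemma comm_sq (S K : Mat d) : hs (S * K - K * S) ^ 2 =
    ∑ i, ∑ j, ∑ k, ∑ l, (K k j * K l j * (S i k * S i l) - K k j * K i l * (S i k * S l j)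
      - K i k * K l j * (S k j * S i l) + K i k * K i l * (S k j * S l j)) := by
  rw [hs_sq]
  refine Finset.sum_congr rfl fun i _ => Finset.sum_congr rfl fun j _ => ?_
  rw [Matrix.sub_apply, Matrix.mul_apply, Matrix.mul_apply, ← Finset.sum_sub_distrib, sq,
    Finset.sum_mul_sum]
  refine Finset.sum_congr rfl fun k _ => Finset.sum_congr rfl fun l _ => ?_
  ring

lemma int_comm_sq (t : ℝ) (K : Mat d) :
    Integrable (fun x : GG d => hs (sk t x * K - K * sk t x) ^ 2) (gam d) := by
  simp_rw [comm_sq]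
  refine integrable_finsetSum _ fun i _ => integrable_finsetSum _ fun j _ =>
    integrable_finsetSum _ fun k _ => integrable_finsetSum _ fun l _ => ?_
  exact ((((int_sk_mul _ _ _ _ _).const_mul _).sub ((int_sk_mul _ _ _ _ _).const_mul _)).sub
    ((int_sk_mul _ _ _ _ _).const_mul _)).add ((int_sk_mul _ _ _ _ _).const_mul _)

lemma integral_comm_sq (t : ℝ) {K : Mat d} (hK : Kᵀ = -K) :
    ∫ x, hs (sk t x * K - K * sk t x) ^ 2 ∂(gam d) = t ^ 2 * (d - 2) * hs K ^ 2 := by
  have hK' : ∀ i j, K j i = - K i j := fun i j => by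
    have := congrFun (congrFun hK i) j
    simpa [Matrix.transpose_apply] using this
  have hK0 : ∀ i, K i i = 0 := fun i => by have := hK' i i; linarith
  have key : ∀ i j k l : Fin d, ∫ x : GG d, (K k j * K l j * (sk t x i k * sk t x i l)
      - K k j * K i l * (sk t x i k * sk t x l j)
      - K i k * K l j * (sk t x k j * sk t x i l) + K i k * K i l * (sk t x k j * sk t x l j))
      ∂(gam d) = t ^ 2 / 2 * (K k j * K l j * ((if k = l then 1 else 0)
        - (if i = l then 1 else 0) * (if k = i then 1 else 0))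
      - K k j * K i l * ((if i = l then 1 else 0) * (if k = j then 1 else 0)
        - (if i = j then 1 else 0) * (if k = l then 1 else 0))
      - K i k * K l j * ((if k = i then 1 else 0) * (if j = l then 1 else 0)
        - (if k = l then 1 else 0) * (if j = i then 1 else 0))
      + K i k * K i l * ((if k = l then 1 else 0)
        - (if k = j then 1 else 0) * (if j = l then 1 else 0))) := by
    intro i j k l
    rw [integral_add, integral_sub, integral_sub, integral_const_mul, integral_const_mul,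
      integral_const_mul, integral_const_mul, integral_sk_mul, integral_sk_mul, integral_sk_mul,
      integral_sk_mul]
    · simp only [if_true]; ring
    · exact (int_sk_mul _ _ _ _ _).const_mul _
    · exact (int_sk_mul _ _ _ _ _).const_mul _
    · exact ((int_sk_mul _ _ _ _ _).const_mul _).sub ((int_sk_mul _ _ _ _ _).const_mul _)
    · exact (int_sk_mul _ _ _ _ _).const_mul _
    · exact (((int_sk_mul _ _ _ _ _).const_mul _).sub ((int_sk_mul _ _ _ _ _).const_mul _)).sub
        ((int_sk_mul _ _ _ _ _).const_mul _)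
    · exact (int_sk_mul _ _ _ _ _).const_mul _
  have hint : ∀ i j k l : Fin d, Integrable (fun x : GG d =>
      (K k j * K l j * (sk t x i k * sk t x i l)
      - K k j * K i l * (sk t x i k * sk t x l j)
      - K i k * K l j * (sk t x k j * sk t x i l) + K i k * K i l * (sk t x k j * sk t x l j)))
      (gam d) := fun i j k l =>
    ((((int_sk_mul _ _ _ _ _).const_mul _).sub ((int_sk_mul _ _ _ _ _).const_mul _)).sub
      ((int_sk_mul _ _ _ _ _).const_mul _)).add ((int_sk_mul _ _ _ _ _).const_mul _)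
  simp_rw [comm_sq]
  rw [integral_finsetSum _ fun i _ => integrable_finsetSum _ fun j _ =>
    integrable_finsetSum _ fun k _ => integrable_finsetSum _ fun l _ => hint i j k l]
  have h2 : ∀ i : Fin d, ∫ x : GG d, ∑ j, ∑ k, ∑ l,
      (K k j * K l j * (sk t x i k * sk t x i l)
      - K k j * K i l * (sk t x i k * sk t x l j)
      - K i k * K l j * (sk t x k j * sk t x i l) + K i k * K i l * (sk t x k j * sk t x l j))
      ∂(gam d) = ∑ j, ∑ k, ∑ l, t ^ 2 / 2 * (K k j * K l j * ((if k = l then 1 else 0)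
        - (if i = l then 1 else 0) * (if k = i then 1 else 0))
      - K k j * K i l * ((if i = l then 1 else 0) * (if k = j then 1 else 0)
        - (if i = j then 1 else 0) * (if k = l then 1 else 0))
      - K i k * K l j * ((if k = i then 1 else 0) * (if j = l then 1 else 0)
        - (if k = l then 1 else 0) * (if j = i then 1 else 0))
      + K i k * K i l * ((if k = l then 1 else 0)
        - (if k = j then 1 else 0) * (if j = l then 1 else 0))) := by
    intro i
    rw [integral_finsetSum _ fun j _ =>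
      integrable_finsetSum _ fun k _ => integrable_finsetSum _ fun l _ => hint i j k l]
    refine Finset.sum_congr rfl fun j _ => ?_
    rw [integral_finsetSum _ fun k _ => integrable_finsetSum _ fun l _ => hint i j k l]
    refine Finset.sum_congr rfl fun k _ => ?_
    rw [integral_finsetSum _ fun l _ => hint i j k l]
    exact Finset.sum_congr rfl fun l _ => key i j k l
  rw [Finset.sum_congr rfl fun i _ => h2 i]
  have h3 : ∀ i j : Fin d, (∑ k, ∑ l, t ^ 2 / 2 * (K k j * K l j * ((if k = l then 1 else 0)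
        - (if i = l then 1 else 0) * (if k = i then 1 else 0))
      - K k j * K i l * ((if i = l then 1 else 0) * (if k = j then 1 else 0)
        - (if i = j then 1 else 0) * (if k = l then 1 else 0))
      - K i k * K l j * ((if k = i then 1 else 0) * (if j = l then 1 else 0)
        - (if k = l then 1 else 0) * (if j = i then 1 else 0))
      + K i k * K i l * ((if k = l then 1 else 0)
        - (if k = j then 1 else 0) * (if j = l then 1 else 0)))) =
      t ^ 2 / 2 * ((∑ k, K k j ^ 2) + (∑ k, K i k ^ 2) - 2 * K i j ^ 2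
        - 2 * (if i = j then ∑ k, K i k ^ 2 else 0)) := by
    intro i j
    simp only [← Finset.mul_sum]
    congr 1
    by_cases hij : i = j
    · subst hij
      simp [mul_sub, Finset.sum_sub_distrib, Finset.sum_add_distrib, hK0, hK' i, sq]
      ring
    · have hji : ¬ j = i := fun h => hij h.symm
      simp [mul_sub, Finset.sum_sub_distrib, Finset.sum_add_distrib, hK0, hij, hji, sq]
      ring
  simp_rw [h3]
  rw [hs_sq]
  have h4 : ∀ i : Fin d, (∑ j, t ^ 2 / 2 * ((∑ k, K k j ^ 2) + (∑ k, K i k ^ 2) - 2 * K i j ^ 2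
        - 2 * (if i = j then ∑ k, K i k ^ 2 else 0))) =
      t ^ 2 / 2 * ((∑ j, ∑ k, K k j ^ 2) + (d - 4) * ∑ k, K i k ^ 2) := by
    intro i
    rw [← Finset.mul_sum]
    congr 1
    rw [Finset.sum_sub_distrib, Finset.sum_sub_distrib, Finset.sum_add_distrib,
      ← Finset.mul_sum, ← Finset.mul_sum, Finset.sum_ite_eq, Finset.sum_const]
    simp
    ring
  rw [Finset.sum_congr rfl fun i _ => h4 i, ← Finset.mul_sum, Finset.sum_add_distrib,
    ← Finset.mul_sum, Finset.sum_const, Finset.sum_comm (s := Finset.univ) (t := Finset.univ)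
      (f := fun j k => K k j ^ 2)]
  simp
  ring

lemma comm_le (S K : Mat d) : hs (S * K - K * S) ≤ 2 * hs S * hs K := by
  have h1 := hs_sub_le (S * K) (K * S)
  have h2 := hs_mul_le S K
  have h3 := hs_mul_le K S
  nlinarith

lemma parallelogram (A B : Mat d) : hs (A + B) ^ 2 + hs (A - B) ^ 2 = 2 * hs A ^ 2 + 2 * hs B ^ 2 := by
  simp only [hs_sq, Finset.mul_sum, ← Finset.sum_add_distrib]
  refine Finset.sum_congr rfl fun i _ => Finset.sum_congr rfl fun j _ => ?_
  simp only [Matrix.add_apply, Matrix.sub_apply]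
  ring

lemma sk_zero (t : ℝ) : sk t (0 : GG d) = 0 := by
  ext i j
  rw [sk_apply]
  simp

lemma hs_sk_le (t : ℝ) (ht : 0 ≤ t) (x : GG d) : hs (sk t x) ≤ t * ‖x‖ := by
  have h := sk_lip t ht x 0
  rw [sk_zero, sub_zero, sub_zero] at h
  exact h

/-- pointwise bound -/
lemma pointwise (t : ℝ) (ht : 0 ≤ t) (K : Mat d) (x : GG d) :
    hs (K * XX t x + XX t x * K) ^ 2 ≤
      4 * hs K ^ 2 - hs (sk t x * K - K * sk t x) ^ 2 + 2 * t ^ 4 * hs K ^ 2 * ‖x‖ ^ 4 := by
  have hO := XX_orth t x
  have h1 := parallelogram (K * XX t x) (XX t x * K)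
  rw [hO.hs_mul, hO.hs_mul'] at h1
  have h2 := cay_comm (sk_skew t x) K
  change _ ≤ (1 + hs (sk t x) ^ 2 / 4) * hs (XX t x * K - K * XX t x) at h2
  rw [hs_sub_comm (K * XX t x)] at h1
  have h3 := comm_le (sk t x) K
  have h4 := hs_sk_le t ht x
  have hc0 := hs_nonneg (sk t x * K - K * sk t x)
  have hX0 := hs_nonneg (XX t x * K - K * XX t x)
  have hS0 := hs_nonneg (sk t x)
  have hK0 := hs_nonneg K
  set c := hs (sk t x * K - K * sk t x) with hc
  set X := hs (XX t x * K - K * XX t x) with hX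
  set σ := hs (sk t x) with hσ
  set k := hs K with hk
  have hs0 : 0 ≤ σ ^ 2 := sq_nonneg _
  have e1 : c ^ 2 * (1 - σ ^ 2 / 2) ≤ X ^ 2 := by
    by_cases hcase : 1 - σ ^ 2 / 2 ≤ 0
    · have := mul_nonpos_of_nonneg_of_nonpos (sq_nonneg c) hcase
      nlinarith [sq_nonneg X]
    · push Not at hcase
      have e2 : c ^ 2 ≤ ((1 + σ ^ 2 / 4) * X) ^ 2 := pow_le_pow_left₀ hc0 h2 2
      have e3 : c ^ 2 * (1 - σ ^ 2 / 2) ≤ ((1 + σ ^ 2 / 4) * X) ^ 2 * (1 - σ ^ 2 / 2) :=
        mul_le_mul_of_nonneg_right e2 hcase.le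
      have e4 : ((1 + σ ^ 2 / 4) * X) ^ 2 * (1 - σ ^ 2 / 2) =
          X ^ 2 * (1 - 3 * (σ ^ 2) ^ 2 / 16 - (σ ^ 2) ^ 3 / 32) := by ring
      have e5 : X ^ 2 * (1 - 3 * (σ ^ 2) ^ 2 / 16 - (σ ^ 2) ^ 3 / 32) ≤ X ^ 2 * 1 := by
        apply mul_le_mul_of_nonneg_left _ (sq_nonneg _)
        have := pow_nonneg hs0 3
        have := pow_nonneg hs0 2
        linarith
      linarith
  have e6 : c ^ 2 * σ ^ 2 ≤ 4 * k ^ 2 * σ ^ 4 := by
    have : c ^ 2 ≤ (2 * σ * k) ^ 2 := pow_le_pow_left₀ hc0 h3 2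
    calc c ^ 2 * σ ^ 2 ≤ (2 * σ * k) ^ 2 * σ ^ 2 := mul_le_mul_of_nonneg_right this hs0
      _ = _ := by ring
  have e7 : σ ^ 4 ≤ t ^ 4 * ‖x‖ ^ 4 := by
    calc σ ^ 4 ≤ (t * ‖x‖) ^ 4 := pow_le_pow_left₀ hS0 h4 4
      _ = _ := by ring
  have e8 : 4 * k ^ 2 * σ ^ 4 ≤ 4 * k ^ 2 * (t ^ 4 * ‖x‖ ^ 4) :=
    mul_le_mul_of_nonneg_left e7 (by positivity)
  nlinarith

lemma bound_lin (t : ℝ) (K : Mat d) (x : GG d) : hs (K * XX t x + XX t x * K) ≤ 2 * hs K := by
  have hO := XX_orth t x
  have h := hs_add_le (K * XX t x) (XX t x * K)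
  rw [hO.hs_mul, hO.hs_mul'] at h
  linarith

lemma cont_lin (t : ℝ) (ht : 0 ≤ t) (K : Mat d) :
    Continuous fun x : GG d => hs (K * XX t x + XX t x * K) := by
  have h1 := continuous_XX (d := d) t ht
  exact continuous_hs.comp ((continuous_const.matrix_mul h1).add (h1.matrix_mul continuous_const))

lemma int_lin (t : ℝ) (ht : 0 ≤ t) (K : Mat d) :
    Integrable (fun x : GG d => hs (K * XX t x + XX t x * K)) (gam d) := by
  refine Integrable.mono' (integrable_const (2 * hs K))
    (cont_lin t ht K).aestronglyMeasurable (Filter.Eventually.of_forall fun x => ?_)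
  rw [Real.norm_eq_abs, abs_of_nonneg (hs_nonneg _)]
  exact bound_lin t K x

lemma int_sq (t : ℝ) (ht : 0 ≤ t) (K : Mat d) :
    Integrable (fun x : GG d => hs (K * XX t x + XX t x * K) ^ 2) (gam d) := by
  refine Integrable.mono' (integrable_const ((2 * hs K) ^ 2))
    ((cont_lin t ht K).pow 2).aestronglyMeasurable (Filter.Eventually.of_forall fun x => ?_)
  rw [Real.norm_eq_abs, abs_of_nonneg (sq_nonneg _)]
  exact pow_le_pow_left₀ (hs_nonneg _) (bound_lin t K x) 2

end A3

/-- A3: contraction. -/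
theorem contraction (d : ℕ) (hd : 3 ≤ d) : ∃ t₀ : ℝ, 0 < t₀ ∧ ∀ t : ℝ, 0 < t → t ≤ t₀ →
    t ^ 2 * (d - 2) / 8 < 1 ∧
    ∀ K : Mat d, Kᵀ = -K →
    ∫ x, hs (K * XX t x + XX t x * K) ∂(gam d) ≤ 2 * rr d t * hs K := by
  have hd' : (3 : ℝ) ≤ d := by exact_mod_cast hd
  set M : ℝ := ∫ x : GG d, ‖x‖ ^ 4 ∂(gam d) with hM
  have hM0 : 0 ≤ M := integral_nonneg fun x => by positivity
  refine ⟨min (1 / (d : ℝ)) (1 / (4 * (M + 1))), by positivity, fun t ht htt => ?_⟩
  have h1 : t ≤ 1 / (d : ℝ) := htt.trans (min_le_left _ _)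
  have h2 : t ≤ 1 / (4 * (M + 1)) := htt.trans (min_le_right _ _)
  have h1' : t * d ≤ 1 := by rwa [le_div_iff₀ (by positivity)] at h1
  have h2' : t * (4 * (M + 1)) ≤ 1 := by rwa [le_div_iff₀ (by positivity)] at h2
  have ht1 : t ≤ 1 := by nlinarith
  have hA : t ^ 2 * (d - 2) / 8 < 1 := by nlinarith
  have hB : 2 * t ^ 2 * M ≤ (d - 2) / 2 := by
    have : t * M ≤ 1 / 4 := by nlinarith
    have : t ^ 2 * M ≤ 1 / 4 := by nlinarith [mul_nonneg ht.le hM0]
    linarith
  refine ⟨hA, fun K hK => ?_⟩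
  set g : GG d → ℝ := fun x => hs (K * XX t x + XX t x * K) with hg
  have hgi : Integrable g (gam d) := A3.int_lin t ht.le K
  have hgs : Integrable (fun x => g x ^ 2) (gam d) := A3.int_sq t ht.le K
  have hg0 : 0 ≤ ∫ x, g x ∂(gam d) := integral_nonneg fun x => hs_nonneg _
  -- Jensen
  have hJ : (∫ x, g x ∂(gam d)) ^ 2 ≤ ∫ x, g x ^ 2 ∂(gam d) := by
    have h3 : ∫ x, (2 * (∫ y, g y ∂(gam d)) * g x - (∫ y, g y ∂(gam d)) ^ 2) ∂(gam d) ≤
        ∫ x, g x ^ 2 ∂(gam d) := by
      apply integral_mono _ hgs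
      · intro x
        change 2 * (∫ y, g y ∂(gam d)) * g x - (∫ y, g y ∂(gam d)) ^ 2 ≤ g x ^ 2
        nlinarith [sq_nonneg (g x - ∫ y, g y ∂(gam d))]
      · exact (hgi.const_mul _).sub (integrable_const _)
    rw [integral_sub (hgi.const_mul _) (integrable_const _), integral_const_mul,
      integral_const] at h3
    simp only [probReal_univ, one_smul] at h3
    nlinarith
  have hI : ∫ x, g x ^ 2 ∂(gam d) ≤
      4 * hs K ^ 2 - t ^ 2 * (d - 2) * hs K ^ 2 + 2 * t ^ 4 * hs K ^ 2 * M := by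
    have i1 : Integrable (fun _ : GG d => 4 * hs K ^ 2) (gam d) := integrable_const _
    have i2 := A3.int_comm_sq t K
    have i3 : Integrable (fun x : GG d => 2 * t ^ 4 * hs K ^ 2 * ‖x‖ ^ 4) (gam d) :=
      A3.int_norm_pow4.const_mul _
    have i4 : Integrable (fun x : GG d => 4 * hs K ^ 2 - hs (sk t x * K - K * sk t x) ^ 2)
      (gam d) := i1.sub i2
    calc ∫ x, g x ^ 2 ∂(gam d) ≤ ∫ x, (4 * hs K ^ 2 - hs (sk t x * K - K * sk t x) ^ 2
          + 2 * t ^ 4 * hs K ^ 2 * ‖x‖ ^ 4) ∂(gam d) :=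
          integral_mono hgs (i4.add i3) fun x => A3.pointwise t ht.le K x
      _ = _ := by
          rw [integral_add i4 i3, integral_sub i1 i2, A3.integral_comm_sq t hK, integral_const]
          have i5 : ∫ x : GG d, 2 * t ^ 4 * hs K ^ 2 * ‖x‖ ^ 4 ∂(gam d) =
            2 * t ^ 4 * hs K ^ 2 * M := integral_const_mul _ _
          rw [i5]
          simp
  have hfin : (∫ x, g x ∂(gam d)) ^ 2 ≤ (2 * rr d t * hs K) ^ 2 := by
    have hrr : rr d t ^ 2 = 1 - t ^ 2 * (d - 2) / 8 := Real.sq_sqrt (by linarith)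
    have : (2 * rr d t * hs K) ^ 2 = 4 * (1 - t ^ 2 * (d - 2) / 8) * hs K ^ 2 := by
      rw [← hrr]; ring
    rw [this]
    have h5 : t ^ 2 * hs K ^ 2 * (2 * t ^ 2 * M) ≤ t ^ 2 * hs K ^ 2 * ((d - 2) / 2) :=
      mul_le_mul_of_nonneg_left hB (by positivity)
    nlinarith
  exact (pow_le_pow_iff_left₀ hg0 (mul_nonneg (mul_nonneg (by norm_num) (Real.sqrt_nonneg _))
    (hs_nonneg _)) two_ne_zero).mp hfin

end Pool.Agent.Helper81.RIP
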