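import Pool.Agent.Helper81.RIP.A2

/-!
# Part A4: the Markov operator of the walk on the orthogonal group
-/

namespace Pool.Agent.Helper81.RIP
open MeasureTheory ProbabilityTheory Matrix Filter Topology

variable {d : ℕ}

lemma Lip1.continuous {F : Mat d → ℝ} (hF : Lip1 F) : Continuous F := by
  rw [continuous_iff_continuousAt]
  intro U
  rw [ContinuousAt, tendsto_iff_dist_tendsto_zero]
  have h1 : Tendsto (fun V : Mat d => hs (V - U)) (𝓝 U) (𝓝 0) := by
    have h2 : Continuous fun V : Mat d => hs (V - U) :=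
      continuous_hs.comp (continuous_id.sub continuous_const)
    have h3 := h2.tendsto U
    simpa using h3
  refine squeeze_zero (fun _ => dist_nonneg) (fun V => ?_) h1
  rw [Real.dist_eq]
  exact hF V U

lemma Orth.hs_eq {V : Mat d} (h : Orth V) : hs V = hs (1 : Mat d) := by
  have := h.hs_mul 1
  rwa [Matrix.mul_one] at this

lemma Lip1.abs_le {F : Mat d → ℝ} (hF : Lip1 F) {V : Mat d} (hV : Orth V) :
    |F V| ≤ |F 1| + 2 * hs (1 : Mat d) := by
  have h1 := hF V 1
  have h2 := hs_sub_le V 1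
  rw [hV.hs_eq] at h2
  have h3 : F V = F 1 + (F V - F 1) := by ring
  rw [h3]
  refine (abs_add_le _ _).trans ?_
  linarith

/-- continuous functions which are bounded on the orthogonal group are integrable -/
lemma integrable_of_orth {μ : Measure (Mat d)} [IsFiniteMeasure μ] (ho : ∀ᵐ V ∂μ, Orth V)
    {g : Mat d → ℝ} (hg : Continuous g) (C : ℝ) (hC : ∀ V, Orth V → |g V| ≤ C) :
    Integrable g μ :=
  Integrable.of_bound hg.aestronglyMeasurable C (ho.mono fun V hV => hC V hV)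

lemma continuous_mul_XX (t : ℝ) (ht : 0 ≤ t) (U : Mat d) :
    Continuous fun x : GG d => U * XX t x :=
  continuous_const.matrix_mul (continuous_XX t ht)

lemma integrable_XX (t : ℝ) (ht : 0 ≤ t) {g : Mat d → ℝ} (hg : Continuous g) (C : ℝ)
    (hC : ∀ V, Orth V → |g V| ≤ C) {U : Mat d} (hU : Orth U) :
    Integrable (fun x : GG d => g (U * XX t x)) (gam d) :=
  Integrable.of_bound (hg.comp (continuous_mul_XX t ht U)).aestronglyMeasurable C
    (Eventually.of_forall fun x => hC _ (hU.mul (XX_orth t x)))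

lemma integrable_XX_gen (t : ℝ) (ht : 0 ≤ t) {F : Mat d → ℝ} (hF : Lip1 F) (U : Mat d) :
    Integrable (fun x : GG d => F (U * XX t x)) (gam d) := by
  refine Integrable.of_bound (hF.continuous.comp (continuous_mul_XX t ht U)).aestronglyMeasurable
    (|F 0| + hs U) (Eventually.of_forall fun x => ?_)
  have h1 := hF (U * XX t x) 0
  rw [sub_zero, (XX_orth t x).hs_mul'] at h1
  have h3 : F (U * XX t x) = F 0 + (F (U * XX t x) - F 0) := by ring
  rw [h3]
  refine (abs_add_le _ _).trans ?_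
  linarith

/-- A4: the Markov operator. -/
theorem PP_lip1 (t : ℝ) (ht : 0 ≤ t) {F : Mat d → ℝ} (hF : Lip1 F) : Lip1 (PP t F) := by
  intro U V
  unfold PP
  rw [← integral_sub (integrable_XX_gen t ht hF U) (integrable_XX_gen t ht hF V)]
  have h1 : ∀ᵐ x ∂(gam d), ‖F (U * XX t x) - F (V * XX t x)‖ ≤ hs (U - V) := by
    refine Eventually.of_forall fun x => ?_
    rw [Real.norm_eq_abs]
    refine (hF _ _).trans ?_
    rw [← Matrix.sub_mul, (XX_orth t x).hs_mul']
  have h2 := norm_integral_le_of_norm_le_const h1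
  simpa [Real.norm_eq_abs] using h2

/-- conjugation does not change the Markov operator -/
lemma PP_conj (t : ℝ) (ht : 0 ≤ t) {F : Mat d → ℝ} (hF : Lip1 F) (V : Mat d) {Z : Mat d}
    (hZ : Orth Z) : PP t F V = ∫ x, F (V * (Zᵀ * XX t x * Z)) ∂(gam d) := by
  have hc : Continuous fun Y : Mat d => F (V * Y) :=
    hF.continuous.comp (continuous_const.matrix_mul continuous_id)
  have hm1 : Continuous (XX t : GG d → Mat d) := continuous_XX t ht
  have hm2 : Continuous (fun x : GG d => Zᵀ * XX t x * Z) :=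
    (continuous_const.matrix_mul hm1).matrix_mul continuous_const
  have h1 : PP t F V = ∫ Y, F (V * Y) ∂((gam d).map (XX t)) := by
    rw [integral_map hm1.measurable.aemeasurable hc.aestronglyMeasurable]
    rfl
  rw [h1, ← XX_conj t hZ, integral_map hm2.measurable.aemeasurable hc.aestronglyMeasurable]

/-- the algebraic estimate behind the contraction -/
lemma conj_est {W X K Z : Mat d} (hW : Orth W) (hX : Orth X) (hZ : Orth Z) {δ : ℝ}
    (hδ0 : 0 ≤ δ) (hδ1 : δ ≤ 1) (h1 : hs (W - 1) ≤ δ) (hK : hs K ≤ δ)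
    (h2 : hs (W - 1 - K) ≤ δ ^ 2 / 2) (h3 : hs (Z - 1 - (1 / 2 : ℝ) • K) ≤ δ ^ 2 / 8)
    (hKs : Kᵀ = -K) :
    hs (W * (Zᵀ * X * Z) - X) ≤ 1 / 2 * hs (K * X + X * K) + 2 * δ ^ 2 := by
  set E1 := W - 1 - K with hE1
  set E2 := Z - 1 - (1 / 2 : ℝ) • K with hE2
  have hWe : W = 1 + K + E1 := by rw [hE1]; abel
  have hZe : Z = 1 + (1 / 2 : ℝ) • K + E2 := by rw [hE2]; abel
  have hZt : Zᵀ = 1 - (1 / 2 : ℝ) • K + E2ᵀ := by
    rw [hZe]
    simp only [Matrix.transpose_add, Matrix.transpose_one, Matrix.transpose_smul, hKs, smul_neg]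
    abel
  -- first factor
  have hG : W * Zᵀ - 1 - (1 / 2 : ℝ) • K = E1 - (1 / 2 : ℝ) • ((W - 1) * K) + W * E2ᵀ := by
    rw [hZt, Matrix.mul_add, Matrix.mul_sub, Matrix.mul_one, Matrix.mul_smul, Matrix.sub_mul,
      Matrix.one_mul, smul_sub]
    rw [hE1]
    have : (1 / 2 : ℝ) • K + (1 / 2 : ℝ) • K = K := by
      rw [← add_smul]; norm_num
    have h4 : K = (1 / 2 : ℝ) • K + (1 / 2 : ℝ) • K := this.symm
    generalize (1 / 2 : ℝ) • K = H at *
    rw [h4]
    abel
  have hGb : hs (W * Zᵀ - 1 - (1 / 2 : ℝ) • K) ≤ 9 / 8 * δ ^ 2 := by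
    rw [hG]
    have e1 := hs_add_le (E1 - (1 / 2 : ℝ) • ((W - 1) * K)) (W * E2ᵀ)
    have e2 := hs_sub_le E1 ((1 / 2 : ℝ) • ((W - 1) * K))
    have e3 : hs ((1 / 2 : ℝ) • ((W - 1) * K)) ≤ 1 / 2 * (δ * δ) := by
      rw [hs_smul, abs_of_pos (by norm_num : (0 : ℝ) < 1 / 2)]
      have := hs_mul_le (W - 1) K
      have h5 : hs (W - 1) * hs K ≤ δ * δ := mul_le_mul h1 hK (hs_nonneg _) hδ0
      linarith
    have e4 : hs (W * E2ᵀ) = hs E2 := by rw [hW.hs_mul, hs_transpose]
    nlinarith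
  have hZb : hs (Z - 1) ≤ 5 / 8 * δ := by
    have e1 : Z - 1 = (1 / 2 : ℝ) • K + E2 := by rw [hE2]; abel
    rw [e1]
    have e2 := hs_add_le ((1 / 2 : ℝ) • K) E2
    rw [hs_smul, abs_of_pos (by norm_num : (0 : ℝ) < 1 / 2)] at e2
    nlinarith
  -- the identity
  have hid : W * (Zᵀ * X * Z) - X = (1 / 2 : ℝ) • (K * X + X * K) +
      ((W * Zᵀ - 1 - (1 / 2 : ℝ) • K) * (X * Z) + X * (Z - 1 - (1 / 2 : ℝ) • K) +
        (1 / 2 : ℝ) • (K * (X * (Z - 1)))) := by
    have a1 : W * (Zᵀ * X * Z) = (W * Zᵀ) * (X * Z) := by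
      simp only [Matrix.mul_assoc]
    rw [a1]
    simp only [Matrix.sub_mul, Matrix.mul_sub, Matrix.one_mul, Matrix.mul_one, smul_add,
      smul_sub, Matrix.smul_mul, Matrix.mul_smul]
    abel
  rw [hid]
  have f1 := hs_add_le ((1 / 2 : ℝ) • (K * X + X * K))
    ((W * Zᵀ - 1 - (1 / 2 : ℝ) • K) * (X * Z) + X * (Z - 1 - (1 / 2 : ℝ) • K) +
        (1 / 2 : ℝ) • (K * (X * (Z - 1))))
  have f2 := hs_add_le ((W * Zᵀ - 1 - (1 / 2 : ℝ) • K) * (X * Z) +
    X * (Z - 1 - (1 / 2 : ℝ) • K)) ((1 / 2 : ℝ) • (K * (X * (Z - 1))))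
  have f3 := hs_add_le ((W * Zᵀ - 1 - (1 / 2 : ℝ) • K) * (X * Z))
    (X * (Z - 1 - (1 / 2 : ℝ) • K))
  have g1 : hs ((W * Zᵀ - 1 - (1 / 2 : ℝ) • K) * (X * Z)) ≤ 9 / 8 * δ ^ 2 := by
    rw [(hX.mul hZ).hs_mul']; exact hGb
  have g2 : hs (X * (Z - 1 - (1 / 2 : ℝ) • K)) ≤ δ ^ 2 / 8 := by
    rw [hX.hs_mul]; exact h3
  have g3 : hs ((1 / 2 : ℝ) • (K * (X * (Z - 1)))) ≤ 1 / 2 * (δ * (5 / 8 * δ)) := by
    rw [hs_smul, abs_of_pos (by norm_num : (0 : ℝ) < 1 / 2)]
    have e1 := hs_mul_le K (X * (Z - 1))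
    rw [hX.hs_mul] at e1
    have e2 : hs K * hs (Z - 1) ≤ δ * (5 / 8 * δ) := mul_le_mul hK hZb (hs_nonneg _) hδ0
    linarith
  rw [hs_smul, abs_of_pos (by norm_num : (0 : ℝ) < 1 / 2)] at f1
  nlinarith

/-- A4 -/
theorem PP_QL (hd : 3 ≤ d) (t : ℝ) (ht : 0 < t)
    (hc : ∀ K : Mat d, Kᵀ = -K → ∫ x, hs (K * XX t x + XX t x * K) ∂(gam d) ≤ 2 * rr d t * hs K)
    {F : Mat d → ℝ} (hF : Lip1 F) {L : ℝ} (hL : 0 ≤ L) (hQ : QL F L) :
    QL (PP t F) (rr d t * L) := by
  obtain ⟨B, hB, hQB⟩ := hQ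
  have hrr : 0 ≤ rr d t := Real.sqrt_nonneg _
  refine ⟨2 * L + 9 * B + 1, by positivity, ?_⟩
  intro U V hU hV
  set δ := hs (V - U) with hδ
  have hδ0 : 0 ≤ δ := hs_nonneg _
  rcases le_or_gt δ 1 with hδ1 | hδ1
  · set W := Uᵀ * V with hW
    have hWo : Orth W := hU.transpose.mul hV
    have hUW : U * W = V := by
      rw [hW, ← Matrix.mul_assoc, hU.mul_transpose, Matrix.one_mul]
    have hW1 : hs (W - 1) = δ := by
      have : W - 1 = Uᵀ * (V - U) := by
        rw [Matrix.mul_sub, hU, hW]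
      rw [this, hU.transpose.hs_mul]
    set K : Mat d := (1 / 2 : ℝ) • (W - Wᵀ) with hK
    have hKs : Kᵀ = -K := by
      rw [hK, Matrix.transpose_smul, Matrix.transpose_sub, Matrix.transpose_transpose,
        ← smul_neg, neg_sub]
    have hKb : hs K ≤ δ := by
      have e1 : W - Wᵀ = (W - 1) - (W - 1)ᵀ := by
        rw [Matrix.transpose_sub, Matrix.transpose_one]; abel
      rw [hK, hs_smul, abs_of_pos (by norm_num : (0 : ℝ) < 1 / 2), e1]
      have e2 := hs_sub_le (W - 1) (W - 1)ᵀ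
      rw [hs_transpose, hW1] at e2
      linarith
    have hE1 : hs (W - 1 - K) ≤ δ ^ 2 / 2 := by
      have e1 : W - 1 - K = -((1 / 2 : ℝ) • ((W - 1)ᵀ * (W - 1))) := by
        rw [Matrix.transpose_sub, Matrix.transpose_one, Matrix.sub_mul, Matrix.mul_sub,
          Matrix.one_mul, Matrix.mul_one, show Wᵀ * W = 1 from hWo, hK]
        ext i j
        simp only [Matrix.sub_apply, Matrix.smul_apply, Matrix.neg_apply, smul_eq_mul]
        ring
      rw [e1, hs_neg, hs_smul, abs_of_pos (by norm_num : (0 : ℝ) < 1 / 2)]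
      have e2 := hs_mul_le (W - 1)ᵀ (W - 1)
      rw [hs_transpose, hW1] at e2
      nlinarith
    set Z := cay ((1 / 2 : ℝ) • K) with hZ
    have hKs2 : ((1 / 2 : ℝ) • K)ᵀ = -((1 / 2 : ℝ) • K) := by
      rw [Matrix.transpose_smul, hKs, smul_neg]
    have hZo : Orth Z := cay_orth hKs2
    have hE2 : hs (Z - 1 - (1 / 2 : ℝ) • K) ≤ δ ^ 2 / 8 := by
      have e1 := cay_second hKs2
      rw [hs_smul, abs_of_pos (by norm_num : (0 : ℝ) < 1 / 2)] at e1
      have e2 : hs K ^ 2 ≤ δ ^ 2 := pow_le_pow_left₀ (hs_nonneg _) hKb 2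
      nlinarith
    have hest : ∀ x : GG d, hs (V * (Zᵀ * XX t x * Z) - U * XX t x) ≤
        1 / 2 * hs (K * XX t x + XX t x * K) + 2 * δ ^ 2 := by
      intro x
      have e1 : V * (Zᵀ * XX t x * Z) - U * XX t x = U * (W * (Zᵀ * XX t x * Z) - XX t x) := by
        rw [Matrix.mul_sub, ← Matrix.mul_assoc U W, hUW]
      rw [e1, hU.hs_mul]
      exact conj_est hWo (XX_orth t x) hZo hδ0 hδ1 hW1.le hKb hE1 hE2 hKs
    have hest2 : ∀ x : GG d, hs (V * (Zᵀ * XX t x * Z) - U * XX t x) ≤ 3 * δ := by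
      intro x
      refine (hest x).trans ?_
      have e1 := hs_add_le (K * XX t x) (XX t x * K)
      rw [(XX_orth t x).hs_mul, (XX_orth t x).hs_mul'] at e1
      nlinarith
    have hpt : ∀ x : GG d, |F (V * (Zᵀ * XX t x * Z)) - F (U * XX t x)| ≤
        L * (1 / 2 * hs (K * XX t x + XX t x * K)) + (2 * L + 9 * B) * δ ^ 2 := by
      intro x
      have hX := XX_orth t x
      have e1 := hQB (U * XX t x) (V * (Zᵀ * XX t x * Z)) (hU.mul hX)
        (hV.mul ((hZo.transpose.mul hX).mul hZo))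
      refine e1.trans ?_
      have e2 := mul_le_mul_of_nonneg_left (hest x) hL
      have e3 : hs (V * (Zᵀ * XX t x * Z) - U * XX t x) ^ 2 ≤ (3 * δ) ^ 2 :=
        pow_le_pow_left₀ (hs_nonneg _) (hest2 x) 2
      have e4 := mul_le_mul_of_nonneg_left e3 hB
      nlinarith
    have hi1 : Integrable (fun x : GG d => F (V * (Zᵀ * XX t x * Z))) (gam d) := by
      have hm : Continuous (fun x : GG d => F (V * (Zᵀ * XX t x * Z))) :=
        hF.continuous.comp (continuous_const.matrix_mul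
          ((continuous_const.matrix_mul (continuous_XX t ht.le)).matrix_mul continuous_const))
      refine Integrable.of_bound hm.aestronglyMeasurable (|F 1| + 2 * hs (1 : Mat d))
        (Eventually.of_forall fun x => ?_)
      exact hF.abs_le (hV.mul ((hZo.transpose.mul (XX_orth t x)).mul hZo))
    have hi2 : Integrable (fun x : GG d => F (U * XX t x)) (gam d) :=
      integrable_XX_gen t ht.le hF U
    have hi3 : Integrable (fun x : GG d => hs (K * XX t x + XX t x * K)) (gam d) := by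
      have hm : Continuous (fun x : GG d => hs (K * XX t x + XX t x * K)) :=
        continuous_hs.comp ((continuous_const.matrix_mul (continuous_XX t ht.le)).add
          ((continuous_XX t ht.le).matrix_mul continuous_const))
      refine Integrable.of_bound hm.aestronglyMeasurable (2 * hs K)
        (Eventually.of_forall fun x => ?_)
      rw [Real.norm_eq_abs, abs_of_nonneg (hs_nonneg _)]
      have e1 := hs_add_le (K * XX t x) (XX t x * K)
      rw [(XX_orth t x).hs_mul, (XX_orth t x).hs_mul'] at e1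
      linarith
    have hPV := PP_conj t ht.le hF V hZo
    have hPU : PP t F U = ∫ x, F (U * XX t x) ∂(gam d) := rfl
    rw [hPV, hPU, ← integral_sub hi1 hi2]
    have hle : |∫ x, (F (V * (Zᵀ * XX t x * Z)) - F (U * XX t x)) ∂(gam d)| ≤
        ∫ x, (L * (1 / 2 * hs (K * XX t x + XX t x * K)) + (2 * L + 9 * B) * δ ^ 2) ∂(gam d) := by
      refine (abs_integral_le_integral_abs).trans ?_
      exact integral_mono (hi1.sub hi2).abs
        (((hi3.const_mul _).const_mul _).add (integrable_const _)) hpt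
    rw [integral_add ((hi3.const_mul _).const_mul _) (integrable_const _), integral_const_mul,
      integral_const_mul, integral_const] at hle
    simp only [probReal_univ, one_smul] at hle
    have hcK := hc K hKs
    have e5 : L * (1 / 2 * ∫ x, hs (K * XX t x + XX t x * K) ∂(gam d)) ≤ rr d t * L * δ := by
      have e6 : 1 / 2 * ∫ x, hs (K * XX t x + XX t x * K) ∂(gam d) ≤ rr d t * δ := by
        have := mul_le_mul_of_nonneg_left hKb hrr
        linarith
      have := mul_le_mul_of_nonneg_left e6 hL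
      linarith
    have e7 : 0 ≤ δ ^ 2 := sq_nonneg _
    linarith
  · have h1 := PP_lip1 t ht.le hF V U
    have h2 : 0 ≤ rr d t * L * δ := by positivity
    have h3 : δ ≤ δ ^ 2 := by nlinarith
    have h4 : δ ^ 2 ≤ (2 * L + 9 * B + 1) * δ ^ 2 := by nlinarith [sq_nonneg δ]
    rw [← hδ] at h1
    linarith

/-- a locally `L`-Lipschitz function along a Lipschitz path of orthogonal matrices -/
lemma QL_path {F : Mat d → ℝ} {L : ℝ} (hL : 0 ≤ L) (hQ : QL F L) (g : ℝ → Mat d) (c : ℝ)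
    (hc : 0 ≤ c) (hg : ∀ s, Orth (g s)) (hl : ∀ s s', hs (g s - g s') ≤ c * |s - s'|) :
    |F (g 1) - F (g 0)| ≤ L * c := by
  obtain ⟨B, hB, hQB⟩ := hQ
  have key : ∀ n : ℕ, |F (g 1) - F (g 0)| ≤ L * c + B * c ^ 2 * (1 / ((n : ℝ) + 1)) := by
    intro n
    set m : ℕ := n + 1 with hm
    have hmpos : (0 : ℝ) < m := by positivity
    have htel : F (g 1) - F (g 0) =
        ∑ k ∈ Finset.range m, (F (g (((k + 1 : ℕ) : ℝ) / m)) - F (g ((k : ℝ) / m))) := by
      have := Finset.sum_range_sub (fun k : ℕ => F (g ((k : ℝ) / m))) m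
      rw [this]
      simp [div_self hmpos.ne']
    rw [htel]
    refine (Finset.abs_sum_le_sum_abs _ _).trans ?_
    have hterm : ∀ k ∈ Finset.range m,
        |F (g (((k + 1 : ℕ) : ℝ) / m)) - F (g ((k : ℝ) / m))| ≤
          L * (c / m) + B * (c / m) ^ 2 := by
      intro k _
      have e1 := hQB (g ((k : ℝ) / m)) (g (((k + 1 : ℕ) : ℝ) / m)) (hg _) (hg _)
      have e2 := hl (((k + 1 : ℕ) : ℝ) / m) ((k : ℝ) / m)
      have e3 : |((k + 1 : ℕ) : ℝ) / m - (k : ℝ) / m| = 1 / m := by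
        rw [← sub_div]
        push_cast
        rw [add_sub_cancel_left, abs_of_pos (by positivity)]
      rw [e3, mul_one_div] at e2
      refine e1.trans (add_le_add (mul_le_mul_of_nonneg_left e2 hL)
        (mul_le_mul_of_nonneg_left (pow_le_pow_left₀ (hs_nonneg _) e2 2) hB))
    refine (Finset.sum_le_sum hterm).trans (le_of_eq ?_)
    rw [Finset.sum_const, Finset.card_range, nsmul_eq_mul]
    have hm' : (m : ℝ) = (n : ℝ) + 1 := by rw [hm]; push_cast; ring
    rw [← hm']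
    field_simp
  have hlim : Tendsto (fun n : ℕ => L * c + B * c ^ 2 * (1 / ((n : ℝ) + 1))) atTop
      (𝓝 (L * c + B * c ^ 2 * 0)) :=
    (tendsto_one_div_add_atTop_nhds_zero_nat.const_mul _).const_add _
  rw [mul_zero, add_zero] at hlim
  exact ge_of_tendsto' hlim key

theorem QL_gauss (t : ℝ) (ht : 0 ≤ t) {F : Mat d → ℝ} (hF : Lip1 F) {L : ℝ} (hL : 0 ≤ L)
    (hQ : QL F L) {U : Mat d} (hU : Orth U) (x y : GG d) :
    |F (U * XX t x) - F (U * XX t y)| ≤ t * L * ‖x - y‖ := by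
  have h := QL_path hL hQ (fun s => U * XX t (y + s • (x - y))) (t * ‖x - y‖)
    (by positivity) (fun s => hU.mul (XX_orth t _)) (fun s s' => by
      rw [← Matrix.mul_sub, hU.hs_mul]
      refine (XX_lip t ht _ _).trans (le_of_eq ?_)
      have e1 : y + s • (x - y) - (y + s' • (x - y)) = (s - s') • (x - y) := by
        rw [sub_smul]; abel
      rw [e1, norm_smul, Real.norm_eq_abs]
      ring)
  simp only [one_smul, zero_smul, add_zero, add_sub_cancel] at h
  calc |F (U * XX t x) - F (U * XX t y)| ≤ L * (t * ‖x - y‖) := h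
    _ = t * L * ‖x - y‖ := by ring

end Pool.Agent.Helper81.RIP
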