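import Pool.Agent.Helper81.RIP.A2
import Pool.Agent.Helper81.RIP.A4

/-!
# Part A5a: the starting measure of the walk, and one step of the walk
-/

namespace Pool.Agent.Helper81.RIP
open MeasureTheory ProbabilityTheory Matrix

variable {d : ℕ}

namespace A5a

/-- generator of the rotation in the plane `i`, `j` -/
def gen (i j : Fin d) : Mat d := Matrix.of fun a b =>
  if b = i then (if a = j then 1 else 0) else
  if b = j then (if a = i then -1 else 0) else 0

lemma gen_skew {i j : Fin d} (hij : i ≠ j) : (gen i j)ᵀ = - gen i j := by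
  ext a b
  simp only [gen, Matrix.transpose_apply, Matrix.of_apply, Matrix.neg_apply]
  by_cases h1 : a = i <;> by_cases h2 : a = j <;> by_cases h3 : b = i <;> by_cases h4 : b = j <;>
    simp_all

lemma smul_skew {S : Mat d} (hS : Sᵀ = -S) (c : ℝ) : (c • S)ᵀ = -(c • S) := by
  rw [Matrix.transpose_smul, hS, smul_neg]

lemma J_eq_cay {i j : Fin d} (hij : i ≠ j) : J i j = cay ((2 : ℝ) • gen i j) := by
  have hS := smul_skew (gen_skew hij) 2
  have h1 : (1 - (1 / 2 : ℝ) • ((2 : ℝ) • gen i j)) = 1 - gen i j := by
    rw [smul_smul]; norm_num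
  have h2 : (1 + (1 / 2 : ℝ) • ((2 : ℝ) • gen i j)) = 1 + gen i j := by
    rw [smul_smul]; norm_num
  have hu := isUnit_cY hS
  unfold cY at hu
  unfold cay
  have key : (1 - gen i j) * J i j = 1 + gen i j := by
    have hji : ¬ j = i := fun h => hij h.symm
    clear hS hu h1 h2
    rw [Matrix.sub_mul, Matrix.one_mul]
    ext a b
    rw [Matrix.sub_apply, mul_J_apply _ hij, Matrix.add_apply]
    simp only [gen, J, Matrix.of_apply, Matrix.one_apply]
    by_cases h1 : a = i <;> by_cases h2 : a = j <;> by_cases h3 : b = i <;> by_cases h4 : b = j <;>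
      simp_all
  rw [h1] at hu ⊢
  rw [h2, ← key, ← Matrix.mul_assoc, Matrix.nonsing_inv_mul _ hu, Matrix.one_mul]

/-- The set of products of quarter turns. -/
def grp (d : ℕ) : Submonoid (Mat d) := Submonoid.closure {X | ∃ i j : Fin d, i ≠ j ∧ X = J i j}

lemma J_mem {i j : Fin d} (hij : i ≠ j) : J i j ∈ grp d :=
  Submonoid.subset_closure ⟨i, j, hij, rfl⟩

lemma grp_orth {X : Mat d} (hX : X ∈ grp d) : Orth X := by
  induction hX using Submonoid.closure_induction with
  | mem x h => obtain ⟨i, j, hij, rfl⟩ := h; exact Orth_J hij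
  | one => exact Orth_one
  | mul x y _ _ hx hy => exact hx.mul hy

lemma grp_entries {X : Mat d} (hX : X ∈ grp d) : ∀ a b, X a b ∈ ({-1, 0, 1} : Set ℝ) := by
  induction hX using Submonoid.closure_induction_right with
  | one =>
    intro a b
    by_cases h : a = b
    · subst h; simp
    · simp [h]
  | mul_right x _ y hy ih =>
    obtain ⟨i, j, hij, rfl⟩ := hy
    intro a b
    rw [mul_J_apply _ hij]
    split_ifs
    · exact ih a j
    · have := ih a i
      simp only [Set.mem_insert_iff, Set.mem_singleton_iff] at this ⊢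
      rcases this with h | h | h <;> rw [h] <;> norm_num
    · exact ih a b

lemma grp_finite (d : ℕ) : Set.Finite (grp d : Set (Mat d)) := by
  have h3 : Set.Finite ({-1, 0, 1} : Set ℝ) := by
    apply Set.Finite.insert; apply Set.Finite.insert; exact Set.finite_singleton _
  have h1 : Set.Finite {f : Fin d → Fin d → ℝ | ∀ a, f a ∈ {g : Fin d → ℝ | ∀ b, g b ∈ ({-1, 0, 1} : Set ℝ)}} :=
    Set.Finite.pi' fun a => Set.Finite.pi' fun b => h3
  exact h1.subset fun X hX a b => grp_entries hX a b

lemma grp_dist {X : Mat d} (hX : X ∈ grp d) : ∃ n : ℝ, 0 ≤ n ∧ ∀ (F : Mat d → ℝ) (L : ℝ), 0 ≤ L →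
    QL F L → |F X - F 1| ≤ n * L := by
  induction hX using Submonoid.closure_induction_right with
  | one => exact ⟨0, le_rfl, fun F L _ _ => by simp⟩
  | mul_right x hx y hy ih =>
    obtain ⟨i, j, hij, rfl⟩ := hy
    obtain ⟨n, hn, h⟩ := ih
    set c : ℝ := hs ((2 : ℝ) • gen i j) with hc
    refine ⟨n + c, add_nonneg hn (hs_nonneg _), fun F L hL hQ => ?_⟩
    have hxo : Orth x := grp_orth hx
    have h1 := QL_path hL hQ (fun s => x * cay (s • ((2 : ℝ) • gen i j))) c (hs_nonneg _)
      (fun s => hxo.mul (cay_orth (smul_skew (smul_skew (gen_skew hij) 2) s)))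
      (fun s s' => by
        rw [← Matrix.mul_sub, hxo.hs_mul]
        refine (cay_lip (smul_skew (smul_skew (gen_skew hij) 2) s)
          (smul_skew (smul_skew (gen_skew hij) 2) s')).trans (le_of_eq ?_)
        rw [← sub_smul, hs_smul]
        ring)
    simp only [one_smul, zero_smul] at h1
    rw [← J_eq_cay hij] at h1
    have h0 : cay (0 : Mat d) = 1 := by simp [cay]
    rw [h0, Matrix.mul_one] at h1
    have h2 := h F L hL hQ
    calc |F (x * J i j) - F 1| ≤ |F (x * J i j) - F x| + |F x - F 1| := abs_sub_le _ _ _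
      _ ≤ L * c + n * L := add_le_add h1 h2
      _ = (n + c) * L := by ring

/-- the finite set of products of quarter turns -/
noncomputable def fs (d : ℕ) : Finset (Mat d) := (grp_finite d).toFinset

lemma mem_fs {X : Mat d} : X ∈ fs d ↔ X ∈ grp d := by
  rw [fs, Set.Finite.mem_toFinset]; rfl

/-- the uniform measure on the finite group -/
noncomputable def mu (d : ℕ) : Measure (Mat d) :=
  ((fs d).card : ENNReal)⁻¹ • ∑ X ∈ fs d, Measure.dirac X

lemma fs_card_pos (d : ℕ) : 0 < (fs d).card :=
  Finset.card_pos.mpr ⟨1, mem_fs.mpr (one_mem _)⟩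

instance : IsProbabilityMeasure (mu d) := by
  constructor
  have h := fs_card_pos d
  rw [mu, Measure.smul_apply, Measure.finsetSum_apply]
  simp only [measure_univ, Finset.sum_const, nsmul_eq_mul, mul_one, smul_eq_mul]
  exact ENNReal.inv_mul_cancel (by exact_mod_cast h.ne') (ENNReal.natCast_ne_top _)

lemma mu_ae {P : Mat d → Prop} (h : ∀ X ∈ fs d, P X) : ∀ᵐ V ∂(mu d), P V := by
  rw [mu]
  apply Measure.ae_smul_measure
  rw [ae_iff, Measure.finsetSum_apply, Finset.sum_eq_zero_iff]
  intro X hX
  have h1 : ∀ᵐ V ∂(Measure.dirac X), P V := by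
    rw [ae_dirac_eq]
    exact h X hX
  rw [ae_iff] at h1
  exact h1

lemma mu_map {g : Mat d → Mat d} (hg : Measurable g) (hinj : Function.Injective g)
    (hmem : ∀ X ∈ fs d, g X ∈ fs d) : (mu d).map g = mu d := by
  classical
  have himg : (fs d).image g = fs d := by
    apply Finset.eq_of_subset_of_card_le
    · intro Y hY
      obtain ⟨X, hX, rfl⟩ := Finset.mem_image.mp hY
      exact hmem X hX
    · rw [Finset.card_image_of_injective _ hinj]
  have h1 : (∑ X ∈ fs d, Measure.dirac X).map g = ∑ X ∈ fs d, (Measure.dirac X : Measure (Mat d)) := by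
    have h2 : (∑ X ∈ fs d, (Measure.dirac X : Measure (Mat d))).map g =
        ∑ X ∈ fs d, (Measure.dirac X : Measure (Mat d)).map g := by
      rw [← Measure.mapₗ_apply_of_measurable hg, map_sum]
      refine Finset.sum_congr rfl fun X _ => ?_
      rw [Measure.mapₗ_apply_of_measurable hg]
    rw [h2]
    calc ∑ X ∈ fs d, (Measure.dirac X : Measure (Mat d)).map g
        = ∑ X ∈ fs d, (Measure.dirac (g X) : Measure (Mat d)) := by
          refine Finset.sum_congr rfl fun X _ => ?_
          exact Measure.map_dirac' hg X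
      _ = ∑ Y ∈ (fs d).image g, (Measure.dirac Y : Measure (Mat d)) := by
          rw [Finset.sum_image]
          intro a _ b _ hab
          exact hinj hab
      _ = _ := by rw [himg]
  rw [mu, Measure.map_smul, h1]

end A5a

open A5a in
/-- A5a: the starting measure: uniform on the finite group generated by the quarter turns. -/
theorem base (d : ℕ) (_hd : 1 ≤ d) : ∃ μ : Measure (Mat d), IsProbabilityMeasure μ ∧
    (∀ᵐ V ∂μ, Orth V) ∧ Inv μ ∧ ∃ D : ℝ, 0 ≤ D ∧ ∀ (F : Mat d → ℝ) (L : ℝ), Lip1 F → 0 ≤ L →
      QL F L → ∀ᵐ U ∂μ, |F U - ∫ V, F V ∂μ| ≤ D * L := by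
  classical
  refine ⟨mu d, inferInstance, mu_ae fun X hX => grp_orth (mem_fs.mp hX), fun i j hij => ⟨?_, ?_⟩,
    ?_⟩
  · apply mu_map
    · exact (continuous_id.matrix_mul continuous_const).measurable
    · intro X Y hXY
      have : X * J i j * (J i j)ᵀ = Y * J i j * (J i j)ᵀ := by
        simp only at hXY; rw [hXY]
      rwa [Matrix.mul_assoc, Matrix.mul_assoc, (Orth_J hij).mul_transpose, Matrix.mul_one,
        Matrix.mul_one] at this
    · intro X hX
      exact mem_fs.mpr (mul_mem (mem_fs.mp hX) (J_mem hij))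
  · apply mu_map
    · exact (continuous_const.matrix_mul continuous_id).measurable
    · intro X Y hXY
      have : (J i j)ᵀ * (J i j * X) = (J i j)ᵀ * (J i j * Y) := by
        simp only at hXY; rw [hXY]
      rwa [← Matrix.mul_assoc, ← Matrix.mul_assoc, (Orth_J hij), Matrix.one_mul,
        Matrix.one_mul] at this
    · intro X hX
      exact mem_fs.mpr (mul_mem (J_mem hij) (mem_fs.mp hX))
  · have hex : ∀ X : Mat d, ∃ n : ℝ, 0 ≤ n ∧ (X ∈ fs d → ∀ (F : Mat d → ℝ) (L : ℝ), 0 ≤ L →
        QL F L → |F X - F 1| ≤ n * L) := by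
      intro X
      by_cases hX : X ∈ fs d
      · obtain ⟨n, hn, h⟩ := grp_dist (mem_fs.mp hX)
        exact ⟨n, hn, fun _ => h⟩
      · exact ⟨0, le_rfl, fun h => absurd h hX⟩
    choose n hn hn' using hex
    set D : ℝ := ∑ X ∈ fs d, n X with hD
    have hD0 : 0 ≤ D := Finset.sum_nonneg fun X _ => hn X
    refine ⟨2 * D, by positivity, fun F L hF hL hQ => ?_⟩
    have hone : ∀ X ∈ fs d, |F X - F 1| ≤ D * L := by
      intro X hX
      refine (hn' X hX F L hL hQ).trans ?_
      apply mul_le_mul_of_nonneg_right _ hL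
      exact Finset.single_le_sum (f := n) (fun Y _ => hn Y) hX
    have hae : ∀ᵐ V ∂(mu d), |F V - F 1| ≤ D * L := mu_ae hone
    have hint : Integrable F (mu d) :=
      integrable_of_orth (mu_ae fun X hX => grp_orth (mem_fs.mp hX)) hF.continuous _
        (fun V hV => hF.abs_le hV)
    have h1 : |∫ V, F V ∂(mu d) - F 1| ≤ D * L := by
      have h2 : ∫ V, F V ∂(mu d) - F 1 = ∫ V, (F V - F 1) ∂(mu d) := by
        rw [integral_sub hint (integrable_const _), integral_const]
        simp
      rw [h2]
      refine (abs_integral_le_integral_abs).trans ?_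
      calc ∫ V, |F V - F 1| ∂(mu d) ≤ ∫ V, D * L ∂(mu d) := by
            apply integral_mono_ae _ (integrable_const _) hae
            exact (hint.sub (integrable_const _)).abs
        _ = D * L := by rw [integral_const]; simp
    filter_upwards [hae] with U hU
    calc |F U - ∫ V, F V ∂(mu d)| ≤ |F U - F 1| + |F 1 - ∫ V, F V ∂(mu d)| := abs_sub_le _ _ _
      _ ≤ D * L + D * L := by
          apply add_le_add hU; rw [abs_sub_comm]; exact h1
      _ = 2 * D * L := by ring

/-- A5a: `stepM` keeps the properties. -/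
theorem stepM_facts (t : ℝ) (ht : 0 ≤ t) {μ : Measure (Mat d)} [IsProbabilityMeasure μ]
    (ho : ∀ᵐ V ∂μ, Orth V) (hi : Inv μ) : IsProbabilityMeasure (stepM t μ) ∧
    (∀ᵐ V ∂(stepM t μ), Orth V) ∧ Inv (stepM t μ) := by
  have hcont : Continuous (fun p : Mat d × GG d => p.1 * XX t p.2) :=
    continuous_fst.matrix_mul ((continuous_XX t ht).comp continuous_snd)
  have hmeas : Measurable (fun p : Mat d × GG d => p.1 * XX t p.2) := hcont.measurable
  refine ⟨?_, ?_, ?_⟩
  · exact Measure.isProbabilityMeasure_map hmeas.aemeasurable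
  · have hclosed : MeasurableSet {V : Mat d | Orth V} := by
      apply IsClosed.measurableSet
      exact isClosed_eq (by fun_prop) continuous_const
    rw [stepM, ae_map_iff hmeas.aemeasurable hclosed]
    have h1 : ∀ᵐ p ∂(μ.prod (gam d)), Orth p.1 := by
      exact Measure.quasiMeasurePreserving_fst.ae ho
    filter_upwards [h1] with p hp
    exact hp.mul (XX_orth t p.2)
  · intro i j hij
    have hJr : Measurable (fun V : Mat d => V * J i j) :=
      (continuous_id.matrix_mul continuous_const).measurable
    have hJl : Measurable (fun V : Mat d => J i j * V) :=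
      (continuous_const.matrix_mul continuous_id).measurable
    have hXm : Measurable (XX t : GG d → Mat d) := (continuous_XX t ht).measurable
    have hmul : Measurable (fun p : Mat d × Mat d => p.1 * p.2) :=
      (continuous_fst.matrix_mul continuous_snd).measurable
    -- `stepM` through the law of `XX`
    have hform : ∀ (ρ : Measure (Mat d)) [IsProbabilityMeasure ρ], stepM t ρ =
        (ρ.prod ((gam d).map (XX t))).map (fun p => p.1 * p.2) := by
      intro ρ _
      have h2 : ρ.prod ((gam d).map (XX t)) =
          (ρ.prod (gam d)).map (Prod.map id (XX t)) := by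
        rw [← Measure.map_prod_map ρ (gam d) measurable_id hXm, Measure.map_id]
      rw [h2, Measure.map_map hmul (measurable_id.prodMap hXm)]
      rfl
    refine ⟨?_, ?_⟩
    · -- right multiplication
      have hO := Orth_J hij
      have hconj := XX_conj t hO
      have hcm : Measurable (fun x => (J i j)ᵀ * XX t x * J i j : GG d → Mat d) :=
        ((continuous_const.matrix_mul (continuous_XX t ht)).matrix_mul
          continuous_const).measurable
      have h3 : (stepM t μ).map (fun V => V * J i j) =
          ((μ.map (fun V => V * J i j)).prod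
            ((gam d).map (fun x => (J i j)ᵀ * XX t x * J i j))).map (fun p => p.1 * p.2) := by
        have h4 : (μ.map (fun V => V * J i j)).prod
            ((gam d).map (fun x => (J i j)ᵀ * XX t x * J i j)) =
            (μ.prod (gam d)).map (Prod.map (fun V => V * J i j)
              (fun x => (J i j)ᵀ * XX t x * J i j)) := by
          rw [← Measure.map_prod_map μ (gam d) hJr hcm]
        rw [h4, Measure.map_map hmul (hJr.prodMap hcm), stepM, Measure.map_map hJr hmeas]
        congr 1
        funext p
        change p.1 * XX t p.2 * J i j = p.1 * J i j * ((J i j)ᵀ * XX t p.2 * J i j)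
        rw [Matrix.mul_assoc (J i j)ᵀ, ← Matrix.mul_assoc (p.1 * J i j), Matrix.mul_assoc p.1 (J i j),
          hO.mul_transpose, Matrix.mul_one, Matrix.mul_assoc]
      rw [h3, hconj, (hi i j hij).1, ← hform μ]
    · have h3 : (stepM t μ).map (fun V => J i j * V) =
          stepM t (μ.map (fun V => J i j * V)) := by
        rw [stepM, stepM, Measure.map_map hJl hmeas]
        have h4 : (μ.map (fun V => J i j * V)).prod (gam d) =
            (μ.prod (gam d)).map (Prod.map (fun V => J i j * V) id) := by
          rw [← Measure.map_prod_map μ (gam d) hJl measurable_id, Measure.map_id]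
        rw [h4, Measure.map_map hmeas (hJl.prodMap measurable_id)]
        congr 1
        funext p
        change J i j * (p.1 * XX t p.2) = J i j * p.1 * XX t p.2
        rw [Matrix.mul_assoc]
      rw [h3, (hi i j hij).2]

end Pool.Agent.Helper81.RIP
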