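import Pool.Agent.Helper81.RIP.A1
import Pool.Agent.Helper81.RIP.A3
import Pool.Agent.Helper81.RIP.A4
import Pool.Agent.Helper81.RIP.A5a

/-!
# Part A5b: the walk
-/

namespace Pool.Agent.Helper81.RIP
open MeasureTheory ProbabilityTheory Matrix Filter Topology

variable {d : ℕ}

namespace A5b

lemma cont_step (t : ℝ) (ht : 0 ≤ t) :
    Continuous (fun p : Mat d × GG d => p.1 * XX t p.2) :=
  continuous_fst.matrix_mul ((continuous_XX t ht).comp continuous_snd)

lemma ae_prod {μ : Measure (Mat d)} [IsProbabilityMeasure μ] (ho : ∀ᵐ V ∂μ, Orth V) :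
    ∀ᵐ p ∂(μ.prod (gam d)), Orth p.1 :=
  Measure.quasiMeasurePreserving_fst.ae ho

lemma integral_step (t : ℝ) (ht : 0 ≤ t) {μ : Measure (Mat d)} [IsProbabilityMeasure μ]
    (ho : ∀ᵐ V ∂μ, Orth V) {g : Mat d → ℝ} (hg : Continuous g) (C : ℝ)
    (hC : ∀ V, Orth V → |g V| ≤ C) :
    Integrable (fun V => ∫ x, g (V * XX t x) ∂(gam d)) μ ∧
    ∫ V, g V ∂(stepM t μ) = ∫ V, ∫ x, g (V * XX t x) ∂(gam d) ∂μ := by
  have hc := cont_step (d := d) t ht
  have hint : Integrable (fun p : Mat d × GG d => g (p.1 * XX t p.2)) (μ.prod (gam d)) :=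
    Integrable.of_bound (hg.comp hc).aestronglyMeasurable C
      ((ae_prod ho).mono fun p hp => hC _ (hp.mul (XX_orth t _)))
  refine ⟨hint.integral_prod_left, ?_⟩
  unfold stepM
  rw [integral_map hc.measurable.aemeasurable hg.aestronglyMeasurable, integral_prod _ hint]

lemma Lip1.exp_bound {F : Mat d → ℝ} (hF : Lip1 F) (r : ℝ) {V : Mat d} (hV : Orth V) :
    |Real.exp (r * F V)| ≤ Real.exp (|r| * (|F 0| + hs (1 : Mat d))) := by
  have h1 := hF V 0
  rw [sub_zero, hV.hs_eq] at h1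
  have h3 : F V = F 0 + (F V - F 0) := by ring
  have h4 : |F V| ≤ |F 0| + hs (1 : Mat d) := by
    rw [h3]
    exact (abs_add_le _ _).trans (by linarith)
  rw [abs_of_pos (Real.exp_pos _)]
  apply Real.exp_le_exp.2
  calc r * F V ≤ |r * F V| := le_abs_self _
    _ = |r| * |F V| := abs_mul _ _
    _ ≤ _ := mul_le_mul_of_nonneg_left h4 (abs_nonneg _)

lemma mgf_step (hd : 3 ≤ d) (t : ℝ) (ht : 0 < t)
    (hc : ∀ K : Mat d, Kᵀ = -K → ∫ x, hs (K * XX t x + XX t x * K) ∂(gam d) ≤ 2 * rr d t * hs K)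
    {μ : Measure (Mat d)} [IsProbabilityMeasure μ] (ho : ∀ᵐ V ∂μ, Orth V) (A : ℝ) (B : ℝ)
    (hμ : ∀ (F : Mat d → ℝ) (L : ℝ), Lip1 F → 0 ≤ L → QL F L → ∀ r : ℝ,
      ∫ V, Real.exp (r * F V) ∂μ ≤
        Real.exp (A * r ^ 2 * L ^ 2 + |r| * B * L + r * ∫ V, F V ∂μ))
    (F : Mat d → ℝ) (L : ℝ) (hF : Lip1 F) (hL : 0 ≤ L) (hQ : QL F L) (r : ℝ) :
    ∫ V, Real.exp (r * F V) ∂(stepM t μ) ≤
        Real.exp ((2 * t ^ 2 + rr d t ^ 2 * A) * r ^ 2 * L ^ 2 + |r| * (rr d t * B) * L +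
          r * ∫ V, F V ∂(stepM t μ)) := by
  have hrr : 0 ≤ rr d t := Real.sqrt_nonneg _
  have hce : Continuous fun V : Mat d => Real.exp (r * F V) :=
    Real.continuous_exp.comp (continuous_const.mul hF.continuous)
  obtain ⟨i1, e1⟩ := integral_step t ht.le ho hce _ (fun V hV => Lip1.exp_bound hF r hV)
  obtain ⟨i2, e2⟩ := integral_step t ht.le ho hF.continuous _ (fun V hV => hF.abs_le hV)
  rw [e1, e2]
  have hPF := PP_lip1 t ht.le hF
  have hPQ := PP_QL hd t ht hc hF hL hQ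
  have hce' : Continuous fun V : Mat d => Real.exp (r * PP t F V) :=
    Real.continuous_exp.comp (continuous_const.mul hPF.continuous)
  have i3 : Integrable (fun V => Real.exp (r * PP t F V)) μ :=
    integrable_of_orth ho hce' _ (fun V hV => Lip1.exp_bound hPF r hV)
  have h1 : ∫ V, ∫ x, Real.exp (r * F (V * XX t x)) ∂(gam d) ∂μ ≤
      ∫ V, Real.exp (2 * t ^ 2 * r ^ 2 * L ^ 2) * Real.exp (r * PP t F V) ∂μ := by
    refine integral_mono_ae i1 (i3.const_mul _) (ho.mono fun V hV => ?_)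
    have h2 := (gauss_mgf (E := GG d) (fun x => r * F (V * XX t x)) (|r| * t * L)
      (by positivity) (fun x y => by
        rw [← mul_sub, abs_mul]
        calc |r| * |F (V * XX t x) - F (V * XX t y)| ≤ |r| * (t * L * ‖x - y‖) :=
              mul_le_mul_of_nonneg_left (QL_gauss t ht.le hF hL hQ hV x y) (abs_nonneg _)
          _ = |r| * t * L * ‖x - y‖ := by ring)).2.2
    rw [integral_const_mul] at h2
    refine h2.trans (le_of_eq ?_)
    beta_reduce
    rw [← Real.exp_add]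
    congr 1
    have h3 : (|r| * t * L) ^ 2 = t ^ 2 * r ^ 2 * L ^ 2 := by
      rw [mul_pow, mul_pow, sq_abs]; ring
    rw [h3]
    unfold PP
    ring
  refine h1.trans ?_
  rw [integral_const_mul]
  have h4 := hμ (PP t F) (rr d t * L) hPF (by positivity) hPQ r
  refine (mul_le_mul_of_nonneg_left h4 (Real.exp_pos _).le).trans (le_of_eq ?_)
  rw [← Real.exp_add]
  congr 1
  unfold PP
  ring

end A5b

/-- A5b: the walk. -/
theorem walk (d : ℕ) (hd : 3 ≤ d) : ∃ μ : Measure (Mat d), IsProbabilityMeasure μ ∧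
    (∀ᵐ V ∂μ, Orth V) ∧ Inv μ ∧
    ∀ F : Mat d → ℝ, Lip1 F → ∀ r : ℝ,
      ∫ V, Real.exp (r * F V) ∂μ ≤
        Real.exp (48 * r ^ 2 / d + |r| / d + r * ∫ V, F V ∂μ) := by
  have hd' : (3 : ℝ) ≤ d := by exact_mod_cast hd
  obtain ⟨t, ht, hcon⟩ := contraction d hd
  obtain ⟨hlt, hc⟩ := hcon t ht le_rfl
  obtain ⟨μ₀, hp₀, ho₀, hi₀, D, hD, hbase⟩ := base d (by omega)
  have hrr : 0 ≤ rr d t := Real.sqrt_nonneg _
  have hrr2 : rr d t ^ 2 = 1 - t ^ 2 * (d - 2) / 8 := Real.sq_sqrt (by linarith)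
  have hpos : 0 < t ^ 2 * ((d : ℝ) - 2) / 8 := by
    have : (0 : ℝ) < (d : ℝ) - 2 := by linarith
    positivity
  have hrr1 : rr d t < 1 := by nlinarith
  -- the invariant of the iteration
  have key : ∀ n : ℕ, ∃ μ : Measure (Mat d), IsProbabilityMeasure μ ∧
      (∀ᵐ V ∂μ, Orth V) ∧ Inv μ ∧
      ∃ A : ℝ, A ≤ 16 / (d - 2) ∧ ∀ (F : Mat d → ℝ) (L : ℝ), Lip1 F → 0 ≤ L → QL F L → ∀ r : ℝ,
        ∫ V, Real.exp (r * F V) ∂μ ≤
          Real.exp (A * r ^ 2 * L ^ 2 + |r| * (rr d t ^ n * D) * L + r * ∫ V, F V ∂μ) := by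
    intro n
    induction n with
    | zero =>
      refine ⟨μ₀, hp₀, ho₀, hi₀, 0, by
        have : (0 : ℝ) < (d : ℝ) - 2 := by linarith
        positivity, ?_⟩
      intro F L hF hL hQ r
      have hce : Continuous fun V : Mat d => Real.exp (r * F V) :=
        Real.continuous_exp.comp (continuous_const.mul hF.continuous)
      have i3 : Integrable (fun V => Real.exp (r * F V)) μ₀ :=
        integrable_of_orth ho₀ hce _ (fun V hV => A5b.Lip1.exp_bound hF r hV)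
      have h1 : ∫ V, Real.exp (r * F V) ∂μ₀ ≤
          ∫ V, Real.exp (|r| * D * L + r * ∫ V, F V ∂μ₀) ∂μ₀ := by
        refine integral_mono_ae i3 (integrable_const _) ((hbase F L hF hL hQ).mono fun U hU => ?_)
        apply Real.exp_le_exp.2
        have h2 : r * (F U - ∫ V, F V ∂μ₀) ≤ |r| * (D * L) :=
          calc r * (F U - ∫ V, F V ∂μ₀) ≤ |r * (F U - ∫ V, F V ∂μ₀)| := le_abs_self _
            _ = |r| * |F U - ∫ V, F V ∂μ₀| := abs_mul _ _
            _ ≤ _ := mul_le_mul_of_nonneg_left hU (abs_nonneg _)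
        nlinarith
      rw [integral_const] at h1
      simp only [probReal_univ, one_smul] at h1
      refine h1.trans (le_of_eq ?_)
      congr 1
      ring
    | succ n ih =>
      obtain ⟨μ, hp, ho, hi, A, hA, hμ⟩ := ih
      obtain ⟨hp', ho', hi'⟩ := stepM_facts t ht.le ho hi
      refine ⟨stepM t μ, hp', ho', hi', 2 * t ^ 2 + rr d t ^ 2 * A, ?_, ?_⟩
      · have h1 : rr d t ^ 2 * A ≤ rr d t ^ 2 * (16 / (d - 2)) :=
          mul_le_mul_of_nonneg_left hA (sq_nonneg _)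
        have h2 : (0 : ℝ) < (d : ℝ) - 2 := by linarith
        have h3 : 2 * t ^ 2 + rr d t ^ 2 * (16 / (d - 2)) = 16 / (d - 2) := by
          rw [hrr2]
          field_simp
          ring
        linarith
      · intro F L hF hL hQ r
        have := A5b.mgf_step hd t ht hc ho A (rr d t ^ n * D) hμ F L hF hL hQ r
        have e : rr d t ^ (n + 1) * D = rr d t * (rr d t ^ n * D) := by
          rw [pow_succ']; ring
        rwa [e]
  -- choose `n`
  obtain ⟨n, hn⟩ : ∃ n : ℕ, rr d t ^ n * D ≤ 1 / d := by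
    have h1 : Tendsto (fun n : ℕ => rr d t ^ n * D) atTop (𝓝 (0 * D)) :=
      (tendsto_pow_atTop_nhds_zero_of_lt_one hrr hrr1).mul_const D
    rw [zero_mul] at h1
    exact ((h1.eventually_le_const (by positivity : (0 : ℝ) < 1 / d)).exists)
  obtain ⟨μ, hp, ho, hi, A, hA, hμ⟩ := key n
  refine ⟨μ, hp, ho, hi, fun F hF r => ?_⟩
  have hQ1 : QL F 1 := ⟨0, le_rfl, fun U V _ _ => by
    have := hF V U
    linarith⟩
  refine (hμ F 1 hF zero_le_one hQ1 r).trans ?_
  apply Real.exp_le_exp.2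
  have h1 : A ≤ 48 / d := by
    refine hA.trans ?_
    have h2 : (0 : ℝ) < (d : ℝ) - 2 := by linarith
    rw [div_le_div_iff₀ h2 (by positivity)]
    linarith
  have h2 : A * r ^ 2 ≤ 48 / d * r ^ 2 := mul_le_mul_of_nonneg_right h1 (sq_nonneg _)
  have h3 : |r| * (rr d t ^ n * D) ≤ |r| * (1 / d) := mul_le_mul_of_nonneg_left hn (abs_nonneg _)
  have h4 : 48 / d * r ^ 2 = 48 * r ^ 2 / d := by ring
  have h5 : |r| * (1 / d) = |r| / d := by ring
  linarith

end Pool.Agent.Helper81.RIP
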