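import Pool.Agent.Helper81.RIP.Defs

/-!
# Part A6: concentration from the exponential moments
-/

namespace Pool.Agent.Helper81.RIP
open MeasureTheory ProbabilityTheory Matrix

variable {d : ℕ}

/-- McShane extension with respect to the Hilbert-Schmidt distance. -/
lemma exists_lip1_ext (A : Set (Mat d)) (g : Mat d → ℝ)
    (hg : ∀ V ∈ A, ∀ V' ∈ A, |g V - g V'| ≤ hs (V - V')) :
    ∃ F : Mat d → ℝ, Lip1 F ∧ ∀ V ∈ A, F V = g V := by
  classical
  rcases A.eq_empty_or_nonempty with rfl | ⟨V₀, hV₀⟩
  · exact ⟨fun _ => 0, fun U V => by simpa using hs_nonneg (U - V), fun V hV => absurd hV (by simp)⟩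
  have : Nonempty A := ⟨⟨V₀, hV₀⟩⟩
  have hbdd : ∀ V : Mat d, BddBelow (Set.range fun W : A => g W + hs (V - (W : Mat d))) := by
    intro V
    refine ⟨g V₀ - hs (V - V₀), ?_⟩
    rintro _ ⟨W, rfl⟩
    have h1 := (abs_le.1 (hg W W.2 V₀ hV₀)).1
    have h2 := hs_tri (W : Mat d) V V₀
    have h3 := hs_sub_comm (W : Mat d) V
    dsimp only
    linarith
  refine ⟨fun V => ⨅ W : A, (g W + hs (V - (W : Mat d))), ?_, ?_⟩
  · have key : ∀ U V : Mat d, (⨅ W : A, (g W + hs (U - (W : Mat d)))) - hs (U - V) ≤
        ⨅ W : A, (g W + hs (V - (W : Mat d))) := by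
      intro U V
      apply le_ciInf
      intro W
      have h1 := ciInf_le (hbdd U) W
      have h2 := hs_tri U V (W : Mat d)
      linarith
    intro U V
    rw [abs_le]
    have h1 := key U V
    have h2 := key V U
    have h3 := hs_sub_comm U V
    constructor <;> linarith
  · intro V hV
    apply le_antisymm
    · have h1 := ciInf_le (hbdd V) ⟨V, hV⟩
      simpa using h1
    · apply le_ciInf
      intro W
      have h1 := (abs_le.1 (hg V hV W W.2)).2
      linarith

lemma Lip1.continuous {F : Mat d → ℝ} (hF : Lip1 F) : Continuous F := by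
  rw [continuous_iff_continuousAt]
  intro V
  have h1 : Filter.Tendsto (fun U : Mat d => hs (U - V)) (nhds V) (nhds 0) := by
    have h2 : Continuous (fun U : Mat d => hs (U - V)) := continuous_hs.comp (continuous_sub_right V)
    have h3 := h2.tendsto V
    simpa using h3
  unfold ContinuousAt
  rw [tendsto_iff_dist_tendsto_zero]
  exact squeeze_zero (fun _ => dist_nonneg) (fun U => by rw [Real.dist_eq]; exact hF U V) h1

lemma Orth.hs_le {V : Mat d} (h : Orth V) : hs V ≤ Real.sqrt (d * d) := by
  unfold hs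
  apply Real.sqrt_le_sqrt
  calc ∑ i, ∑ j, V i j ^ 2 ≤ ∑ _i : Fin d, ∑ _j : Fin d, (1 : ℝ) := by
        apply Finset.sum_le_sum
        intro i _
        apply Finset.sum_le_sum
        intro j _
        rw [← sq_abs]
        exact pow_le_one₀ (abs_nonneg _) (h.abs_entry_le i j)
    _ = d * d := by simp

lemma Lip1.integrable_exp {F : Mat d → ℝ} (hF : Lip1 F) (μ : Measure (Mat d)) [IsProbabilityMeasure μ]
    (horth : ∀ᵐ V ∂μ, Orth V) (r : ℝ) : Integrable (fun V => Real.exp (r * F V)) μ := by
  have hb : ∀ᵐ V ∂μ, ‖Real.exp (r * F V)‖ ≤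
      Real.exp (|r| * (|F 0| + Real.sqrt (d * d))) := by
    filter_upwards [horth] with V hV
    rw [Real.norm_eq_abs, abs_of_pos (Real.exp_pos _), Real.exp_le_exp]
    have h1 := hF V 0
    rw [sub_zero] at h1
    have h2 := hV.hs_le
    have h3 : |F V| ≤ |F 0| + Real.sqrt (d * d) := by
      have := abs_sub_abs_le_abs_sub (F V) (F 0)
      linarith
    calc r * F V ≤ |r * F V| := le_abs_self _
      _ = |r| * |F V| := abs_mul _ _
      _ ≤ _ := mul_le_mul_of_nonneg_left h3 (abs_nonneg _)
  exact Integrable.of_bound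
    ((Real.continuous_exp.comp (continuous_const.mul hF.continuous)).aestronglyMeasurable) _ hb

/-- A6: from the exponential moments to `Conc`. -/
theorem conc_of_mgf (d : ℕ) (hd : 1 ≤ d) (μ : Measure (Mat d)) [IsProbabilityMeasure μ]
    (C : ℝ) (hC : 1 ≤ C) (horth : ∀ᵐ V ∂μ, Orth V)
    (h : ∀ F : Mat d → ℝ, Lip1 F → ∀ r : ℝ,
      ∫ V, Real.exp (r * F V) ∂μ ≤ Real.exp (C * r ^ 2 / d + |r| / d + r * ∫ V, F V ∂μ)) :
    Conc (2 * Real.sqrt C + 1) μ := by
  intro A f l hA hl hf
  have hd0 : (0 : ℝ) < d := by exact_mod_cast hd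
  have hd1 : (1 : ℝ) ≤ d := by exact_mod_cast hd
  have hC0 : (0 : ℝ) < C := by linarith
  have hsC : 1 ≤ Real.sqrt C := by
    rw [Real.one_le_sqrt]; exact hC
  have hsd : 1 ≤ Real.sqrt d := by
    rw [Real.one_le_sqrt]; exact hd1
  rcases hl.eq_or_lt with hl0 | hl0
  · -- `f` is constant on `A`
    subst hl0
    rcases A.eq_empty_or_nonempty with rfl | ⟨V₀, hV₀⟩
    · exact ⟨0, fun u hu => by simp⟩
    · refine ⟨f V₀, fun u hu => ?_⟩
      have he : {V | V ∈ A ∧ 0 * (2 * Real.sqrt C + 1) * u < Real.sqrt d * |f V - f V₀|} = ∅ := by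
        ext V
        simp only [Set.mem_ofPred_eq, Set.mem_empty_iff_false, iff_false, not_and, not_lt]
        intro hV
        have h1 := hf V hV V₀ hV₀
        have h2 : |f V - f V₀| = 0 := le_antisymm (by linarith) (abs_nonneg _)
        rw [h2]
        simp
      rw [he]
      simp
  · obtain ⟨F, hF, hFA⟩ := exists_lip1_ext A (fun V => f V / l) (by
      intro V hV V' hV'
      rw [← sub_div, abs_div, abs_of_pos hl0, div_le_iff₀ hl0]
      have := hf V hV V' hV'
      linarith)
    set m := ∫ V, F V ∂μ with hm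
    refine ⟨l * m, fun u hu => ?_⟩
    -- Chernoff in both directions
    have chern : ∀ G : Mat d → ℝ, Lip1 G →
        μ {V | (2 * Real.sqrt C + 1) * u / Real.sqrt d ≤ G V - ∫ V, G V ∂μ} ≤
          ENNReal.ofReal (2 * Real.exp (-u ^ 2)) := by
      intro G hG
      set r := u * Real.sqrt d / Real.sqrt C with hr
      have hr0 : 0 ≤ r := by positivity
      have h1 := measure_ge_le_exp_mul_mgf (μ := μ) (X := G)
        ((2 * Real.sqrt C + 1) * u / Real.sqrt d + ∫ V, G V ∂μ) hr0 (hG.integrable_exp μ horth r)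
      have h2 : mgf G μ r ≤ Real.exp (C * r ^ 2 / d + |r| / d + r * ∫ V, G V ∂μ) := h G hG r
      have hset : {V | (2 * Real.sqrt C + 1) * u / Real.sqrt d ≤ G V - ∫ V, G V ∂μ} =
          {V | (2 * Real.sqrt C + 1) * u / Real.sqrt d + ∫ V, G V ∂μ ≤ G V} := by
        ext V
        simp only [Set.mem_ofPred_eq]
        constructor <;> intro h <;> linarith
      rw [hset]
      have h3 : μ.real {V | (2 * Real.sqrt C + 1) * u / Real.sqrt d + ∫ V, G V ∂μ ≤ G V} ≤
          2 * Real.exp (-u ^ 2) := by
        refine h1.trans ?_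
        have h4 : Real.exp (-r * ((2 * Real.sqrt C + 1) * u / Real.sqrt d + ∫ V, G V ∂μ)) *
            mgf G μ r ≤ Real.exp (-r * ((2 * Real.sqrt C + 1) * u / Real.sqrt d + ∫ V, G V ∂μ)) *
            Real.exp (C * r ^ 2 / d + |r| / d + r * ∫ V, G V ∂μ) :=
          mul_le_mul_of_nonneg_left h2 (Real.exp_pos _).le
        refine h4.trans ?_
        rw [← Real.exp_add]
        have h5 : -r * ((2 * Real.sqrt C + 1) * u / Real.sqrt d + ∫ V, G V ∂μ) +
            (C * r ^ 2 / d + |r| / d + r * ∫ V, G V ∂μ) =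
            -u ^ 2 + (u / Real.sqrt d - u ^ 2) / Real.sqrt C := by
          rw [abs_of_nonneg hr0, hr]
          have e1 : Real.sqrt d ^ 2 = d := Real.sq_sqrt hd0.le
          have e2 : Real.sqrt C ^ 2 = C := Real.sq_sqrt hC0.le
          have n1 : Real.sqrt d ≠ 0 := by positivity
          have n2 : Real.sqrt C ≠ 0 := by positivity
          have a1 : C * (u * Real.sqrt d / Real.sqrt C) ^ 2 / d = u ^ 2 := by
            rw [div_pow, mul_pow, e1, e2]
            field_simp
          have a2 : u * Real.sqrt d / Real.sqrt C / d = u / Real.sqrt d / Real.sqrt C := by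
            rw [← e1]
            have : Real.sqrt (Real.sqrt d ^ 2) = Real.sqrt d := Real.sqrt_sq (by positivity)
            rw [this]
            field_simp
          have a3 : -(u * Real.sqrt d / Real.sqrt C) * ((2 * Real.sqrt C + 1) * u / Real.sqrt d +
              ∫ V, G V ∂μ) = -(2 * u ^ 2) - u ^ 2 / Real.sqrt C -
              u * Real.sqrt d / Real.sqrt C * ∫ V, G V ∂μ := by
            field_simp
            ring
          rw [a1, a2, a3]
          field_simp
          ring
        rw [h5, Real.exp_add]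
        have h6 : (u / Real.sqrt d - u ^ 2) / Real.sqrt C ≤ 1 / 4 := by
          have h7 : u / Real.sqrt d ≤ u := div_le_self hu.le hsd
          rw [div_le_iff₀ (by positivity)]
          nlinarith [sq_nonneg (u - 1 / 2)]
        have h8 : Real.exp (1 / 4) ≤ 2 := by
          have h9 : (1 / 4 : ℝ) ≤ Real.log 2 := by
            have := Real.log_two_gt_d9
            linarith
          calc Real.exp (1 / 4) ≤ Real.exp (Real.log 2) := Real.exp_le_exp.2 h9
            _ = 2 := Real.exp_log (by norm_num)
        have h10 : Real.exp ((u / Real.sqrt d - u ^ 2) / Real.sqrt C) ≤ 2 :=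
          (Real.exp_le_exp.2 h6).trans h8
        nlinarith [Real.exp_pos (-u ^ 2)]
      rw [measureReal_def] at h3
      rw [← ENNReal.ofReal_toReal (measure_ne_top μ _)]
      exact ENNReal.ofReal_le_ofReal h3
    have c1 := chern F hF
    have c2 := chern (fun V => - F V) (by
      intro U V
      have := hF U V
      rw [abs_sub_comm] at this
      have e : -F U - -F V = F V - F U := by ring
      rw [e]
      exact this)
    rw [integral_neg] at c2
    have hsub : {V | V ∈ A ∧ l * (2 * Real.sqrt C + 1) * u < Real.sqrt d * |f V - l * m|} ⊆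
        {V | (2 * Real.sqrt C + 1) * u / Real.sqrt d ≤ F V - ∫ V, F V ∂μ} ∪
        {V | (2 * Real.sqrt C + 1) * u / Real.sqrt d ≤ - F V - - ∫ V, F V ∂μ} := by
      rintro V ⟨hV, hlt⟩
      have hfV : f V = l * F V := by
        rw [hFA V hV]
        field_simp
      have h1 : |f V - l * m| = l * |F V - m| := by
        rw [hfV, ← mul_sub, abs_mul, abs_of_pos hl0]
      rw [h1] at hlt
      have h2 : (2 * Real.sqrt C + 1) * u < Real.sqrt d * |F V - m| := by
        have h3 : l * ((2 * Real.sqrt C + 1) * u) < l * (Real.sqrt d * |F V - m|) := by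
          calc l * ((2 * Real.sqrt C + 1) * u) = l * (2 * Real.sqrt C + 1) * u := by ring
            _ < Real.sqrt d * (l * |F V - m|) := hlt
            _ = _ := by ring
        exact lt_of_mul_lt_mul_left h3 hl0.le
      have h4 : (2 * Real.sqrt C + 1) * u / Real.sqrt d < |F V - m| := by
        rw [div_lt_iff₀ (by positivity)]
        linarith
      rcases le_abs.1 h4.le with h5 | h5
      · left; exact h5
      · right
        show (2 * Real.sqrt C + 1) * u / Real.sqrt d ≤ - F V - - ∫ V, F V ∂μ
        rw [← hm]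
        linarith
    calc μ {V | V ∈ A ∧ l * (2 * Real.sqrt C + 1) * u < Real.sqrt d * |f V - l * m|}
        ≤ _ := measure_mono hsub
      _ ≤ _ := measure_union_le _ _
      _ ≤ ENNReal.ofReal (2 * Real.exp (-u ^ 2)) + ENNReal.ofReal (2 * Real.exp (-u ^ 2)) :=
          add_le_add c1 c2
      _ = ENNReal.ofReal (4 * Real.exp (-u ^ 2)) := by
          rw [← ENNReal.ofReal_add (by positivity) (by positivity)]
          congr 1
          ring

end Pool.Agent.Helper81.RIP
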