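import Pool.Agent.Helper81.RIP.A6
import Pool.Agent.Helper81.RIP.A5b

namespace Pool.Agent.Helper81.RIP
open MeasureTheory ProbabilityTheory Matrix

theorem exists_measure : ∃ L : ℝ, 1 ≤ L ∧ ∀ d : ℕ, 3 ≤ d → ∃ μ : Measure (Mat d),
    IsProbabilityMeasure μ ∧ (∀ᵐ V ∂μ, Orth V) ∧ Inv μ ∧ Conc L μ := by
  refine ⟨2 * Real.sqrt 48 + 1, ?_, fun d hd => ?_⟩
  · have := Real.sqrt_nonneg 48; linarith
  obtain ⟨μ, h1, h2, h3, h4⟩ := walk d hd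
  exact ⟨μ, h1, h2, h3, conc_of_mgf d (by omega) μ 48 (by norm_num) h2 h4⟩

end Pool.Agent.Helper81.RIP
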