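import Pool.Agent.Helper81.RIP.Defs

/-!
# B1: the polar decomposition
-/

namespace Pool.Agent.Helper81.RIP
open MeasureTheory ProbabilityTheory Matrix

variable {d : ℕ}

theorem polar_exists (N : Mat d) (σ : ℝ) (hσ : 0 < σ) (h : ∀ x, σ * vn x ≤ vn (N *ᵥ x)) :
    ∃ Q P : Mat d, Orth Q ∧ Pᵀ = P ∧ (∀ x, σ * vn x ^ 2 ≤ x ⬝ᵥ (P *ᵥ x)) ∧ N = Q * P := by
  have hA : (Nᵀ * N).IsHermitian := by
    unfold Matrix.IsHermitian
    rw [Matrix.conjTranspose_eq_transpose_of_trivial, Matrix.transpose_mul,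
      Matrix.transpose_transpose]
  set U : Mat d := (hA.eigenvectorUnitary : Mat d) with hU
  have hUU : Orth U := by
    have h0 : star U * U = 1 := Unitary.coe_star_mul_self hA.eigenvectorUnitary
    rw [Matrix.star_eq_conjTranspose, Matrix.conjTranspose_eq_transpose_of_trivial] at h0
    exact h0
  set lam : Fin d → ℝ := hA.eigenvalues with hlamdef
  have hspec : Nᵀ * N = U * diagonal lam * Uᵀ := by
    have h0 := hA.spectral_theorem
    rw [Unitary.conjStarAlgAut_apply] at h0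
    rw [Matrix.star_eq_conjTranspose, Matrix.conjTranspose_eq_transpose_of_trivial] at h0
    exact h0
  have hlam : ∀ i, σ ^ 2 ≤ lam i := by
    intro i
    have hu := hA.mulVec_eigenvectorBasis i
    set u : Fin d → ℝ := ⇑(hA.eigenvectorBasis i) with hudef
    have hu1 : vn u = 1 := by
      rw [vn_eq_norm]
      exact hA.eigenvectorBasis.orthonormal.1 i
    have h1 : vn (N *ᵥ u) ^ 2 = lam i := by
      rw [← dot_self, dot_mulVec_transpose, Matrix.mulVec_mulVec, hu, smul_dotProduct, dot_self,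
        hu1]
      simp [hlamdef]
    have h2 := h u
    rw [hu1, mul_one] at h2
    nlinarith
  have hlam0 : ∀ i, 0 ≤ lam i := fun i => (sq_nonneg σ).trans (hlam i)
  have hsq : ∀ i, σ ≤ Real.sqrt (lam i) := fun i => Real.le_sqrt_of_sq_le (hlam i)
  have hconj : ∀ a b : Fin d → ℝ, (U * diagonal a * Uᵀ) * (U * diagonal b * Uᵀ) =
      U * diagonal (fun i => a i * b i) * Uᵀ := by
    intro a b
    calc (U * diagonal a * Uᵀ) * (U * diagonal b * Uᵀ)
        = U * diagonal a * (Uᵀ * U) * diagonal b * Uᵀ := by simp only [Matrix.mul_assoc]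
      _ = U * (diagonal a * diagonal b) * Uᵀ := by
          rw [hUU, Matrix.mul_one, Matrix.mul_assoc U]
      _ = _ := by rw [Matrix.diagonal_mul_diagonal]
  have hT : ∀ a : Fin d → ℝ, (U * diagonal a * Uᵀ)ᵀ = U * diagonal a * Uᵀ := by
    intro a
    rw [Matrix.transpose_mul, Matrix.transpose_mul, Matrix.transpose_transpose,
      Matrix.diagonal_transpose, Matrix.mul_assoc]
  have hone : U * diagonal (fun _ : Fin d => (1 : ℝ)) * Uᵀ = 1 := by
    have : diagonal (fun _ : Fin d => (1 : ℝ)) = (1 : Mat d) := Matrix.diagonal_one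
    rw [this, Matrix.mul_one]
    exact hUU.mul_transpose
  set P : Mat d := U * diagonal (fun i => Real.sqrt (lam i)) * Uᵀ with hP
  set Pi : Mat d := U * diagonal (fun i => (Real.sqrt (lam i))⁻¹) * Uᵀ with hPi
  have hpos : ∀ i, Real.sqrt (lam i) ≠ 0 := fun i => (lt_of_lt_of_le hσ (hsq i)).ne'
  have hPP : P * P = Nᵀ * N := by
    rw [hP, hconj, hspec]
    congr 3
    funext i
    exact Real.mul_self_sqrt (hlam0 i)
  have hPPi : P * Pi = 1 := by
    rw [hP, hPi, hconj, ← hone]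
    congr 3
    funext i
    exact mul_inv_cancel₀ (hpos i)
  have hPiP : Pi * P = 1 := by
    rw [hP, hPi, hconj, ← hone]
    congr 3
    funext i
    exact inv_mul_cancel₀ (hpos i)
  refine ⟨N * Pi, P, ?_, hT _, ?_, ?_⟩
  · unfold Orth
    have hPiT : Piᵀ = Pi := hT _
    rw [Matrix.transpose_mul, hPiT]
    calc Pi * Nᵀ * (N * Pi) = Pi * (Nᵀ * N) * Pi := by simp only [Matrix.mul_assoc]
      _ = (Pi * P) * (P * Pi) := by rw [← hPP]; simp only [Matrix.mul_assoc]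
      _ = 1 := by rw [hPPi, hPiP, Matrix.one_mul]
  · intro x
    set y := Uᵀ *ᵥ x with hy
    have h1 : vn y = vn x := hUU.transpose.vn_mulVec x
    have h2 : x ⬝ᵥ (P *ᵥ x) = ∑ i, Real.sqrt (lam i) * y i ^ 2 := by
      rw [hP, ← Matrix.mulVec_mulVec, ← Matrix.mulVec_mulVec, dot_mulVec_transpose, ← hy]
      simp only [dotProduct, Matrix.mulVec_diagonal]
      exact Finset.sum_congr rfl fun i _ => by ring
    rw [h2, ← h1, vn_sq, Finset.mul_sum]
    exact Finset.sum_le_sum fun i _ => mul_le_mul_of_nonneg_right (hsq i) (sq_nonneg _)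
  · rw [Matrix.mul_assoc, hPiP, Matrix.mul_one]

/-- Hilbert-Schmidt inner product. -/
noncomputable def ip (A B : Mat d) : ℝ := ∑ i, ∑ j, A i j * B i j

theorem ip_le (A B : Mat d) : ip A B ≤ hs A * hs B := by
  have h : (ip A B) ^ 2 ≤ (hs A * hs B) ^ 2 := by
    rw [mul_pow, hs_sq, hs_sq]
    unfold ip
    have h1 := Finset.sum_mul_sq_le_sq_mul_sq (Finset.univ : Finset (Fin d × Fin d))
      (fun p => A p.1 p.2) (fun p => B p.1 p.2)
    simpa only [← Finset.univ_product_univ, Finset.sum_product] using h1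
  exact (abs_le_of_sq_le_sq' h (mul_nonneg (hs_nonneg _) (hs_nonneg _))).2

theorem ip_add (A B C : Mat d) : ip A (B + C) = ip A B + ip A C := by
  unfold ip
  simp only [Matrix.add_apply, mul_add, Finset.sum_add_distrib]

theorem ip_mul_left (σ : ℝ) {P : Mat d} (h : ∀ x, σ * vn x ^ 2 ≤ x ⬝ᵥ (P *ᵥ x)) (M : Mat d) :
    σ * hs M ^ 2 ≤ ip M (P * M) := by
  rw [hs_sq_cols, Finset.mul_sum]
  have h1 : ip M (P * M) = ∑ j, (fun i => M i j) ⬝ᵥ (P *ᵥ (fun i => M i j)) := by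
    unfold ip
    rw [Finset.sum_comm]
    refine Finset.sum_congr rfl fun j _ => ?_
    simp only [dotProduct, Matrix.mulVec, Matrix.mul_apply]
  rw [h1]
  exact Finset.sum_le_sum fun j _ => h _

theorem ip_transpose (A B : Mat d) : ip Aᵀ Bᵀ = ip A B := by
  unfold ip
  rw [Finset.sum_comm]
  rfl

theorem ip_mul_right (σ : ℝ) {P : Mat d} (hP : Pᵀ = P)
    (h : ∀ x, σ * vn x ^ 2 ≤ x ⬝ᵥ (P *ᵥ x)) (M : Mat d) :
    σ * hs M ^ 2 ≤ ip M (M * P) := by
  have h1 := ip_mul_left σ h Mᵀ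
  rw [hs_transpose] at h1
  refine h1.trans (le_of_eq ?_)
  rw [← ip_transpose M (M * P), Matrix.transpose_mul, hP]

theorem sum_key (σ : ℝ) {P P' : Mat d} (hP' : P'ᵀ = P')
    (h : ∀ x, σ * vn x ^ 2 ≤ x ⬝ᵥ (P *ᵥ x)) (h' : ∀ x, σ * vn x ^ 2 ≤ x ⬝ᵥ (P' *ᵥ x))
    (M : Mat d) : 2 * σ * hs M ≤ hs (P * M + M * P') := by
  have h1 := ip_mul_left σ h M
  have h2 := ip_mul_right σ hP' h' M
  have h3 := ip_le M (P * M + M * P')
  rw [ip_add] at h3
  rcases (hs_nonneg M).eq_or_lt with h0 | h0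
  · rw [← h0, mul_zero]; exact hs_nonneg _
  · have h4 : 2 * σ * hs M * hs M ≤ hs (P * M + M * P') * hs M := by nlinarith
    exact le_of_mul_le_mul_right h4 h0

theorem polar_lip (σ : ℝ) (hσ : 0 < σ) {Q P Q' P' : Mat d} (hQ : Orth Q) (hQ' : Orth Q')
    (hP : Pᵀ = P) (hP' : P'ᵀ = P') (h : ∀ x, σ * vn x ^ 2 ≤ x ⬝ᵥ (P *ᵥ x))
    (h' : ∀ x, σ * vn x ^ 2 ≤ x ⬝ᵥ (P' *ᵥ x)) :
    σ * hs (Q - Q') ≤ hs (Q * P - Q' * P') := by
  set W : Mat d := Qᵀ * Q' with hW
  have h1 := sum_key σ hP' h h' (1 - W)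
  have e1 : P * (1 - W) + (1 - W) * P' = (P - W * P') + (P' - P * W) := by
    rw [Matrix.mul_sub, Matrix.sub_mul, Matrix.mul_one, Matrix.one_mul]
    abel
  have e2 : hs (P - W * P') = hs (Q * P - Q' * P') := by
    have : P - W * P' = Qᵀ * (Q * P - Q' * P') := by
      rw [Matrix.mul_sub, ← Matrix.mul_assoc, hQ, Matrix.one_mul, ← Matrix.mul_assoc]
    rw [this, hQ.transpose.hs_mul]
  have e3 : hs (P' - P * W) = hs (Q * P - Q' * P') := by
    rw [← hs_transpose (P' - P * W), hs_sub_comm (Q * P)]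
    have : (P' - P * W)ᵀ = Q'ᵀ * (Q' * P' - Q * P) := by
      rw [Matrix.transpose_sub, hP', Matrix.transpose_mul, hP, hW, Matrix.transpose_mul,
        Matrix.transpose_transpose, Matrix.mul_sub, ← Matrix.mul_assoc, hQ', Matrix.one_mul,
        ← Matrix.mul_assoc]
    rw [this, hQ'.transpose.hs_mul]
  have e4 : hs (Q - Q') = hs (1 - W) := by
    have : Q - Q' = Q * (1 - W) := by
      rw [Matrix.mul_sub, Matrix.mul_one, hW, ← Matrix.mul_assoc, hQ.mul_transpose,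
        Matrix.one_mul]
    rw [this, hQ.hs_mul]
  rw [e1] at h1
  have h2 := h1.trans (hs_add_le _ _)
  rw [e2, e3] at h2
  rw [e4]
  linarith

theorem sym_lip (σ : ℝ) (hσ : 0 < σ) {P P' : Mat d}
    (hP : Pᵀ = P) (hP' : P'ᵀ = P') (h : ∀ x, σ * vn x ^ 2 ≤ x ⬝ᵥ (P *ᵥ x))
    (h' : ∀ x, σ * vn x ^ 2 ≤ x ⬝ᵥ (P' *ᵥ x)) :
    2 * σ * hs (P - P') ≤ hs (P * P - P' * P') := by
  have h1 := sum_key σ hP' h h' (P - P')
  have e1 : P * (P - P') + (P - P') * P' = P * P - P' * P' := by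
    rw [Matrix.mul_sub, Matrix.sub_mul]
    abel
  rwa [e1] at h1

theorem sym_op {P : Mat d} (hP : Pᵀ = P) (h : ∀ x, 0 ≤ x ⬝ᵥ (P *ᵥ x)) {e : ℝ}
    (he : OpLe (P * P - 1) e) : OpLe (P - 1) e := by
  intro x
  set y := (P - 1) *ᵥ x with hy
  have h1 : vn y ≤ vn ((P + 1) *ᵥ y) := by
    have h2 : vn y ^ 2 ≤ vn ((P + 1) *ᵥ y) ^ 2 := by
      rw [Matrix.add_mulVec, Matrix.one_mulVec, ← dot_self, ← dot_self, add_dotProduct,
        dotProduct_add, dotProduct_add, dotProduct_comm (P *ᵥ y) y]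
      have h3 := h y
      have h4 : 0 ≤ (P *ᵥ y) ⬝ᵥ (P *ᵥ y) := by
        rw [dot_self]; exact sq_nonneg _
      linarith
    exact (pow_le_pow_iff_left₀ (vn_nonneg _) (vn_nonneg _) two_ne_zero).1 h2
  have e1 : (P + 1) *ᵥ y = (P * P - 1) *ᵥ x := by
    rw [hy, Matrix.mulVec_mulVec]
    congr 1
    rw [Matrix.mul_sub, Matrix.add_mul, Matrix.mul_one, Matrix.one_mul]
    abel
  rw [e1] at h1
  exact h1.trans (he x)

end Pool.Agent.Helper81.RIP
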