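import Pool.Agent.Helper81.RIP.B1

/-!
# B2: one flattening step
-/

namespace Pool.Agent.Helper81.RIP
open MeasureTheory ProbabilityTheory Matrix

variable {d : ℕ}

theorem PolRel_pol {N : Mat d} (h : ∃ Q, PolRel N Q) : PolRel N (pol N) := by
  unfold pol
  rw [dif_pos h]
  exact h.choose_spec

/-- uniqueness of the orthogonal polar part -/
theorem pol_eq {N Q : Mat d} (h : PolRel N Q) : pol N = Q := by
  have h1 : PolRel N (pol N) := PolRel_pol ⟨Q, h⟩
  obtain ⟨hQ, P, hP, ⟨σ, hσ, hσP⟩, hN⟩ := h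
  obtain ⟨hQ', P', hP', ⟨σ', hσ', hσP'⟩, hN'⟩ := h1
  have hmin : 0 < min σ σ' := lt_min hσ hσ'
  have h2 := polar_lip (min σ σ') hmin hQ hQ' hP hP'
    (fun x => (mul_le_mul_of_nonneg_right (min_le_left _ _) (sq_nonneg _)).trans (hσP x))
    (fun x => (mul_le_mul_of_nonneg_right (min_le_right _ _) (sq_nonneg _)).trans (hσP' x))
  rw [← hN, ← hN', sub_self, hs_zero] at h2
  have h3 : hs (Q - pol N) = 0 :=
    le_antisymm (nonpos_of_mul_nonpos_right h2 hmin) (hs_nonneg _)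
  exact (sub_eq_zero.1 (hs_eq_zero h3)).symm

theorem cl_mono_lip (c : ℝ) {s t : ℝ} (h : t ≤ s) :
    0 ≤ cl c s - cl c t ∧ cl c s - cl c t ≤ s - t := by
  unfold cl
  constructor
  · have h1 : min c t ≤ min c s := min_le_min_left c h
    have h2 : max (-c) (min c t) ≤ max (-c) (min c s) := max_le_max_left _ h1
    linarith
  · rcases max_cases (-c) (min c s) with ⟨h1, h2⟩ | ⟨h1, h2⟩ <;>
    rcases max_cases (-c) (min c t) with ⟨h3, h4⟩ | ⟨h3, h4⟩ <;>
    rcases min_cases c s with ⟨h5, h6⟩ | ⟨h5, h6⟩ <;>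
    rcases min_cases c t with ⟨h7, h8⟩ | ⟨h7, h8⟩ <;> linarith

theorem cl_neg {c : ℝ} (hc : 0 ≤ c) (s : ℝ) : cl c (-s) = - cl c s := by
  unfold cl
  rcases max_cases (-c) (min c s) with ⟨h1, h2⟩ | ⟨h1, h2⟩ <;>
  rcases max_cases (-c) (min c (-s)) with ⟨h3, h4⟩ | ⟨h3, h4⟩ <;>
  rcases min_cases c s with ⟨h5, h6⟩ | ⟨h5, h6⟩ <;>
  rcases min_cases c (-s) with ⟨h7, h8⟩ | ⟨h7, h8⟩ <;> linarith

/-- the reflected matrix -/
noncomputable def NN (c : ℝ) (V : Mat d) : Mat d := V - (2 : ℝ) • Rm c V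

theorem Phi_eq (c : ℝ) (V : Mat d) : Phi c V = pol (NN c V) := rfl

theorem NN_apply (c : ℝ) (V : Mat d) (i j : Fin d) : NN c V i j = 2 * cl c (V i j) - V i j := by
  simp only [NN, Rm, clM, Matrix.sub_apply, Matrix.smul_apply, Matrix.of_apply, smul_eq_mul]
  ring

theorem hs_NN_le (c : ℝ) (V V' : Mat d) : hs (NN c V - NN c V') ≤ hs (V - V') := by
  unfold hs
  refine Real.sqrt_le_sqrt (Finset.sum_le_sum fun i _ => Finset.sum_le_sum fun j _ => ?_)
  rw [Matrix.sub_apply, Matrix.sub_apply, NN_apply, NN_apply]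
  refine sq_le_sq' ?_ ?_ |>.trans (le_of_eq (sq_abs _))
  · rcases le_total (V' i j) (V i j) with h | h
    · have := cl_mono_lip c h
      rw [abs_of_nonneg (by linarith)]
      linarith
    · have := cl_mono_lip c h
      rw [abs_of_nonpos (by linarith)]
      linarith
  · rcases le_total (V' i j) (V i j) with h | h
    · have := cl_mono_lip c h
      rw [abs_of_nonneg (by linarith)]
      linarith
    · have := cl_mono_lip c h
      rw [abs_of_nonpos (by linarith)]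
      linarith

theorem J_transpose {i j : Fin d} (hij : i ≠ j) : (J i j)ᵀ = (J j i : Mat d) := by
  ext a b
  simp only [J, Matrix.transpose_apply, Matrix.of_apply]
  by_cases h1 : a = i <;> by_cases h2 : a = j <;> by_cases h3 : b = i <;> by_cases h4 : b = j <;>
    simp_all [eq_comm]

theorem J_mul_apply (V : Mat d) {i j : Fin d} (hij : i ≠ j) (a b : Fin d) :
    (J i j * V) a b = if a = j then V i b else if a = i then - V j b else V a b := by
  have h : J i j * V = (Vᵀ * J j i)ᵀ := by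
    rw [Matrix.transpose_mul, Matrix.transpose_transpose, J_transpose hij.symm]
  rw [h, Matrix.transpose_apply, mul_J_apply _ hij.symm]
  rfl

theorem NN_mul_J {c : ℝ} (hc : 0 ≤ c) (V : Mat d) {i j : Fin d} (hij : i ≠ j) :
    NN c (V * J i j) = NN c V * J i j := by
  ext a b
  rw [NN_apply, mul_J_apply _ hij, mul_J_apply _ hij, NN_apply, NN_apply, NN_apply]
  by_cases h1 : b = i
  · simp only [h1, if_true]
  · by_cases h2 : b = j
    · simp only [h1, h2, if_true, if_false]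
      by_cases h3 : j = i
      · exact absurd h3.symm hij
      · simp only [h3, if_false]
        rw [cl_neg hc]
        ring
    · simp only [h1, h2, if_false]

theorem NN_J_mul {c : ℝ} (hc : 0 ≤ c) (V : Mat d) {i j : Fin d} (hij : i ≠ j) :
    NN c (J i j * V) = J i j * NN c V := by
  ext a b
  rw [NN_apply, J_mul_apply _ hij, J_mul_apply _ hij, NN_apply, NN_apply, NN_apply]
  by_cases h1 : a = j
  · simp only [h1, if_true]
  · by_cases h2 : a = i
    · simp only [h1, h2, if_true, if_false]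
      by_cases h3 : i = j
      · exact absurd h3 hij
      · simp only [h3, if_false]
        rw [cl_neg hc]
        ring
    · simp only [h1, h2, if_false]

theorem NN_low {c ε : ℝ} {V : Mat d} (hV : Orth V) (hR : OpLe (Rm c V) ε) (x : Fin d → ℝ) :
    (1 - 2 * ε) * vn x ≤ vn (NN c V *ᵥ x) := by
  have h1 : V *ᵥ x = NN c V *ᵥ x + (2 : ℝ) • (Rm c V *ᵥ x) := by
    unfold NN
    rw [Matrix.sub_mulVec, Matrix.smul_mulVec]
    abel
  have h2 := vn_add_le (NN c V *ᵥ x) ((2 : ℝ) • (Rm c V *ᵥ x))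
  rw [← h1, hV.vn_mulVec, vn_smul, abs_of_pos (by norm_num : (0 : ℝ) < 2)] at h2
  have h3 := hR x
  linarith

/-- the polar decomposition of `NN c V` -/
theorem NN_polar {c ε : ℝ} (hε' : ε ≤ 1 / 36) {V : Mat d} (hV : Orth V)
    (hR : OpLe (Rm c V) ε) : Orth (Phi c V) ∧ ∃ P : Mat d, Pᵀ = P ∧
    (∀ x, (1 - 2 * ε) * vn x ^ 2 ≤ x ⬝ᵥ (P *ᵥ x)) ∧ NN c V = Phi c V * P := by
  have hσ : 0 < 1 - 2 * ε := by linarith
  obtain ⟨Q, P, hQ, hP, hσP, hN⟩ := polar_exists (NN c V) (1 - 2 * ε) hσ (NN_low hV hR)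
  have hrel : PolRel (NN c V) Q := ⟨hQ, P, hP, ⟨1 - 2 * ε, hσ, hσP⟩, hN⟩
  have hphi : Phi c V = Q := pol_eq hrel
  rw [hphi]
  exact ⟨hQ, P, hP, hσP, hN⟩

/-- B2 -/
theorem Phi_polar {c ε : ℝ} (hc : 0 < c) (hε : 0 ≤ ε) (hε' : ε ≤ 1 / 36) {V : Mat d} (hV : Orth V)
    (hR : OpLe (Rm c V) ε) : ∃ P : Mat d, Pᵀ = P ∧
    (∀ x, (1 - 2 * ε) * vn x ^ 2 ≤ x ⬝ᵥ (P *ᵥ x)) ∧ V - (2 : ℝ) • Rm c V = Phi c V * P :=
  (NN_polar hε' hV hR).2

/-- B2: one flattening step. -/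
theorem Phi_facts {c ε : ℝ} (hc : 0 < c) (hε : 0 ≤ ε) (hε' : ε ≤ 1 / 36) {V : Mat d} (hV : Orth V)
    (hR : OpLe (Rm c V) ε) :
    Orth (Phi c V) ∧
    (∀ i j : Fin d, i ≠ j → Phi c (V * J i j) = Phi c V * J i j ∧
      Phi c (J i j * V) = J i j * Phi c V) := by
  obtain ⟨hQ, P, hP, hσP, hN⟩ := NN_polar hε' hV hR
  have hσ : 0 < 1 - 2 * ε := by linarith
  refine ⟨hQ, fun i j hij => ⟨?_, ?_⟩⟩
  · rw [Phi_eq, NN_mul_J hc.le V hij]
    refine pol_eq ⟨hQ.mul (Orth_J hij), (J i j)ᵀ * P * J i j, ?_, ⟨1 - 2 * ε, hσ, ?_⟩, ?_⟩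
    · rw [Matrix.transpose_mul, Matrix.transpose_mul, Matrix.transpose_transpose, hP,
        Matrix.mul_assoc]
    · intro x
      have h1 := hσP (J i j *ᵥ x)
      rw [(Orth_J hij).vn_mulVec] at h1
      refine h1.trans (le_of_eq ?_)
      rw [← Matrix.mulVec_mulVec, ← Matrix.mulVec_mulVec, dot_mulVec_transpose (J i j)ᵀ,
        Matrix.transpose_transpose]
    · rw [hN]
      calc Phi c V * P * J i j = Phi c V * (J i j * (J i j)ᵀ) * P * J i j := by
            rw [(Orth_J hij).mul_transpose, Matrix.mul_one]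
        _ = _ := by simp only [Matrix.mul_assoc]
  · rw [Phi_eq, NN_J_mul hc.le V hij]
    refine pol_eq ⟨(Orth_J hij).mul hQ, P, hP, ⟨1 - 2 * ε, hσ, hσP⟩, ?_⟩
    rw [hN, Matrix.mul_assoc]

/-- B2 -/
theorem Phi_lip {c ε : ℝ} (hc : 0 < c) (hε : 0 ≤ ε) (hε' : ε ≤ 1 / 36) {V V' : Mat d}
    (hV : Orth V) (hV' : Orth V') (hR : OpLe (Rm c V) ε) (hR' : OpLe (Rm c V') ε) :
    (1 - 2 * ε) * hs (Phi c V - Phi c V') ≤ hs (V - V') := by
  obtain ⟨hQ, P, hP, hσP, hN⟩ := NN_polar hε' hV hR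
  obtain ⟨hQ', P', hP', hσP', hN'⟩ := NN_polar hε' hV' hR'
  have hσ : 0 < 1 - 2 * ε := by linarith
  have h1 := polar_lip (1 - 2 * ε) hσ hQ hQ' hP hP' hσP hσP'
  rw [← hN, ← hN'] at h1
  exact h1.trans (hs_NN_le c V V')

end Pool.Agent.Helper81.RIP
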