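import Pool.Agent.Helper81.RIP.B2

/-!
# B3: the error of one flattening step is Lipschitz entrywise with a small constant
-/

namespace Pool.Agent.Helper81.RIP
open MeasureTheory ProbabilityTheory Matrix

variable {d : ℕ}

theorem Rm_apply (c : ℝ) (V : Mat d) (i j : Fin d) : Rm c V i j = V i j - cl c (V i j) := by
  simp [Rm, clM]

theorem hs_Rm_sub_le (c : ℝ) (V V' : Mat d) : hs (Rm c V - Rm c V') ≤ hs (V - V') := by
  unfold hs
  refine Real.sqrt_le_sqrt (Finset.sum_le_sum fun i _ => Finset.sum_le_sum fun j _ => ?_)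
  rw [Matrix.sub_apply, Matrix.sub_apply, Rm_apply, Rm_apply]
  refine sq_le_sq' ?_ ?_ |>.trans (le_of_eq (sq_abs _))
  · rcases le_total (V' i j) (V i j) with h | h
    · have := cl_mono_lip c h
      rw [abs_of_nonneg (by linarith)]
      linarith
    · have := cl_mono_lip c h
      rw [abs_of_nonpos (by linarith)]
      linarith
  · rcases le_total (V' i j) (V i j) with h | h
    · have := cl_mono_lip c h
      rw [abs_of_nonneg (by linarith)]
      linarith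
    · have := cl_mono_lip c h
      rw [abs_of_nonpos (by linarith)]
      linarith

theorem hs_mul_sub {A A' B B' : Mat d} {a b : ℝ} (hB : OpLe B b) (hb : 0 ≤ b)
    (hA' : OpLe A' a) (ha : 0 ≤ a) :
    hs (A * B - A' * B') ≤ hs (A - A') * b + a * hs (B - B') := by
  have h : A * B - A' * B' = (A - A') * B + A' * (B - B') := by noncomm_ring
  rw [h]
  refine (hs_add_le _ _).trans (add_le_add ?_ ?_)
  · rw [mul_comm]; exact hs_mul_le_right hB hb _
  · exact hs_mul_le_left hA' ha _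

theorem cl_abs_le {c : ℝ} (hc : 0 ≤ c) (s : ℝ) : |cl c s| ≤ c := by
  unfold cl
  rw [abs_le]
  exact ⟨le_max_left _ _, max_le (by linarith) (min_le_left _ _)⟩

theorem Rm_big {c : ℝ} (hc : 0 ≤ c) (V : Mat d) (i j : Fin d) (h : 2 * c < |V i j|) :
    V i j ^ 2 ≤ 4 * Rm c V i j ^ 2 := by
  have h1 := cl_abs_le hc (V i j)
  have h2 : |V i j| ≤ 2 * |Rm c V i j| := by
    rw [Rm_apply]
    have := abs_sub_abs_le_abs_sub (V i j) (cl c (V i j))
    linarith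
  have h3 : |V i j| ^ 2 ≤ (2 * |Rm c V i j|) ^ 2 := pow_le_pow_left₀ (abs_nonneg _) h2 2
  rw [mul_pow, sq_abs, sq_abs] at h3
  linarith

theorem Rm_eq_zero {c : ℝ} (V : Mat d) (i j : Fin d) (h : ¬ c < |V i j|) :
    Rm c V i j = 0 := by
  rw [Rm_apply]
  push Not at h
  obtain ⟨h1, h2⟩ := abs_le.mp h
  unfold cl
  rw [min_eq_right h2, max_eq_right h1, sub_self]

theorem col_sq (A : Mat d) (j : Fin d) {a : ℝ} (hA : OpLe A a) (_ha : 0 ≤ a) :
    ∑ l, A l j ^ 2 ≤ a ^ 2 := by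
  have h := hA (Pi.single j 1)
  have h1 : A *ᵥ (Pi.single j 1) = fun l => A l j := by
    ext l; simp
  have h2 : vn (Pi.single j (1 : ℝ)) = 1 := by
    have : vn (Pi.single j (1 : ℝ)) ^ 2 = 1 := by
      rw [vn_sq]
      simp [Pi.single_apply]
    have h0 := vn_nonneg (Pi.single j (1 : ℝ) : Fin d → ℝ)
    nlinarith
  rw [h1, h2, mul_one] at h
  have h3 := pow_le_pow_left₀ (vn_nonneg _) h 2
  rwa [vn_sq] at h3

theorem row_sq (A : Mat d) (i : Fin d) {a : ℝ} (hA : OpLe A a) (_ha : 0 ≤ a) :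
    ∑ k, A i k ^ 2 ≤ a ^ 2 := by
  have := col_sq Aᵀ i hA.transpose _ha
  simpa [Matrix.transpose_apply] using this

theorem mid_bound {κ ε p : ℝ} (hκ : 0 < κ) (hε : 0 ≤ ε) (hp : 0 ≤ p) (hd : 1 ≤ d)
    {V V' : Mat d} (hV : Orth V) (hV' : Orth V')
    (hR : OpLe (Rm (κ / Real.sqrt d) V) ε) (hR' : OpLe (Rm (κ / Real.sqrt d) V') ε)
    (he : ((exc (κ / Real.sqrt d) V).card : ℝ) ≤ p * d ^ 2)
    (he' : ((exc (κ / Real.sqrt d) V').card : ℝ) ≤ p * d ^ 2) (i j : Fin d) :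
    |(V' * (Rm (κ / Real.sqrt d) V - Rm (κ / Real.sqrt d) V')ᵀ * V) i j| ≤
      (3 * ε + 6 * κ ^ 2 * Real.sqrt p) * hs (V - V') := by
  set c := κ / Real.sqrt d with hcdef
  have hd0 : (0 : ℝ) < d := by exact_mod_cast hd
  have hsd : 0 < Real.sqrt d := Real.sqrt_pos.mpr hd0
  have hc : 0 < c := div_pos hκ hsd
  have hc4 : c ^ 4 = κ ^ 4 / d ^ 2 := by
    rw [hcdef, div_pow, show Real.sqrt d ^ 4 = (Real.sqrt d ^ 2) ^ 2 by ring, Real.sq_sqrt hd0.le]
  set M := Rm c V - Rm c V' with hM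
  set S := exc c V ∪ exc c V' with hS
  have hMz : ∀ q : Fin d × Fin d, q ∉ S → M q.1 q.2 = 0 := by
    intro q hq
    rw [hS, Finset.mem_union, not_or] at hq
    obtain ⟨h1, h2⟩ := hq
    simp only [exc, Finset.mem_filter, Finset.mem_univ, true_and] at h1 h2
    rw [hM, Matrix.sub_apply, Rm_eq_zero V _ _ h1, Rm_eq_zero V' _ _ h2, sub_zero]
  have hval : (V' * Mᵀ * V) i j = ∑ q ∈ S, M q.1 q.2 * (V' i q.2 * V q.1 j) := by
    have h1 : ∑ q ∈ S, M q.1 q.2 * (V' i q.2 * V q.1 j) =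
        ∑ q : Fin d × Fin d, M q.1 q.2 * (V' i q.2 * V q.1 j) := by
      apply Finset.sum_subset (Finset.subset_univ _)
      intro q _ hq
      rw [hMz q hq, zero_mul]
    rw [h1, Fintype.sum_prod_type, Matrix.mul_apply]
    refine Finset.sum_congr rfl fun l _ => ?_
    rw [Matrix.mul_apply, Finset.sum_mul]
    refine Finset.sum_congr rfl fun k _ => ?_
    rw [Matrix.transpose_apply]; ring
  have hCS := Finset.sum_mul_sq_le_sq_mul_sq S (fun q => M q.1 q.2) (fun q => V' i q.2 * V q.1 j)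
  rw [← hval] at hCS
  have hM2 : ∑ q ∈ S, M q.1 q.2 ^ 2 ≤ hs (V - V') ^ 2 := by
    calc ∑ q ∈ S, M q.1 q.2 ^ 2 ≤ ∑ q : Fin d × Fin d, M q.1 q.2 ^ 2 :=
          Finset.sum_le_sum_of_subset_of_nonneg (Finset.subset_univ _) fun _ _ _ => sq_nonneg _
      _ = hs M ^ 2 := by rw [hs_sq, Fintype.sum_prod_type]
      _ ≤ _ := pow_le_pow_left₀ (hs_nonneg _) (hs_Rm_sub_le c V V') 2
  have hcard : (S.card : ℝ) ≤ 2 * p * d ^ 2 := by
    have : (S.card : ℝ) ≤ (exc c V).card + (exc c V').card := by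
      exact_mod_cast Finset.card_union_le _ _
    linarith
  have hpt : ∀ q : Fin d × Fin d, (V' i q.2 * V q.1 j) ^ 2 ≤
      16 * c ^ 4 + (4 * (Rm c V' i q.2 ^ 2 * V q.1 j ^ 2) + 4 * (V' i q.2 ^ 2 * Rm c V q.1 j ^ 2)) := by
    intro q
    rw [mul_pow]
    have n1 : 0 ≤ Rm c V' i q.2 ^ 2 * V q.1 j ^ 2 := by positivity
    have n2 : 0 ≤ V' i q.2 ^ 2 * Rm c V q.1 j ^ 2 := by positivity
    have n3 : 0 ≤ c ^ 4 := by positivity
    by_cases h1 : 2 * c < |V' i q.2|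
    · have := mul_le_mul_of_nonneg_right (Rm_big hc.le V' i q.2 h1) (sq_nonneg (V q.1 j))
      linarith
    · by_cases h2 : 2 * c < |V q.1 j|
      · have := mul_le_mul_of_nonneg_left (Rm_big hc.le V q.1 j h2) (sq_nonneg (V' i q.2))
        linarith
      · push Not at h1 h2
        have a1 : V' i q.2 ^ 2 ≤ (2 * c) ^ 2 := by
          rw [← sq_abs]; exact pow_le_pow_left₀ (abs_nonneg _) h1 2
        have a2 : V q.1 j ^ 2 ≤ (2 * c) ^ 2 := by
          rw [← sq_abs]; exact pow_le_pow_left₀ (abs_nonneg _) h2 2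
        have := mul_le_mul a1 a2 (sq_nonneg _) (by positivity)
        nlinarith
  have hW : ∑ q ∈ S, (V' i q.2 * V q.1 j) ^ 2 ≤ 32 * κ ^ 4 * p + 8 * ε ^ 2 := by
    have r1 : ∑ k, Rm c V' i k ^ 2 ≤ ε ^ 2 := row_sq _ i hR' hε
    have r2 : ∑ l, V l j ^ 2 ≤ 1 ^ 2 := col_sq _ j hV.opLe zero_le_one
    have r3 : ∑ k, V' i k ^ 2 ≤ 1 ^ 2 := row_sq _ i hV'.opLe zero_le_one
    have r4 : ∑ l, Rm c V l j ^ 2 ≤ ε ^ 2 := col_sq _ j hR hε
    calc ∑ q ∈ S, (V' i q.2 * V q.1 j) ^ 2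
        ≤ ∑ q ∈ S, (16 * c ^ 4 + (4 * (Rm c V' i q.2 ^ 2 * V q.1 j ^ 2) +
            4 * (V' i q.2 ^ 2 * Rm c V q.1 j ^ 2))) := Finset.sum_le_sum fun q _ => hpt q
      _ = S.card * (16 * c ^ 4) + ∑ q ∈ S, (4 * (Rm c V' i q.2 ^ 2 * V q.1 j ^ 2) +
            4 * (V' i q.2 ^ 2 * Rm c V q.1 j ^ 2)) := by
          rw [Finset.sum_add_distrib, Finset.sum_const, nsmul_eq_mul]
      _ ≤ 2 * p * d ^ 2 * (16 * c ^ 4) + ∑ q : Fin d × Fin d, (4 * (Rm c V' i q.2 ^ 2 * V q.1 j ^ 2) +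
            4 * (V' i q.2 ^ 2 * Rm c V q.1 j ^ 2)) := by
          apply add_le_add
          · exact mul_le_mul_of_nonneg_right hcard (by positivity)
          · exact Finset.sum_le_sum_of_subset_of_nonneg (Finset.subset_univ _)
              fun _ _ _ => by positivity
      _ = 32 * κ ^ 4 * p + (4 * ((∑ k, Rm c V' i k ^ 2) * ∑ l, V l j ^ 2) +
            4 * ((∑ k, V' i k ^ 2) * ∑ l, Rm c V l j ^ 2)) := by
          congr 1
          · rw [hc4]; field_simp; ring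
          · rw [Fintype.sum_prod_type, Finset.sum_comm, Finset.sum_mul_sum, Finset.sum_mul_sum,
              Finset.mul_sum, Finset.mul_sum, ← Finset.sum_add_distrib]
            refine Finset.sum_congr rfl fun k _ => ?_
            rw [Finset.mul_sum, Finset.mul_sum, ← Finset.sum_add_distrib]
      _ ≤ 32 * κ ^ 4 * p + (4 * (ε ^ 2 * 1 ^ 2) + 4 * (1 ^ 2 * ε ^ 2)) := by
          have b1 := mul_le_mul r1 r2 (Finset.sum_nonneg fun _ _ => sq_nonneg _) (by positivity)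
          have b2 := mul_le_mul r3 r4 (Finset.sum_nonneg fun _ _ => sq_nonneg _) (by positivity)
          linarith
      _ = _ := by ring
  have hfin : (V' * Mᵀ * V) i j ^ 2 ≤ ((3 * ε + 6 * κ ^ 2 * Real.sqrt p) * hs (V - V')) ^ 2 := by
    refine hCS.trans ?_
    rw [mul_pow, mul_comm]
    refine mul_le_mul (hW.trans ?_) hM2 (Finset.sum_nonneg fun _ _ => sq_nonneg _) (by positivity)
    have hsp : Real.sqrt p ^ 2 = p := Real.sq_sqrt hp
    have n1 : 0 ≤ ε * (κ ^ 2 * Real.sqrt p) := by positivity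
    have n2 : 0 ≤ κ ^ 4 * p := by positivity
    have : (3 * ε + 6 * κ ^ 2 * Real.sqrt p) ^ 2 =
        9 * ε ^ 2 + 36 * (ε * (κ ^ 2 * Real.sqrt p)) + 36 * κ ^ 4 * (Real.sqrt p ^ 2) := by ring
    rw [this, hsp]
    nlinarith [sq_nonneg ε]
  exact abs_le_of_sq_le_sq hfin (mul_nonneg (by positivity) (hs_nonneg _))


/-- the algebraic identity -/
theorem Wm_ident {c : ℝ} {V P : Mat d} (hV : Orth V) (hQ : Orth (Phi c V)) (hP : Pᵀ = P)
    (hN : NN c V = Phi c V * P) :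
    (P * P - 1 = -((2 : ℝ) • (Vᵀ * Rm c V + (Vᵀ * Rm c V)ᵀ)) + (4 : ℝ) • ((Rm c V)ᵀ * Rm c V)) ∧
    P * P = (NN c V)ᵀ * NN c V ∧
    (2 : ℝ) • Wm c V = (2 : ℝ) • (V * (Rm c V)ᵀ * V) -
      (4 : ℝ) • (Rm c V * (Vᵀ * Rm c V + (Vᵀ * Rm c V)ᵀ)) -
      (4 : ℝ) • (NN c V * ((Rm c V)ᵀ * Rm c V)) +
      (Phi c V * (P - 1)) * ((P * P - 1) + (P - 1)) := by
  set R := Rm c V with hR
  set Q := Phi c V with hQd
  have hNdef : NN c V = V - (2 : ℝ) • R := rfl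
  have hVT := hV.mul_transpose
  have hVV : Vᵀ * V = 1 := hV
  have hPP : P * P = (NN c V)ᵀ * NN c V := by
    rw [hN, Matrix.transpose_mul, hP, Matrix.mul_assoc, ← Matrix.mul_assoc Qᵀ]
    rw [show Qᵀ * Q = 1 from hQ, Matrix.one_mul]
  have hE : P * P - 1 = -((2 : ℝ) • (Vᵀ * R + (Vᵀ * R)ᵀ)) + (4 : ℝ) • (Rᵀ * R) := by
    rw [hPP, hNdef, Matrix.transpose_sub, Matrix.transpose_smul, Matrix.transpose_mul,
      Matrix.transpose_transpose, Matrix.sub_mul, Matrix.mul_sub, Matrix.mul_sub, hVV,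
      Matrix.smul_mul, Matrix.smul_mul, Matrix.mul_smul, Matrix.mul_smul]
    module
  refine ⟨hE, hPP, ?_⟩
  have h1 : (2 : ℝ) • Q - (2 : ℝ) • NN c V + NN c V * (P * P - 1) =
      (Q * (P - 1)) * ((P * P - 1) + (P - 1)) := by
    rw [hN]
    simp only [two_smul]
    noncomm_ring
  have h2 : NN c V * (P * P - 1) = -((2 : ℝ) • R) - (2 : ℝ) • (V * Rᵀ * V) +
      (4 : ℝ) • (R * (Vᵀ * R + (Vᵀ * R)ᵀ)) + (4 : ℝ) • (NN c V * (Rᵀ * R)) := by
    have h3 : V * (Vᵀ * R + (Vᵀ * R)ᵀ) = R + V * Rᵀ * V := by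
      rw [Matrix.mul_add, ← Matrix.mul_assoc, hVT, Matrix.one_mul, Matrix.transpose_mul,
        Matrix.transpose_transpose, Matrix.mul_assoc]
    have h4 : NN c V * (Vᵀ * R + (Vᵀ * R)ᵀ) = R + V * Rᵀ * V -
        (2 : ℝ) • (R * (Vᵀ * R + (Vᵀ * R)ᵀ)) := by
      rw [hNdef, Matrix.sub_mul, h3, Matrix.smul_mul]
    rw [hE, Matrix.mul_add, Matrix.mul_neg, Matrix.mul_smul, h4, Matrix.mul_smul]
    module
  have hW : Wm c V = Q - (V - R) := by
    rw [Wm, hR, Rm, sub_sub_cancel]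
  have h5 : (2 : ℝ) • Q = (2 : ℝ) • NN c V - NN c V * (P * P - 1) +
      (Q * (P - 1)) * ((P * P - 1) + (P - 1)) := by
    rw [← h1]; abel
  rw [hW, smul_sub, h5, h2, hNdef]
  module

/-- numerical estimates -/
theorem B3_num {ε D e b q : ℝ} (hε : 0 ≤ ε) (hε' : ε ≤ 1 / 36) (hD0 : 0 ≤ D)
    (he0 : e = 4 * ε + 4 * (ε * ε)) (hb0 : 0 ≤ b) (hq0 : 0 ≤ q) (hbD : b ≤ 19 / 17 * D)
    (hqD : q ≤ 18 / 17 * D) :
    D * (ε + ε) + ε * (2 * (D * ε + 1 * D)) ≤ 5 * (ε * D) ∧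
    D * (ε * ε) + (1 + 2 * ε) * (D * ε + ε * D) ≤ 3 * (ε * D) ∧
    (q * e + 1 * b) * (e + e) + e * ((D * (1 + 2 * ε) + (1 + 2 * ε) * D) + b) ≤
      30 * (ε * D) := by
  have hεD : 0 ≤ ε * D := mul_nonneg hε hD0
  have hee : 0 ≤ e := by rw [he0]; positivity
  have hε2 : ε * ε ≤ ε / 36 := by
    have := mul_le_mul_of_nonneg_left hε' hε; linarith
  have heε : e ≤ 37 / 9 * ε := by rw [he0]; linarith
  have he1 : e ≤ 37 / 324 := by linarith
  have h1 := mul_le_mul_of_nonneg_left hε2 hD0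
  refine ⟨?_, ?_, ?_⟩
  · nlinarith
  · nlinarith
  · have g1 : q * e + 1 * b ≤ 2 * D := by
      have : q * e ≤ 18 / 17 * D * (37 / 324) := mul_le_mul hqD he1 hee (by positivity)
      linarith
    have g2 : (q * e + 1 * b) * (e + e) ≤ 2 * D * (2 * (37 / 9 * ε)) :=
      mul_le_mul g1 (by linarith) (by linarith) (by positivity)
    have g3 : (D * (1 + 2 * ε) + (1 + 2 * ε) * D) + b ≤ 13 / 4 * D := by
      nlinarith
    have g4 : e * ((D * (1 + 2 * ε) + (1 + 2 * ε) * D) + b) ≤ 37 / 9 * ε * (13 / 4 * D) :=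
      mul_le_mul heε g3 (by positivity) (by positivity)
    have t1 : 2 * D * (2 * (37 / 9 * ε)) = 148 / 9 * (ε * D) := by ring
    have t2 : 37 / 9 * ε * (13 / 4 * D) = 481 / 36 * (ε * D) := by ring
    rw [t1] at g2
    rw [t2] at g4
    linarith

/-- B3 -/
theorem Wm_lip {κ ε p : ℝ} (hκ : 0 < κ) (hε : 0 ≤ ε) (hε' : ε ≤ 1 / 36) (hp : 0 ≤ p) (hd : 1 ≤ d)
    {V V' : Mat d} (hV : Orth V) (hV' : Orth V')
    (hR : OpLe (Rm (κ / Real.sqrt d) V) ε) (hR' : OpLe (Rm (κ / Real.sqrt d) V') ε)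
    (he : ((exc (κ / Real.sqrt d) V).card : ℝ) ≤ p * d ^ 2)
    (he' : ((exc (κ / Real.sqrt d) V').card : ℝ) ≤ p * d ^ 2) (i j : Fin d) :
    |Wm (κ / Real.sqrt d) V i j - Wm (κ / Real.sqrt d) V' i j| ≤
      (65 * ε + 6 * κ ^ 2 * Real.sqrt p) * hs (V - V') := by
  have hmid := mid_bound hκ hε hp hd hV hV' hR hR' he he' i j
  have hd0 : (0 : ℝ) < d := by exact_mod_cast hd
  have hc : 0 < κ / Real.sqrt d := div_pos hκ (Real.sqrt_pos.mpr hd0)
  set c := κ / Real.sqrt d with hcdef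
  obtain ⟨hQ, P, hP, hσ, hN⟩ := NN_polar hε' hV hR
  obtain ⟨hQ', P', hP', hσ', hN'⟩ := NN_polar hε' hV' hR'
  obtain ⟨hE, hPP, hW⟩ := Wm_ident hV hQ hP hN
  obtain ⟨hE', hPP', hW'⟩ := Wm_ident hV' hQ' hP' hN'
  set D := hs (V - V') with hD
  have hD0 : 0 ≤ D := hs_nonneg _
  set R := Rm c V with hRd
  set R' := Rm c V' with hRd'
  set N := NN c V with hNd
  set N' := NN c V' with hNd'
  set Q := Phi c V with hQd
  set Q' := Phi c V' with hQd'
  have lR : hs (R - R') ≤ D := hs_Rm_sub_le c V V'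
  have lRt : hs (Rᵀ - R'ᵀ) ≤ D := by rw [← Matrix.transpose_sub, hs_transpose]; exact lR
  have lN : hs (N - N') ≤ D := hs_NN_le c V V'
  have lNt : hs (Nᵀ - N'ᵀ) ≤ D := by rw [← Matrix.transpose_sub, hs_transpose]; exact lN
  have lVt : hs (Vᵀ - V'ᵀ) ≤ D := by rw [← Matrix.transpose_sub, hs_transpose]
  have oN : ∀ {W : Mat d}, Orth W → OpLe (Rm c W) ε → OpLe (NN c W) (1 + 2 * ε) := by
    intro W hW hRW
    have := hW.opLe.sub (hRW.smul 2)
    rw [abs_of_pos (by norm_num : (0 : ℝ) < 2)] at this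
    exact this
  have oN1 := oN hV hR
  have oN2 := oN hV' hR'
  -- X
  set X := Vᵀ * R + (Vᵀ * R)ᵀ with hX
  set X' := V'ᵀ * R' + (V'ᵀ * R')ᵀ with hX'
  have oX0 : OpLe (Vᵀ * R) ε := by
    have := hV.transpose.opLe.mul hR zero_le_one; rwa [one_mul] at this
  have oX0' : OpLe (V'ᵀ * R') ε := by
    have := hV'.transpose.opLe.mul hR' zero_le_one; rwa [one_mul] at this
  have oX : OpLe X (ε + ε) := oX0.add oX0.transpose
  have oX' : OpLe X' (ε + ε) := oX0'.add oX0'.transpose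
  have lX0 : hs (Vᵀ * R - V'ᵀ * R') ≤ D * ε + 1 * D :=
    (hs_mul_sub hR hε hV'.transpose.opLe zero_le_one).trans
      (add_le_add (mul_le_mul_of_nonneg_right lVt hε) (mul_le_mul_of_nonneg_left lR zero_le_one))
  have lX : hs (X - X') ≤ 2 * (D * ε + 1 * D) := by
    have h1 : X - X' = (Vᵀ * R - V'ᵀ * R') + (Vᵀ * R - V'ᵀ * R')ᵀ := by
      rw [hX, hX', Matrix.transpose_sub]; abel
    rw [h1]
    refine (hs_add_le _ _).trans ?_
    rw [hs_transpose]; linarith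
  -- T2
  have l2 : hs (R * X - R' * X') ≤ D * (ε + ε) + ε * (2 * (D * ε + 1 * D)) :=
    (hs_mul_sub oX (by linarith) hR' hε).trans
      (add_le_add (mul_le_mul_of_nonneg_right lR (by linarith)) (mul_le_mul_of_nonneg_left lX hε))
  -- T3
  have oRR : OpLe (Rᵀ * R) (ε * ε) := hR.transpose.mul hR hε
  have oRR' : OpLe (R'ᵀ * R') (ε * ε) := hR'.transpose.mul hR' hε
  have lRR : hs (Rᵀ * R - R'ᵀ * R') ≤ D * ε + ε * D :=
    (hs_mul_sub hR hε hR'.transpose hε).trans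
      (add_le_add (mul_le_mul_of_nonneg_right lRt hε) (mul_le_mul_of_nonneg_left lR hε))
  have l3 : hs (N * (Rᵀ * R) - N' * (R'ᵀ * R')) ≤ D * (ε * ε) + (1 + 2 * ε) * (D * ε + ε * D) :=
    (hs_mul_sub oRR (by positivity) oN2 (by linarith)).trans
      (add_le_add (mul_le_mul_of_nonneg_right lN (by positivity))
        (mul_le_mul_of_nonneg_left lRR (by linarith)))
  -- E
  set e := 4 * ε + 4 * (ε * ε) with he0
  have hee : 0 ≤ e := by positivity
  have oEg : ∀ {X0 R0 : Mat d}, OpLe X0 (ε + ε) → OpLe (R0ᵀ * R0) (ε * ε) →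
      OpLe (-((2 : ℝ) • X0) + (4 : ℝ) • (R0ᵀ * R0)) e := by
    intro X0 R0 h1 h2
    have := (h1.smul 2).neg.add (h2.smul 4)
    rw [abs_of_pos (by norm_num : (0 : ℝ) < 2), abs_of_pos (by norm_num : (0 : ℝ) < 4)] at this
    refine this.mono ?_
    rw [he0]; linarith
  have oE : OpLe (P * P - 1) e := by rw [hE]; exact oEg oX oRR
  have oE' : OpLe (P' * P' - 1) e := by rw [hE']; exact oEg oX' oRR'
  have lPP : hs (P * P - P' * P') ≤ D * (1 + 2 * ε) + (1 + 2 * ε) * D := by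
    rw [hPP, hPP']
    exact (hs_mul_sub oN1 (by linarith) oN2.transpose (by linarith)).trans
      (add_le_add (mul_le_mul_of_nonneg_right lNt (by linarith))
        (mul_le_mul_of_nonneg_left lN (by linarith)))
  have lE : hs ((P * P - 1) - (P' * P' - 1)) ≤ D * (1 + 2 * ε) + (1 + 2 * ε) * D := by
    rw [sub_sub_sub_cancel_right]; exact lPP
  -- B
  have hs0 : 0 < 1 - 2 * ε := by linarith
  have pos : ∀ {P0 : Mat d}, (∀ x, (1 - 2 * ε) * vn x ^ 2 ≤ x ⬝ᵥ (P0 *ᵥ x)) →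
      ∀ x, 0 ≤ x ⬝ᵥ (P0 *ᵥ x) := fun h x => (by positivity : 0 ≤ (1 - 2 * ε) * vn x ^ 2).trans (h x)
  have oB : OpLe (P - 1) e := sym_op hP (pos hσ) oE
  have oB' : OpLe (P' - 1) e := sym_op hP' (pos hσ') oE'
  have lB0 := sym_lip (1 - 2 * ε) hs0 hP hP' hσ hσ'
  have lQ0 := Phi_lip hc hε hε' hV hV' hR hR'
  set b := hs (P - P') with hb
  set q := hs (Q - Q') with hq
  have hb0 : 0 ≤ b := hs_nonneg _
  have hq0 : 0 ≤ q := hs_nonneg _
  have hbD : b ≤ 19 / 17 * D := by nlinarith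
  have hqD : q ≤ 18 / 17 * D := by nlinarith
  have lB : hs ((P - 1) - (P' - 1)) ≤ b := by rw [sub_sub_sub_cancel_right]
  have oQB' : OpLe (Q' * (P' - 1)) e := by
    have := hQ'.opLe.mul oB' zero_le_one; rwa [one_mul] at this
  have lQB : hs (Q * (P - 1) - Q' * (P' - 1)) ≤ q * e + 1 * b :=
    (hs_mul_sub oB hee hQ'.opLe zero_le_one).trans
      (add_le_add le_rfl (mul_le_mul_of_nonneg_left lB zero_le_one))
  have oEB : OpLe ((P * P - 1) + (P - 1)) (e + e) := oE.add oB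
  have lEB : hs (((P * P - 1) + (P - 1)) - ((P' * P' - 1) + (P' - 1))) ≤
      (D * (1 + 2 * ε) + (1 + 2 * ε) * D) + b := by
    rw [add_sub_add_comm]
    exact (hs_add_le _ _).trans (add_le_add lE lB)
  have l4 : hs ((Q * (P - 1)) * ((P * P - 1) + (P - 1)) -
      (Q' * (P' - 1)) * ((P' * P' - 1) + (P' - 1))) ≤
      (q * e + 1 * b) * (e + e) + e * ((D * (1 + 2 * ε) + (1 + 2 * ε) * D) + b) :=
    (hs_mul_sub oEB (by linarith) oQB' hee).trans
      (add_le_add (mul_le_mul_of_nonneg_right lQB (by linarith)) (mul_le_mul_of_nonneg_left lEB hee))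
  -- first term
  have hdec : V * Rᵀ * V - V' * R'ᵀ * V' = (V - V') * (Rᵀ * V) + V' * (R - R')ᵀ * V +
      (V' * R'ᵀ) * (V - V') := by
    rw [Matrix.transpose_sub]; noncomm_ring
  have l1a : hs ((V - V') * (Rᵀ * V)) ≤ ε * D := by
    have o : OpLe (Rᵀ * V) ε := by
      have := hR.transpose.mul hV.opLe hε; rwa [mul_one] at this
    exact hs_mul_le_right o hε _
  have l1c : hs ((V' * R'ᵀ) * (V - V')) ≤ ε * D := by
    have o : OpLe (V' * R'ᵀ) ε := by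
      have := hV'.opLe.mul hR'.transpose zero_le_one; rwa [one_mul] at this
    exact hs_mul_le_left o hε _
  have l1 : |(V * Rᵀ * V - V' * R'ᵀ * V') i j| ≤
      ε * D + (3 * ε + 6 * κ ^ 2 * Real.sqrt p) * D + ε * D := by
    rw [hdec, Matrix.add_apply, Matrix.add_apply]
    refine (abs_add_three _ _ _).trans ?_
    exact add_le_add (add_le_add ((abs_entry_le_hs _ _ _).trans l1a) hmid)
      ((abs_entry_le_hs _ _ _).trans l1c)
  -- assembly
  have hsum : (2 : ℝ) * (Wm c V i j - Wm c V' i j) =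
      2 * (V * Rᵀ * V - V' * R'ᵀ * V') i j - 4 * (R * X - R' * X') i j -
      4 * (N * (Rᵀ * R) - N' * (R'ᵀ * R')) i j +
      ((Q * (P - 1)) * ((P * P - 1) + (P - 1)) -
        (Q' * (P' - 1)) * ((P' * P' - 1) + (P' - 1))) i j := by
    have a1 := congrFun (congrFun hW i) j
    have a2 := congrFun (congrFun hW' i) j
    simp only [Matrix.add_apply, Matrix.sub_apply, Matrix.smul_apply, smul_eq_mul] at a1 a2 ⊢
    linarith
  have c2 := (abs_entry_le_hs (R * X - R' * X') i j).trans l2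
  have c3 := (abs_entry_le_hs (N * (Rᵀ * R) - N' * (R'ᵀ * R')) i j).trans l3
  have c4 := (abs_entry_le_hs ((Q * (P - 1)) * ((P * P - 1) + (P - 1)) -
        (Q' * (P' - 1)) * ((P' * P' - 1) + (P' - 1))) i j).trans l4
  have hεD : 0 ≤ ε * D := mul_nonneg hε hD0
  obtain ⟨f2, f3, f4⟩ := B3_num hε hε' hD0 he0 hb0 hq0 hbD hqD
  have k1 : (3 * ε + 6 * κ ^ 2 * Real.sqrt p) * D = 3 * (ε * D) + 6 * (κ ^ 2 * Real.sqrt p * D) := by
    ring
  have k2 : (65 * ε + 6 * κ ^ 2 * Real.sqrt p) * D = 65 * (ε * D) + 6 * (κ ^ 2 * Real.sqrt p * D) := by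
    ring
  rw [k1] at l1
  rw [k2]
  have d2 := c2.trans f2
  have d3 := c3.trans f3
  have d4 := c4.trans f4
  clear c2 c3 c4 f2 f3 f4 l2 l3 l4 lX lX0 lRR lPP lE lB0 lQ0 lQB lEB
  obtain ⟨u1, v1⟩ := abs_le.mp l1
  obtain ⟨u2, v2⟩ := abs_le.mp d2
  obtain ⟨u3, v3⟩ := abs_le.mp d3
  obtain ⟨u4, v4⟩ := abs_le.mp d4
  rw [abs_le]
  constructor <;> linarith

end Pool.Agent.Helper81.RIP
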