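import Mathlib

/-!
# Basic notions for the flat random orthogonal matrix (MP_00538b_an)
-/

namespace Pool.Agent.Helper81.RIP
open MeasureTheory ProbabilityTheory Matrix

/-- Real square matrices. -/
abbrev Mat (d : ℕ) := Matrix (Fin d) (Fin d) ℝ

instance instMeasMat (d : ℕ) : MeasurableSpace (Mat d) := borel _
instance instBorelMat (d : ℕ) : BorelSpace (Mat d) := ⟨rfl⟩
instance instSecMat (d : ℕ) : SecondCountableTopology (Mat d) :=
  inferInstanceAs (SecondCountableTopology (Fin d → Fin d → ℝ))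

/-- Hilbert-Schmidt norm. -/
noncomputable def hs {d : ℕ} (A : Mat d) : ℝ := Real.sqrt (∑ i, ∑ j, A i j ^ 2)

/-- Euclidean norm of a vector. -/
noncomputable def vn {d : ℕ} (x : Fin d → ℝ) : ℝ := Real.sqrt (∑ i, x i ^ 2)

/-- Real orthogonal matrix. -/
def Orth {d : ℕ} (V : Mat d) : Prop := Vᵀ * V = 1

/-- The operator norm is at most `c`. -/
def OpLe {d : ℕ} (A : Mat d) (c : ℝ) : Prop := ∀ x, vn (A *ᵥ x) ≤ c * vn x

section hs
variable {d : ℕ}

lemma hs_nonneg (A : Mat d) : 0 ≤ hs A := Real.sqrt_nonneg _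

lemma hs_sq (A : Mat d) : hs A ^ 2 = ∑ i, ∑ j, A i j ^ 2 :=
  Real.sq_sqrt (Finset.sum_nonneg fun _ _ => Finset.sum_nonneg fun _ _ => sq_nonneg _)

section frob
attribute [local instance] Matrix.frobeniusNormedAddCommGroup Matrix.frobeniusNormedSpace

lemma hs_eq_norm (A : Mat d) : hs A = ‖A‖ := by
  rw [Matrix.frobenius_norm_def, hs, Real.sqrt_eq_rpow]
  simp

lemma hs_add_le (A B : Mat d) : hs (A + B) ≤ hs A + hs B := by
  simp only [hs_eq_norm]; exact norm_add_le _ _

lemma hs_smul (c : ℝ) (A : Mat d) : hs (c • A) = |c| * hs A := by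
  simp only [hs_eq_norm]; rw [norm_smul, Real.norm_eq_abs]

lemma hs_mul_le (A B : Mat d) : hs (A * B) ≤ hs A * hs B := by
  simp only [hs_eq_norm]; exact Matrix.frobenius_norm_mul _ _

end frob

@[simp] lemma hs_zero : hs (0 : Mat d) = 0 := by simp [hs]

@[simp] lemma hs_neg (A : Mat d) : hs (-A) = hs A := by simp [hs]

lemma hs_sub_comm (A B : Mat d) : hs (A - B) = hs (B - A) := by
  rw [← neg_sub, hs_neg]

lemma hs_sub_le (A B : Mat d) : hs (A - B) ≤ hs A + hs B := by
  rw [sub_eq_add_neg]; simpa using hs_add_le A (-B)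

lemma hs_tri (A B C : Mat d) : hs (A - C) ≤ hs (A - B) + hs (B - C) := by
  have := hs_add_le (A - B) (B - C); simpa using this

@[simp] lemma hs_transpose (A : Mat d) : hs Aᵀ = hs A := by
  unfold hs
  rw [Finset.sum_comm]
  simp [Matrix.transpose_apply]

lemma abs_entry_le_hs (A : Mat d) (i j : Fin d) : |A i j| ≤ hs A := by
  apply Real.abs_le_sqrt
  calc A i j ^ 2 ≤ ∑ j, A i j ^ 2 :=
        Finset.single_le_sum (f := fun j => A i j ^ 2) (fun _ _ => sq_nonneg _) (Finset.mem_univ j)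
    _ ≤ _ := Finset.single_le_sum (f := fun i => ∑ j, A i j ^ 2)
        (fun _ _ => Finset.sum_nonneg fun _ _ => sq_nonneg _) (Finset.mem_univ i)

lemma hs_eq_zero {A : Mat d} (h : hs A = 0) : A = 0 := by
  ext i j
  have := abs_entry_le_hs A i j
  rw [h] at this
  simpa using abs_nonpos_iff.mp this

lemma continuous_hs : Continuous (hs : Mat d → ℝ) := by
  unfold hs
  fun_prop

lemma vn_nonneg (x : Fin d → ℝ) : 0 ≤ vn x := Real.sqrt_nonneg _

lemma vn_sq (x : Fin d → ℝ) : vn x ^ 2 = ∑ i, x i ^ 2 :=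
  Real.sq_sqrt (Finset.sum_nonneg fun _ _ => sq_nonneg _)

lemma vn_eq_norm (x : Fin d → ℝ) : vn x = ‖WithLp.toLp 2 x‖ := by
  rw [EuclideanSpace.norm_eq, vn]; simp

lemma vn_add_le (x y : Fin d → ℝ) : vn (x + y) ≤ vn x + vn y := by
  simp only [vn_eq_norm, WithLp.toLp_add]; exact norm_add_le _ _

@[simp] lemma vn_zero : vn (0 : Fin d → ℝ) = 0 := by simp [vn]

@[simp] lemma vn_neg (x : Fin d → ℝ) : vn (-x) = vn x := by simp [vn]

lemma vn_sub_le (x y : Fin d → ℝ) : vn (x - y) ≤ vn x + vn y := by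
  rw [sub_eq_add_neg]; simpa using vn_add_le x (-y)

lemma vn_smul (c : ℝ) (x : Fin d → ℝ) : vn (c • x) = |c| * vn x := by
  simp only [vn_eq_norm, WithLp.toLp_smul, norm_smul, Real.norm_eq_abs]

lemma abs_entry_le_vn (x : Fin d → ℝ) (i : Fin d) : |x i| ≤ vn x := by
  apply Real.abs_le_sqrt
  exact Finset.single_le_sum (f := fun i => x i ^ 2) (fun _ _ => sq_nonneg _) (Finset.mem_univ i)

lemma vn_eq_zero {x : Fin d → ℝ} (h : vn x = 0) : x = 0 := by
  ext i
  have := abs_entry_le_vn x i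
  rw [h] at this
  simpa using abs_nonpos_iff.mp this

lemma abs_dot_le (x y : Fin d → ℝ) : |x ⬝ᵥ y| ≤ vn x * vn y := by
  have h := Finset.sum_mul_sq_le_sq_mul_sq Finset.univ x y
  rw [← vn_sq, ← vn_sq, ← mul_pow] at h
  have h2 := Real.sqrt_le_sqrt h
  rw [Real.sqrt_sq_eq_abs, Real.sqrt_sq (mul_nonneg (vn_nonneg _) (vn_nonneg _))] at h2
  simpa [dotProduct] using h2

lemma dot_self (x : Fin d → ℝ) : x ⬝ᵥ x = vn x ^ 2 := by
  rw [vn_sq]; simp [dotProduct, sq]

lemma vn_mulVec_le_hs (A : Mat d) (x : Fin d → ℝ) : vn (A *ᵥ x) ≤ hs A * vn x := by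
  apply abs_le_of_sq_le_sq' _ (mul_nonneg (hs_nonneg _) (vn_nonneg _)) |>.2
  rw [mul_pow, vn_sq, hs_sq, vn_sq, Finset.sum_mul]
  apply Finset.sum_le_sum
  intro i _
  have h := Finset.sum_mul_sq_le_sq_mul_sq Finset.univ (A i) x
  simpa [Matrix.mulVec, dotProduct] using h

/-! ### operator norm bounds -/

lemma OpLe.mono {A : Mat d} {a b : ℝ} (h : OpLe A a) (hab : a ≤ b) : OpLe A b := fun x =>
  (h x).trans (mul_le_mul_of_nonneg_right hab (vn_nonneg _))

lemma OpLe_hs (A : Mat d) : OpLe A (hs A) := vn_mulVec_le_hs A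

lemma OpLe.add {A B : Mat d} {a b : ℝ} (hA : OpLe A a) (hB : OpLe B b) : OpLe (A + B) (a + b) := by
  intro x
  rw [Matrix.add_mulVec, add_mul]
  exact (vn_add_le _ _).trans (add_le_add (hA x) (hB x))

lemma OpLe.neg {A : Mat d} {a : ℝ} (hA : OpLe A a) : OpLe (-A) a := by
  intro x
  rw [Matrix.neg_mulVec, vn_neg]
  exact hA x

lemma OpLe.sub {A B : Mat d} {a b : ℝ} (hA : OpLe A a) (hB : OpLe B b) : OpLe (A - B) (a + b) := by
  rw [sub_eq_add_neg]; exact hA.add hB.neg

lemma OpLe.smul {A : Mat d} {a : ℝ} (c : ℝ) (hA : OpLe A a) : OpLe (c • A) (|c| * a) := by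
  intro x
  rw [Matrix.smul_mulVec, vn_smul, mul_assoc]
  exact mul_le_mul_of_nonneg_left (hA x) (abs_nonneg _)

lemma OpLe.mul {A B : Mat d} {a b : ℝ} (hA : OpLe A a) (hB : OpLe B b) (ha : 0 ≤ a) :
    OpLe (A * B) (a * b) := by
  intro x
  rw [← Matrix.mulVec_mulVec, mul_assoc]
  exact (hA _).trans (mul_le_mul_of_nonneg_left (hB x) ha)

lemma OpLe_one : OpLe (1 : Mat d) 1 := by intro x; simp

lemma dot_mulVec_transpose (A : Mat d) (x y : Fin d → ℝ) :
    x ⬝ᵥ (A *ᵥ y) = (Aᵀ *ᵥ x) ⬝ᵥ y := by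
  rw [Matrix.dotProduct_mulVec, Matrix.mulVec_transpose]

lemma OpLe.transpose {A : Mat d} {a : ℝ} (hA : OpLe A a) : OpLe Aᵀ a := by
  intro x
  by_contra hcon
  push Not at hcon
  set y := Aᵀ *ᵥ x with hy
  have h1 : vn y ^ 2 = x ⬝ᵥ (A *ᵥ y) := by
    rw [dot_mulVec_transpose, ← hy, dot_self]
  have h2 : vn y ^ 2 ≤ vn x * (a * vn y) := by
    rw [h1]
    exact (le_abs_self _).trans ((abs_dot_le _ _).trans
      (mul_le_mul_of_nonneg_left (hA y) (vn_nonneg _)))
  rcases (vn_nonneg y).eq_or_lt with h0 | h0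
  · rw [← h0] at hcon
    -- then `a * vn x < 0`
    have hx : 0 < vn x := by
      rcases (vn_nonneg x).eq_or_lt with hx | hx
      · rw [← hx] at hcon; simp at hcon
      · exact hx
    have := hA x
    have h3 := vn_nonneg (A *ᵥ x)
    nlinarith
  · nlinarith

lemma OpLe_nonneg {A : Mat d} {a : ℝ} (hA : OpLe A a) (x : Fin d → ℝ) (hx : 0 < vn x) : 0 ≤ a := by
  have := hA x
  have h3 := vn_nonneg (A *ᵥ x)
  by_contra h
  push Not at h
  nlinarith

lemma hs_sq_cols (A : Mat d) : hs A ^ 2 = ∑ j, vn (fun i => A i j) ^ 2 := by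
  rw [hs_sq, Finset.sum_comm]
  simp [vn_sq]

lemma hs_mul_le_left {A : Mat d} {a : ℝ} (hA : OpLe A a) (ha : 0 ≤ a) (B : Mat d) :
    hs (A * B) ≤ a * hs B := by
  apply abs_le_of_sq_le_sq' _ (mul_nonneg ha (hs_nonneg _)) |>.2
  rw [mul_pow, hs_sq_cols, hs_sq_cols, Finset.mul_sum]
  apply Finset.sum_le_sum
  intro j _
  have h := hA (fun i => B i j)
  have h2 : (fun i => (A * B) i j) = A *ᵥ (fun i => B i j) := by
    ext i; simp [Matrix.mul_apply, Matrix.mulVec, dotProduct]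
  rw [h2, ← mul_pow]
  exact pow_le_pow_left₀ (vn_nonneg _) h 2

lemma hs_mul_le_right {A : Mat d} {a : ℝ} (hA : OpLe A a) (ha : 0 ≤ a) (B : Mat d) :
    hs (B * A) ≤ a * hs B := by
  rw [← hs_transpose (B * A), Matrix.transpose_mul, ← hs_transpose B]
  exact hs_mul_le_left hA.transpose ha _

/-! ### orthogonal matrices -/

lemma Orth.mul_transpose {V : Mat d} (h : Orth V) : V * Vᵀ = 1 := mul_eq_one_comm.mp h

lemma Orth.transpose {V : Mat d} (h : Orth V) : Orth Vᵀ := by
  unfold Orth; rw [Matrix.transpose_transpose]; exact h.mul_transpose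

lemma Orth_one : Orth (1 : Mat d) := by simp [Orth]

lemma Orth.mul {V W : Mat d} (hV : Orth V) (hW : Orth W) : Orth (V * W) := by
  unfold Orth at *
  rw [Matrix.transpose_mul, Matrix.mul_assoc, ← Matrix.mul_assoc Vᵀ, hV, Matrix.one_mul, hW]

lemma Orth.vn_mulVec {V : Mat d} (h : Orth V) (x : Fin d → ℝ) : vn (V *ᵥ x) = vn x := by
  have : vn (V *ᵥ x) ^ 2 = vn x ^ 2 := by
    rw [← dot_self, dot_mulVec_transpose, Matrix.mulVec_mulVec, h, Matrix.one_mulVec, dot_self]
  exact (pow_left_inj₀ (vn_nonneg _) (vn_nonneg _) two_ne_zero).mp this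

lemma Orth.opLe {V : Mat d} (h : Orth V) : OpLe V 1 := by
  intro x; rw [h.vn_mulVec, one_mul]

lemma Orth.hs_mul {V : Mat d} (h : Orth V) (A : Mat d) : hs (V * A) = hs A := by
  apply le_antisymm
  · simpa using hs_mul_le_left h.opLe zero_le_one A
  · have := hs_mul_le_left h.transpose.opLe zero_le_one (V * A)
    rw [← Matrix.mul_assoc, h, Matrix.one_mul] at this
    simpa using this

lemma Orth.hs_mul' {V : Mat d} (h : Orth V) (A : Mat d) : hs (A * V) = hs A := by
  rw [← hs_transpose, Matrix.transpose_mul, h.transpose.hs_mul, hs_transpose]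

lemma Orth.abs_entry_le {V : Mat d} (h : Orth V) (i j : Fin d) : |V i j| ≤ 1 := by
  have h1 : (Vᵀ * V) j j = 1 := by rw [h]; simp
  rw [Matrix.mul_apply] at h1
  have h2 : V i j ^ 2 ≤ 1 := by
    rw [← h1]
    have := Finset.single_le_sum (f := fun i => Vᵀ j i * V i j)
      (fun i _ => by simpa [Matrix.transpose_apply] using mul_self_nonneg (V i j))
      (Finset.mem_univ i)
    simpa [Matrix.transpose_apply, sq] using this
  exact (sq_le_one_iff_abs_le_one _).mp h2

/-! ### quarter turns -/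

/-- The quarter turn in the plane of the coordinates `i`, `j`: `e_i ↦ e_j`, `e_j ↦ - e_i`. -/
def J (i j : Fin d) : Mat d := Matrix.of fun a b =>
  if b = i then (if a = j then 1 else 0) else
  if b = j then (if a = i then -1 else 0) else
  if a = b then 1 else 0

lemma mul_J_apply (V : Mat d) {i j : Fin d} (hij : i ≠ j) (a b : Fin d) :
    (V * J i j) a b = if b = i then V a j else if b = j then - V a i else V a b := by
  rw [Matrix.mul_apply]
  by_cases hb : b = i
  · subst hb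
    simp [J]
  · by_cases hb' : b = j
    · subst hb'
      simp [J, hb]
    · simp [J, hb, hb']

lemma Orth_J {i j : Fin d} (hij : i ≠ j) : Orth (J i j) := by
  have hT : (J i j)ᵀ = J j i := by
    ext a b
    simp only [J, Matrix.transpose_apply, Matrix.of_apply]
    by_cases h1 : a = i <;> by_cases h2 : a = j <;> by_cases h3 : b = i <;> by_cases h4 : b = j <;>
      simp_all [eq_comm]
  unfold Orth
  rw [hT]
  ext a b
  rw [mul_J_apply _ hij]
  by_cases h3 : b = i
  · subst h3; simp [J, Matrix.one_apply, hij.symm, hij]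
  · by_cases h4 : b = j
    · subst h4; simp only [J, Matrix.one_apply, h3, Matrix.of_apply, if_true, if_false]
      simp only [hij, if_false]
      by_cases h : a = b <;> simp [h]
    · simp [J, Matrix.one_apply, h3, h4]

end hs
end Pool.Agent.Helper81.RIP
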