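import Pool.Agent.Helper81.RIP.Basic

/-!
# Definitions for the flat random orthogonal matrix (MP_00538b_an)
-/

namespace Pool.Agent.Helper81.RIP
open MeasureTheory ProbabilityTheory Matrix

variable {d : ℕ}

/-! ### truncation, polar part -/

/-- Truncation of a number at the level `c`. -/
noncomputable def cl (c s : ℝ) : ℝ := max (-c) (min c s)

/-- Entrywise truncation. -/
noncomputable def clM (c : ℝ) (V : Mat d) : Mat d := Matrix.of fun i j => cl c (V i j)

/-- The tail of `V` beyond the level `c`. -/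
noncomputable def Rm (c : ℝ) (V : Mat d) : Mat d := V - clM c V

/-- `Q` is the orthogonal polar part of the invertible matrix `N`. -/
def PolRel (N Q : Mat d) : Prop :=
  Orth Q ∧ ∃ P : Mat d, Pᵀ = P ∧ (∃ σ : ℝ, 0 < σ ∧ ∀ x, σ * vn x ^ 2 ≤ x ⬝ᵥ (P *ᵥ x)) ∧ N = Q * P

open Classical in
/-- The orthogonal polar part. -/
noncomputable def pol (N : Mat d) : Mat d := if h : ∃ Q, PolRel N Q then h.choose else 1

/-- One flattening step: reflect the entries at the level `c`, then take the polar part. -/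
noncomputable def Phi (c : ℝ) (V : Mat d) : Mat d := pol (V - (2 : ℝ) • Rm c V)

/-- The error `Phi c V - clM c V`. -/
noncomputable def Wm (c : ℝ) (V : Mat d) : Mat d := Phi c V - clM c V

/-- The entries beyond the level `c`. -/
noncomputable def exc (c : ℝ) (V : Mat d) : Finset (Fin d × Fin d) :=
  Finset.univ.filter fun p => c < |V p.1 p.2|

/-- The good event of one flattening step. -/
def Om (c p ε : ℝ) : Set (Mat d) :=
  {V | Orth V ∧ ((exc c V).card : ℝ) ≤ p * d ^ 2 ∧ OpLe (Rm c V) ε}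

/-! ### measures on matrices -/

/-- Invariance under the multiplication with quarter turns. -/
def Inv (ν : Measure (Mat d)) : Prop :=
  ∀ i j : Fin d, i ≠ j → ν.map (fun V => V * J i j) = ν ∧ ν.map (fun V => J i j * V) = ν

/-- Concentration at the scale `L / √d` for functions which are Lipschitz on a set. -/
def Conc (L : ℝ) (ν : Measure (Mat d)) : Prop :=
  ∀ (A : Set (Mat d)) (f : Mat d → ℝ) (l : ℝ), MeasurableSet A → 0 ≤ l →
    (∀ V ∈ A, ∀ V' ∈ A, |f V - f V'| ≤ l * hs (V - V')) →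
    ∃ a : ℝ, ∀ u : ℝ, 0 < u →
      ν {V | V ∈ A ∧ l * L * u < Real.sqrt d * |f V - a|} ≤ ENNReal.ofReal (4 * Real.exp (-u ^ 2))

/-- The properties which are kept by the iteration. -/
structure State (L κ q : ℝ) (ν : Measure (Mat d)) : Prop where
  le_one : ν Set.univ ≤ 1
  orth : ∀ᵐ V ∂ν, Orth V
  inv : Inv ν
  conc : Conc L ν
  prob : ∀ i j, ν {V | κ / Real.sqrt d < |V i j|} ≤ ENNReal.ofReal q
  sq : ∀ i j, ∫⁻ V, ENNReal.ofReal (Rm (κ / Real.sqrt d) V i j ^ 2) ∂ν ≤ ENNReal.ofReal (q / d)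

/-! ### the random step -/

/-- Gaussian coordinates. -/
abbrev GG (d : ℕ) := EuclideanSpace ℝ (Fin d × Fin d)

/-- The standard Gaussian measure on the coordinates. -/
noncomputable abbrev gam (d : ℕ) : Measure (GG d) := stdGaussian (GG d)

/-- Coordinates to matrix. -/
def toM (x : GG d) : Mat d := Matrix.of fun i j => x (i, j)

/-- Cayley transform. -/
noncomputable def cay (S : Mat d) : Mat d :=
  (1 - (1 / 2 : ℝ) • S)⁻¹ * (1 + (1 / 2 : ℝ) • S)

/-- Random skew matrix of scale `t`. -/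
noncomputable def sk (t : ℝ) (x : GG d) : Mat d := (t / 2) • (toM x - (toM x)ᵀ)

/-- Random rotation. -/
noncomputable def XX (t : ℝ) (x : GG d) : Mat d := cay (sk t x)

/-- The Markov operator of the walk. -/
noncomputable def PP (t : ℝ) (F : Mat d → ℝ) : Mat d → ℝ := fun U => ∫ x, F (U * XX t x) ∂(gam d)

/-- Locally `L`-Lipschitz on the orthogonal group, with a quadratic error. -/
def QL (F : Mat d → ℝ) (L : ℝ) : Prop :=
  ∃ B : ℝ, 0 ≤ B ∧ ∀ U V : Mat d, Orth U → Orth V →
    |F V - F U| ≤ L * hs (V - U) + B * hs (V - U) ^ 2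

/-- Globally 1-Lipschitz. -/
def Lip1 (F : Mat d → ℝ) : Prop := ∀ U V : Mat d, |F U - F V| ≤ hs (U - V)

/-- One step of the walk, on the level of the laws. -/
noncomputable def stepM (t : ℝ) (μ : Measure (Mat d)) : Measure (Mat d) :=
  (μ.prod (gam d)).map (fun p => p.1 * XX t p.2)

/-- The contraction factor of one step. -/
noncomputable def rr (d : ℕ) (t : ℝ) : ℝ := Real.sqrt (1 - t ^ 2 * (d - 2) / 8)

/-! ### the final statement -/

/-- The rows in `T` of the complex matrix `U` have the `m`-RIP: after multiplication by a positive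
scalar, the norm of every vector with at most `m` nonzero coordinates is changed by a factor
between 1 and 2. -/
def HasRIP (U : Matrix (Fin d) (Fin d) ℂ) (T : Finset (Fin d)) (m : ℕ) : Prop :=
  ∃ s : ℝ, 0 < s ∧ ∀ x : Fin d → ℂ, (Finset.univ.filter fun j => x j ≠ 0).card ≤ m →
    Real.sqrt (∑ j, ‖x j‖ ^ 2) ≤ s * Real.sqrt (∑ i ∈ T, ‖(U *ᵥ x) i‖ ^ 2) ∧
    s * Real.sqrt (∑ i ∈ T, ‖(U *ᵥ x) i‖ ^ 2) ≤ 2 * Real.sqrt (∑ j, ‖x j‖ ^ 2)

open Classical in
/-- A uniformly random set of `k` rows of `U` has the `m`-RIP with probability at least `1/2`. -/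
def GoodK (U : Matrix (Fin d) (Fin d) ℂ) (m k : ℕ) : Prop :=
  k ≤ d ∧ (d.choose k : ℝ) / 2 ≤
    (((Finset.univ : Finset (Fin d)).powersetCard k).filter fun T => HasRIP U T m).card

/-- `k_U(m)`. -/
noncomputable def kRIP (U : Matrix (Fin d) (Fin d) ℂ) (m : ℕ) : ℕ := sInf {k | GoodK U m k}

end Pool.Agent.Helper81.RIP
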