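import Pool.Agent.Helper81.RIP.Defs

/-!
# Part E1: moments and centres from concentration
-/

namespace Pool.Agent.Helper81.RIP
open MeasureTheory ProbabilityTheory Matrix Set

variable {d : ℕ}

namespace E1aux

/-- a function which is Lipschitz for the Hilbert-Schmidt norm is continuous -/
lemma cont_of_lip {f : Mat d → ℝ} {l : ℝ} (h : ∀ V V', |f V - f V'| ≤ l * hs (V - V')) :
    Continuous f := by
  rw [continuous_iff_continuousAt]
  intro V₀
  have hc : Continuous fun V : Mat d => l * hs (V - V₀) :=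
    continuous_const.mul (continuous_hs.comp (continuous_id.sub continuous_const))
  have h0 : Filter.Tendsto (fun V : Mat d => l * hs (V - V₀)) (nhds V₀) (nhds 0) := by
    have := hc.tendsto V₀
    simpa using this
  rw [ContinuousAt, tendsto_iff_dist_tendsto_zero]
  refine squeeze_zero (fun _ => dist_nonneg) (fun V => ?_) h0
  rw [Real.dist_eq]
  exact h V V₀

lemma int_gauss {σ : ℝ} (hσ : 0 < σ) :
    ∫ t in Ioi (0 : ℝ), Real.exp (-(t / σ) ^ 2) = σ * (Real.sqrt Real.pi / 2) := by
  have h := integral_gaussian_Ioi (1 / σ ^ 2)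
  have e : ∀ t : ℝ, -(t / σ) ^ 2 = -(1 / σ ^ 2) * t ^ 2 := by
    intro t; field_simp
  simp only [e]
  rw [h]
  have : Real.pi / (1 / σ ^ 2) = Real.pi * σ ^ 2 := by field_simp
  rw [this, Real.sqrt_mul Real.pi_pos.le, Real.sqrt_sq hσ.le]
  ring

lemma intble_gauss {σ : ℝ} (hσ : 0 < σ) :
    Integrable (fun t : ℝ => Real.exp (-(t / σ) ^ 2)) := by
  have h := integrable_exp_neg_mul_sq (b := 1 / σ ^ 2) (by positivity)
  have e : ∀ t : ℝ, -(t / σ) ^ 2 = -(1 / σ ^ 2) * t ^ 2 := by
    intro t; field_simp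
  simp only [e]
  exact h

lemma intble_mul_gauss {σ : ℝ} (hσ : 0 < σ) :
    Integrable (fun t : ℝ => t * Real.exp (-(t / σ) ^ 2)) := by
  have h := integrable_mul_exp_neg_mul_sq (b := 1 / σ ^ 2) (by positivity)
  have e : ∀ t : ℝ, -(t / σ) ^ 2 = -(1 / σ ^ 2) * t ^ 2 := by
    intro t; field_simp
  simp only [e]
  exact h

lemma int_mul_gauss {σ : ℝ} (hσ : 0 < σ) :
    ∫ t in Ioi (0 : ℝ), t * Real.exp (-(t / σ) ^ 2) = σ ^ 2 / 2 := by
  have h := integral_rpow_mul_exp_neg_mul_rpow (p := 2) (q := 1) (b := 1 / σ ^ 2)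
    two_pos (by norm_num) (by positivity)
  have e : ∀ t ∈ Ioi (0 : ℝ), t * Real.exp (-(t / σ) ^ 2) =
      t ^ (1 : ℝ) * Real.exp (-(1 / σ ^ 2) * t ^ (2 : ℝ)) := by
    intro t _
    rw [Real.rpow_one, Real.rpow_two]
    congr 2
    field_simp
  rw [setIntegral_congr_fun measurableSet_Ioi e, h]
  have h2 : (-(1 + 1) / 2 : ℝ) = -1 := by norm_num
  have h3 : ((1 + 1) / 2 : ℝ) = 1 := by norm_num
  rw [h2, h3, Real.Gamma_one, Real.rpow_neg_one]
  field_simp

/-- first moment from the tail -/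
lemma tail_abs {ν : Measure (Mat d)} {f : Mat d → ℝ} (hf : AEMeasurable f ν) {σ : ℝ} (hσ : 0 < σ)
    (h : ∀ u : ℝ, 0 < u → ν {V | σ * u < |f V|} ≤ ENNReal.ofReal (4 * Real.exp (-u ^ 2))) :
    ∫⁻ V, ENNReal.ofReal |f V| ∂ν ≤ ENNReal.ofReal (2 * Real.sqrt Real.pi * σ) := by
  have hm : AEMeasurable (fun V => |f V|) ν := hf.abs
  rw [lintegral_eq_lintegral_meas_lt ν (Filter.Eventually.of_forall fun _ => abs_nonneg _) hm]
  calc ∫⁻ t in Ioi (0 : ℝ), ν {a | t < |f a|}
      ≤ ∫⁻ t in Ioi (0 : ℝ), ENNReal.ofReal (4 * Real.exp (-(t / σ) ^ 2)) := by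
        refine lintegral_mono_ae ?_
        filter_upwards [ae_restrict_mem measurableSet_Ioi] with t ht
        have ht' : 0 < t := ht
        have := h (t / σ) (by positivity)
        have e : σ * (t / σ) = t := by field_simp
        rw [e] at this
        exact this
    _ = ENNReal.ofReal (∫ t in Ioi (0 : ℝ), 4 * Real.exp (-(t / σ) ^ 2)) := by
        rw [ofReal_integral_eq_lintegral_ofReal]
        · exact ((intble_gauss hσ).const_mul 4).integrableOn
        · exact Filter.Eventually.of_forall fun _ => by positivity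
    _ = ENNReal.ofReal (2 * Real.sqrt Real.pi * σ) := by
        rw [integral_const_mul, int_gauss hσ]
        congr 1
        ring

end E1aux
open E1aux

/-- E0: truncated second moment from the tail. -/
theorem tail_sq {ν : Measure (Mat d)} {f : Mat d → ℝ} (hf : AEMeasurable f ν) {σ : ℝ} (hσ : 0 < σ)
    (h : ∀ u : ℝ, 0 < u → ν {V | σ * u < |f V|} ≤ ENNReal.ofReal (4 * Real.exp (-u ^ 2)))
    {b : ℝ} (hb : 0 ≤ b) :
    ∫⁻ V, ENNReal.ofReal (max (|f V| - σ * b) 0 ^ 2) ∂ν ≤
      ENNReal.ofReal (4 * σ ^ 2 * Real.exp (-b ^ 2)) := by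
  have hm : AEMeasurable (fun V => max (|f V| - σ * b) 0) ν :=
    ((hf.abs).sub_const _).max aemeasurable_const
  have key := lintegral_rpow_eq_lintegral_meas_lt_mul ν (f := fun V => max (|f V| - σ * b) 0)
    (Filter.Eventually.of_forall fun _ => le_max_right _ _) hm (p := 2) two_pos
  have e1 : ∀ V, max (|f V| - σ * b) 0 ^ 2 = max (|f V| - σ * b) 0 ^ (2 : ℝ) := fun V =>
    (Real.rpow_two _).symm
  simp only [e1]
  rw [key]
  have h2 : ∫⁻ t in Ioi (0 : ℝ), ν {a | t < max (|f a| - σ * b) 0} * ENNReal.ofReal (t ^ ((2 : ℝ) - 1))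
      ≤ ∫⁻ t in Ioi (0 : ℝ), ENNReal.ofReal (4 * Real.exp (-b ^ 2) *
        (t * Real.exp (-(t / σ) ^ 2))) := by
    refine lintegral_mono_ae ?_
    filter_upwards [ae_restrict_mem measurableSet_Ioi] with t ht
    have ht' : 0 < t := ht
    have h1 := h (b + t / σ) (by positivity)
    have e : σ * (b + t / σ) = σ * b + t := by field_simp
    rw [e] at h1
    have hs1 : {a | t < max (|f a| - σ * b) 0} = {V | σ * b + t < |f V|} := by
      ext V
      simp only [mem_ofPred_eq, lt_max_iff]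
      constructor
      · rintro (h | h)
        · linarith
        · linarith
      · intro h
        left; linarith
    rw [hs1]
    have e3 : (2 : ℝ) - 1 = 1 := by norm_num
    rw [e3, Real.rpow_one]
    calc ν {V | σ * b + t < |f V|} * ENNReal.ofReal t
        ≤ ENNReal.ofReal (4 * Real.exp (-(b + t / σ) ^ 2)) * ENNReal.ofReal t := by
          gcongr
      _ = ENNReal.ofReal (4 * Real.exp (-(b + t / σ) ^ 2) * t) :=
          (ENNReal.ofReal_mul (by positivity)).symm
      _ ≤ _ := by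
          apply ENNReal.ofReal_le_ofReal
          have : Real.exp (-(b + t / σ) ^ 2) ≤ Real.exp (-b ^ 2) * Real.exp (-(t / σ) ^ 2) := by
            rw [← Real.exp_add]
            apply Real.exp_le_exp.mpr
            have : 0 ≤ b * (t / σ) := by positivity
            nlinarith
          calc 4 * Real.exp (-(b + t / σ) ^ 2) * t
              ≤ 4 * (Real.exp (-b ^ 2) * Real.exp (-(t / σ) ^ 2)) * t := by gcongr
            _ = _ := by ring
  have h3 : ∫⁻ t in Ioi (0 : ℝ), ENNReal.ofReal (4 * Real.exp (-b ^ 2) *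
        (t * Real.exp (-(t / σ) ^ 2))) =
      ENNReal.ofReal (4 * Real.exp (-b ^ 2) * (σ ^ 2 / 2)) := by
    rw [← int_mul_gauss hσ, ← integral_const_mul]
    rw [ofReal_integral_eq_lintegral_ofReal]
    · exact ((intble_mul_gauss hσ).const_mul _).integrableOn
    · filter_upwards [ae_restrict_mem measurableSet_Ioi] with t ht
      have ht' : 0 < t := ht
      positivity
  calc ENNReal.ofReal 2 * ∫⁻ t in Ioi (0 : ℝ), ν {a | t < max (|f a| - σ * b) 0} *
        ENNReal.ofReal (t ^ ((2 : ℝ) - 1))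
      ≤ ENNReal.ofReal 2 * ENNReal.ofReal (4 * Real.exp (-b ^ 2) * (σ ^ 2 / 2)) := by
        gcongr
        exact h2.trans h3.le
    _ = ENNReal.ofReal (4 * σ ^ 2 * Real.exp (-b ^ 2)) := by
        rw [← ENNReal.ofReal_mul two_pos.le]
        congr 1
        ring

/-- E1 -/
theorem conc_mean (hd : 1 ≤ d) {L : ℝ} (hL : 1 ≤ L) {ν : Measure (Mat d)} (hν : ν Set.univ ≤ 1)
    (hc : Conc L ν) {A : Set (Mat d)} (hA : MeasurableSet A) (hA' : 1 / 4 ≤ ν.real A)
    {f : Mat d → ℝ} {l : ℝ} (hl : 0 ≤ l)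
    (hf : ∀ V ∈ A, ∀ V' ∈ A, |f V - f V'| ≤ l * hs (V - V'))
    (hfi : IntegrableOn f A ν) (h0 : ∫ V in A, f V ∂ν = 0) (u : ℝ) (hu : 0 < u) :
    ν {V | V ∈ A ∧ 16 * l * L * u < Real.sqrt d * |f V|} ≤
      ENNReal.ofReal (4 * Real.exp (-u ^ 2)) := by
  have : IsFiniteMeasure ν := ⟨lt_of_le_of_lt hν ENNReal.one_lt_top⟩
  have hd' : (1 : ℝ) ≤ d := by exact_mod_cast hd
  have hsd : 0 < Real.sqrt d := Real.sqrt_pos.mpr (by linarith)
  rcases hl.eq_or_lt with hl0 | hl0
  · -- constant function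
    subst hl0
    have hempty : {V | V ∈ A ∧ 16 * 0 * L * u < Real.sqrt d * |f V|} = ∅ := by
      rw [Set.eq_empty_iff_forall_notMem]
      rintro V₀ ⟨hV₀, hlt⟩
      have hne : f V₀ ≠ 0 := by
        intro h
        rw [h] at hlt
        simp at hlt
      have hcst : ∀ V ∈ A, f V = f V₀ := by
        intro V hV
        have := hf V hV V₀ hV₀
        rw [zero_mul] at this
        have := abs_nonpos_iff.mp this
        linarith
      rw [setIntegral_congr_fun hA hcst, setIntegral_const, smul_eq_mul] at h0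
      rcases mul_eq_zero.mp h0 with h | h
      · rw [h] at hA'; norm_num at hA'
      · exact hne h
    rw [hempty]
    simp
  · obtain ⟨a, ha⟩ := hc A f l hA hl hf
    set σ : ℝ := l * L / Real.sqrt d with hσdef
    have hσ : 0 < σ := by positivity
    -- the first moment
    have htail : ∀ v : ℝ, 0 < v → (ν.restrict A) {V | σ * v < |f V - a|} ≤
        ENNReal.ofReal (4 * Real.exp (-v ^ 2)) := by
      intro v hv
      rw [Measure.restrict_apply' hA]
      refine le_trans (measure_mono ?_) (ha v hv)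
      rintro V ⟨h1, h2⟩
      refine ⟨h2, ?_⟩
      have h1' : σ * v < |f V - a| := h1
      rw [hσdef] at h1'
      rw [div_mul_eq_mul_div, div_lt_iff₀ hsd] at h1'
      linarith
    have hm : AEMeasurable (fun V => f V - a) (ν.restrict A) :=
      hfi.aemeasurable.sub_const a
    have h1 := tail_abs hm hσ htail
    have hint : Integrable (fun V => f V - a) (ν.restrict A) := hfi.sub (integrable_const a)
    have h2 : ∫ V in A, |f V - a| ∂ν ≤ 2 * Real.sqrt Real.pi * σ := by
      rw [integral_eq_lintegral_of_nonneg_ae (Filter.Eventually.of_forall fun _ => abs_nonneg _)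
        hint.abs.aestronglyMeasurable]
      refine ENNReal.toReal_le_of_le_ofReal (by positivity) h1
    have h3 : |a| * ν.real A ≤ ∫ V in A, |f V - a| ∂ν := by
      have e : ∫ V in A, (f V - a) ∂ν = -(ν.real A * a) := by
        rw [integral_sub hfi (integrable_const a), h0, setIntegral_const, smul_eq_mul]
        ring
      calc |a| * ν.real A = |∫ V in A, (f V - a) ∂ν| := by
            rw [e, abs_neg, abs_mul, abs_of_nonneg measureReal_nonneg]
            ring
        _ ≤ ∫ V in A, |f V - a| ∂ν := abs_integral_le_integral_abs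
    have hpi : Real.sqrt Real.pi ≤ 1.8 := by
      rw [show (1.8 : ℝ) = Real.sqrt (1.8 ^ 2) from (Real.sqrt_sq (by norm_num)).symm]
      apply Real.sqrt_le_sqrt
      have := Real.pi_lt_d2
      norm_num
      linarith
    have h4 : |a| ≤ 14.4 * σ := by
      have h5 : |a| * (1 / 4) ≤ |a| * ν.real A := by gcongr
      have h6 : 2 * Real.sqrt Real.pi * σ ≤ 3.6 * σ := by
        apply mul_le_mul_of_nonneg_right _ hσ.le
        linarith
      linarith
    have h4' : Real.sqrt d * |a| ≤ 14.4 * (l * L) := by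
      have : Real.sqrt d * σ = l * L := by
        rw [hσdef]; field_simp
      calc Real.sqrt d * |a| ≤ Real.sqrt d * (14.4 * σ) := by gcongr
        _ = 14.4 * (l * L) := by rw [← this]; ring
    have hlL : 0 < l * L := by positivity
    rcases le_or_gt 1 u with hu1 | hu1
    · refine le_trans (measure_mono ?_) (ha u hu)
      rintro V ⟨hV, hlt⟩
      refine ⟨hV, ?_⟩
      have h7 : |f V| ≤ |f V - a| + |a| := by
        have := abs_add_le (f V - a) a
        simpa using this
      have h8 : Real.sqrt d * |f V| ≤ Real.sqrt d * |f V - a| + Real.sqrt d * |a| := by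
        rw [← mul_add]
        gcongr
      have h9 : l * L * u ≤ 16 * l * L * u - 14.4 * (l * L) := by
        nlinarith
      linarith
    · calc ν {V | V ∈ A ∧ 16 * l * L * u < Real.sqrt d * |f V|} ≤ ν Set.univ :=
            measure_mono (Set.subset_univ _)
        _ ≤ 1 := hν
        _ = ENNReal.ofReal 1 := by simp
        _ ≤ _ := by
            apply ENNReal.ofReal_le_ofReal
            have h10 : Real.exp (-1) ≤ Real.exp (-u ^ 2) := by
              apply Real.exp_le_exp.mpr
              nlinarith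
            have h11 : (1 : ℝ) / 4 ≤ Real.exp (-1) := by
              rw [Real.exp_neg]
              rw [one_div]
              apply inv_anti₀ (Real.exp_pos 1)
              have := Real.exp_one_lt_d9
              linarith
            linarith

/-- E2 -/
theorem conc_sq (hd : 1 ≤ d) {L : ℝ} (hL : 1 ≤ L) {ν : Measure (Mat d)} (hν : ν Set.univ ≤ 1)
    (hν' : 1 / 4 ≤ ν.real Set.univ) (hc : Conc L ν)
    {f : Mat d → ℝ} (hf : ∀ V V', |f V - f V'| ≤ hs (V - V')) {δ : ℝ} (hδ : 0 ≤ δ)
    (h2 : ∫⁻ V, ENNReal.ofReal (f V ^ 2) ∂ν ≤ ENNReal.ofReal (δ ^ 2)) (u : ℝ) (hu : 0 < u) :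
    ν {V | 3 * δ * Real.sqrt d + 6 * L + L * u < Real.sqrt d * |f V|} ≤
      ENNReal.ofReal (4 * Real.exp (-u ^ 2)) := by
  have : IsFiniteMeasure ν := ⟨lt_of_le_of_lt hν ENNReal.one_lt_top⟩
  have hd' : (1 : ℝ) ≤ d := by exact_mod_cast hd
  have hsd : 0 < Real.sqrt d := Real.sqrt_pos.mpr (by linarith)
  have hcont : Continuous f := cont_of_lip (l := 1) (by simpa using hf)
  obtain ⟨a, ha⟩ := hc Set.univ f 1 MeasurableSet.univ zero_le_one (by simpa using hf)
  -- the two exceptional sets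
  have hE1 : ν {V | 3 * δ < |f V|} ≤ ENNReal.ofReal (1 / 9) := by
    rcases hδ.eq_or_lt with hδ0 | hδ0
    · subst hδ0
      have h0 : ∫⁻ V, ENNReal.ofReal (f V ^ 2) ∂ν = 0 := by
        apply le_antisymm _ bot_le
        simpa using h2
      rw [lintegral_eq_zero_iff (by fun_prop)] at h0
      have : ν {V | 3 * 0 < |f V|} = 0 := by
        rw [← nonpos_iff_eq_zero]
        have h00 : ν {V | ¬ (ENNReal.ofReal (f V ^ 2) = 0)} = 0 := h0
        rw [← h00]
        apply measure_mono
        intro V hV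
        have hV' : 0 < |f V| := by simpa using hV
        have : 0 < f V ^ 2 := by
          rw [← sq_abs]; positivity
        simpa using (sq_pos_iff.mp this)
      rw [this]; exact bot_le
    · have h3 := mul_meas_ge_le_lintegral (μ := ν) (f := fun V => ENNReal.ofReal (f V ^ 2))
        (by fun_prop) (ENNReal.ofReal (9 * δ ^ 2))
      have h4 : ν {V | 3 * δ < |f V|} ≤ ν {x | ENNReal.ofReal (9 * δ ^ 2) ≤ ENNReal.ofReal (f x ^ 2)} := by
        apply measure_mono
        intro V hV
        have hV' : 3 * δ < |f V| := hV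
        apply ENNReal.ofReal_le_ofReal
        rw [← sq_abs (f V)]
        nlinarith
      have h5 : ENNReal.ofReal (9 * δ ^ 2) * ν {V | 3 * δ < |f V|} ≤ ENNReal.ofReal (δ ^ 2) :=
        (mul_le_mul_right h4 _).trans (h3.trans h2)
      have h6 : 9 * δ ^ 2 * ν.real {V | 3 * δ < |f V|} ≤ δ ^ 2 := by
        have := ENNReal.toReal_mono (by simp) h5
        rw [ENNReal.toReal_mul, ENNReal.toReal_ofReal (by positivity),
          ENNReal.toReal_ofReal (by positivity)] at this
        exact this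
      have h7 : ν.real {V | 3 * δ < |f V|} ≤ 1 / 9 := by
        have hδ2 : 0 < δ ^ 2 := by positivity
        by_contra hcon
        push Not at hcon
        nlinarith
      rw [← ofReal_measureReal (measure_ne_top _ _)]
      exact ENNReal.ofReal_le_ofReal h7
  have hE2 := ha 2 two_pos
  -- a good point
  have hgood : ∃ V, |f V| ≤ 3 * δ ∧ Real.sqrt d * |f V - a| ≤ 2 * L := by
    by_contra hcon
    push Not at hcon
    have hcov : (Set.univ : Set (Mat d)) ⊆ {V | 3 * δ < |f V|} ∪
        {V | V ∈ Set.univ ∧ 1 * L * 2 < Real.sqrt d * |f V - a|} := by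
      intro V _
      rcases le_or_gt (|f V|) (3 * δ) with h | h
      · right
        refine ⟨trivial, ?_⟩
        have := hcon V h
        linarith
      · left; exact h
    have h3 : ν Set.univ ≤ ENNReal.ofReal (1 / 9) + ENNReal.ofReal (4 * Real.exp (-2 ^ 2)) :=
      (measure_mono hcov).trans ((measure_union_le _ _).trans (add_le_add hE1 hE2))
    rw [← ENNReal.ofReal_add (by norm_num) (by positivity)] at h3
    have h4 : ν.real Set.univ ≤ 1 / 9 + 4 * Real.exp (-2 ^ 2) :=
      ENNReal.toReal_le_of_le_ofReal (by positivity) h3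
    have h5 : Real.exp (-2 ^ 2) ≤ 1 / 31 := by
      rw [show (-2 ^ 2 : ℝ) = -(4 : ℝ) by norm_num, Real.exp_neg, one_div]
      apply inv_anti₀ (by norm_num)
      have h6 : Real.exp 4 = Real.exp 1 ^ 4 := by
        rw [← Real.exp_nat_mul]; norm_num
      rw [h6]
      have h7 : (2.7 : ℝ) ≤ Real.exp 1 := by
        have := Real.exp_one_gt_d9
        linarith
      calc (31 : ℝ) ≤ 2.7 ^ 4 := by norm_num
        _ ≤ Real.exp 1 ^ 4 := by gcongr
    linarith
  obtain ⟨V₀, hV₀1, hV₀2⟩ := hgood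
  have hab : Real.sqrt d * |a| ≤ 3 * δ * Real.sqrt d + 2 * L := by
    have h3 : |a| ≤ |f V₀| + |f V₀ - a| := by
      have := abs_sub (f V₀) (f V₀ - a)
      have h4 : f V₀ - (f V₀ - a) = a := by ring
      rw [h4] at this
      exact this
    calc Real.sqrt d * |a| ≤ Real.sqrt d * (|f V₀| + |f V₀ - a|) := by gcongr
      _ = Real.sqrt d * |f V₀| + Real.sqrt d * |f V₀ - a| := by ring
      _ ≤ Real.sqrt d * (3 * δ) + 2 * L := by gcongr
      _ = _ := by ring
  refine le_trans (measure_mono ?_) (ha u hu)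
  intro V hV
  have hV' : 3 * δ * Real.sqrt d + 6 * L + L * u < Real.sqrt d * |f V| := hV
  refine ⟨trivial, ?_⟩
  have h7 : |f V| ≤ |f V - a| + |a| := by
    have := abs_add_le (f V - a) a
    simpa using this
  have h8 : Real.sqrt d * |f V| ≤ Real.sqrt d * |f V - a| + Real.sqrt d * |a| := by
    rw [← mul_add]
    gcongr
  linarith

/-- E3: the centre is the root of the second moment. -/
theorem conc_centre (hd : 1 ≤ d) {L : ℝ} (hL : 1 ≤ L) {ν : Measure (Mat d)} (hν : ν Set.univ ≤ 1)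
    (hν' : 1 / 4 ≤ ν.real Set.univ) (hc : Conc L ν)
    {f : Mat d → ℝ} (hf0 : ∀ V, 0 ≤ f V) (hf : ∀ V V', |f V - f V'| ≤ hs (V - V')) {δ : ℝ}
    (hδ : 0 ≤ δ) (h2 : ∫ V, f V ^ 2 ∂ν = δ ^ 2 * ν.real Set.univ)
    (hi : Integrable (fun V => f V ^ 2) ν) (u : ℝ) (hu : 0 < u) :
    ν {V | 8 * L + L * u < Real.sqrt d * |f V - δ|} ≤
      ENNReal.ofReal (4 * Real.exp (-u ^ 2)) := by
  have : IsFiniteMeasure ν := ⟨lt_of_le_of_lt hν ENNReal.one_lt_top⟩
  have hd' : (1 : ℝ) ≤ d := by exact_mod_cast hd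
  have hsd : 0 < Real.sqrt d := Real.sqrt_pos.mpr (by linarith)
  have hcont : Continuous f := cont_of_lip (l := 1) (by simpa using hf)
  obtain ⟨a, ha⟩ := hc Set.univ f 1 MeasurableSet.univ zero_le_one (by simpa using hf)
  set α : ℝ := |a| with hα
  have hα0 : 0 ≤ α := abs_nonneg a
  have hfα : ∀ V, |f V - α| ≤ |f V - a| := by
    intro V
    have := abs_abs_sub_abs_le_abs_sub (f V) a
    rwa [abs_of_nonneg (hf0 V)] at this
  have hα2 : ∀ v : ℝ, 0 < v → ν {V | L * v < Real.sqrt d * |f V - α|} ≤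
      ENNReal.ofReal (4 * Real.exp (-v ^ 2)) := by
    intro v hv
    refine le_trans (measure_mono ?_) (ha v hv)
    intro V hV
    have hV' : L * v < Real.sqrt d * |f V - α| := hV
    refine ⟨trivial, ?_⟩
    have : Real.sqrt d * |f V - α| ≤ Real.sqrt d * |f V - a| :=
      mul_le_mul_of_nonneg_left (hfα V) hsd.le
    linarith
  set σ : ℝ := L / Real.sqrt d with hσdef
  have hσ : 0 < σ := by positivity
  have htail : ∀ v : ℝ, 0 < v → ν {V | σ * v < |f V - α|} ≤
      ENNReal.ofReal (4 * Real.exp (-v ^ 2)) := by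
    intro v hv
    refine le_trans (measure_mono ?_) (hα2 v hv)
    intro V hV
    have hV' : σ * v < |f V - α| := hV
    rw [hσdef, div_mul_eq_mul_div, div_lt_iff₀ hsd] at hV'
    show L * v < Real.sqrt d * |f V - α|
    linarith
  have h3 := tail_sq (f := fun V => f V - α) (by fun_prop) hσ htail (b := 0) le_rfl
  have hfint : Integrable f ν := by
    refine Integrable.mono' (hi.add (integrable_const (1 : ℝ))) hcont.aestronglyMeasurable ?_
    refine Filter.Eventually.of_forall fun V => ?_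
    rw [Real.norm_eq_abs, abs_of_nonneg (hf0 V)]
    show f V ≤ f V ^ 2 + 1
    nlinarith [sq_nonneg (f V - 1)]
  have hexp : ∀ s : ℝ, ∫ V, (f V - s) ^ 2 ∂ν =
      δ ^ 2 * ν.real Set.univ - 2 * s * ∫ V, f V ∂ν + s ^ 2 * ν.real Set.univ := by
    intro s
    have e : ∀ V, (f V - s) ^ 2 = f V ^ 2 - 2 * s * f V + s ^ 2 := by intro V; ring
    simp only [e]
    have hi2 : Integrable (fun V => f V ^ 2 - 2 * s * f V) ν := hi.sub (hfint.const_mul _)
    have e1 : ∫ V, (f V ^ 2 - 2 * s * f V + s ^ 2) ∂ν =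
        ∫ V, (f V ^ 2 - 2 * s * f V) ∂ν + ∫ _, s ^ 2 ∂ν := integral_add hi2 (integrable_const _)
    have e2 : ∫ V, (f V ^ 2 - 2 * s * f V) ∂ν = ∫ V, f V ^ 2 ∂ν - ∫ V, 2 * s * f V ∂ν :=
      integral_sub hi (hfint.const_mul _)
    rw [e1, e2, h2, integral_const_mul, integral_const, smul_eq_mul]
    ring
  have hsqint : Integrable (fun V => (f V - α) ^ 2) ν := by
    have e : ∀ V, (f V - α) ^ 2 = f V ^ 2 - 2 * α * f V + α ^ 2 := by intro V; ring
    simp only [e]
    exact (hi.sub (hfint.const_mul _)).add (integrable_const _)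
  have h4 : ∫ V, (f V - α) ^ 2 ∂ν ≤ 4 * σ ^ 2 := by
    rw [integral_eq_lintegral_of_nonneg_ae (Filter.Eventually.of_forall fun _ => sq_nonneg _)
      hsqint.aestronglyMeasurable]
    refine ENNReal.toReal_le_of_le_ofReal (by positivity) ?_
    have e : ∀ V, max (|f V - α| - σ * 0) 0 ^ 2 = (f V - α) ^ 2 := by
      intro V
      rw [mul_zero, sub_zero, max_eq_left (abs_nonneg _), sq_abs]
    simp only [e] at h3
    simpa using h3
  have hm0 : 0 < ν.real Set.univ := by linarith
  -- Cauchy-Schwarz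
  have hCS : ∫ V, f V ∂ν ≤ δ * ν.real Set.univ := by
    rcases hδ.eq_or_lt with hδ0 | hδ0
    · subst hδ0
      have h5 : ∫ V, f V ^ 2 ∂ν = 0 := by rw [h2]; ring
      rw [integral_eq_zero_iff_of_nonneg (fun _ => sq_nonneg _) hi] at h5
      have h6 : ∫ V, f V ∂ν = 0 := by
        rw [integral_eq_zero_iff_of_nonneg hf0 hfint]
        filter_upwards [h5] with V hV
        simpa using hV
      rw [h6]; simp
    · have h5 : 0 ≤ ∫ V, (f V - δ) ^ 2 ∂ν := integral_nonneg fun _ => sq_nonneg _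
      rw [hexp δ] at h5
      have h6 : 2 * δ * (∫ V, f V ∂ν) ≤ 2 * δ * (δ * ν.real Set.univ) := by
        nlinarith
      exact le_of_mul_le_mul_left h6 (by positivity)
  have h7 : (δ - α) ^ 2 ≤ 16 * σ ^ 2 := by
    rw [hexp α] at h4
    have h8 : α * (∫ V, f V ∂ν) ≤ α * (δ * ν.real Set.univ) := by gcongr
    have h9 : (δ - α) ^ 2 * ν.real Set.univ ≤ 4 * σ ^ 2 := by
      nlinarith
    have h10 : (δ - α) ^ 2 * (1 / 4) ≤ (δ - α) ^ 2 * ν.real Set.univ := by gcongr
    linarith
  have h8 : |δ - α| ≤ 4 * σ := by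
    apply abs_le_of_sq_le_sq _ (by positivity)
    nlinarith
  have h9 : Real.sqrt d * |δ - α| ≤ 4 * L := by
    have : Real.sqrt d * σ = L := by rw [hσdef]; field_simp
    calc Real.sqrt d * |δ - α| ≤ Real.sqrt d * (4 * σ) := by gcongr
      _ = 4 * L := by rw [← this]; ring
  refine le_trans (measure_mono ?_) (hα2 u hu)
  intro V hV
  have hV' : 8 * L + L * u < Real.sqrt d * |f V - δ| := hV
  show L * u < Real.sqrt d * |f V - α|
  have h10 : |f V - δ| ≤ |f V - α| + |δ - α| := by
    have := abs_sub_le (f V) α δ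
    rw [abs_sub_comm α δ] at this
    exact this
  have h11 : Real.sqrt d * |f V - δ| ≤ Real.sqrt d * |f V - α| + Real.sqrt d * |δ - α| := by
    rw [← mul_add]
    gcongr
  linarith

end Pool.Agent.Helper81.RIP
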