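import Pool.Agent.Helper81.RIP.Defs

/-!
# Part E4: consequences of the invariance under quarter turns
-/

namespace Pool.Agent.Helper81.RIP
open MeasureTheory ProbabilityTheory Matrix

variable {d : ℕ}

lemma J_transpose {i j : Fin d} (hij : i ≠ j) : (J i j)ᵀ = J j i := by
  ext a b
  simp only [J, Matrix.transpose_apply, Matrix.of_apply]
  by_cases h1 : a = i <;> by_cases h2 : a = j <;> by_cases h3 : b = i <;> by_cases h4 : b = j <;>
    simp_all [eq_comm]

/-- right multiplication with an orthogonal matrix, as a homeomorphism -/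
def mulRightHomeo {K : Mat d} (hK : Orth K) : Mat d ≃ₜ Mat d where
  toFun V := V * K
  invFun V := V * Kᵀ
  left_inv V := by
    show V * K * Kᵀ = V
    rw [Matrix.mul_assoc, hK.mul_transpose, Matrix.mul_one]
  right_inv V := by
    show V * Kᵀ * K = V
    have h : Kᵀ * K = 1 := hK
    rw [Matrix.mul_assoc, h, Matrix.mul_one]
  continuous_toFun := continuous_id.matrix_mul continuous_const
  continuous_invFun := continuous_id.matrix_mul continuous_const

/-- transposition, as a homeomorphism -/
def transposeHomeo : Mat d ≃ₜ Mat d where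
  toFun V := Vᵀ
  invFun V := Vᵀ
  left_inv V := Matrix.transpose_transpose V
  right_inv V := Matrix.transpose_transpose V
  continuous_toFun := continuous_id.matrix_transpose
  continuous_invFun := continuous_id.matrix_transpose

/-- the change of variables `V ↦ V J` on an invariant set -/
lemma setIntegral_J {ν : Measure (Mat d)} (hi : Inv ν) {A : Set (Mat d)}
    {i j : Fin d} (hij : i ≠ j) (hAJ : ∀ V, V * J i j ∈ A ↔ V ∈ A) (g : Mat d → ℝ) :
    ∫ V in A, g V ∂ν = ∫ V in A, g (V * J i j) ∂ν := by
  have hmp : MeasurePreserving (fun V : Mat d => V * J i j) ν ν :=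
    ⟨(mulRightHomeo (Orth_J hij)).measurable, (hi i j hij).1⟩
  have hme : MeasurableEmbedding (fun V : Mat d => V * J i j) :=
    (mulRightHomeo (Orth_J hij)).measurableEmbedding
  have h := hmp.setIntegral_preimage_emb hme g A
  have hA : (fun V : Mat d => V * J i j) ⁻¹' A = A := by
    ext V
    exact hAJ V
  rw [hA] at h
  exact h.symm

/-- E4: equivariant matrix functions have mean zero. -/
theorem inv_mean_zero (hd : 2 ≤ d) {ν : Measure (Mat d)} (hν : ν Set.univ ≤ 1) (hi : Inv ν)
    {A : Set (Mat d)} (hA : MeasurableSet A)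
    (hAJ : ∀ i j : Fin d, i ≠ j → ∀ V, V * J i j ∈ A ↔ V ∈ A)
    {G : Mat d → Mat d} (hG : ∀ i j : Fin d, i ≠ j → ∀ V ∈ A, G (V * J i j) = G V * J i j)
    (a b : Fin d) : ∫ V in A, G V a b ∂ν = 0 := by
  have : Nontrivial (Fin d) := Fin.nontrivial_iff_two_le.2 hd
  obtain ⟨j, hj⟩ := exists_ne b
  have hbj : b ≠ j := hj.symm
  have h1 : ∫ V in A, G V a b ∂ν = ∫ V in A, G V a j ∂ν := by
    rw [setIntegral_J hi hbj (hAJ b j hbj)]
    apply setIntegral_congr_fun hA
    intro V hV
    show G (V * J b j) a b = G V a j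
    rw [hG b j hbj V hV, mul_J_apply _ hbj, if_pos rfl]
  have h2 : ∫ V in A, G V a j ∂ν = - ∫ V in A, G V a b ∂ν := by
    rw [setIntegral_J hi hbj (hAJ b j hbj), ← integral_neg]
    apply setIntegral_congr_fun hA
    intro V hV
    show G (V * J b j) a j = - G V a b
    rw [hG b j hbj V hV, mul_J_apply _ hbj, if_neg hj, if_pos rfl]
  linarith

/-- E5: uncorrelated columns. -/
theorem inv_cross_zero (hd : 3 ≤ d) {ν : Measure (Mat d)} (hν : ν Set.univ ≤ 1) (hi : Inv ν)
    {A : Set (Mat d)} (hA : MeasurableSet A)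
    (hAJ : ∀ i j : Fin d, i ≠ j → ∀ V, V * J i j ∈ A ↔ V ∈ A)
    {G : Mat d → Mat d} (hG : ∀ i j : Fin d, i ≠ j → ∀ V ∈ A, G (V * J i j) = G V * J i j)
    (a b c : Fin d) (hbc : b ≠ c) : ∫ V in A, G V a b * G V a c ∂ν = 0 := by
  obtain ⟨j, hj⟩ : ∃ j : Fin d, j ∉ ({b, c} : Finset (Fin d)) := by
    by_contra hcon
    push Not at hcon
    have h1 : (Finset.univ : Finset (Fin d)) ⊆ {b, c} := fun x _ => hcon x
    have h2 := Finset.card_le_card h1
    have h3 := Finset.card_le_two (a := b) (b := c)
    rw [Finset.card_univ, Fintype.card_fin] at h2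
    omega
  rw [Finset.mem_insert, Finset.mem_singleton, not_or] at hj
  have hbj : b ≠ j := fun h => hj.1 h.symm
  have hcj : c ≠ j := fun h => hj.2 h.symm
  have h1 : ∫ V in A, G V a b * G V a c ∂ν = ∫ V in A, G V a j * G V a c ∂ν := by
    rw [setIntegral_J hi hbj (hAJ b j hbj)]
    apply setIntegral_congr_fun hA
    intro V hV
    show G (V * J b j) a b * G (V * J b j) a c = G V a j * G V a c
    rw [hG b j hbj V hV, mul_J_apply _ hbj, if_pos rfl, mul_J_apply _ hbj, if_neg hbc.symm,
      if_neg hcj]
  have h2 : ∫ V in A, G V a j * G V a c ∂ν = - ∫ V in A, G V a b * G V a c ∂ν := by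
    rw [setIntegral_J hi hbj (hAJ b j hbj), ← integral_neg]
    apply setIntegral_congr_fun hA
    intro V hV
    show G (V * J b j) a j * G (V * J b j) a c = - (G V a b * G V a c)
    rw [hG b j hbj V hV, mul_J_apply _ hbj, if_neg hj.1, if_pos rfl, mul_J_apply _ hbj,
      if_neg hbc.symm, if_neg hcj, neg_mul]
  linarith

/-- E6: the second moments of the entries of a row agree. -/
theorem inv_sq_eq {ν : Measure (Mat d)} (hi : Inv ν) (a b c : Fin d) :
    ∫ V, V a b ^ 2 ∂ν = ∫ V, V a c ^ 2 ∂ν := by
  by_cases hbc : b = c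
  · rw [hbc]
  · have h := setIntegral_J hi (A := Set.univ) hbc (fun V => by simp) (fun V => V a b ^ 2)
    rw [Measure.restrict_univ] at h
    rw [h]
    congr 1
    ext V
    rw [mul_J_apply _ hbc, if_pos rfl]

lemma Rm_transpose (c : ℝ) (V : Mat d) (i j : Fin d) : Rm c Vᵀ i j = Rm c V j i := by
  simp [Rm, clM]

/-- E7 -/
theorem State.transpose {L κ q : ℝ} {ν : Measure (Mat d)} (h : State L κ q ν) :
    State L κ q (ν.map Matrix.transpose) := by
  have he : (Matrix.transpose : Mat d → Mat d) = (transposeHomeo (d := d)).toMeasurableEquiv := rfl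
  have hmeas : Measurable (Matrix.transpose : Mat d → Mat d) := (transposeHomeo (d := d)).measurable
  have happ : ∀ s : Set (Mat d), ν.map Matrix.transpose s = ν {V | Vᵀ ∈ s} := by
    intro s
    rw [he, MeasurableEquiv.map_apply]
    rfl
  refine ⟨?_, ?_, ?_, ?_, ?_, ?_⟩
  · rw [happ]
    exact (measure_mono (Set.subset_univ _)).trans h.le_one
  · have hm : MeasurableSet {V : Mat d | Orth V} := by
      have hcl : IsClosed {V : Mat d | Orth V} := by
        unfold Orth
        exact isClosed_eq (continuous_id.matrix_transpose.matrix_mul continuous_id) continuous_const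
      exact hcl.measurableSet
    rw [ae_map_iff hmeas.aemeasurable hm]
    filter_upwards [h.orth] with V hV using hV.transpose
  · intro i j hij
    have hm1 : Measurable (fun V : Mat d => V * J i j) := (mulRightHomeo (Orth_J hij)).measurable
    have hm2 : Measurable (fun V : Mat d => J i j * V) :=
      (continuous_const.matrix_mul continuous_id).measurable
    have hm1' : Measurable (fun V : Mat d => V * J j i) :=
      (mulRightHomeo (Orth_J hij.symm)).measurable
    have hm2' : Measurable (fun V : Mat d => J j i * V) :=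
      (continuous_const.matrix_mul continuous_id).measurable
    constructor
    · rw [Measure.map_map hm1 hmeas]
      have hf : (fun V : Mat d => V * J i j) ∘ Matrix.transpose =
          Matrix.transpose ∘ (fun V : Mat d => J j i * V) := by
        funext V
        simp only [Function.comp_apply]
        rw [Matrix.transpose_mul, J_transpose hij.symm]
      rw [hf, ← Measure.map_map hmeas hm2', (h.inv j i hij.symm).2]
    · rw [Measure.map_map hm2 hmeas]
      have hf : (fun V : Mat d => J i j * V) ∘ Matrix.transpose =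
          Matrix.transpose ∘ (fun V : Mat d => V * J j i) := by
        funext V
        simp only [Function.comp_apply]
        rw [Matrix.transpose_mul, J_transpose hij.symm]
      rw [hf, ← Measure.map_map hmeas hm1', (h.inv j i hij.symm).1]
  · intro A f l hA hl hf
    obtain ⟨a, ha⟩ := h.conc {V | Vᵀ ∈ A} (fun V => f Vᵀ) l (hmeas hA) hl (by
      intro V hV V' hV'
      have h1 := hf Vᵀ hV V'ᵀ hV'
      rwa [← Matrix.transpose_sub, hs_transpose] at h1)
    refine ⟨a, fun u hu => ?_⟩
    rw [happ]
    exact ha u hu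
  · intro i j
    rw [happ]
    exact h.prob j i
  · intro i j
    rw [he, lintegral_map_equiv]
    have h1 := h.sq j i
    refine le_trans (le_of_eq ?_) h1
    apply lintegral_congr
    intro V
    show ENNReal.ofReal (Rm (κ / Real.sqrt d) Vᵀ i j ^ 2) = _
    rw [Rm_transpose]

end Pool.Agent.Helper81.RIP
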