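import Pool.Agent.Helper81.RIP.N
import Pool.Agent.Helper81.RIP.E1
import Pool.Agent.Helper81.RIP.E4

/-!
# F1: the restricted isometry property for a fixed set of rows
-/

namespace Pool.Agent.Helper81.RIP
open MeasureTheory ProbabilityTheory Matrix

variable {d : ℕ}

/-- the matrix with the rows outside of `T` replaced by zero -/
def rowsOn (T : Finset (Fin d)) (V : Mat d) : Mat d :=
  Matrix.of fun i j => if i ∈ T then V i j else 0

theorem rowsOn_mulVec (T : Finset (Fin d)) (V : Mat d) (y : Fin d → ℝ) (i : Fin d) :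
    (rowsOn T V *ᵥ y) i = if i ∈ T then (V *ᵥ y) i else 0 := by
  unfold rowsOn
  simp only [Matrix.mulVec, dotProduct, Matrix.of_apply]
  split_ifs with h
  · rfl
  · simp

theorem rowsOn_sq (T : Finset (Fin d)) (V : Mat d) (y : Fin d → ℝ) :
    vn (rowsOn T V *ᵥ y) ^ 2 = ∑ i ∈ T, (V *ᵥ y) i ^ 2 := by
  rw [vn_sq]
  simp only [rowsOn_mulVec]
  rw [← Finset.sum_filter_add_sum_filter_not Finset.univ (fun i => i ∈ T)]
  have h1 : (Finset.univ.filter fun i => i ∈ T) = T := by
    ext i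
    simp
  rw [h1]
  have h2 : ∑ x ∈ Finset.univ.filter (fun i => ¬ i ∈ T), (if x ∈ T then (V *ᵥ y) x else 0) ^ 2 = 0 := by
    apply Finset.sum_eq_zero
    intro i hi
    rw [Finset.mem_filter] at hi
    rw [if_neg hi.2]
    norm_num
  rw [h2, add_zero]
  exact Finset.sum_congr rfl fun i hi => by rw [if_pos hi]

theorem rowsOn_le (T : Finset (Fin d)) (V : Mat d) (y : Fin d → ℝ) :
    vn (rowsOn T V *ᵥ y) ≤ vn (V *ᵥ y) := by
  apply abs_le_of_sq_le_sq' _ (vn_nonneg _) |>.2
  rw [rowsOn_sq, vn_sq]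
  exact Finset.sum_le_sum_of_subset_of_nonneg (Finset.subset_univ _) fun _ _ _ => sq_nonneg _

theorem rowsOn_sub (T : Finset (Fin d)) (V V' : Mat d) :
    rowsOn T V - rowsOn T V' = rowsOn T (V - V') := by
  ext i j
  simp only [rowsOn, Matrix.sub_apply, Matrix.of_apply]
  split_ifs
  · rfl
  · ring

theorem rowsOn_lip (T : Finset (Fin d)) {y : Fin d → ℝ} (hy : vn y ≤ 1) (V V' : Mat d) :
    |vn (rowsOn T V *ᵥ y) - vn (rowsOn T V' *ᵥ y)| ≤ hs (V - V') := by
  have key : ∀ V V' : Mat d, vn (rowsOn T V *ᵥ y) - vn (rowsOn T V' *ᵥ y) ≤ hs (V - V') := by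
    intro V V'
    have h1 : rowsOn T V *ᵥ y = rowsOn T V' *ᵥ y + rowsOn T (V - V') *ᵥ y := by
      rw [← rowsOn_sub, Matrix.sub_mulVec]
      abel
    have h2 := vn_add_le (rowsOn T V' *ᵥ y) (rowsOn T (V - V') *ᵥ y)
    rw [← h1] at h2
    have h3 := (rowsOn_le T (V - V') y).trans (vn_mulVec_le_hs (V - V') y)
    have h4 : hs (V - V') * vn y ≤ hs (V - V') := by
      have := mul_le_mul_of_nonneg_left hy (hs_nonneg (V - V'))
      linarith
    linarith
  rw [abs_le]
  constructor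
  · have := key V' V
    rw [hs_sub_comm] at this
    linarith
  · exact key V V'

theorem integrable_of_orth {ν : Measure (Mat d)} [IsFiniteMeasure ν] (ho : ∀ᵐ V ∂ν, Orth V)
    {f : Mat d → ℝ} (hf : Continuous f) (C : ℝ) (h : ∀ V, Orth V → |f V| ≤ C) :
    Integrable f ν := by
  refine Integrable.mono' (integrable_const C) hf.aestronglyMeasurable ?_
  filter_upwards [ho] with V hV
  rw [Real.norm_eq_abs]
  exact h V hV

theorem continuous_entry (a b : Fin d) : Continuous (fun V : Mat d => V a b) :=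
  continuous_id.matrix_elem a b

theorem sec_moment (hd : 3 ≤ d) {ν : Measure (Mat d)} (hν : ν Set.univ ≤ 1)
    (ho : ∀ᵐ V ∂ν, Orth V) (hi : Inv ν) (a b : Fin d) :
    ∫ V, V a b ^ 2 ∂ν = ν.real Set.univ / d := by
  have : IsFiniteMeasure ν := ⟨hν.trans_lt ENNReal.one_lt_top⟩
  have hint : ∀ c : Fin d, Integrable (fun V : Mat d => V a c ^ 2) ν := fun c =>
    integrable_of_orth ho ((continuous_entry a c).pow 2) 1 fun V hV => by
      rw [abs_pow]
      exact pow_le_one₀ (abs_nonneg _) (hV.abs_entry_le a c)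
  have h1 : ∑ c, ∫ V, V a c ^ 2 ∂ν = ν.real Set.univ := by
    rw [← integral_finsetSum _ (fun c _ => hint c)]
    have h2 : (fun V : Mat d => ∑ c, V a c ^ 2) =ᵐ[ν] fun _ => (1 : ℝ) := by
      filter_upwards [ho] with V hV
      have h3 := congrArg (fun M : Mat d => M a a) hV.mul_transpose
      simp only [Matrix.mul_apply, Matrix.transpose_apply, Matrix.one_apply_eq] at h3
      rw [← h3]
      exact Finset.sum_congr rfl fun c _ => sq _
    rw [integral_congr_ae h2]
    simp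
  have h4 : ∀ c, ∫ V, V a c ^ 2 ∂ν = ∫ V, V a b ^ 2 ∂ν := fun c => inv_sq_eq hi a c b
  simp only [h4, Finset.sum_const, Finset.card_univ, Fintype.card_fin, nsmul_eq_mul] at h1
  have hd0 : (d : ℝ) ≠ 0 := by
    have : 0 < d := by omega
    exact_mod_cast this.ne'
  rw [eq_div_iff hd0, mul_comm]
  exact h1

theorem cross_moment (hd : 3 ≤ d) {ν : Measure (Mat d)} (hν : ν Set.univ ≤ 1)
    (ho : ∀ᵐ V ∂ν, Orth V) (hi : Inv ν) (a b c : Fin d) :
    ∫ V, V a b * V a c ∂ν = if b = c then ν.real Set.univ / d else 0 := by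
  split_ifs with h
  · subst h
    rw [← sec_moment hd hν ho hi a b]
    congr 1
    funext V
    ring
  · have h1 := inv_cross_zero hd hν hi (A := Set.univ) MeasurableSet.univ (fun _ _ _ _ => by simp)
      (G := fun V => V) (fun _ _ _ _ _ => rfl) a b c h
    simpa using h1

theorem moment (hd : 3 ≤ d) {ν : Measure (Mat d)} (hν : ν Set.univ ≤ 1)
    (ho : ∀ᵐ V ∂ν, Orth V) (hi : Inv ν) (T : Finset (Fin d)) (y : Fin d → ℝ) :
    Integrable (fun V => vn (rowsOn T V *ᵥ y) ^ 2) ν ∧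
    ∫ V, vn (rowsOn T V *ᵥ y) ^ 2 ∂ν =
      (Real.sqrt (T.card / d) * vn y) ^ 2 * ν.real Set.univ := by
  have : IsFiniteMeasure ν := ⟨hν.trans_lt ENNReal.one_lt_top⟩
  have hint : ∀ a b c : Fin d, Integrable (fun V : Mat d => V a b * V a c) ν := fun a b c =>
    integrable_of_orth ho ((continuous_entry a b).mul (continuous_entry a c)) 1 fun V hV => by
      rw [abs_mul]
      exact mul_le_one₀ (hV.abs_entry_le a b) (abs_nonneg _) (hV.abs_entry_le a c)
  have e : ∀ V : Mat d, vn (rowsOn T V *ᵥ y) ^ 2 =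
      ∑ a ∈ T, ∑ b, ∑ c, (y b * y c) * (V a b * V a c) := by
    intro V
    rw [rowsOn_sq]
    refine Finset.sum_congr rfl fun a _ => ?_
    simp only [Matrix.mulVec, dotProduct]
    rw [sq, Finset.sum_mul_sum]
    exact Finset.sum_congr rfl fun b _ => Finset.sum_congr rfl fun c _ => by ring
  have hi1 : ∀ a b c : Fin d, Integrable (fun V : Mat d => (y b * y c) * (V a b * V a c)) ν :=
    fun a b c => (hint a b c).const_mul _
  constructor
  · simp only [e]
    exact integrable_finsetSum _ fun a _ => integrable_finsetSum _ fun b _ =>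
      integrable_finsetSum _ fun c _ => hi1 a b c
  · simp only [e]
    rw [integral_finsetSum _ (fun a _ => integrable_finsetSum _ fun b _ =>
      integrable_finsetSum _ fun c _ => hi1 a b c)]
    have h1 : ∀ a ∈ T, ∫ V : Mat d, ∑ b, ∑ c, (y b * y c) * (V a b * V a c) ∂ν =
        vn y ^ 2 * (ν.real Set.univ / d) := by
      intro a _
      rw [integral_finsetSum _ (fun b _ => integrable_finsetSum _ fun c _ => hi1 a b c), vn_sq,
        Finset.sum_mul]
      refine Finset.sum_congr rfl fun b _ => ?_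
      rw [integral_finsetSum _ (fun c _ => hi1 a b c)]
      simp only [integral_const_mul, cross_moment hd hν ho hi, mul_ite, mul_zero,
        Finset.sum_ite_eq, Finset.mem_univ, if_true]
      ring
    rw [Finset.sum_congr rfl h1, Finset.sum_const, nsmul_eq_mul, mul_pow, Real.sq_sqrt (by positivity)]
    ring

/-- the deterministic part: from the net to all sparse vectors -/
theorem real_rip {m : ℕ} {N : Finset (Fin d → ℝ)}
    (hN : ∀ x : Fin d → ℝ, vn x ≤ 1 → (Finset.univ.filter fun j => x j ≠ 0).card ≤ m →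
      ∃ y ∈ N, (∀ j, |y j| ≤ |x j|) ∧ vn (x - y) ≤ 1 / 8)
    (hN1 : ∀ y ∈ N, vn y ≤ 1) (A : Mat d) {r : ℝ} (hr : 0 ≤ r)
    (h : ∀ y ∈ N, |vn (A *ᵥ y) - r * vn y| ≤ r / 16) (x : Fin d → ℝ)
    (hx : (Finset.univ.filter fun j => x j ≠ 0).card ≤ m) :
    37 / 56 * r * vn x ≤ vn (A *ᵥ x) ∧ vn (A *ᵥ x) ≤ 68 / 56 * r * vn x := by
  have hup : ∀ z : Fin d → ℝ, (Finset.univ.filter fun j => z j ≠ 0).card ≤ m →
      vn (A *ᵥ z) ≤ 68 / 56 * r * vn z := by
    intro z hz
    have h1 := net_sup hN A (17 / 16 * r) (by positivity) (fun y hy => by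
      have h2 := (abs_le.1 (h y hy)).2
      have h3 := mul_le_mul_of_nonneg_left (hN1 y hy) hr
      linarith) z hz
    refine h1.trans (le_of_eq ?_)
    ring
  refine ⟨?_, hup x hx⟩
  -- normalise
  have hunit : ∀ z : Fin d → ℝ, vn z = 1 → (Finset.univ.filter fun j => z j ≠ 0).card ≤ m →
      37 / 56 * r ≤ vn (A *ᵥ z) := by
    intro z hz1 hz
    obtain ⟨y, hy, hyz, hzy⟩ := hN z hz1.le hz
    have hsup : (Finset.univ.filter fun j => (z - y) j ≠ 0).card ≤ m := by
      refine (Finset.card_le_card ?_).trans hz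
      intro j hj
      rw [Finset.mem_filter] at hj ⊢
      refine ⟨hj.1, fun h0 => hj.2 ?_⟩
      have h1 := hyz j
      rw [h0, abs_zero] at h1
      have h2 := abs_nonpos_iff.1 h1
      rw [Pi.sub_apply, h0, h2, sub_zero]
    have h1 := hup (z - y) hsup
    have h2 := (abs_le.1 (h y hy)).1
    have h3 : vn (A *ᵥ y) ≤ vn (A *ᵥ z) + vn (A *ᵥ (z - y)) := by
      have e : A *ᵥ y = A *ᵥ z - A *ᵥ (z - y) := by
        rw [Matrix.mulVec_sub]
        abel
      rw [e]
      exact vn_sub_le _ _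
    have h4 : vn z ≤ vn y + vn (z - y) := by
      have e : z = y + (z - y) := by abel
      calc vn z = vn (y + (z - y)) := by rw [← e]
        _ ≤ _ := vn_add_le _ _
    have h5 : 68 / 56 * r * vn (z - y) ≤ 68 / 56 * r * (1 / 8) :=
      mul_le_mul_of_nonneg_left hzy (by positivity)
    have h6 : r * (7 / 8) ≤ r * vn y := mul_le_mul_of_nonneg_left (by linarith) hr
    linarith
  by_cases h0 : vn x = 0
  · rw [h0, mul_zero]
    exact vn_nonneg _
  · have hpos : 0 < vn x := lt_of_le_of_ne (vn_nonneg _) (Ne.symm h0)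
    have h1 := hunit ((vn x)⁻¹ • x) (by
      rw [vn_smul, abs_of_pos (inv_pos.2 hpos), inv_mul_cancel₀ h0]) (by
      refine (Finset.card_le_card ?_).trans hx
      intro j hj
      rw [Finset.mem_filter] at hj ⊢
      refine ⟨hj.1, fun h2 => hj.2 ?_⟩
      rw [Pi.smul_apply, h2, smul_zero])
    rw [Matrix.mulVec_smul, vn_smul, abs_of_pos (inv_pos.2 hpos)] at h1
    have h2 := mul_le_mul_of_nonneg_right h1 hpos.le
    have e : (vn x)⁻¹ * vn (A *ᵥ x) * vn x = vn (A *ᵥ x) := by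
      field_simp
    rw [e] at h2
    exact h2

theorem complex_norm_sq (z : ℂ) : ‖z‖ ^ 2 = z.re ^ 2 + z.im ^ 2 := by
  rw [Complex.sq_norm, Complex.normSq_apply]
  ring

/-- from real vectors to complex vectors -/
theorem hasRIP_of_real {m : ℕ} (T : Finset (Fin d)) (V : Mat d) {r : ℝ} (hr : 0 < r)
    (h : ∀ x : Fin d → ℝ, (Finset.univ.filter fun j => x j ≠ 0).card ≤ m →
      37 / 56 * r * vn x ≤ vn (rowsOn T V *ᵥ x) ∧ vn (rowsOn T V *ᵥ x) ≤ 68 / 56 * r * vn x) :
    HasRIP (V.map (fun a => (a : ℂ))) T m := by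
  refine ⟨(37 / 56 * r)⁻¹, by positivity, fun x hx => ?_⟩
  set a : Fin d → ℝ := fun j => (x j).re with ha
  set b : Fin d → ℝ := fun j => (x j).im with hb
  have hsa : (Finset.univ.filter fun j => a j ≠ 0).card ≤ m := by
    refine (Finset.card_le_card ?_).trans hx
    intro j hj
    rw [Finset.mem_filter] at hj ⊢
    refine ⟨hj.1, fun h0 => hj.2 ?_⟩
    rw [ha]
    simp [h0]
  have hsb : (Finset.univ.filter fun j => b j ≠ 0).card ≤ m := by
    refine (Finset.card_le_card ?_).trans hx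
    intro j hj
    rw [Finset.mem_filter] at hj ⊢
    refine ⟨hj.1, fun h0 => hj.2 ?_⟩
    rw [hb]
    simp [h0]
  have e1 : ∑ j, ‖x j‖ ^ 2 = vn a ^ 2 + vn b ^ 2 := by
    rw [vn_sq, vn_sq, ← Finset.sum_add_distrib]
    exact Finset.sum_congr rfl fun j _ => complex_norm_sq _
  have e2 : ∑ i ∈ T, ‖((V.map (fun a => (a : ℂ))) *ᵥ x) i‖ ^ 2 =
      vn (rowsOn T V *ᵥ a) ^ 2 + vn (rowsOn T V *ᵥ b) ^ 2 := by
    rw [rowsOn_sq, rowsOn_sq, ← Finset.sum_add_distrib]
    refine Finset.sum_congr rfl fun i _ => ?_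
    rw [complex_norm_sq]
    simp [Matrix.mulVec, dotProduct, ha, hb]
  have h1 := h a hsa
  have h2 := h b hsb
  rw [e1, e2]
  have hva := vn_nonneg a
  have hvb := vn_nonneg b
  have hc : 0 < 37 / 56 * r := by positivity
  constructor
  · rw [← div_eq_inv_mul, le_div_iff₀ hc, mul_comm, ← Real.sqrt_sq hc.le, ← Real.sqrt_mul (sq_nonneg _)]
    apply Real.sqrt_le_sqrt
    have g1 := pow_le_pow_left₀ (by positivity) h1.1 2
    have g2 := pow_le_pow_left₀ (by positivity) h2.1 2
    rw [mul_pow] at g1 g2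
    rw [mul_add]
    exact add_le_add g1 g2
  · rw [← div_eq_inv_mul, div_le_iff₀ hc]
    have e3 : 2 * Real.sqrt (vn a ^ 2 + vn b ^ 2) * (37 / 56 * r) =
        Real.sqrt ((74 / 56 * r) ^ 2 * (vn a ^ 2 + vn b ^ 2)) := by
      rw [Real.sqrt_mul (sq_nonneg _), Real.sqrt_sq (by positivity)]
      ring
    rw [e3]
    apply Real.sqrt_le_sqrt
    have g1 := pow_le_pow_left₀ (vn_nonneg _) (h1.2.trans (show 68 / 56 * r * vn a ≤ 74 / 56 * r * vn a by
      nlinarith [mul_nonneg hr.le hva])) 2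
    have g2 := pow_le_pow_left₀ (vn_nonneg _) (h2.2.trans (show 68 / 56 * r * vn b ≤ 74 / 56 * r * vn b by
      nlinarith [mul_nonneg hr.le hvb])) 2
    rw [mul_pow] at g1 g2
    rw [mul_add]
    exact add_le_add g1 g2

/-- the function `m log (e d / m)` is at least `1 + log d` -/
theorem log_lower {d m : ℕ} (hm : 1 ≤ m) (hmd : m ≤ d) :
    1 ≤ Real.log (Real.exp 1 * d / m) ∧ 1 + Real.log d ≤ m * Real.log (Real.exp 1 * d / m) ∧
      Real.log (Real.exp 1 * d / m) = 1 + Real.log (d / m) ∧ 0 ≤ Real.log d := by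
  have hm0 : (0 : ℝ) < m := by exact_mod_cast hm
  have hd0 : (0 : ℝ) < d := by exact_mod_cast (hm.trans hmd)
  have hm1 : (1 : ℝ) ≤ m := by exact_mod_cast hm
  have hmd' : (m : ℝ) ≤ d := by exact_mod_cast hmd
  have e1 : Real.log (Real.exp 1 * d / m) = 1 + Real.log (d / m) := by
    rw [mul_div_assoc, Real.log_mul (Real.exp_ne_zero _) (div_pos hd0 hm0).ne', Real.log_exp]
  have e2 : Real.log (d / m) = Real.log d - Real.log m := Real.log_div hd0.ne' hm0.ne'
  have h1 : Real.log m ≤ Real.log d := Real.log_le_log hm0 hmd'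
  have h2 : Real.log m ≤ m - 1 := Real.log_le_sub_one_of_pos hm0
  have h3 : 0 ≤ Real.log m := Real.log_nonneg hm1
  refine ⟨?_, ?_, e1, h3.trans h1⟩
  · rw [e1, e2]
    linarith
  · rw [e1, e2]
    have h4 : (m - 1 : ℝ) * (1 + Real.log m) ≤ (m - 1) * (1 + Real.log d) :=
      mul_le_mul_of_nonneg_left (by linarith) (by linarith)
    nlinarith

/-- the numerical part -/
theorem numeric {L CN : ℝ} (hL : 1 ≤ L) (hCN : 1 ≤ CN) {d m k : ℕ} (hm : 1 ≤ m) (hmd : m ≤ d)
    (hk : 65536 * L ^ 2 * (1 + Real.log CN) * m * Real.log (Real.exp 1 * d / m) ≤ k) :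
    65536 * L ^ 2 ≤ k ∧
    (CN * d / m) ^ m * (4 * Real.exp (-(k / (1024 * L ^ 2)))) ≤ 1 / (64 * (d : ℝ) ^ 2) := by
  have hm0 : (0 : ℝ) < m := by exact_mod_cast hm
  have hd0 : (0 : ℝ) < d := by exact_mod_cast (hm.trans hmd)
  obtain ⟨g1, g2, g3, g4⟩ := log_lower hm hmd
  set l := Real.log (Real.exp 1 * d / m) with hl
  set M : ℝ := m * l with hM
  have hcn : 0 ≤ Real.log CN := Real.log_nonneg hCN
  have hL2 : 1 ≤ L ^ 2 := one_le_pow₀ hL
  have hM1 : 1 ≤ M := by linarith
  have hMm : (m : ℝ) ≤ M := by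
    rw [hM]
    nlinarith
  have hk' : 65536 * L ^ 2 * ((1 + Real.log CN) * M) ≤ k := by
    refine le_trans (le_of_eq ?_) hk
    rw [hM]
    ring
  have h1 : 1 ≤ (1 + Real.log CN) * M := by nlinarith
  constructor
  · refine le_trans ?_ hk'
    nlinarith
  · have h2 : 64 * ((1 + Real.log CN) * M) ≤ k / (1024 * L ^ 2) := by
      rw [le_div_iff₀ (by positivity)]
      linarith
    have hpos : 0 < CN * d / m := by positivity
    have e1 : (CN * d / m) ^ m = Real.exp (m * Real.log (CN * d / m)) := by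
      rw [Real.exp_nat_mul, Real.exp_log hpos]
    have e2 : (d : ℝ) ^ 2 = Real.exp (2 * Real.log d) := by
      rw [mul_comm, Real.exp_mul, Real.exp_log hd0]
      norm_cast
    have e3 : Real.log (CN * d / m) = Real.log CN + Real.log (d / m) := by
      rw [mul_div_assoc, Real.log_mul (by linarith) (div_pos hd0 hm0).ne']
    have h3 : m * Real.log (CN * d / m) ≤ (1 + Real.log CN) * M := by
      rw [e3, hM]
      have : Real.log (d / m) ≤ l := by rw [g3]; linarith
      have h4 : (m : ℝ) * (Real.log CN + Real.log (d / m)) ≤ m * (Real.log CN * l + l) :=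
        mul_le_mul_of_nonneg_left (by nlinarith) hm0.le
      refine h4.trans (le_of_eq ?_)
      ring
    have h256 : (256 : ℝ) ≤ Real.exp 6 := by
      have h5 : (2.7 : ℝ) ≤ Real.exp 1 := by
        have := Real.exp_one_gt_d9
        linarith
      have h6 : Real.exp 6 = Real.exp 1 ^ 6 := by
        rw [← Real.exp_nat_mul]
        norm_num
      rw [h6]
      have h7 := pow_le_pow_left₀ (by norm_num) h5 6
      refine le_trans ?_ h7
      norm_num
    rw [le_div_iff₀ (by positivity)]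
    have e4 : (CN * d / m) ^ m * (4 * Real.exp (-(k / (1024 * L ^ 2)))) * (64 * (d : ℝ) ^ 2) =
        256 * Real.exp (m * Real.log (CN * d / m) + -(k / (1024 * L ^ 2)) + 2 * Real.log d) := by
      rw [Real.exp_add, Real.exp_add, ← e1, ← e2]
      ring
    rw [e4]
    have h8 : 256 * Real.exp (m * Real.log (CN * d / m) + -(k / (1024 * L ^ 2)) + 2 * Real.log d) ≤
        Real.exp 6 * Real.exp (-6) := by
      refine mul_le_mul h256 (Real.exp_le_exp.2 ?_) (Real.exp_nonneg _) (Real.exp_nonneg _)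
      have h9 : M ≤ (1 + Real.log CN) * M := by nlinarith
      linarith
    refine h8.trans (le_of_eq ?_)
    rw [← Real.exp_add]
    norm_num

/-- F1: for a fixed set of rows the flat random matrix has the RIP with high probability. -/
theorem rip_fixed (L : ℝ) (hL : 1 ≤ L) : ∃ C : ℝ, 1 ≤ C ∧ ∀ (d : ℕ) (ν : Measure (Mat d)), 3 ≤ d →
    ν Set.univ ≤ 1 → 3 / 4 ≤ ν.real Set.univ → (∀ᵐ V ∂ν, Orth V) → Inv ν → Conc L ν →
    ∀ (m k : ℕ), 1 ≤ m → m ≤ d → k ≤ d → C * m * Real.log (Real.exp 1 * d / m) ≤ k →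
    ∀ T : Finset (Fin d), T.card = k →
      ν {V | ¬ HasRIP (V.map (fun a => (a : ℂ))) T m} ≤
        ENNReal.ofReal (1 / (64 * (d : ℝ) ^ 2)) := by
  obtain ⟨CN, hCN, hnet⟩ := net
  have hcn : 0 ≤ Real.log CN := Real.log_nonneg hCN
  have hL2 : 1 ≤ L ^ 2 := one_le_pow₀ hL
  refine ⟨65536 * L ^ 2 * (1 + Real.log CN), by nlinarith, ?_⟩
  intro d ν hd hν hν' ho hi hc m k hm hmd hkd hk T hT
  obtain ⟨N, hNc, hN1, hN2⟩ := hnet m d hm hmd
  obtain ⟨hkL, hnum⟩ := numeric hL hCN hm hmd hk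
  have hd0 : (0 : ℝ) < d := by
    have : 0 < d := by omega
    exact_mod_cast this
  have hk0 : (0 : ℝ) < k := by nlinarith
  have hsd : 0 < Real.sqrt d := Real.sqrt_pos.2 hd0
  have hsk : 0 < Real.sqrt k := Real.sqrt_pos.2 hk0
  set r : ℝ := Real.sqrt (k / d) with hr
  have hr0 : 0 < r := Real.sqrt_pos.2 (div_pos hk0 hd0)
  have hrd : Real.sqrt d * r = Real.sqrt k := by
    rw [hr, Real.sqrt_div hk0.le]
    field_simp
  set u : ℝ := Real.sqrt k / (32 * L) with hu
  have hu0 : 0 < u := by positivity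
  have hu2 : u ^ 2 = k / (1024 * L ^ 2) := by
    rw [hu, div_pow, Real.sq_sqrt hk0.le]
    ring
  have h256 : 256 * L ≤ Real.sqrt k := by
    apply Real.le_sqrt_of_sq_le
    nlinarith
  have hLu : 8 * L + L * u ≤ Real.sqrt k / 16 := by
    have : L * u = Real.sqrt k / 32 := by
      rw [hu]
      field_simp
    rw [this]
    linarith
  have hsub : {V : Mat d | ¬ HasRIP (V.map (fun a => (a : ℂ))) T m} ⊆
      ⋃ y ∈ N, {V : Mat d | 8 * L + L * u < Real.sqrt d * |vn (rowsOn T V *ᵥ y) - r * vn y|} := by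
    intro V hV
    by_contra hcon
    simp only [Set.mem_iUnion, Set.mem_ofPred_eq, not_exists, not_lt] at hcon
    apply hV
    refine hasRIP_of_real T V hr0 fun x hx => ?_
    refine real_rip hN2 (fun y hy => (hN1 y hy).1) (rowsOn T V) hr0.le ?_ x hx
    intro y hy
    have h1 := (hcon y hy).trans hLu
    have h2 : Real.sqrt d * |vn (rowsOn T V *ᵥ y) - r * vn y| ≤ Real.sqrt d * (r / 16) := by
      refine h1.trans (le_of_eq ?_)
      rw [← hrd]
      ring
    exact le_of_mul_le_mul_left h2 hsd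
  refine (measure_mono hsub).trans ?_
  refine (measure_biUnion_finset_le _ _).trans ?_
  have hone : ∀ y ∈ N, ν {V : Mat d | 8 * L + L * u <
      Real.sqrt d * |vn (rowsOn T V *ᵥ y) - r * vn y|} ≤
        ENNReal.ofReal (4 * Real.exp (-(k / (1024 * L ^ 2)))) := by
    intro y hy
    have hy1 := (hN1 y hy).1
    obtain ⟨hint, hmom⟩ := moment hd hν ho hi T y
    rw [hT] at hmom
    have h1 := conc_centre (by omega) hL hν (by linarith) hc (f := fun V => vn (rowsOn T V *ᵥ y))
      (fun V => vn_nonneg _) (rowsOn_lip T hy1) (δ := r * vn y)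
      (mul_nonneg hr0.le (vn_nonneg _)) hmom hint u hu0
    rwa [hu2] at h1
  refine (Finset.sum_le_sum hone).trans ?_
  rw [Finset.sum_const, nsmul_eq_mul, ← ENNReal.ofReal_natCast, ← ENNReal.ofReal_mul (by positivity)]
  apply ENNReal.ofReal_le_ofReal
  exact (mul_le_mul_of_nonneg_right hNc (by positivity)).trans hnum

end Pool.Agent.Helper81.RIP
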