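import Pool.Agent.Helper81.RIP.I2
import Pool.Agent.Helper81.RIP.F1

/-!
# The final theorem (MP_00538b_an)
-/

namespace Pool.Agent.Helper81.RIP
open MeasureTheory ProbabilityTheory Matrix

variable {d : ℕ}

lemma hasRIP_univ {U : Matrix (Fin d) (Fin d) ℂ} (hU : U ∈ Matrix.unitaryGroup (Fin d) ℂ) (m : ℕ) :
    HasRIP U Finset.univ m := by
  refine ⟨1, one_pos, fun x _ => ?_⟩
  have h1 : ∑ i, ‖(U *ᵥ x) i‖ ^ 2 = ∑ j, ‖x j‖ ^ 2 := by
    have h2 : star U * U = 1 := (Matrix.mem_unitaryGroup_iff').mp hU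
    have h3 : star (U *ᵥ x) ⬝ᵥ (U *ᵥ x) = star x ⬝ᵥ x := by
      rw [Matrix.star_mulVec, ← Matrix.dotProduct_mulVec, Matrix.mulVec_mulVec,
        ← Matrix.star_eq_conjTranspose, h2, Matrix.one_mulVec]
    have h4 : ∀ y : Fin d → ℂ, star y ⬝ᵥ y = ((∑ i, ‖y i‖ ^ 2 : ℝ) : ℂ) := by
      intro y
      rw [dotProduct]
      push_cast
      refine Finset.sum_congr rfl fun i _ => ?_
      rw [Pi.star_apply, RCLike.star_def, RCLike.conj_mul]
      rfl
    rw [h4, h4] at h3
    exact_mod_cast h3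
  rw [one_mul, h1]
  exact ⟨le_rfl, by linarith [Real.sqrt_nonneg (∑ j, ‖x j‖ ^ 2)]⟩

lemma goodK_d {U : Matrix (Fin d) (Fin d) ℂ} (hU : U ∈ Matrix.unitaryGroup (Fin d) ℂ) (m : ℕ) :
    GoodK U m d := by
  classical
  refine ⟨le_rfl, ?_⟩
  have h1 : ((Finset.univ : Finset (Fin d)).powersetCard d) = {Finset.univ} := by
    have := Finset.powersetCard_self (Finset.univ : Finset (Fin d))
    rwa [Finset.card_univ, Fintype.card_fin] at this
  rw [h1, Nat.choose_self]
  rw [Finset.filter_true_of_mem]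
  · norm_num
  · intro T hT
    rw [Finset.mem_singleton] at hT
    subst hT
    exact hasRIP_univ hU m

lemma kRIP_spec {U : Matrix (Fin d) (Fin d) ℂ} (hU : U ∈ Matrix.unitaryGroup (Fin d) ℂ) (m : ℕ) :
    GoodK U m (kRIP U m) := Nat.sInf_mem (s := {k | GoodK U m k}) ⟨d, goodK_d hU m⟩

lemma kRIP_le {U : Matrix (Fin d) (Fin d) ℂ} {m k : ℕ} (h : GoodK U m k) : kRIP U m ≤ k :=
  Nat.sInf_le (s := {k | GoodK U m k}) h

lemma map_mem_unitary {V : Mat d} (hV : Orth V) :
    V.map (fun a => (a : ℂ)) ∈ Matrix.unitaryGroup (Fin d) ℂ := by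
  rw [Matrix.mem_unitaryGroup_iff']
  have h1 : star (V.map (fun a => (a : ℂ))) = Vᵀ.map (fun a => (a : ℂ)) := by
    ext i j
    simp [Matrix.star_apply]
  have h2 : (Vᵀ.map (fun a => (a : ℂ))) * (V.map (fun a => (a : ℂ))) =
      (Vᵀ * V).map (fun a => (a : ℂ)) := by
    ext i j
    simp [Matrix.mul_apply]
  rw [h1, h2, show Vᵀ * V = 1 from hV]
  ext i j
  by_cases h : i = j
  · subst h; simp
  · simp [h]

/-- Markov over the sets of rows: for most `V` at least half of the sets of rows are good. -/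
lemma markov_rows {ν : Measure (Mat d)} (hd : 1 ≤ d) {m k : ℕ} (hk : k ≤ d)
    (h : ∀ T : Finset (Fin d), T.card = k →
      ν {V | ¬ HasRIP (V.map (fun a => (a : ℂ))) T m} ≤ ENNReal.ofReal (1 / (64 * (d : ℝ) ^ 2))) :
    ν {V | ¬ GoodK (V.map (fun a => (a : ℂ))) m k} ≤ ENNReal.ofReal (1 / (32 * (d : ℝ) ^ 2)) := by
  classical
  set P := (Finset.univ : Finset (Fin d)).powersetCard k with hP
  have hPc : P.card = d.choose k := by
    rw [hP, Finset.card_powersetCard, Finset.card_univ, Fintype.card_fin]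
  have hch : 0 < d.choose k := Nat.choose_pos hk
  set B : Finset (Fin d) → Set (Mat d) := fun T =>
    toMeasurable ν {V | ¬ HasRIP (V.map (fun a => (a : ℂ))) T m} with hB
  set g : Mat d → ENNReal := fun V => ∑ T ∈ P, (B T).indicator 1 V with hg
  have hgm : Measurable g := by
    apply Finset.measurable_sum
    intro T _
    exact measurable_one.indicator (measurableSet_toMeasurable _ _)
  have hint : ∫⁻ V, g V ∂ν ≤ (d.choose k : ENNReal) * ENNReal.ofReal (1 / (64 * (d : ℝ) ^ 2)) := by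
    rw [hg, lintegral_finsetSum]
    · calc ∑ T ∈ P, ∫⁻ V, (B T).indicator 1 V ∂ν = ∑ T ∈ P, ν (B T) := by
            refine Finset.sum_congr rfl fun T _ => ?_
            exact lintegral_indicator_one (measurableSet_toMeasurable _ _)
        _ ≤ ∑ T ∈ P, ENNReal.ofReal (1 / (64 * (d : ℝ) ^ 2)) := by
            refine Finset.sum_le_sum fun T hT => ?_
            rw [hB, measure_toMeasurable]
            exact h T (Finset.mem_powersetCard.mp hT).2
        _ = _ := by rw [Finset.sum_const, hPc, nsmul_eq_mul]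
    · intro T _
      exact measurable_one.indicator (measurableSet_toMeasurable _ _)
  have hsub : {V : Mat d | ¬ GoodK (V.map (fun a => (a : ℂ))) m k} ⊆
      {V | ENNReal.ofReal ((d.choose k : ℝ) / 2) ≤ g V} := by
    intro V hV
    simp only [Set.mem_ofPred_eq] at hV ⊢
    by_contra hcon
    push Not at hcon
    apply hV
    refine ⟨hk, ?_⟩
    have h1 : (((P.filter fun T => ¬ HasRIP (V.map (fun a => (a : ℂ))) T m).card : ℕ) : ENNReal) ≤
        g V := by
      rw [hg, Finset.card_filter]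
      push_cast
      refine Finset.sum_le_sum fun T _ => ?_
      by_cases hT : HasRIP (V.map (fun a => (a : ℂ))) T m
      · simp [hT]
      · have hmem : V ∈ B T := subset_toMeasurable ν _ hT
        rw [if_pos hT, Set.indicator_of_mem hmem, Pi.one_apply]
    have h2 : (((P.filter fun T => ¬ HasRIP (V.map (fun a => (a : ℂ))) T m).card : ℕ) : ENNReal) <
        ENNReal.ofReal ((d.choose k : ℝ) / 2) := h1.trans_lt hcon
    have h3 : ((P.filter fun T => ¬ HasRIP (V.map (fun a => (a : ℂ))) T m).card : ℝ) <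
        (d.choose k : ℝ) / 2 := by
      rw [← ENNReal.ofReal_natCast] at h2
      exact (ENNReal.ofReal_lt_ofReal_iff (by positivity)).mp h2
    have h4 := Finset.card_filter_add_card_filter_not (s := P)
      (p := fun T => HasRIP (V.map (fun a => (a : ℂ))) T m)
    rw [hPc] at h4
    have h5 : ((P.filter fun T => HasRIP (V.map (fun a => (a : ℂ))) T m).card : ℝ) +
        ((P.filter fun T => ¬ HasRIP (V.map (fun a => (a : ℂ))) T m).card : ℝ) = d.choose k := by
      exact_mod_cast h4
    have h6 : (d.choose k : ℝ) / 2 ≤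
        ((P.filter fun T => HasRIP (V.map (fun a => (a : ℂ))) T m).card : ℝ) := by linarith
    convert h6 using 2
  refine (measure_mono hsub).trans ?_
  have hc0 : ENNReal.ofReal ((d.choose k : ℝ) / 2) ≠ 0 := by
    rw [Ne, ENNReal.ofReal_eq_zero, not_le]; positivity
  refine (meas_ge_le_lintegral_div hgm.aemeasurable hc0 ENNReal.ofReal_ne_top).trans ?_
  rw [ENNReal.div_le_iff hc0 ENNReal.ofReal_ne_top]
  refine hint.trans (le_of_eq ?_)
  rw [← ENNReal.ofReal_natCast, ← ENNReal.ofReal_mul (by positivity),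
    ← ENNReal.ofReal_mul (by positivity)]
  congr 1
  field_simp
  norm_num

lemma one_le_mlog {d m : ℕ} (hm : 1 ≤ m) (hmd : m ≤ d) :
    (1 : ℝ) ≤ m * Real.log (Real.exp 1 * d / m) := by
  have hm0 : (0 : ℝ) < m := by exact_mod_cast hm
  have h1 : Real.exp 1 ≤ Real.exp 1 * d / m := by
    rw [le_div_iff₀ hm0]
    have : (m : ℝ) ≤ d := by exact_mod_cast hmd
    have := Real.exp_pos 1
    nlinarith
  have h2 : 1 ≤ Real.log (Real.exp 1 * d / m) := by
    rw [Real.le_log_iff_exp_le (lt_of_lt_of_le (Real.exp_pos 1) h1)]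
    exact h1
  have h3 : (1 : ℝ) ≤ m := by exact_mod_cast hm
  nlinarith

theorem result : ∃ K C : ℝ, ∀ d : ℕ, 1 ≤ d → ∃ U ∈ Matrix.unitaryGroup (Fin d) ℂ,
    (∀ i j, ‖U i j‖ ≤ K / Real.sqrt d) ∧ (∀ i j, (U i j).im = 0) ∧
    ∀ m : ℕ, 1 ≤ m → m ≤ d →
      (∀ k : ℕ, C * m * Real.log (Real.exp 1 * d / m) ≤ k → k ≤ d → GoodK U m k) ∧
      GoodK U m (kRIP U m) ∧ (kRIP U m : ℝ) ≤ C * m * Real.log (Real.exp 1 * d / m) := by
  obtain ⟨K, L, d₀, hK, hL, hd₀, hflat⟩ := exists_flat
  obtain ⟨C, hC, hrip⟩ := rip_fixed L hL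
  refine ⟨max K (Real.sqrt d₀), max (2 * C) d₀, fun d hd => ?_⟩
  have hdp : (0 : ℝ) < d := by exact_mod_cast hd
  have hsd : 0 < Real.sqrt d := Real.sqrt_pos.mpr hdp
  rcases lt_or_ge d d₀ with hlt | hge
  · -- small `d`: the identity matrix
    refine ⟨1, one_mem _, fun i j => ?_, fun i j => ?_,
      fun m hm hmd => ⟨fun k hk hkd => ?_, kRIP_spec (one_mem _) m, ?_⟩⟩
    rotate_left
    · by_cases h : i = j
      · subst h; simp
      · simp [h]
    · exfalso
      have h2 := one_le_mlog hm hmd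
      have h3 : (d₀ : ℝ) ≤ max (2 * C) d₀ := le_max_right _ _
      have h4 : (0 : ℝ) ≤ d₀ := Nat.cast_nonneg _
      have h5 : (d₀ : ℝ) ≤ k := by
        calc (d₀ : ℝ) = d₀ * 1 := (mul_one _).symm
          _ ≤ max (2 * C) d₀ * (m * Real.log (Real.exp 1 * d / m)) := by gcongr
          _ ≤ k := by rw [← mul_assoc]; exact hk
      have h6 : d₀ ≤ k := by exact_mod_cast h5
      omega
    rotate_left
    · have h1 : ‖(1 : Matrix (Fin d) (Fin d) ℂ) i j‖ ≤ 1 := by
        by_cases h : i = j
        · subst h; simp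
        · simp [h]
      refine h1.trans ?_
      rw [le_div_iff₀ hsd, one_mul]
      refine le_trans ?_ (le_max_right _ _)
      exact Real.sqrt_le_sqrt (by exact_mod_cast hlt.le)
    · have h1 : (kRIP (1 : Matrix (Fin d) (Fin d) ℂ) m : ℝ) ≤ d₀ := by
        exact_mod_cast (kRIP_le (goodK_d (one_mem _) m)).trans hlt.le
      have h2 := one_le_mlog hm hmd
      have h3 : (d₀ : ℝ) ≤ max (2 * C) d₀ := le_max_right _ _
      have h4 : (0 : ℝ) ≤ d₀ := Nat.cast_nonneg _
      calc (kRIP (1 : Matrix (Fin d) (Fin d) ℂ) m : ℝ) ≤ d₀ * 1 := by linarith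
        _ ≤ max (2 * C) d₀ * (m * Real.log (Real.exp 1 * d / m)) := by gcongr
        _ = _ := by ring
  · -- large `d`
    have hd3 : 3 ≤ d := hd₀.trans hge
    obtain ⟨ν, hν1, hν2, hν3, hν4, hν5, hν6⟩ := hflat d hge
    have hr := hrip d ν hd3 hν1 hν2 hν3 hν4 hν5
    set bad : ℕ → ℕ → Set (Mat d) := fun m k =>
      {V | 1 ≤ m ∧ m ≤ d ∧ C * m * Real.log (Real.exp 1 * d / m) ≤ k ∧
        ¬ GoodK (V.map (fun a => (a : ℂ))) m k} with hbad
    have hbadm : ∀ m k : ℕ, k ≤ d → ν (bad m k) ≤ ENNReal.ofReal (1 / (32 * (d : ℝ) ^ 2)) := by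
      intro m k hk
      by_cases hcond : 1 ≤ m ∧ m ≤ d ∧ C * m * Real.log (Real.exp 1 * d / m) ≤ k
      · refine (measure_mono ?_).trans (markov_rows (ν := ν) hd hk
          (hr m k hcond.1 hcond.2.1 hk hcond.2.2))
        intro V hV
        exact hV.2.2.2
      · have : bad m k = ∅ := by
          ext V
          simp only [hbad, Set.mem_ofPred_eq, Set.mem_empty_iff_false, iff_false]
          intro hh
          exact hcond ⟨hh.1, hh.2.1, hh.2.2.1⟩
        rw [this, measure_empty]
        exact bot_le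
    set S : Set (Mat d) := ({V | ¬ Orth V} ∪ {V | ∃ i j, K / Real.sqrt d < |V i j|}) ∪
      ⋃ m ∈ Finset.Icc 1 d, ⋃ k ∈ Finset.range (d + 1), bad m k with hS
    have hSm : ν S ≤ ENNReal.ofReal (1 / 2) := by
      have h1 : ν {V | ¬ Orth V} = 0 := by
        rw [ae_iff] at hν3; exact hν3
      have h2 : ν (⋃ m ∈ Finset.Icc 1 d, ⋃ k ∈ Finset.range (d + 1), bad m k) ≤
          ENNReal.ofReal (1 / 16) := by
        calc ν (⋃ m ∈ Finset.Icc 1 d, ⋃ k ∈ Finset.range (d + 1), bad m k)
            ≤ ∑ m ∈ Finset.Icc 1 d, ∑ k ∈ Finset.range (d + 1), ν (bad m k) := by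
              refine (measure_biUnion_finset_le _ _).trans ?_
              exact Finset.sum_le_sum fun m _ => measure_biUnion_finset_le _ _
          _ ≤ ∑ m ∈ Finset.Icc 1 d, ∑ k ∈ Finset.range (d + 1),
                ENNReal.ofReal (1 / (32 * (d : ℝ) ^ 2)) := by
              refine Finset.sum_le_sum fun m _ => Finset.sum_le_sum fun k hk => ?_
              exact hbadm m k (by have := Finset.mem_range.mp hk; omega)
          _ = ENNReal.ofReal (d * ((d + 1) * (1 / (32 * (d : ℝ) ^ 2)))) := by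
              rw [Finset.sum_const, Finset.sum_const, Nat.card_Icc, Finset.card_range,
                nsmul_eq_mul, nsmul_eq_mul, ENNReal.ofReal_mul (by positivity),
                ENNReal.ofReal_mul (by positivity), ENNReal.ofReal_natCast]
              rw [show ((d : ℝ) + 1) = ((d + 1 : ℕ) : ℝ) by push_cast; ring,
                ENNReal.ofReal_natCast]
              simp
          _ ≤ _ := by
              apply ENNReal.ofReal_le_ofReal
              have h5 : (d : ℝ) + 1 ≤ 2 * d := by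
                have : (1 : ℝ) ≤ d := by exact_mod_cast hd
                linarith
              calc (d : ℝ) * ((d + 1) * (1 / (32 * (d : ℝ) ^ 2)))
                  ≤ d * ((2 * d) * (1 / (32 * (d : ℝ) ^ 2))) := by gcongr
                _ = 1 / 16 := by field_simp; norm_num
      calc ν S ≤ ν {V | ¬ Orth V} + ν {V | ∃ i j, K / Real.sqrt d < |V i j|} +
            ν (⋃ m ∈ Finset.Icc 1 d, ⋃ k ∈ Finset.range (d + 1), bad m k) := by
            rw [hS]
            refine (measure_union_le _ _).trans ?_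
            gcongr
            exact measure_union_le _ _
        _ ≤ 0 + ENNReal.ofReal (1 / 8) + ENNReal.ofReal (1 / 16) := by
            gcongr
            exact h1.le
        _ ≤ ENNReal.ofReal (1 / 2) := by
            rw [zero_add, ← ENNReal.ofReal_add (by norm_num) (by norm_num)]
            apply ENNReal.ofReal_le_ofReal; norm_num
    have hne : ∃ V, V ∉ S := by
      by_contra hcon
      push Not at hcon
      have h1 : S = Set.univ := Set.eq_univ_of_forall hcon
      rw [h1] at hSm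
      have h2 : ν.real Set.univ ≤ 1 / 2 := by
        rw [Measure.real]
        exact ENNReal.toReal_le_of_le_ofReal (by norm_num) hSm
      linarith
    obtain ⟨V, hV⟩ := hne
    simp only [hS, Set.mem_union, Set.mem_ofPred_eq, Set.mem_iUnion, not_or, not_exists, not_not,
      not_lt] at hV
    obtain ⟨⟨hVo, hVf⟩, hVg⟩ := hV
    have hU := map_mem_unitary hVo
    have hgoodall : ∀ m : ℕ, 1 ≤ m → m ≤ d → ∀ k : ℕ,
        C * m * Real.log (Real.exp 1 * d / m) ≤ k → k ≤ d →
        GoodK (V.map (fun a => (a : ℂ))) m k := by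
      intro m hm hmd k hk hkd
      by_contra hcon
      exact hVg m (Finset.mem_Icc.mpr ⟨hm, hmd⟩) k
        (Finset.mem_range.mpr (by omega)) ⟨hm, hmd, hk, hcon⟩
    refine ⟨V.map (fun a => (a : ℂ)), hU, fun i j => ?_, fun i j => ?_,
      fun m hm hmd => ⟨fun k hk hkd => ?_, kRIP_spec hU m, ?_⟩⟩
    rotate_left
    · simp
    · refine hgoodall m hm hmd k (le_trans ?_ hk) hkd
      have h2 := one_le_mlog hm hmd
      rw [mul_assoc, mul_assoc]
      have h3 : C ≤ max (2 * C) (d₀ : ℝ) := le_trans (by linarith) (le_max_left _ _)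
      gcongr
    rotate_left
    · rw [Matrix.map_apply, Complex.norm_real, Real.norm_eq_abs]
      refine (hVf i j).trans ?_
      gcongr
      exact le_max_left _ _
    · have h2 := one_le_mlog hm hmd
      set x : ℝ := m * Real.log (Real.exp 1 * d / m) with hx
      have hxx : max (2 * C) (d₀ : ℝ) * m * Real.log (Real.exp 1 * d / m) =
        max (2 * C) (d₀ : ℝ) * x := by rw [hx]; ring
      rw [hxx]
      have h3 : 2 * (C * x) ≤ max (2 * C) (d₀ : ℝ) * x := by
        calc 2 * (C * x) = (2 * C) * x := by ring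
          _ ≤ _ := by gcongr; exact le_max_left _ _
      refine le_trans ?_ h3
      have hCx : 1 ≤ C * x := by nlinarith
      rcases le_or_gt ⌈C * x⌉₊ d with hle | hgt
      · have hgood : GoodK (V.map (fun a => (a : ℂ))) m ⌈C * x⌉₊ := by
          refine hgoodall m hm hmd _ ?_ hle
          have h7 := Nat.le_ceil (C * x)
          have h8 : C * m * Real.log (Real.exp 1 * d / m) = C * x := by rw [hx]; ring
          rw [h8]
          exact h7
        have h4 : (kRIP (V.map (fun a => (a : ℂ))) m : ℝ) ≤ ⌈C * x⌉₊ := by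
          exact_mod_cast kRIP_le hgood
        have h5 : (⌈C * x⌉₊ : ℝ) < C * x + 1 := Nat.ceil_lt_add_one (by linarith)
        linarith
      · have h4 : (kRIP (V.map (fun a => (a : ℂ))) m : ℝ) ≤ d := by
          exact_mod_cast kRIP_le (goodK_d hU m)
        have h5 : (d : ℝ) < C * x := Nat.lt_ceil.mp hgt
        linarith

end Pool.Agent.Helper81.RIP
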