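import Pool.Agent.Helper81.RIP.E1
import Pool.Agent.Helper81.RIP.E4

/-!
# Part I1: the starting measure of the iteration
-/

namespace Pool.Agent.Helper81.RIP
open MeasureTheory ProbabilityTheory Matrix

variable {d : ℕ}

lemma abs_Rm_le {c : ℝ} (hc : 0 ≤ c) (V : Mat d) (i j : Fin d) :
    |Rm c V i j| ≤ max (|V i j| - c) 0 := by
  have h : Rm c V i j = V i j - max (-c) (min c (V i j)) := by
    simp [Rm, clM, cl]
  rw [h]
  rcases le_total (V i j) c with h1 | h1
  · rw [min_eq_right h1]
    rcases le_total (-c) (V i j) with h2 | h2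
    · rw [max_eq_right h2]
      simp
    · rw [max_eq_left h2, abs_of_nonpos (by linarith)]
      apply le_max_of_le_left
      rw [abs_of_nonpos (by linarith)]
      linarith
  · rw [min_eq_left h1, max_eq_right (by linarith), abs_of_nonneg (by linarith)]
    apply le_max_of_le_left
    rw [abs_of_nonneg (by linarith)]

/-- I1: the starting measure of the iteration. -/
theorem start {L : ℝ} (hL : 1 ≤ L) (hd : 3 ≤ d) {μ : Measure (Mat d)} [IsProbabilityMeasure μ]
    (ho : ∀ᵐ V ∂μ, Orth V) (hi : Inv μ) (hc : Conc L μ) {κ : ℝ} (hκ : 0 < κ) :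
    State L κ (4 * (16 * L) ^ 2 * Real.exp (-(κ / (16 * L)) ^ 2)) μ := by
  have hL0 : 0 < L := by linarith
  have hd0 : (0 : ℝ) < d := by
    have : 0 < d := by omega
    exact_mod_cast this
  have hsd : 0 < Real.sqrt d := Real.sqrt_pos.2 hd0
  have huniv : μ Set.univ ≤ 1 := by simp
  have hcont : ∀ i j : Fin d, Continuous (fun V : Mat d => V i j) := fun i j =>
    (continuous_apply j).comp (continuous_apply i)
  -- the tail of one entry
  have tail : ∀ (i j : Fin d) (u : ℝ), 0 < u →
      μ {V | 16 * L * u < Real.sqrt d * |V i j|} ≤ ENNReal.ofReal (4 * Real.exp (-u ^ 2)) := by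
    intro i j u hu
    have hint : Integrable (fun V : Mat d => V i j) μ := by
      apply Integrable.of_bound (hcont i j).aestronglyMeasurable 1
      filter_upwards [ho] with V hV
      rw [Real.norm_eq_abs]
      exact hV.abs_entry_le i j
    have h0 : ∫ V in Set.univ, (fun V : Mat d => V i j) V ∂μ = 0 :=
      inv_mean_zero (by omega) huniv hi MeasurableSet.univ (fun _ _ _ _ => by simp)
        (G := fun V => V) (fun _ _ _ _ _ => rfl) i j
    have h1 := conc_mean (by omega) hL huniv hc MeasurableSet.univ
      (by simp [measureReal_def]; norm_num) (f := fun V : Mat d => V i j) (l := 1) zero_le_one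
      (fun V _ V' _ => by
        rw [one_mul]
        have := abs_entry_le_hs (V - V') i j
        simpa using this)
      (by rw [integrableOn_univ]; exact hint) h0 u hu
    refine le_trans (measure_mono ?_) h1
    intro V hV
    refine ⟨Set.mem_univ _, ?_⟩
    have hV' : 16 * L * u < Real.sqrt d * |V i j| := hV
    rw [mul_one]
    exact hV'
  refine ⟨huniv, ho, hi, hc, ?_, ?_⟩
  · intro i j
    have h1 := tail i j (κ / (16 * L)) (by positivity)
    have e : 16 * L * (κ / (16 * L)) = κ := by field_simp
    rw [e] at h1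
    have hset : {V : Mat d | κ / Real.sqrt d < |V i j|} = {V | κ < Real.sqrt d * |V i j|} := by
      ext V
      simp only [Set.mem_ofPred_eq]
      rw [div_lt_iff₀ hsd, mul_comm]
    rw [hset]
    refine h1.trans (ENNReal.ofReal_le_ofReal ?_)
    have h2 : (1 : ℝ) ≤ (16 * L) ^ 2 := by nlinarith
    have h3 := Real.exp_pos (-(κ / (16 * L)) ^ 2)
    nlinarith
  · intro i j
    have hσ : 0 < 16 * L / Real.sqrt d := by positivity
    have h1 := tail_sq (ν := μ) (f := fun V : Mat d => V i j) (hcont i j).aemeasurable hσ
      (by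
        intro u hu
        have hset : {V : Mat d | 16 * L / Real.sqrt d * u < |V i j|} =
            {V | 16 * L * u < Real.sqrt d * |V i j|} := by
          ext V
          simp only [Set.mem_ofPred_eq]
          rw [div_mul_eq_mul_div, div_lt_iff₀ hsd, mul_comm |V i j|]
        rw [hset]
        exact tail i j u hu) (b := κ / (16 * L)) (by positivity)
    have e1 : 16 * L / Real.sqrt d * (κ / (16 * L)) = κ / Real.sqrt d := by field_simp
    rw [e1] at h1
    have e2 : 4 * (16 * L / Real.sqrt d) ^ 2 * Real.exp (-(κ / (16 * L)) ^ 2) =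
        4 * (16 * L) ^ 2 * Real.exp (-(κ / (16 * L)) ^ 2) / d := by
      rw [div_pow, Real.sq_sqrt hd0.le]
      ring
    rw [e2] at h1
    refine le_trans (lintegral_mono fun V => ENNReal.ofReal_le_ofReal ?_) h1
    rw [← sq_abs]
    have h2 := abs_Rm_le (c := κ / Real.sqrt d) (by positivity) V i j
    exact pow_le_pow_left₀ (abs_nonneg _) h2 2

end Pool.Agent.Helper81.RIP
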