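import Pool.Agent.Helper81.RIP.Basic

/-!
# N: nets of sparse vectors
-/

namespace Pool.Agent.Helper81.RIP
open Matrix

variable {d : ℕ}

namespace NN

/-- The weight of an integer. -/
noncomputable def wt (l : ℝ) (k : ℤ) : ℝ := if k = 0 then 1 else l * (1 / 2) ^ k.natAbs

lemma wt_nonneg {l : ℝ} (hl : 0 ≤ l) (k : ℤ) : 0 ≤ wt l k := by
  unfold wt
  split_ifs <;> positivity

lemma sum_wt (l : ℝ) (n : ℕ) :
    ∑ k ∈ Finset.Icc (-(n : ℤ)) n, wt l k = 1 + 2 * l * (1 - (1 / 2) ^ n) := by
  induction n with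
  | zero => simp [wt]
  | succ n ih =>
    have h1 : Finset.Icc (-((n + 1 : ℕ) : ℤ)) ((n + 1 : ℕ) : ℤ) =
        insert ((n + 1 : ℕ) : ℤ) (insert (-((n + 1 : ℕ) : ℤ)) (Finset.Icc (-(n : ℤ)) n)) := by
      ext k
      simp only [Finset.mem_insert, Finset.mem_Icc]
      push_cast
      omega
    rw [h1, Finset.sum_insert, Finset.sum_insert, ih]
    · have e1 : wt l ((n + 1 : ℕ) : ℤ) = l * (1 / 2) ^ (n + 1) := by
        unfold wt
        rw [if_neg (by omega)]
        simp only [Int.natAbs_natCast]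
      have e2 : wt l (-((n + 1 : ℕ) : ℤ)) = l * (1 / 2) ^ (n + 1) := by
        unfold wt
        rw [if_neg (by omega)]
        simp only [Int.natAbs_neg, Int.natAbs_natCast]
      rw [e1, e2, pow_succ]
      ring
    · simp only [Finset.mem_Icc, not_and, not_le]
      intro h
      push_cast at h
      omega
    · simp only [Finset.mem_insert, Finset.mem_Icc, not_or, not_and, not_le]
      push_cast
      constructor <;> omega

/-- The integer vectors of the net. -/
noncomputable def Z (s d : ℕ) : Finset (Fin d → ℤ) :=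
  (Fintype.piFinset fun _ => Finset.Icc (-((64 * s : ℕ) : ℤ)) ((64 * s : ℕ) : ℤ)).filter fun z =>
    (Finset.univ.filter fun j => z j ≠ 0).card ≤ s ∧ ∑ j, (z j).natAbs ≤ 64 * s

lemma card_Z {s d : ℕ} (hs : 1 ≤ s) (hsd : s ≤ d) :
    ((Z s d).card : ℝ) ≤ ((2 ^ 64 * Real.exp 2) * d / s) ^ s := by
  have hs0 : (0 : ℝ) < s := by exact_mod_cast hs
  have hd0 : (0 : ℝ) < d := lt_of_lt_of_le hs0 (by exact_mod_cast hsd)
  set l : ℝ := s / d with hl
  have hl0 : 0 < l := by positivity
  have hl1 : l ≤ 1 := by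
    rw [hl, div_le_one hd0]
    exact_mod_cast hsd
  have h1 : ∀ z ∈ Z s d, l ^ s * (1 / 2) ^ (64 * s) ≤ ∏ j, wt l (z j) := by
    intro z hz
    rw [Z, Finset.mem_filter] at hz
    have e : ∏ j, wt l (z j) = l ^ (Finset.univ.filter fun j => z j ≠ 0).card *
        (1 / 2) ^ (∑ j, (z j).natAbs) := by
      rw [← Finset.prod_pow_eq_pow_sum, Finset.card_eq_sum_ones, ← Finset.prod_pow_eq_pow_sum,
        Finset.prod_filter, ← Finset.prod_mul_distrib]
      apply Finset.prod_congr rfl
      intro j _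
      unfold wt
      by_cases h : z j = 0
      · simp [h]
      · simp [h]
    rw [e]
    apply mul_le_mul
    · exact pow_le_pow_of_le_one hl0.le hl1 hz.2.1
    · exact pow_le_pow_of_le_one (by norm_num) (by norm_num) hz.2.2
    · positivity
    · positivity
  have h2 : ((Z s d).card : ℝ) * (l ^ s * (1 / 2) ^ (64 * s)) ≤ (1 + 2 * l) ^ d := by
    calc ((Z s d).card : ℝ) * (l ^ s * (1 / 2) ^ (64 * s))
        = ∑ z ∈ Z s d, l ^ s * (1 / 2) ^ (64 * s) := by
          rw [Finset.sum_const, nsmul_eq_mul]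
      _ ≤ ∑ z ∈ Z s d, ∏ j, wt l (z j) := Finset.sum_le_sum h1
      _ ≤ ∑ z ∈ Fintype.piFinset fun _ : Fin d =>
            Finset.Icc (-((64 * s : ℕ) : ℤ)) ((64 * s : ℕ) : ℤ), ∏ j, wt l (z j) := by
          apply Finset.sum_le_sum_of_subset_of_nonneg (Finset.filter_subset _ _)
          intro z _ _
          exact Finset.prod_nonneg fun j _ => wt_nonneg hl0.le _
      _ = ∏ _j : Fin d, ∑ k ∈ Finset.Icc (-((64 * s : ℕ) : ℤ)) ((64 * s : ℕ) : ℤ), wt l k := by
          rw [Finset.prod_univ_sum]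
      _ = (1 + 2 * l * (1 - (1 / 2) ^ (64 * s))) ^ d := by
          simp only [sum_wt, Finset.prod_const, Finset.card_univ, Fintype.card_fin]
      _ ≤ (1 + 2 * l) ^ d := by
          have h3 : (0 : ℝ) ≤ (1 / 2) ^ (64 * s) := by positivity
          have h4 : ((1 : ℝ) / 2) ^ (64 * s) ≤ 1 := pow_le_one₀ (by norm_num) (by norm_num)
          apply pow_le_pow_left₀
          · have : 0 ≤ 2 * l * (1 - (1 / 2) ^ (64 * s)) :=
              mul_nonneg (by positivity) (by linarith)
            linarith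
          · have : 2 * l * (1 - (1 / 2) ^ (64 * s)) ≤ 2 * l * 1 :=
              mul_le_mul_of_nonneg_left (by linarith) (by positivity)
            linarith
  have h3 : (1 + 2 * l) ^ d ≤ Real.exp 2 ^ s := by
    calc (1 + 2 * l) ^ d ≤ (Real.exp (2 * l)) ^ d := by
          apply pow_le_pow_left₀ (by positivity)
          linarith [Real.add_one_le_exp (2 * l)]
      _ = Real.exp (d * (2 * l)) := by rw [Real.exp_nat_mul]
      _ = Real.exp (s * 2) := by
          congr 1
          rw [hl]
          field_simp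
      _ = Real.exp 2 ^ s := by rw [Real.exp_nat_mul]
  have h4 : ((Z s d).card : ℝ) ≤ Real.exp 2 ^ s / (l ^ s * (1 / 2) ^ (64 * s)) := by
    rw [le_div_iff₀ (by positivity)]
    exact h2.trans h3
  refine h4.trans (le_of_eq ?_)
  rw [hl, pow_mul, ← mul_pow, ← div_pow]
  congr 1
  field_simp

end NN

/-- N: nets of sparse vectors; the approximating vector is entrywise smaller. -/
theorem net : ∃ C : ℝ, 1 ≤ C ∧ ∀ s d : ℕ, 1 ≤ s → s ≤ d → ∃ N : Finset (Fin d → ℝ),
    (N.card : ℝ) ≤ (C * d / s) ^ s ∧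
    (∀ y ∈ N, vn y ≤ 1 ∧ (Finset.univ.filter fun j => y j ≠ 0).card ≤ s) ∧
    ∀ x : Fin d → ℝ, vn x ≤ 1 → (Finset.univ.filter fun j => x j ≠ 0).card ≤ s →
      ∃ y ∈ N, (∀ j, |y j| ≤ |x j|) ∧ vn (x - y) ≤ 1 / 8 := by
  refine ⟨2 ^ 64 * Real.exp 2, ?_, ?_⟩
  · have : (1 : ℝ) ≤ Real.exp 2 := Real.one_le_exp (by norm_num)
    nlinarith
  intro s d hs hsd
  have hs0 : (0 : ℝ) < s := by exact_mod_cast hs
  set h : ℝ := 1 / (8 * Real.sqrt s) with hh
  have hsq : 0 < Real.sqrt (s : ℝ) := Real.sqrt_pos.mpr hs0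
  have hpos : 0 < h := by positivity
  have hsq2 : (s : ℝ) * h ^ 2 = 1 / 64 := by
    rw [hh, div_pow, mul_pow, Real.sq_sqrt hs0.le]
    field_simp
    norm_num
  classical
  refine ⟨((NN.Z s d).image fun z j => (z j : ℝ) * h).filter fun y => vn y ≤ 1, ?_, ?_, ?_⟩
  · refine le_trans ?_ (NN.card_Z hs hsd)
    have h1 := Finset.card_filter_le ((NN.Z s d).image fun z j => (z j : ℝ) * h)
      (fun y => vn y ≤ 1)
    have h2 := Finset.card_image_le (s := NN.Z s d) (f := fun z j => (z j : ℝ) * h)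
    exact_mod_cast h1.trans h2
  · intro y hy
    rw [Finset.mem_filter, Finset.mem_image] at hy
    obtain ⟨⟨z, hz, rfl⟩, hy2⟩ := hy
    refine ⟨hy2, ?_⟩
    rw [NN.Z, Finset.mem_filter] at hz
    refine le_trans (le_of_eq ?_) hz.2.1
    congr 1
    apply Finset.filter_congr
    intro j _
    simp [hpos.ne']
  · intro x hx hxs
    -- the rounded vector
    set z : Fin d → ℤ := fun j => (SignType.sign (x j) : ℤ) * ⌊|x j| / h⌋ with hz
    have hfl0 : ∀ j, 0 ≤ ⌊|x j| / h⌋ := fun j => Int.floor_nonneg.mpr (by positivity)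
    have hfl1 : ∀ j, (⌊|x j| / h⌋ : ℝ) * h ≤ |x j| := by
      intro j
      have := Int.floor_le (|x j| / h)
      rwa [le_div_iff₀ hpos] at this
    have hfl2 : ∀ j, |x j| - h ≤ (⌊|x j| / h⌋ : ℝ) * h := by
      intro j
      have := Int.lt_floor_add_one (|x j| / h)
      rw [div_lt_iff₀ hpos] at this
      linarith
    have hzabs : ∀ j, |((z j : ℤ) : ℝ) * h| ≤ |x j| := by
      intro j
      have h0 : (0 : ℝ) ≤ (⌊|x j| / h⌋ : ℝ) := by exact_mod_cast hfl0 j
      rcases lt_trichotomy (x j) 0 with hj | hj | hj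
      · simp only [hz, sign_neg hj, SignType.coe_neg_one, Int.cast_mul, Int.cast_neg, Int.cast_one]
        rw [neg_one_mul, neg_mul, abs_neg, abs_of_nonneg (by positivity)]
        exact hfl1 j
      · simp [hz, hj]
      · simp only [hz, sign_pos hj, SignType.coe_one, Int.cast_mul, Int.cast_one]
        rw [one_mul, abs_of_nonneg (by positivity)]
        exact hfl1 j
    have hzdiff : ∀ j, |x j - ((z j : ℤ) : ℝ) * h| ≤ h := by
      intro j
      have h0 : (0 : ℝ) ≤ (⌊|x j| / h⌋ : ℝ) := by exact_mod_cast hfl0 j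
      have h1 := hfl1 j
      have h2 := hfl2 j
      rcases lt_trichotomy (x j) 0 with hj | hj | hj
      · simp only [hz, sign_neg hj, SignType.coe_neg_one, Int.cast_mul, Int.cast_neg, Int.cast_one]
        have hxa : |x j| = - x j := abs_of_neg hj
        rw [abs_le]
        rw [hxa] at h1 h2 ⊢
        constructor <;> linarith
      · simp [hz, hj, hpos.le]
      · simp only [hz, sign_pos hj, SignType.coe_one, Int.cast_mul, Int.cast_one]
        have hxa : |x j| = x j := abs_of_pos hj
        rw [abs_le]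
        rw [hxa] at h1 h2 ⊢
        constructor <;> linarith
    have hzsum : ∑ j, ((z j : ℤ) : ℝ) ^ 2 ≤ 64 * s := by
      have h1 : (∑ j, ((z j : ℤ) : ℝ) ^ 2) * h ^ 2 ≤ 1 := by
        calc (∑ j, ((z j : ℤ) : ℝ) ^ 2) * h ^ 2 = ∑ j, (((z j : ℤ) : ℝ) * h) ^ 2 := by
              rw [Finset.sum_mul]
              exact Finset.sum_congr rfl fun j _ => by ring
          _ ≤ ∑ j, x j ^ 2 := Finset.sum_le_sum fun j _ => sq_le_sq.mpr (hzabs j)
          _ = vn x ^ 2 := (vn_sq x).symm
          _ ≤ 1 := pow_le_one₀ (vn_nonneg _) hx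
      have h2 : 0 < h ^ 2 := by positivity
      have h3 : (64 * (s : ℝ)) * h ^ 2 = 1 := by
        have : (64 * (s : ℝ)) * h ^ 2 = 64 * (s * h ^ 2) := by ring
        rw [this, hsq2]
        norm_num
      rw [← h3] at h1
      exact le_of_mul_le_mul_right h1 h2
    have hznat : ∑ j, (z j).natAbs ≤ 64 * s := by
      have h1 : ((∑ j, (z j).natAbs : ℕ) : ℝ) ≤ ∑ j, ((z j : ℤ) : ℝ) ^ 2 := by
        push_cast
        apply Finset.sum_le_sum
        intro j _
        have h2 : ((z j).natAbs : ℝ) = |((z j : ℤ) : ℝ)| := by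
          rw [Nat.cast_natAbs, Int.cast_abs]
        rw [h2, ← sq_abs]
        have h3 : (z j).natAbs ≤ (z j).natAbs ^ 2 := Nat.le_self_pow two_ne_zero _
        rw [← h2]
        exact_mod_cast h3
      have h2 := h1.trans hzsum
      exact_mod_cast h2
    have hsupp : ∀ j, ((z j : ℤ) : ℝ) * h ≠ 0 → x j ≠ 0 := by
      intro j hj hx0
      apply hj
      have := hzabs j
      rw [hx0, abs_zero] at this
      exact abs_nonpos_iff.mp this
    have hcard : (Finset.univ.filter fun j => z j ≠ 0).card ≤ s := by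
      refine le_trans (Finset.card_le_card ?_) hxs
      intro j hj
      rw [Finset.mem_filter] at hj ⊢
      refine ⟨hj.1, hsupp j ?_⟩
      have : ((z j : ℤ) : ℝ) ≠ 0 := by exact_mod_cast hj.2
      exact mul_ne_zero this hpos.ne'
    refine ⟨fun j => (z j : ℝ) * h, ?_, hzabs, ?_⟩
    · rw [Finset.mem_filter, Finset.mem_image]
      refine ⟨⟨z, ?_, rfl⟩, ?_⟩
      · rw [NN.Z, Finset.mem_filter]
        refine ⟨?_, hcard, hznat⟩
        rw [Fintype.mem_piFinset]
        intro j
        have h1 : (z j).natAbs ≤ 64 * s :=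
          le_trans (Finset.single_le_sum (f := fun j => (z j).natAbs) (fun _ _ => Nat.zero_le _)
            (Finset.mem_univ j)) hznat
        rw [Finset.mem_Icc]
        omega
      · refine le_trans ?_ hx
        unfold vn
        exact Real.sqrt_le_sqrt (Finset.sum_le_sum fun j _ => sq_le_sq.mpr (hzabs j))
    · have h1 : vn (x - fun j => (z j : ℝ) * h) ^ 2 ≤ (1 / 8) ^ 2 := by
        rw [vn_sq]
        calc ∑ j, (x - fun j => (z j : ℝ) * h) j ^ 2
            = ∑ j ∈ Finset.univ.filter (fun j => x j ≠ 0), (x - fun j => (z j : ℝ) * h) j ^ 2 := by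
              symm
              apply Finset.sum_subset (Finset.subset_univ _)
              intro j _ hj
              have hj0 : x j = 0 := by
                by_contra hne
                exact hj (Finset.mem_filter.mpr ⟨Finset.mem_univ _, hne⟩)
              have : ((z j : ℤ) : ℝ) * h = 0 := by
                by_contra hne
                exact hsupp j hne hj0
              simp only [Pi.sub_apply, hj0, this]
              norm_num
          _ ≤ ∑ j ∈ Finset.univ.filter (fun j => x j ≠ 0), h ^ 2 := by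
              apply Finset.sum_le_sum
              intro j _
              rw [← sq_abs]
              exact pow_le_pow_left₀ (abs_nonneg _) (hzdiff j) 2
          _ = (Finset.univ.filter (fun j => x j ≠ 0)).card * h ^ 2 := by
              rw [Finset.sum_const, nsmul_eq_mul]
          _ ≤ s * h ^ 2 := by
              apply mul_le_mul_of_nonneg_right _ (by positivity)
              exact_mod_cast hxs
          _ = (1 / 8) ^ 2 := by rw [hsq2]; norm_num
      exact (pow_le_pow_iff_left₀ (vn_nonneg _) (by norm_num) two_ne_zero).mp h1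

/-- N: from the net to all sparse vectors. -/
theorem net_sup {s : ℕ} {N : Finset (Fin d → ℝ)}
    (hN : ∀ x : Fin d → ℝ, vn x ≤ 1 → (Finset.univ.filter fun j => x j ≠ 0).card ≤ s →
      ∃ y ∈ N, (∀ j, |y j| ≤ |x j|) ∧ vn (x - y) ≤ 1 / 8)
    (A : Mat d) (M : ℝ) (hM : 0 ≤ M) (h : ∀ y ∈ N, vn (A *ᵥ y) ≤ M) :
    ∀ x : Fin d → ℝ, (Finset.univ.filter fun j => x j ≠ 0).card ≤ s →
      vn (A *ᵥ x) ≤ 8 / 7 * M * vn x := by
  have key : ∀ n : ℕ, ∀ x : Fin d → ℝ, (Finset.univ.filter fun j => x j ≠ 0).card ≤ s →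
      vn (A *ᵥ x) ≤ (8 / 7 * M + (1 / 8) ^ n * hs A) * vn x := by
    intro n
    induction n with
    | zero =>
      intro x _
      refine (vn_mulVec_le_hs A x).trans (mul_le_mul_of_nonneg_right ?_ (vn_nonneg _))
      rw [pow_zero, one_mul]
      have : 0 ≤ 8 / 7 * M := by positivity
      linarith
    | succ n ih =>
      intro x hxs
      have hA := hs_nonneg A
      have hK : 0 ≤ 8 / 7 * M + (1 / 8) ^ n * hs A := by positivity
      rcases (vn_nonneg x).eq_or_lt with hx | hx
      · have := vn_eq_zero hx.symm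
        subst this
        simp
      set u : Fin d → ℝ := (vn x)⁻¹ • x with hu
      have hu1 : vn u ≤ 1 := by
        rw [hu, vn_smul, abs_of_pos (inv_pos.mpr hx), inv_mul_cancel₀ hx.ne']
      have hus : (Finset.univ.filter fun j => u j ≠ 0).card ≤ s := by
        refine le_trans (Finset.card_le_card ?_) hxs
        intro j hj
        rw [Finset.mem_filter] at hj ⊢
        refine ⟨hj.1, fun h0 => hj.2 ?_⟩
        simp [hu, h0]
      obtain ⟨y, hyN, hya, hyb⟩ := hN u hu1 hus
      have huy : (Finset.univ.filter fun j => (u - y) j ≠ 0).card ≤ s := by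
        refine le_trans (Finset.card_le_card ?_) hus
        intro j hj
        rw [Finset.mem_filter] at hj ⊢
        refine ⟨hj.1, fun h0 => hj.2 ?_⟩
        have := hya j
        rw [h0, abs_zero] at this
        simp [h0, abs_nonpos_iff.mp this]
      have h1 : vn (A *ᵥ u) ≤ 8 / 7 * M + (1 / 8) ^ (n + 1) * hs A := by
        have e : A *ᵥ u = A *ᵥ y + A *ᵥ (u - y) := by
          rw [← Matrix.mulVec_add]
          congr 1
          abel
        rw [e]
        refine (vn_add_le _ _).trans ?_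
        have h2 := h y hyN
        have h3 := (ih (u - y) huy).trans (mul_le_mul_of_nonneg_left hyb hK)
        have h4 : ((1 : ℝ) / 8) ^ (n + 1) = (1 / 8) ^ n * (1 / 8) := pow_succ _ _
        rw [h4]
        nlinarith
      have h2 : A *ᵥ x = vn x • (A *ᵥ u) := by
        rw [hu, Matrix.mulVec_smul, smul_smul, mul_inv_cancel₀ hx.ne', one_smul]
      rw [h2, vn_smul, abs_of_pos hx, mul_comm]
      exact mul_le_mul_of_nonneg_right h1 hx.le
  intro x hxs
  have hlim : Filter.Tendsto (fun n : ℕ => (8 / 7 * M + (1 / 8 : ℝ) ^ n * hs A) * vn x)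
      Filter.atTop (nhds ((8 / 7 * M + 0 * hs A) * vn x)) := by
    apply Filter.Tendsto.mul_const
    apply Filter.Tendsto.const_add
    apply Filter.Tendsto.mul_const
    exact tendsto_pow_atTop_nhds_zero_of_lt_one (by norm_num) (by norm_num)
  have h := ge_of_tendsto' hlim (fun n => key n x hxs)
  simpa using h

end Pool.Agent.Helper81.RIP
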