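import Pool.Agent.Helper81.RIP.Basic

/-!
# O1: the operator norm from sparse and flat vectors (deterministic)
-/

namespace Pool.Agent.Helper81.RIP
open Matrix

variable {d : ℕ}

namespace O1

/-- The part of `x` with entries beyond `c`. -/
noncomputable def big (c : ℝ) (x : Fin d → ℝ) : Fin d → ℝ := fun j => if c < |x j| then x j else 0
/-- The part of `x` with entries at most `c`. -/
noncomputable def small (c : ℝ) (x : Fin d → ℝ) : Fin d → ℝ := fun j => if c < |x j| then 0 else x j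

lemma big_add_small (c : ℝ) (x : Fin d → ℝ) : big c x + small c x = x := by
  ext j
  simp only [Pi.add_apply, big, small]
  by_cases h : c < |x j| <;> simp [h]

lemma vn_le_of_abs_le {x y : Fin d → ℝ} (h : ∀ j, |x j| ≤ |y j|) : vn x ≤ vn y := by
  unfold vn
  apply Real.sqrt_le_sqrt
  apply Finset.sum_le_sum
  intro j _
  exact sq_le_sq.mpr (h j)

lemma vn_big_le (c : ℝ) (x : Fin d → ℝ) : vn (big c x) ≤ vn x := by
  apply vn_le_of_abs_le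
  intro j
  unfold big
  by_cases h : c < |x j| <;> simp [h]

lemma vn_small_le (c : ℝ) (x : Fin d → ℝ) : vn (small c x) ≤ vn x := by
  apply vn_le_of_abs_le
  intro j
  unfold small
  by_cases h : c < |x j| <;> simp [h]

lemma small_abs_le {c : ℝ} (hc : 0 ≤ c) (x : Fin d → ℝ) (j : Fin d) : |small c x j| ≤ c := by
  unfold small
  by_cases h : c < |x j|
  · simp [h, hc]
  · simp only [h, if_false]
    exact not_lt.mp h

lemma card_big {s : ℕ} (hs1 : 1 ≤ s) {x : Fin d → ℝ} (hx : vn x ≤ 1) :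
    (Finset.univ.filter fun j => big (1 / Real.sqrt s) x j ≠ 0).card ≤ s := by
  set T := Finset.univ.filter fun j => big (1 / Real.sqrt s) x j ≠ 0 with hT
  have hs0 : (0 : ℝ) < s := by exact_mod_cast hs1
  have hsq : (0 : ℝ) < Real.sqrt s := Real.sqrt_pos.mpr hs0
  have h1 : ∀ j ∈ T, 1 / (s : ℝ) ≤ x j ^ 2 := by
    intro j hj
    rw [hT, Finset.mem_filter] at hj
    have hj2 := hj.2
    unfold big at hj2
    by_cases h : 1 / Real.sqrt s < |x j|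
    · have h2 : (1 / Real.sqrt s) ^ 2 ≤ |x j| ^ 2 :=
        pow_le_pow_left₀ (by positivity) h.le 2
      rw [sq_abs, div_pow, Real.sq_sqrt hs0.le, one_pow] at h2
      exact h2
    · exact absurd (if_neg h) hj2
  have h2 : (T.card : ℝ) * (1 / (s : ℝ)) ≤ 1 := by
    calc (T.card : ℝ) * (1 / (s : ℝ)) = ∑ j ∈ T, 1 / (s : ℝ) := by
          rw [Finset.sum_const, nsmul_eq_mul]
      _ ≤ ∑ j ∈ T, x j ^ 2 := Finset.sum_le_sum h1
      _ ≤ ∑ j, x j ^ 2 := Finset.sum_le_sum_of_subset_of_nonneg (Finset.subset_univ _)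
          (fun _ _ _ => sq_nonneg _)
      _ = vn x ^ 2 := (vn_sq x).symm
      _ ≤ 1 := pow_le_one₀ (vn_nonneg _) hx
  have h3 : (T.card : ℝ) ≤ s := by
    rw [mul_one_div, div_le_one hs0] at h2
    exact h2
  exact_mod_cast h3

lemma opLe_of_bilin {R : Mat d} {M : ℝ} (hM : 0 ≤ M)
    (h : ∀ x y : Fin d → ℝ, vn x ≤ 1 → vn y ≤ 1 → |y ⬝ᵥ (R *ᵥ x)| ≤ M) : OpLe R M := by
  intro x
  rcases (vn_nonneg x).eq_or_lt with hx | hx
  · have := vn_eq_zero hx.symm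
    subst this
    simp
  rcases (vn_nonneg (R *ᵥ x)).eq_or_lt with hy | hy
  · rw [← hy]
    exact mul_nonneg hM (vn_nonneg _)
  have hx1 : vn ((vn x)⁻¹ • x) ≤ 1 := by
    rw [vn_smul, abs_of_pos (inv_pos.mpr hx), inv_mul_cancel₀ hx.ne']
  have hy1 : vn ((vn (R *ᵥ x))⁻¹ • (R *ᵥ x)) ≤ 1 := by
    rw [vn_smul, abs_of_pos (inv_pos.mpr hy), inv_mul_cancel₀ hy.ne']
  have h1 := h _ _ hx1 hy1
  rw [Matrix.mulVec_smul, dotProduct_smul, smul_dotProduct, dot_self, smul_eq_mul, smul_eq_mul] at h1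
  have h2 : (vn x)⁻¹ * ((vn (R *ᵥ x))⁻¹ * vn (R *ᵥ x) ^ 2) = vn (R *ᵥ x) / vn x := by
    field_simp
  rw [h2, abs_of_nonneg (by positivity), div_le_iff₀ hx] at h1
  exact h1

lemma improve {s : ℕ} (hs1 : 1 ≤ s) {N : Finset (Fin d → ℝ)}
    (hN : ∀ x : Fin d → ℝ, vn x ≤ 1 → ∃ y ∈ N, (∀ j, |y j| ≤ |x j|) ∧ vn (x - y) ≤ 1 / 8)
    (R : Mat d) {τ : ℝ} (hτ : 0 ≤ τ)
    (h1 : ∀ x : Fin d → ℝ, (Finset.univ.filter fun j => x j ≠ 0).card ≤ s →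
      vn (R *ᵥ x) ≤ 16 / 7 * τ * vn x)
    (h2 : ∀ x : Fin d → ℝ, (Finset.univ.filter fun j => x j ≠ 0).card ≤ s →
      vn (Rᵀ *ᵥ x) ≤ 16 / 7 * τ * vn x)
    (h3 : ∀ x ∈ N, ∀ y ∈ N, (∀ j, |x j| ≤ 1 / Real.sqrt s) → (∀ j, |y j| ≤ 1 / Real.sqrt s) →
      |y ⬝ᵥ (R *ᵥ x)| ≤ τ) {M : ℝ} (hM : 0 ≤ M) (hR : OpLe R M) :
    OpLe R (39 / 7 * τ + M / 4) := by
  have hs0 : (0 : ℝ) < s := by exact_mod_cast hs1
  have hc : (0 : ℝ) ≤ 1 / Real.sqrt s := by positivity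
  apply opLe_of_bilin (by positivity)
  intro x y hx hy
  set c := 1 / Real.sqrt (s : ℝ) with hcdef
  set x1 := big c x
  set x2 := small c x
  set y1 := big c y
  set y2 := small c y
  have hx12 : x = x1 + x2 := (big_add_small c x).symm
  have hy12 : y = y1 + y2 := (big_add_small c y).symm
  have hx2 : vn x2 ≤ 1 := (vn_small_le c x).trans hx
  have hy2 : vn y2 ≤ 1 := (vn_small_le c y).trans hy
  have hx1 : vn x1 ≤ 1 := (vn_big_le c x).trans hx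
  have hy1 : vn y1 ≤ 1 := (vn_big_le c y).trans hy
  obtain ⟨x', hx'N, hx'a, hx'b⟩ := hN x2 hx2
  obtain ⟨y', hy'N, hy'a, hy'b⟩ := hN y2 hy2
  have hy'1 : vn y' ≤ 1 := (vn_le_of_abs_le hy'a).trans hy2
  have e : y ⬝ᵥ (R *ᵥ x) = y ⬝ᵥ (R *ᵥ x1) + (Rᵀ *ᵥ y1) ⬝ᵥ x2 +
      (y' ⬝ᵥ (R *ᵥ x') + y' ⬝ᵥ (R *ᵥ (x2 - x')) + (y2 - y') ⬝ᵥ (R *ᵥ x2)) := by
    rw [← dot_mulVec_transpose]
    have e1 : R *ᵥ x = R *ᵥ x1 + R *ᵥ x2 := by rw [← Matrix.mulVec_add, ← hx12]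
    rw [e1, dotProduct_add, Matrix.mulVec_sub, dotProduct_sub, sub_dotProduct]
    have e2 : y ⬝ᵥ (R *ᵥ x2) = y1 ⬝ᵥ (R *ᵥ x2) + y2 ⬝ᵥ (R *ᵥ x2) := by
      rw [← add_dotProduct, ← hy12]
    rw [e2]
    ring
  have b1 : |y ⬝ᵥ (R *ᵥ x1)| ≤ 16 / 7 * τ := by
    refine (abs_dot_le _ _).trans ?_
    have := h1 x1 (card_big hs1 hx)
    have h0 := vn_nonneg (R *ᵥ x1)
    have h0' := vn_nonneg x1
    have h0'' := vn_nonneg y
    calc vn y * vn (R *ᵥ x1) ≤ 1 * vn (R *ᵥ x1) := mul_le_mul_of_nonneg_right hy h0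
      _ = vn (R *ᵥ x1) := one_mul _
      _ ≤ 16 / 7 * τ * vn x1 := this
      _ ≤ 16 / 7 * τ * 1 := mul_le_mul_of_nonneg_left hx1 (by positivity)
      _ = _ := mul_one _
  have b2 : |(Rᵀ *ᵥ y1) ⬝ᵥ x2| ≤ 16 / 7 * τ := by
    refine (abs_dot_le _ _).trans ?_
    have := h2 y1 (card_big hs1 hy)
    have h0 := vn_nonneg (Rᵀ *ᵥ y1)
    calc vn (Rᵀ *ᵥ y1) * vn x2 ≤ vn (Rᵀ *ᵥ y1) * 1 := mul_le_mul_of_nonneg_left hx2 h0
      _ = vn (Rᵀ *ᵥ y1) := mul_one _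
      _ ≤ 16 / 7 * τ * vn y1 := this
      _ ≤ 16 / 7 * τ * 1 := mul_le_mul_of_nonneg_left hy1 (by positivity)
      _ = _ := mul_one _
  have b3 : |y' ⬝ᵥ (R *ᵥ x')| ≤ τ := h3 x' hx'N y' hy'N
    (fun j => (hx'a j).trans (small_abs_le hc x j)) (fun j => (hy'a j).trans (small_abs_le hc y j))
  have b4 : |y' ⬝ᵥ (R *ᵥ (x2 - x'))| ≤ M / 8 := by
    refine (abs_dot_le _ _).trans ?_
    have := hR (x2 - x')
    have h0 := vn_nonneg (R *ᵥ (x2 - x'))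
    calc vn y' * vn (R *ᵥ (x2 - x')) ≤ 1 * vn (R *ᵥ (x2 - x')) :=
          mul_le_mul_of_nonneg_right hy'1 h0
      _ = vn (R *ᵥ (x2 - x')) := one_mul _
      _ ≤ M * vn (x2 - x') := this
      _ ≤ M * (1 / 8) := mul_le_mul_of_nonneg_left hx'b hM
      _ = M / 8 := by ring
  have b5 : |(y2 - y') ⬝ᵥ (R *ᵥ x2)| ≤ M / 8 := by
    refine (abs_dot_le _ _).trans ?_
    have h5 := hR x2
    have h0 := vn_nonneg (R *ᵥ x2)
    calc vn (y2 - y') * vn (R *ᵥ x2) ≤ 1 / 8 * vn (R *ᵥ x2) :=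
          mul_le_mul_of_nonneg_right hy'b h0
      _ ≤ 1 / 8 * (M * vn x2) := mul_le_mul_of_nonneg_left h5 (by norm_num)
      _ ≤ 1 / 8 * (M * 1) := by gcongr
      _ = M / 8 := by ring
  rw [e]
  rw [abs_le] at *
  constructor <;> linarith [b1.1, b1.2, b2.1, b2.2, b3.1, b3.2, b4.1, b4.2, b5.1, b5.2]

end O1

/-- O1: deterministic. -/
theorem op_close {s : ℕ} (hs1 : 1 ≤ s) {N : Finset (Fin d → ℝ)}
    (hN : ∀ x : Fin d → ℝ, vn x ≤ 1 → ∃ y ∈ N, (∀ j, |y j| ≤ |x j|) ∧ vn (x - y) ≤ 1 / 8)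
    (R : Mat d) {τ : ℝ} (hτ : 0 ≤ τ)
    (h1 : ∀ x : Fin d → ℝ, (Finset.univ.filter fun j => x j ≠ 0).card ≤ s →
      vn (R *ᵥ x) ≤ 16 / 7 * τ * vn x)
    (h2 : ∀ x : Fin d → ℝ, (Finset.univ.filter fun j => x j ≠ 0).card ≤ s →
      vn (Rᵀ *ᵥ x) ≤ 16 / 7 * τ * vn x)
    (h3 : ∀ x ∈ N, ∀ y ∈ N, (∀ j, |x j| ≤ 1 / Real.sqrt s) → (∀ j, |y j| ≤ 1 / Real.sqrt s) →
      |y ⬝ᵥ (R *ᵥ x)| ≤ τ) : OpLe R (10 * τ) := by
  have key : ∀ n : ℕ, OpLe R (52 / 7 * τ + (1 / 4) ^ n * hs R) := by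
    intro n
    induction n with
    | zero =>
      refine (OpLe_hs R).mono ?_
      rw [pow_zero, one_mul]
      have : 0 ≤ 52 / 7 * τ := by positivity
      linarith
    | succ n ih =>
      have h0 : 0 ≤ 52 / 7 * τ + (1 / 4) ^ n * hs R := by
        have := hs_nonneg R
        positivity
      refine (O1.improve hs1 hN R hτ h1 h2 h3 h0 ih).mono (le_of_eq ?_)
      rw [pow_succ]
      ring
  intro x
  have hlim : Filter.Tendsto (fun n : ℕ => (52 / 7 * τ + (1 / 4 : ℝ) ^ n * hs R) * vn x)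
      Filter.atTop (nhds ((52 / 7 * τ + 0 * hs R) * vn x)) := by
    apply Filter.Tendsto.mul_const
    apply Filter.Tendsto.const_add
    apply Filter.Tendsto.mul_const
    exact tendsto_pow_atTop_nhds_zero_of_lt_one (by norm_num) (by norm_num)
  have h := ge_of_tendsto' hlim (fun n => key n x)
  refine h.trans ?_
  have := vn_nonneg x
  nlinarith [mul_nonneg hτ this]

end Pool.Agent.Helper81.RIP
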