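import Pool.Agent.Helper81.RIP.OBase
import Pool.Agent.Helper81.RIP.N
import Pool.Agent.Helper81.RIP.E1
import Pool.Agent.Helper81.RIP.E4

/-!
# O2: sparse vectors
-/

namespace Pool.Agent.Helper81.RIP
open MeasureTheory ProbabilityTheory Matrix

variable {d : ℕ}

namespace OB

lemma isFinite_of_le_one {ν : Measure (Mat d)} (hν : ν Set.univ ≤ 1) : IsFiniteMeasure ν :=
  ⟨lt_of_le_of_lt hν ENNReal.one_lt_top⟩

lemma integrable_RR {ν : Measure (Mat d)} (hν : ν Set.univ ≤ 1) (ho : ∀ᵐ V ∂ν, Orth V)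
    {c : ℝ} (hc : 0 ≤ c) (i j k : Fin d) :
    Integrable (fun V => Rm c V i j * Rm c V i k) ν := by
  have := isFinite_of_le_one hν
  refine Integrable.of_bound
    ((continuous_Rm_entry c i j).mul (continuous_Rm_entry c i k)).aestronglyMeasurable 1 ?_
  filter_upwards [ho] with V hV
  rw [Real.norm_eq_abs, abs_mul]
  have h1 := (Rm_le hc V i j).trans (hV.abs_entry_le i j)
  have h2 := (Rm_le hc V i k).trans (hV.abs_entry_le i k)
  calc |Rm c V i j| * |Rm c V i k| ≤ 1 * 1 :=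
        mul_le_mul h1 h2 (abs_nonneg _) zero_le_one
    _ = 1 := one_mul 1

lemma second_moment {L κ q : ℝ} {ν : Measure (Mat d)} (hd : 3 ≤ d) (hκ : 0 < κ) (hq : 0 ≤ q)
    (h : State L κ q ν) (y : Fin d → ℝ) :
    ∫⁻ V, ENNReal.ofReal (vn (Rm (κ / Real.sqrt d) V *ᵥ y) ^ 2) ∂ν ≤
      ENNReal.ofReal (q * vn y ^ 2) := by
  have := isFinite_of_le_one h.le_one
  set c := κ / Real.sqrt d with hc
  have hc0 : 0 ≤ c := div_nonneg hκ.le (Real.sqrt_nonneg _)
  have hd0 : (0 : ℝ) < d := by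
    have : 0 < d := by omega
    exact_mod_cast this
  have hexp : ∀ V : Mat d, vn (Rm c V *ᵥ y) ^ 2 =
      ∑ i, ∑ j, ∑ k, y j * y k * (Rm c V i j * Rm c V i k) := by
    intro V
    rw [vn_sq]
    refine Finset.sum_congr rfl fun i _ => ?_
    rw [Matrix.mulVec, dotProduct, sq, Finset.sum_mul_sum]
    refine Finset.sum_congr rfl fun j _ => Finset.sum_congr rfl fun k _ => ?_
    ring
  have hint : ∀ i j k : Fin d, Integrable (fun V => y j * y k * (Rm c V i j * Rm c V i k)) ν :=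
    fun i j k => (integrable_RR h.le_one h.orth hc0 i j k).const_mul _
  have hintegral : ∫ V, vn (Rm c V *ᵥ y) ^ 2 ∂ν ≤ q * vn y ^ 2 := by
    have h1 : ∫ V, vn (Rm c V *ᵥ y) ^ 2 ∂ν =
        ∑ i, ∑ j, ∑ k, y j * y k * ∫ V, Rm c V i j * Rm c V i k ∂ν := by
      simp only [hexp]
      rw [integral_finsetSum _ fun i _ => integrable_finsetSum _ fun j _ =>
        integrable_finsetSum _ fun k _ => hint i j k]
      refine Finset.sum_congr rfl fun i _ => ?_
      rw [integral_finsetSum _ fun j _ => integrable_finsetSum _ fun k _ => hint i j k]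
      refine Finset.sum_congr rfl fun j _ => ?_
      rw [integral_finsetSum _ fun k _ => hint i j k]
      refine Finset.sum_congr rfl fun k _ => ?_
      rw [integral_const_mul]
    have hcross : ∀ i j k : Fin d, j ≠ k → ∫ V, Rm c V i j * Rm c V i k ∂ν = 0 := by
      intro i j k hjk
      have := inv_cross_zero hd h.le_one h.inv MeasurableSet.univ (A := Set.univ)
        (fun i j _ V => by simp) (G := Rm c) (fun i j hij V _ => Rm_mul_J hc0 hij V) i j k hjk
      simpa using this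
    have hdiag : ∀ i j : Fin d, ∫ V, Rm c V i j * Rm c V i j ∂ν ≤ q / d := by
      intro i j
      have h2 := h.sq i j
      have h3 : ENNReal.ofReal (∫ V, Rm c V i j ^ 2 ∂ν) =
          ∫⁻ V, ENNReal.ofReal (Rm c V i j ^ 2) ∂ν := by
        refine ofReal_integral_eq_lintegral_ofReal ?_ (Filter.Eventually.of_forall fun V => sq_nonneg _)
        simpa [sq] using integrable_RR h.le_one h.orth hc0 i j j
      rw [← hc] at h2
      rw [← h3, ENNReal.ofReal_le_ofReal_iff (div_nonneg hq hd0.le)] at h2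
      simpa [sq] using h2
    rw [h1]
    calc ∑ i, ∑ j, ∑ k, y j * y k * ∫ V, Rm c V i j * Rm c V i k ∂ν
        = ∑ i, ∑ j, y j * y j * ∫ V, Rm c V i j * Rm c V i j ∂ν := by
          refine Finset.sum_congr rfl fun i _ => Finset.sum_congr rfl fun j _ => ?_
          rw [Finset.sum_eq_single j]
          · intro k _ hk
            rw [hcross i j k (Ne.symm hk), mul_zero]
          · intro hj; exact absurd (Finset.mem_univ j) hj
      _ ≤ ∑ i : Fin d, ∑ j, y j * y j * (q / d) := by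
          refine Finset.sum_le_sum fun i _ => Finset.sum_le_sum fun j _ => ?_
          exact mul_le_mul_of_nonneg_left (hdiag i j) (mul_self_nonneg _)
      _ = q * vn y ^ 2 := by
          rw [Finset.sum_const, Finset.card_univ, Fintype.card_fin, nsmul_eq_mul, ← Finset.sum_mul,
            vn_sq]
          simp only [sq]
          field_simp
  have hI : Integrable (fun V => vn (Rm c V *ᵥ y) ^ 2) ν := by
    simp only [hexp]
    exact integrable_finsetSum _ fun i _ => integrable_finsetSum _ fun j _ =>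
        integrable_finsetSum _ fun k _ => hint i j k
  rw [← ofReal_integral_eq_lintegral_ofReal hI (Filter.Eventually.of_forall fun V => sq_nonneg _)]
  exact ENNReal.ofReal_le_ofReal hintegral

lemma vn_sub_abs (x y : Fin d → ℝ) : |vn x - vn y| ≤ vn (x - y) := by
  rw [vn_eq_norm, vn_eq_norm, vn_eq_norm, WithLp.toLp_sub]
  exact abs_norm_sub_norm_le _ _

lemma log_le_two_sqrt {x : ℝ} (hx : 0 < x) : Real.log x ≤ 2 * Real.sqrt x := by
  have h1 := Real.log_le_sub_one_of_pos (Real.sqrt_pos.mpr hx)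
  rw [Real.log_sqrt hx.le] at h1
  linarith

/-- The size of the net. -/
lemma net_size {C τ : ℝ} (Lm : ℝ) (hL : 1 ≤ Lm) (hC : 1 ≤ C) (hτ : 0 < τ) (hτ1 : τ ≤ 1)
    (hτ2 : Real.sqrt τ ≤ 1 / (2 * Lm ^ 2 * (2 * C + 6)))
    {s : ℕ} (hs : s = ⌊τ ^ 3 * (d : ℝ)⌋₊) (h1 : 1 ≤ d * τ ^ 3) :
    (C * d / s) ^ s ≤ Real.exp (d * τ ^ 2 / (2 * Lm ^ 2)) := by
  have hx1 : 1 ≤ τ ^ 3 * (d : ℝ) := by linarith [mul_comm (d : ℝ) (τ ^ 3)]
  have hs1 : 1 ≤ s := by rw [hs]; exact Nat.le_floor (by simpa using hx1)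
  have hs1' : (1 : ℝ) ≤ s := by exact_mod_cast hs1
  have hsle : (s : ℝ) ≤ τ ^ 3 * d := by rw [hs]; exact Nat.floor_le (by linarith)
  have hsge : τ ^ 3 * d ≤ 2 * s := by
    have := (Nat.lt_floor_add_one (τ ^ 3 * (d : ℝ))).le
    rw [← hs] at this
    linarith
  have hspos : (0 : ℝ) < s := by linarith
  have ht3 : 0 < τ ^ 3 := by positivity
  have hdpos : (0 : ℝ) < d := by
    by_contra hcon
    push Not at hcon
    nlinarith
  have hbase : C * d / s ≤ 2 * C / τ ^ 3 := by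
    rw [div_le_div_iff₀ hspos ht3]
    nlinarith
  have hbase1 : 1 ≤ 2 * C / τ ^ 3 := by
    rw [le_div_iff₀ ht3]
    have : τ ^ 3 ≤ 1 := pow_le_one₀ hτ.le hτ1
    linarith
  have hbase0 : 0 < 2 * C / τ ^ 3 := by linarith
  have hlog : Real.log (2 * C / τ ^ 3) ≤ 2 * C + 6 / Real.sqrt τ := by
    rw [Real.log_div (by positivity) (by positivity), Real.log_pow]
    have ha : Real.log (2 * C) ≤ 2 * C := by
      have := Real.log_le_sub_one_of_pos (x := 2 * C) (by positivity)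
      linarith
    have hb : -Real.log τ ≤ 2 / Real.sqrt τ := by
      have := log_le_two_sqrt (x := τ⁻¹) (by positivity)
      rw [Real.log_inv, Real.sqrt_inv] at this
      rw [div_eq_mul_inv]; exact this
    have hcc : 3 * (-Real.log τ) ≤ 3 * (2 / Real.sqrt τ) := by linarith
    have : 3 * (2 / Real.sqrt τ) = 6 / Real.sqrt τ := by ring
    push_cast
    linarith
  have hsq : 0 < Real.sqrt τ := Real.sqrt_pos.mpr hτ
  have hss : Real.sqrt τ * Real.sqrt τ = τ := Real.mul_self_sqrt hτ.le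
  have hsqle : Real.sqrt τ ≤ 1 := by rw [Real.sqrt_le_one]; exact hτ1
  have hL2 : 0 < Lm ^ 2 := by positivity
  have hkey : τ * (2 * C + 6 / Real.sqrt τ) ≤ 1 / (2 * Lm ^ 2) := by
    have e1 : τ * (2 * C + 6 / Real.sqrt τ) = Real.sqrt τ * (2 * C * Real.sqrt τ + 6) := by
      field_simp
      rw [Real.sq_sqrt hτ.le]
    rw [e1]
    calc Real.sqrt τ * (2 * C * Real.sqrt τ + 6) ≤ Real.sqrt τ * (2 * C + 6) := by
          apply mul_le_mul_of_nonneg_left _ hsq.le
          nlinarith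
      _ ≤ 1 / (2 * Lm ^ 2 * (2 * C + 6)) * (2 * C + 6) :=
          mul_le_mul_of_nonneg_right hτ2 (by positivity)
      _ = 1 / (2 * Lm ^ 2) := by
          field_simp
  calc (C * d / s) ^ s ≤ (2 * C / τ ^ 3) ^ s := pow_le_pow_left₀ (by positivity) hbase s
    _ = Real.exp (s * Real.log (2 * C / τ ^ 3)) := by
        rw [mul_comm (s : ℝ) (Real.log _), Real.exp_mul, Real.exp_log hbase0, Real.rpow_natCast]
    _ ≤ Real.exp (d * τ ^ 2 / (2 * Lm ^ 2)) := by
        apply Real.exp_le_exp.mpr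
        calc s * Real.log (2 * C / τ ^ 3) ≤ (τ ^ 3 * d) * (2 * C + 6 / Real.sqrt τ) := by
              apply mul_le_mul hsle hlog (Real.log_nonneg hbase1) (by positivity)
          _ = (d * τ ^ 2) * (τ * (2 * C + 6 / Real.sqrt τ)) := by ring
          _ ≤ (d * τ ^ 2) * (1 / (2 * Lm ^ 2)) :=
              mul_le_mul_of_nonneg_left hkey (by positivity)
          _ = d * τ ^ 2 / (2 * Lm ^ 2) := by ring

end OB

open OB

/-- O2: sparse vectors. -/
theorem sparse_event (Lmax : ℝ) (hLmax : 1 ≤ Lmax) : ∃ τ₀ : ℝ, 0 < τ₀ ∧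
    ∀ (d : ℕ) (L κ q τ : ℝ) (ν : Measure (Mat d)), 3 ≤ d → 1 ≤ L → L ≤ Lmax → 0 < κ →
    0 < τ → τ ≤ τ₀ → 0 ≤ q → q ≤ τ ^ 2 / 36 → 1 ≤ d * τ ^ 3 → 144 * L ^ 2 ≤ d * τ ^ 2 →
    3 / 4 ≤ ν.real Set.univ → State L κ q ν →
    ν {V | ¬ ∀ x : Fin d → ℝ, (Finset.univ.filter fun j => x j ≠ 0).card ≤ ⌊τ ^ 3 * d⌋₊ →
      vn (Rm (κ / Real.sqrt d) V *ᵥ x) ≤ 16 / 7 * τ * vn x} ≤
      ENNReal.ofReal (4 * Real.exp (-(d * τ ^ 2 / (2 * Lmax ^ 2)))) := by
  obtain ⟨C, hC, hnet⟩ := net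
  set t1 : ℝ := 1 / (2 * Lmax ^ 2 * (2 * C + 6)) with ht1
  have hL2 : 0 < Lmax ^ 2 := by positivity
  have ht1pos : 0 < t1 := by positivity
  refine ⟨min 1 (t1 ^ 2), lt_min one_pos (by positivity), ?_⟩
  intro d L κ q τ ν hd hL hLL hκ hτ hττ hq hqτ h1 h2 hν hS
  have hτ1 : τ ≤ 1 := hττ.trans (min_le_left _ _)
  have hτ2 : Real.sqrt τ ≤ t1 := by
    rw [← Real.sqrt_sq ht1pos.le]
    exact Real.sqrt_le_sqrt (hττ.trans (min_le_right _ _))
  set s := ⌊τ ^ 3 * (d : ℝ)⌋₊ with hsdef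
  have hx1 : 1 ≤ τ ^ 3 * (d : ℝ) := by linarith [mul_comm (d : ℝ) (τ ^ 3)]
  have hs1 : 1 ≤ s := by rw [hsdef]; exact Nat.le_floor (by simpa using hx1)
  have hdpos : (0 : ℝ) < d := by
    have : 0 < d := by omega
    exact_mod_cast this
  have hsd : s ≤ d := by
    have : (s : ℝ) ≤ d := by
      calc (s : ℝ) ≤ τ ^ 3 * d := by rw [hsdef]; exact Nat.floor_le (by linarith)
        _ ≤ 1 * d := mul_le_mul_of_nonneg_right (pow_le_one₀ hτ.le hτ1) hdpos.le
        _ = d := one_mul _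
    exact_mod_cast this
  obtain ⟨N, hNcard, hN1, hN2⟩ := hnet s d hs1 hsd
  have hNc : (N.card : ℝ) ≤ Real.exp (d * τ ^ 2 / (2 * Lmax ^ 2)) :=
    hNcard.trans (net_size Lmax hLmax hC hτ hτ1 hτ2 hsdef h1)
  set c := κ / Real.sqrt d with hc
  have hc0 : 0 ≤ c := div_nonneg hκ.le (Real.sqrt_nonneg _)
  have hsqd : 0 < Real.sqrt d := Real.sqrt_pos.mpr hdpos
  have hsub : {V : Mat d | ¬ ∀ x : Fin d → ℝ, (Finset.univ.filter fun j => x j ≠ 0).card ≤ s →
      vn (Rm c V *ᵥ x) ≤ 16 / 7 * τ * vn x} ⊆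
      ⋃ y ∈ N, {V : Mat d | 2 * τ < vn (Rm c V *ᵥ y)} := by
    intro V hV
    by_contra hcon
    apply hV
    simp only [Set.mem_iUnion, not_exists] at hcon
    have hle : ∀ y ∈ N, vn (Rm c V *ᵥ y) ≤ 2 * τ := by
      intro y hy
      by_contra h
      exact hcon y hy (lt_of_not_ge h)
    intro x hx
    have := net_sup hN2 (Rm c V) (2 * τ) (by positivity) hle x hx
    calc vn (Rm c V *ᵥ x) ≤ 8 / 7 * (2 * τ) * vn x := this
      _ = 16 / 7 * τ * vn x := by ring
  have hpt : ∀ y ∈ N, ν {V : Mat d | 2 * τ < vn (Rm c V *ᵥ y)} ≤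
      ENNReal.ofReal (4 * Real.exp (-(d * τ ^ 2 / Lmax ^ 2))) := by
    intro y hy
    have hy1 := (hN1 y hy).1
    have hlip : ∀ V V' : Mat d, |vn (Rm c V *ᵥ y) - vn (Rm c V' *ᵥ y)| ≤ hs (V - V') := by
      intro V V'
      calc |vn (Rm c V *ᵥ y) - vn (Rm c V' *ᵥ y)| ≤ vn (Rm c V *ᵥ y - Rm c V' *ᵥ y) :=
            vn_sub_abs _ _
        _ = vn ((Rm c V - Rm c V') *ᵥ y) := by rw [Matrix.sub_mulVec]
        _ ≤ hs (Rm c V - Rm c V') * vn y := vn_mulVec_le_hs _ _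
        _ ≤ hs (V - V') * 1 :=
            mul_le_mul (Rm_lip hc0 V V') hy1 (vn_nonneg _) (hs_nonneg _)
        _ = hs (V - V') := mul_one _
    have hm : ∫⁻ V, ENNReal.ofReal (vn (Rm c V *ᵥ y) ^ 2) ∂ν ≤
        ENNReal.ofReal (Real.sqrt q ^ 2) := by
      refine (second_moment hd hκ hq hS y).trans ?_
      apply ENNReal.ofReal_le_ofReal
      rw [Real.sq_sqrt hq]
      have : vn y ^ 2 ≤ 1 := pow_le_one₀ (vn_nonneg _) hy1
      nlinarith
    have hu : 0 < τ * Real.sqrt d / L := by positivity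
    have hcs := conc_sq (by omega : 1 ≤ d) hL hS.le_one (by linarith) hS.conc hlip
      (Real.sqrt_nonneg q) hm (τ * Real.sqrt d / L) hu
    refine (measure_mono ?_).trans (hcs.trans ?_)
    · intro V hV
      have hV' : 2 * τ < vn (Rm c V *ᵥ y) := hV
      show 3 * Real.sqrt q * Real.sqrt d + 6 * L + L * (τ * Real.sqrt d / L) <
        Real.sqrt d * |vn (Rm c V *ᵥ y)|
      rw [abs_of_nonneg (vn_nonneg _)]
      have hq6 : Real.sqrt q ≤ τ / 6 := by
        rw [← Real.sqrt_sq (by positivity : 0 ≤ τ / 6)]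
        apply Real.sqrt_le_sqrt
        calc q ≤ τ ^ 2 / 36 := hqτ
          _ = (τ / 6) ^ 2 := by ring
      have hLt : 12 * L ≤ τ * Real.sqrt d := by
        have h3 : (12 * L) ^ 2 ≤ (τ * Real.sqrt d) ^ 2 := by
          rw [mul_pow, mul_pow, Real.sq_sqrt hdpos.le]
          nlinarith
        exact (abs_le_of_sq_le_sq' h3 (by positivity)).2
      have h4 : L * (τ * Real.sqrt d / L) = τ * Real.sqrt d := by
        field_simp
      rw [h4]
      have h5 : 3 * Real.sqrt q * Real.sqrt d ≤ τ * Real.sqrt d / 2 := by nlinarith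
      have h6 : Real.sqrt d * (2 * τ) < Real.sqrt d * vn (Rm c V *ᵥ y) :=
        mul_lt_mul_of_pos_left hV' hsqd
      nlinarith
    · apply ENNReal.ofReal_le_ofReal
      apply mul_le_mul_of_nonneg_left _ (by norm_num)
      apply Real.exp_le_exp.mpr
      have h7 : (τ * Real.sqrt d / L) ^ 2 = d * τ ^ 2 / L ^ 2 := by
        rw [div_pow, mul_pow, Real.sq_sqrt hdpos.le]; ring
      rw [neg_le_neg_iff, h7]
      apply div_le_div_of_nonneg_left (by positivity) (by positivity)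
      exact pow_le_pow_left₀ (by linarith) hLL 2
  calc ν {V : Mat d | ¬ ∀ x : Fin d → ℝ, (Finset.univ.filter fun j => x j ≠ 0).card ≤ s →
      vn (Rm c V *ᵥ x) ≤ 16 / 7 * τ * vn x}
      ≤ ν (⋃ y ∈ N, {V : Mat d | 2 * τ < vn (Rm c V *ᵥ y)}) := measure_mono hsub
    _ ≤ ∑ y ∈ N, ν {V : Mat d | 2 * τ < vn (Rm c V *ᵥ y)} := measure_biUnion_finset_le _ _
    _ ≤ ∑ y ∈ N, ENNReal.ofReal (4 * Real.exp (-(d * τ ^ 2 / Lmax ^ 2))) :=
        Finset.sum_le_sum hpt
    _ = ENNReal.ofReal (N.card * (4 * Real.exp (-(d * τ ^ 2 / Lmax ^ 2)))) := by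
        rw [Finset.sum_const, nsmul_eq_mul, ← ENNReal.ofReal_natCast,
          ← ENNReal.ofReal_mul (Nat.cast_nonneg _)]
    _ ≤ ENNReal.ofReal (4 * Real.exp (-(d * τ ^ 2 / (2 * Lmax ^ 2)))) := by
        apply ENNReal.ofReal_le_ofReal
        calc (N.card : ℝ) * (4 * Real.exp (-(d * τ ^ 2 / Lmax ^ 2)))
            ≤ Real.exp (d * τ ^ 2 / (2 * Lmax ^ 2)) *
              (4 * Real.exp (-(d * τ ^ 2 / Lmax ^ 2))) :=
              mul_le_mul_of_nonneg_right hNc (by positivity)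
          _ = 4 * Real.exp (-(d * τ ^ 2 / (2 * Lmax ^ 2))) := by
              rw [mul_left_comm, ← Real.exp_add]
              congr 2
              field_simp
              ring

end Pool.Agent.Helper81.RIP
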