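import Pool.Agent.Helper81.RIP.OBase
import Pool.Agent.Helper81.RIP.E1
import Pool.Agent.Helper81.RIP.E4

/-!
# O3: flat vectors
-/

namespace Pool.Agent.Helper81.RIP
open MeasureTheory ProbabilityTheory Matrix

variable {d : ℕ}

namespace OB

lemma dot_mulVec_sum (y x : Fin d → ℝ) (R : Mat d) :
    y ⬝ᵥ (R *ᵥ x) = ∑ p : Fin d × Fin d, R p.1 p.2 * (y p.1 * x p.2) := by
  rw [Fintype.sum_prod_type, dotProduct]
  refine Finset.sum_congr rfl fun i _ => ?_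
  rw [Matrix.mulVec, dotProduct, Finset.mul_sum]
  refine Finset.sum_congr rfl fun j _ => ?_
  ring

lemma flat_lip {c p K : ℝ} (hc : 0 ≤ c) (hK : 0 ≤ K) (hp : 0 ≤ p) {x y : Fin d → ℝ}
    (hx : ∀ j, |x j| ≤ K) (hy : ∀ j, |y j| ≤ K)
    {V V' : Mat d} (he : ((exc c V).card : ℝ) ≤ p * d ^ 2)
    (he' : ((exc c V').card : ℝ) ≤ p * d ^ 2) :
    |y ⬝ᵥ (Rm c V *ᵥ x) - y ⬝ᵥ (Rm c V' *ᵥ x)| ≤
      (Real.sqrt (2 * p) * d * K ^ 2) * hs (V - V') := by
  classical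
  set E := exc c V ∪ exc c V' with hE
  have hcard : (E.card : ℝ) ≤ 2 * p * d ^ 2 := by
    have h1 : (E.card : ℝ) ≤ (exc c V).card + (exc c V').card := by
      exact_mod_cast Finset.card_union_le _ _
    linarith
  have h1 : y ⬝ᵥ (Rm c V *ᵥ x) - y ⬝ᵥ (Rm c V' *ᵥ x) =
      ∑ p ∈ E, (Rm c V p.1 p.2 - Rm c V' p.1 p.2) * (y p.1 * x p.2) := by
    rw [dot_mulVec_sum, dot_mulVec_sum, ← Finset.sum_sub_distrib]
    rw [← Finset.sum_subset (Finset.subset_univ E)]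
    · refine Finset.sum_congr rfl fun p _ => by ring
    · rintro ⟨i, j⟩ _ hnot
      have h2 : (i, j) ∉ exc c V := fun h => hnot (Finset.mem_union_left _ h)
      have h3 : (i, j) ∉ exc c V' := fun h => hnot (Finset.mem_union_right _ h)
      simp [Rm_zero_of h2, Rm_zero_of h3]
  rw [h1]
  have h2 := Finset.sum_mul_sq_le_sq_mul_sq E (fun p => Rm c V p.1 p.2 - Rm c V' p.1 p.2)
    (fun p => y p.1 * x p.2)
  have h3 : ∑ p ∈ E, (Rm c V p.1 p.2 - Rm c V' p.1 p.2) ^ 2 ≤ hs (V - V') ^ 2 := by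
    calc ∑ p ∈ E, (Rm c V p.1 p.2 - Rm c V' p.1 p.2) ^ 2
        ≤ ∑ p : Fin d × Fin d, (Rm c V p.1 p.2 - Rm c V' p.1 p.2) ^ 2 :=
          Finset.sum_le_sum_of_subset_of_nonneg (Finset.subset_univ _)
            fun _ _ _ => sq_nonneg _
      _ = hs (Rm c V - Rm c V') ^ 2 := by
          rw [hs_sq, Fintype.sum_prod_type]; rfl
      _ ≤ hs (V - V') ^ 2 := pow_le_pow_left₀ (hs_nonneg _) (Rm_lip hc V V') 2
  have h4 : ∑ p ∈ E, (y p.1 * x p.2) ^ 2 ≤ (Real.sqrt (2 * p) * d * K ^ 2) ^ 2 := by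
    calc ∑ p ∈ E, (y p.1 * x p.2) ^ 2 ≤ ∑ p ∈ E, (K ^ 2) ^ 2 := by
          refine Finset.sum_le_sum fun q _ => ?_
          rw [← sq_abs, abs_mul]
          apply pow_le_pow_left₀ (by positivity)
          rw [sq]
          exact mul_le_mul (hy _) (hx _) (abs_nonneg _) hK
      _ = E.card * (K ^ 2) ^ 2 := by rw [Finset.sum_const, nsmul_eq_mul]
      _ ≤ (2 * p * d ^ 2) * (K ^ 2) ^ 2 := mul_le_mul_of_nonneg_right hcard (by positivity)
      _ = (Real.sqrt (2 * p) * d * K ^ 2) ^ 2 := by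
          rw [mul_pow, mul_pow, Real.sq_sqrt (by positivity)]
  apply abs_le_of_sq_le_sq _ (by have := hs_nonneg (V - V'); positivity)
  calc (∑ p ∈ E, (Rm c V p.1 p.2 - Rm c V' p.1 p.2) * (y p.1 * x p.2)) ^ 2
      ≤ (∑ p ∈ E, (Rm c V p.1 p.2 - Rm c V' p.1 p.2) ^ 2) * ∑ p ∈ E, (y p.1 * x p.2) ^ 2 := h2
    _ ≤ hs (V - V') ^ 2 * (Real.sqrt (2 * p) * d * K ^ 2) ^ 2 :=
        mul_le_mul h3 h4 (Finset.sum_nonneg fun _ _ => sq_nonneg _) (sq_nonneg _)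
    _ = (Real.sqrt (2 * p) * d * K ^ 2 * hs (V - V')) ^ 2 := by ring

lemma integrable_R {ν : Measure (Mat d)} (hν : ν Set.univ ≤ 1) (ho : ∀ᵐ V ∂ν, Orth V)
    {c : ℝ} (hc : 0 ≤ c) (i j : Fin d) :
    Integrable (fun V => Rm c V i j) ν := by
  have : IsFiniteMeasure ν := ⟨lt_of_le_of_lt hν ENNReal.one_lt_top⟩
  refine Integrable.of_bound (continuous_Rm_entry c i j).aestronglyMeasurable 1 ?_
  filter_upwards [ho] with V hV
  rw [Real.norm_eq_abs]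
  exact (Rm_le hc V i j).trans (hV.abs_entry_le i j)

end OB

open OB

/-- O3: flat vectors. -/
theorem flat_event (Lmax CN : ℝ) (hLmax : 1 ≤ Lmax) (hCN : 1 ≤ CN) : ∃ cp : ℝ, 0 < cp ∧
    ∀ (d s : ℕ) (L κ q p τ : ℝ) (ν : Measure (Mat d)) (N : Finset (Fin d → ℝ)),
    3 ≤ d → 1 ≤ L → L ≤ Lmax → 0 < κ → 0 < τ → τ ≤ 1 → 0 < p → p ≤ cp * τ ^ 8 →
    1 ≤ s → τ ^ 3 * d / 2 ≤ s → (N.card : ℝ) ≤ CN ^ d → (∀ y ∈ N, vn y ≤ 1) →
    1 / 4 ≤ ν.real {V | Orth V ∧ ((exc (κ / Real.sqrt d) V).card : ℝ) ≤ p * d ^ 2} →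
    State L κ q ν →
    ν {V | (Orth V ∧ ((exc (κ / Real.sqrt d) V).card : ℝ) ≤ p * d ^ 2) ∧
      ∃ x ∈ N, ∃ y ∈ N, (∀ j, |x j| ≤ 1 / Real.sqrt s) ∧ (∀ j, |y j| ≤ 1 / Real.sqrt s) ∧
        τ < |y ⬝ᵥ (Rm (κ / Real.sqrt d) V *ᵥ x)|} ≤ ENNReal.ofReal (4 * Real.exp (-d)) := by
  classical
  set K1 : ℝ := 2 * CN + 1 with hK1
  have hK1pos : 0 < K1 := by positivity
  have hK1sq : 2 * Real.log CN + 1 ≤ K1 ^ 2 := by
    have := Real.log_le_sub_one_of_pos (x := CN) (by linarith)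
    nlinarith
  set w : ℝ := 32 * Lmax * K1 with hw
  have hwpos : 0 < w := by positivity
  refine ⟨1 / (2 * w ^ 2), by positivity, ?_⟩
  intro d s L κ q p τ ν N hd hL hLL hκ hτ hτ1 hp hpp hs1 hs2 hN hN1 hν hS
  set c := κ / Real.sqrt d with hc
  have hc0 : 0 ≤ c := div_nonneg hκ.le (Real.sqrt_nonneg _)
  have hdpos : (0 : ℝ) < d := by
    have : 0 < d := by omega
    exact_mod_cast this
  have hspos : (0 : ℝ) < s := by exact_mod_cast hs1
  have hsqd : 0 < Real.sqrt d := Real.sqrt_pos.mpr hdpos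
  set A : Set (Mat d) := {V | Orth V ∧ ((exc c V).card : ℝ) ≤ p * d ^ 2} with hA
  have hAm : MeasurableSet A := measurableSet_Ap c p
  set K : ℝ := 1 / Real.sqrt s with hK
  have hK0 : 0 ≤ K := by positivity
  have hK2 : K ^ 2 = 1 / s := by rw [hK, div_pow, Real.sq_sqrt hspos.le]; norm_num
  set l : ℝ := Real.sqrt (2 * p) * d * K ^ 2 with hl
  have hl0 : 0 ≤ l := by positivity
  -- the Lipschitz constant is small
  have hlw : l * w ≤ 2 * τ := by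
    have h1 : Real.sqrt (2 * p) ≤ τ ^ 4 / w := by
      rw [← Real.sqrt_sq (by positivity : 0 ≤ τ ^ 4 / w)]
      apply Real.sqrt_le_sqrt
      calc 2 * p ≤ 2 * (1 / (2 * w ^ 2) * τ ^ 8) := by linarith
        _ = (τ ^ 4 / w) ^ 2 := by field_simp
    have h2 : (d : ℝ) * K ^ 2 ≤ 2 / τ ^ 3 := by
      rw [hK2, mul_one_div, div_le_div_iff₀ hspos (by positivity)]
      nlinarith
    have h3 : l ≤ τ ^ 4 / w * (2 / τ ^ 3) := by
      rw [hl, mul_assoc]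
      exact mul_le_mul h1 h2 (by positivity) (by positivity)
    calc l * w ≤ τ ^ 4 / w * (2 / τ ^ 3) * w := mul_le_mul_of_nonneg_right h3 hwpos.le
      _ = 2 * τ := by field_simp
  have hpt : ∀ x ∈ N, ∀ y ∈ N, (∀ j, |x j| ≤ K) → (∀ j, |y j| ≤ K) →
      ν {V | V ∈ A ∧ τ < |y ⬝ᵥ (Rm c V *ᵥ x)|} ≤
        ENNReal.ofReal (4 * Real.exp (-(K1 ^ 2 * d))) := by
    intro x _ y _ hx hy
    have hlip : ∀ V ∈ A, ∀ V' ∈ A, |y ⬝ᵥ (Rm c V *ᵥ x) - y ⬝ᵥ (Rm c V' *ᵥ x)| ≤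
        l * hs (V - V') := fun V hV V' hV' => flat_lip hc0 hK0 hp.le hx hy hV.2 hV'.2
    have hint : ∀ q : Fin d × Fin d,
        Integrable (fun V => Rm c V q.1 q.2 * (y q.1 * x q.2)) (ν.restrict A) := fun q =>
      ((integrable_R hS.le_one hS.orth hc0 q.1 q.2).mul_const _).restrict
    have hfi : IntegrableOn (fun V => y ⬝ᵥ (Rm c V *ᵥ x)) A ν := by
      unfold IntegrableOn
      simp only [dot_mulVec_sum]
      exact integrable_finsetSum _ fun q _ => hint q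
    have h0 : ∫ V in A, y ⬝ᵥ (Rm c V *ᵥ x) ∂ν = 0 := by
      simp only [dot_mulVec_sum]
      rw [integral_finsetSum _ fun q _ => hint q]
      refine Finset.sum_eq_zero fun q _ => ?_
      rw [integral_mul_const]
      rw [inv_mean_zero (by omega) hS.le_one hS.inv hAm (fun i j hij V => Ap_J c p hij V)
        (G := Rm c) (fun i j hij V _ => Rm_mul_J hc0 hij V) q.1 q.2, zero_mul]
    have hu : 0 < K1 * Real.sqrt d := by positivity
    have h5 := conc_mean (by omega : 1 ≤ d) hL hS.le_one hS.conc hAm hν hl0 hlip hfi h0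
      (K1 * Real.sqrt d) hu
    refine (measure_mono ?_).trans (h5.trans (le_of_eq ?_))
    · rintro V ⟨hV, hV2⟩
      refine ⟨hV, ?_⟩
      have h6 : 16 * l * L * K1 ≤ τ := by
        have : 16 * l * L * K1 ≤ 16 * l * Lmax * K1 := by
          have : l * L ≤ l * Lmax := mul_le_mul_of_nonneg_left hLL hl0
          nlinarith
        have h7 : 16 * l * Lmax * K1 = l * w / 2 := by rw [hw]; ring
        linarith
      calc 16 * l * L * (K1 * Real.sqrt d) = (16 * l * L * K1) * Real.sqrt d := by ring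
        _ ≤ τ * Real.sqrt d := mul_le_mul_of_nonneg_right h6 hsqd.le
        _ < |y ⬝ᵥ (Rm c V *ᵥ x)| * Real.sqrt d := mul_lt_mul_of_pos_right hV2 hsqd
        _ = Real.sqrt d * |y ⬝ᵥ (Rm c V *ᵥ x)| := mul_comm _ _
    · rw [mul_pow, Real.sq_sqrt hdpos.le]
  set M := (N ×ˢ N).filter fun z => (∀ j, |z.1 j| ≤ K) ∧ (∀ j, |z.2 j| ≤ K) with hM
  have hMcard : (M.card : ℝ) ≤ Real.exp (2 * d * Real.log CN) := by
    have h1 : (M.card : ℝ) ≤ N.card * N.card := by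
      exact_mod_cast (Finset.card_filter_le _ _).trans (le_of_eq (Finset.card_product _ _))
    have h2 : (N.card : ℝ) * N.card ≤ CN ^ d * CN ^ d :=
      mul_le_mul hN hN (Nat.cast_nonneg _) (by positivity)
    have h3 : CN ^ d * CN ^ d = Real.exp (2 * d * Real.log CN) := by
      rw [show 2 * (d : ℝ) * Real.log CN = Real.log CN * d + Real.log CN * d by ring,
        Real.exp_add, Real.exp_mul, Real.exp_log (by linarith), Real.rpow_natCast]
    linarith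
  calc ν {V | V ∈ A ∧ ∃ x ∈ N, ∃ y ∈ N, (∀ j, |x j| ≤ K) ∧ (∀ j, |y j| ≤ K) ∧
        τ < |y ⬝ᵥ (Rm c V *ᵥ x)|}
      ≤ ν (⋃ z ∈ M, {V | V ∈ A ∧ τ < |z.2 ⬝ᵥ (Rm c V *ᵥ z.1)|}) := by
        apply measure_mono
        rintro V ⟨hV, x, hx, y, hy, hxK, hyK, hlt⟩
        simp only [Set.mem_iUnion]
        exact ⟨(x, y), Finset.mem_filter.mpr ⟨Finset.mem_product.mpr ⟨hx, hy⟩, hxK, hyK⟩,
          hV, hlt⟩
    _ ≤ ∑ z ∈ M, ν {V | V ∈ A ∧ τ < |z.2 ⬝ᵥ (Rm c V *ᵥ z.1)|} := measure_biUnion_finset_le _ _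
    _ ≤ ∑ z ∈ M, ENNReal.ofReal (4 * Real.exp (-(K1 ^ 2 * d))) := by
        refine Finset.sum_le_sum fun z hz => ?_
        obtain ⟨hz1, hz2, hz3⟩ := Finset.mem_filter.mp hz
        obtain ⟨hz4, hz5⟩ := Finset.mem_product.mp hz1
        exact hpt z.1 hz4 z.2 hz5 hz2 hz3
    _ = ENNReal.ofReal (M.card * (4 * Real.exp (-(K1 ^ 2 * d)))) := by
        rw [Finset.sum_const, nsmul_eq_mul, ← ENNReal.ofReal_natCast,
          ← ENNReal.ofReal_mul (Nat.cast_nonneg _)]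
    _ ≤ ENNReal.ofReal (4 * Real.exp (-d)) := by
        apply ENNReal.ofReal_le_ofReal
        calc (M.card : ℝ) * (4 * Real.exp (-(K1 ^ 2 * d)))
            ≤ Real.exp (2 * d * Real.log CN) * (4 * Real.exp (-(K1 ^ 2 * d))) :=
              mul_le_mul_of_nonneg_right hMcard (by positivity)
          _ = 4 * Real.exp (2 * d * Real.log CN + -(K1 ^ 2 * d)) := by
              rw [mul_left_comm, ← Real.exp_add]
          _ ≤ 4 * Real.exp (-d) := by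
              apply mul_le_mul_of_nonneg_left _ (by norm_num)
              apply Real.exp_le_exp.mpr
              nlinarith

end Pool.Agent.Helper81.RIP
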