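import Pool.Agent.Helper81.RIP.S1a
import Pool.Agent.Helper81.RIP.E4
import Pool.Agent.Helper81.RIP.N
import Pool.Agent.Helper81.RIP.O1
import Pool.Agent.Helper81.RIP.O2
import Pool.Agent.Helper81.RIP.O3

/-!
# O4: the operator norm of the tail
-/

namespace Pool.Agent.Helper81.RIP
open MeasureTheory ProbabilityTheory Matrix

variable {d : ℕ}

/-- Markov's inequality for the number of large entries. -/
lemma markov_exc (hd : 1 ≤ d) (ν : Measure (Mat d)) {c q p : ℝ} (hp : 0 < p)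
    (h : ∀ i j, ν {V | c < |V i j|} ≤ ENNReal.ofReal q) :
    ν {V | ¬ ((exc c V).card : ℝ) ≤ p * d ^ 2} ≤ ENNReal.ofReal (q / p) := by
  have hdpos : (0 : ℝ) < d := by exact_mod_cast hd
  have hm : ∀ r : Fin d × Fin d, MeasurableSet {V : Mat d | c < |V r.1 r.2|} := fun r =>
    (isOpen_lt continuous_const (continuous_id.matrix_elem r.1 r.2).abs).measurableSet
  have hcard : ∀ V : Mat d, ((exc c V).card : ENNReal) =
      ∑ r : Fin d × Fin d, ({V : Mat d | c < |V r.1 r.2|} : Set (Mat d)).indicator 1 V := by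
    intro V
    rw [exc, Finset.card_filter]
    push_cast
    apply Finset.sum_congr rfl
    intro r _
    by_cases hr : c < |V r.1 r.2|
    · rw [if_pos hr, Set.indicator_of_mem (by exact hr)]; rfl
    · rw [if_neg hr, Set.indicator_of_notMem (by exact hr)]
  have h1 : ∫⁻ V, ((exc c V).card : ENNReal) ∂ν ≤ ENNReal.ofReal (d ^ 2 * q) := by
    simp_rw [hcard]
    rw [lintegral_finsetSum _ (fun r _ => measurable_one.indicator (hm r))]
    calc ∑ r : Fin d × Fin d, ∫⁻ V, ({V : Mat d | c < |V r.1 r.2|} : Set (Mat d)).indicator 1 V ∂ν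
        ≤ ∑ _r : Fin d × Fin d, ENNReal.ofReal q := by
          apply Finset.sum_le_sum
          intro r _
          rw [lintegral_indicator_one (hm r)]
          exact h r.1 r.2
      _ = ENNReal.ofReal (d ^ 2 * q) := by
          rw [Finset.sum_const, Finset.card_univ, Fintype.card_prod, Fintype.card_fin,
            nsmul_eq_mul, ENNReal.ofReal_mul (by positivity)]
          congr 1
          rw [ENNReal.ofReal_pow (by positivity), ENNReal.ofReal_natCast]
          push_cast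
          ring
  have hpd : 0 < p * (d : ℝ) ^ 2 := by positivity
  have h2 : ν {V : Mat d | ENNReal.ofReal (p * d ^ 2) ≤ ((exc c V).card : ENNReal)} ≤
      (∫⁻ V, ((exc c V).card : ENNReal) ∂ν) / ENNReal.ofReal (p * d ^ 2) := by
    apply meas_ge_le_lintegral_div
    · apply Measurable.aemeasurable
      have hmc := (measurable_card_exc (d := d) c).ennreal_ofReal
      have heq : (fun V : Mat d => ((exc c V).card : ENNReal)) =
          fun V => ENNReal.ofReal ((exc c V).card : ℝ) := by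
        funext V
        exact (ENNReal.ofReal_natCast _).symm
      rw [heq]
      exact hmc
    · rw [Ne, ENNReal.ofReal_eq_zero, not_le]; exact hpd
    · exact ENNReal.ofReal_ne_top
  refine (measure_mono ?_).trans (h2.trans ?_)
  · intro V hV
    simp only [Set.mem_ofPred_eq, not_le] at hV ⊢
    calc ENNReal.ofReal (p * d ^ 2) ≤ ENNReal.ofReal ((exc c V).card : ℝ) :=
          ENNReal.ofReal_le_ofReal hV.le
      _ = _ := ENNReal.ofReal_natCast _
  · calc (∫⁻ V, ((exc c V).card : ENNReal) ∂ν) / ENNReal.ofReal (p * d ^ 2)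
        ≤ ENNReal.ofReal (d ^ 2 * q) / ENNReal.ofReal (p * d ^ 2) := by gcongr
      _ = ENNReal.ofReal (d ^ 2 * q / (p * d ^ 2)) := by
          rw [ENNReal.ofReal_div_of_pos hpd]
      _ = ENNReal.ofReal (q / p) := by
          congr 1
          field_simp

theorem op_event (Lmax : ℝ) (hLmax : 1 ≤ Lmax) : ∃ τ₀ cp : ℝ, 0 < τ₀ ∧ 0 < cp ∧
    ∀ (d : ℕ) (L κ q p τ : ℝ) (ν : Measure (Mat d)), 3 ≤ d → 1 ≤ L → L ≤ Lmax → 0 < κ →
    0 < τ → τ ≤ τ₀ → 0 < p → p ≤ cp * τ ^ 8 → 0 ≤ q → q ≤ p / 4 →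
    1 ≤ d * τ ^ 3 → 144 * L ^ 2 ≤ d * τ ^ 2 →
    3 / 4 ≤ ν.real Set.univ → State L κ q ν →
    ν (Om (κ / Real.sqrt d) p (10 * τ))ᶜ ≤
      ENNReal.ofReal (q / p + 12 * Real.exp (-(d * τ ^ 2 / (2 * Lmax ^ 2)))) := by
  obtain ⟨CN, hCN, hnet⟩ := net
  obtain ⟨τ₁, hτ₁, hsp⟩ := sparse_event Lmax hLmax
  obtain ⟨cp, hcp, hfl⟩ := flat_event Lmax CN hLmax hCN
  refine ⟨min τ₁ 1, min cp (1 / 9), by positivity, by positivity, ?_⟩
  intro d L κ q p τ ν hd hL hLm hκ hτ hττ hp hpcp hq hqp hdτ hdL hmass hst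
  have hτ1 : τ ≤ τ₁ := hττ.trans (min_le_left _ _)
  have hτone : τ ≤ 1 := hττ.trans (min_le_right _ _)
  have hp1 : p ≤ cp * τ ^ 8 :=
    hpcp.trans (mul_le_mul_of_nonneg_right (min_le_left _ _) (by positivity))
  have hp2 : p ≤ 1 / 9 * τ ^ 8 :=
    hpcp.trans (mul_le_mul_of_nonneg_right (min_le_right _ _) (by positivity))
  have hdpos : (0 : ℝ) < d := by
    have : 0 < d := by omega
    exact_mod_cast this
  set c := κ / Real.sqrt d with hc
  have hfin : IsFiniteMeasure ν := ⟨lt_of_le_of_lt hst.le_one ENNReal.one_lt_top⟩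
  -- the exponential
  set e := Real.exp (-(d * τ ^ 2 / (2 * Lmax ^ 2))) with he
  have hqτ : q ≤ τ ^ 2 / 36 := by
    have h8 : τ ^ 8 ≤ τ ^ 2 := pow_le_pow_of_le_one hτ.le hτone (by norm_num)
    linarith
  -- the parameter of sparsity
  set s := ⌊τ ^ 3 * d⌋₊ with hs
  have hs1 : 1 ≤ s := by
    apply Nat.le_floor
    push_cast
    linarith [mul_comm (d : ℝ) (τ ^ 3)]
  have hs2 : τ ^ 3 * d / 2 ≤ s := by
    have h1 := Nat.lt_floor_add_one (τ ^ 3 * (d : ℝ))
    rw [← hs] at h1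
    have h2 : (1 : ℝ) ≤ s := by exact_mod_cast hs1
    linarith
  obtain ⟨N, hN1, hN2, hN3⟩ := hnet d d (by omega) le_rfl
  have hN1' : (N.card : ℝ) ≤ CN ^ d := by
    rw [mul_div_assoc, div_self hdpos.ne', mul_one] at hN1
    exact hN1
  have hN3' : ∀ x : Fin d → ℝ, vn x ≤ 1 → ∃ y ∈ N, (∀ j, |y j| ≤ |x j|) ∧ vn (x - y) ≤ 1 / 8 := by
    intro x hx
    apply hN3 x hx
    exact (Finset.card_le_univ _).trans (by simp)
  -- the bad events
  set E0 : Set (Mat d) := {V | ¬ Orth V} with hE0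
  set E1 : Set (Mat d) := {V | ¬ ((exc c V).card : ℝ) ≤ p * d ^ 2} with hE1
  set E2 : Set (Mat d) := {V | ¬ ∀ x : Fin d → ℝ, (Finset.univ.filter fun j => x j ≠ 0).card ≤ s →
      vn (Rm c V *ᵥ x) ≤ 16 / 7 * τ * vn x} with hE2
  set E3 : Set (Mat d) := Matrix.transpose ⁻¹' E2 with hE3
  set E4 : Set (Mat d) := {V | (Orth V ∧ ((exc c V).card : ℝ) ≤ p * d ^ 2) ∧
      ∃ x ∈ N, ∃ y ∈ N, (∀ j, |x j| ≤ 1 / Real.sqrt s) ∧ (∀ j, |y j| ≤ 1 / Real.sqrt s) ∧
        τ < |y ⬝ᵥ (Rm c V *ᵥ x)|} with hE4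
  have hm0 : ν E0 = 0 := hst.orth
  have hm1 : ν E1 ≤ ENNReal.ofReal (q / p) := markov_exc (by omega) ν hp hst.prob
  have hm2 : ν E2 ≤ ENNReal.ofReal (4 * e) :=
    hsp d L κ q τ ν hd hL hLm hκ hτ hτ1 hq hqτ hdτ hdL hmass hst
  have hTm : Measurable (Matrix.transpose : Mat d → Mat d) :=
    (continuous_id.matrix_transpose).measurable
  have hm3 : ν E3 ≤ ENNReal.ofReal (4 * e) := by
    have hmass' : 3 / 4 ≤ (ν.map Matrix.transpose).real Set.univ := by
      rw [Measure.real, Measure.map_apply hTm MeasurableSet.univ, Set.preimage_univ]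
      exact hmass
    have h1 := hsp d L κ q τ (ν.map Matrix.transpose) hd hL hLm hκ hτ hτ1 hq hqτ hdτ hdL hmass'
      hst.transpose
    exact (Measure.le_map_apply hTm.aemeasurable _).trans h1
  have hm4 : ν E4 ≤ ENNReal.ofReal (4 * e) := by
    have hmass' : 1 / 4 ≤ ν.real {V | Orth V ∧ ((exc c V).card : ℝ) ≤ p * d ^ 2} := by
      have h1 : ν.real Set.univ ≤
          ν.real {V | Orth V ∧ ((exc c V).card : ℝ) ≤ p * d ^ 2} + ν.real (E0 ∪ E1) := by
        refine le_trans (measureReal_mono ?_) (measureReal_union_le _ _)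
        intro V _
        by_cases h0 : Orth V
        · by_cases h1 : ((exc c V).card : ℝ) ≤ p * d ^ 2
          · exact Or.inl ⟨h0, h1⟩
          · exact Or.inr (Or.inr h1)
        · exact Or.inr (Or.inl h0)
      have h2 : ν.real (E0 ∪ E1) ≤ q / p := by
        refine (measureReal_union_le _ _).trans ?_
        have h3 : ν.real E0 = 0 := by rw [Measure.real, hm0]; simp
        have h4 : ν.real E1 ≤ q / p := ENNReal.toReal_le_of_le_ofReal (by positivity) hm1
        linarith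
      have h3 : q / p ≤ 1 / 4 := by
        rw [div_le_iff₀ hp]; linarith
      linarith
    have h1 := hfl d s L κ q p τ ν N hd hL hLm hκ hτ hτone hp hp1 hs1 hs2 hN1'
      (fun y hy => (hN2 y hy).1) hmass' hst
    refine h1.trans (ENNReal.ofReal_le_ofReal ?_)
    apply mul_le_mul_of_nonneg_left _ (by norm_num)
    rw [he]
    apply Real.exp_le_exp.mpr
    apply neg_le_neg
    have h2 : τ ^ 2 ≤ 1 := pow_le_one₀ hτ.le hτone
    have h3 : 1 ≤ Lmax ^ 2 := one_le_pow₀ hLmax
    rw [div_le_iff₀ (by positivity)]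
    apply mul_le_mul_of_nonneg_left _ hdpos.le
    linarith
  have hsub : (Om c p (10 * τ))ᶜ ⊆ E0 ∪ E1 ∪ E2 ∪ E3 ∪ E4 := by
    intro V hV
    by_contra hcon
    simp only [Set.mem_union, not_or] at hcon
    obtain ⟨⟨⟨⟨h0, h1⟩, h2⟩, h3⟩, h4⟩ := hcon
    apply hV
    have h0' : Orth V := not_not.mp h0
    have h1' : ((exc c V).card : ℝ) ≤ p * d ^ 2 := not_not.mp h1
    have h2' := not_not.mp h2
    have h3' : ∀ x : Fin d → ℝ, (Finset.univ.filter fun j => x j ≠ 0).card ≤ s →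
      vn (Rm c Vᵀ *ᵥ x) ≤ 16 / 7 * τ * vn x := not_not.mp h3
    refine ⟨h0', h1', ?_⟩
    apply op_close hs1 hN3' (Rm c V) hτ.le h2'
    · intro x hx
      have := h3' x hx
      rwa [Rm_transpose_mat] at this
    · intro x hx y hy hxs hys
      by_contra hlt
      push Not at hlt
      exact h4 ⟨⟨h0', h1'⟩, x, hx, y, hy, hxs, hys, hlt⟩
  have hqp0 : 0 ≤ q / p := by positivity
  have he0 : 0 ≤ e := (Real.exp_pos _).le
  calc ν (Om c p (10 * τ))ᶜ ≤ ν (E0 ∪ E1 ∪ E2 ∪ E3 ∪ E4) := measure_mono hsub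
    _ ≤ ν E0 + ν E1 + ν E2 + ν E3 + ν E4 := by
        refine (measure_union_le _ _).trans (add_le_add ?_ le_rfl)
        refine (measure_union_le _ _).trans (add_le_add ?_ le_rfl)
        refine (measure_union_le _ _).trans (add_le_add ?_ le_rfl)
        exact measure_union_le _ _
    _ ≤ 0 + ENNReal.ofReal (q / p) + ENNReal.ofReal (4 * e) + ENNReal.ofReal (4 * e) +
        ENNReal.ofReal (4 * e) := by
        gcongr
        exact hm0.le
    _ = ENNReal.ofReal (q / p + 12 * e) := by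
        rw [zero_add, ← ENNReal.ofReal_add hqp0 (by positivity),
          ← ENNReal.ofReal_add (by positivity) (by positivity),
          ← ENNReal.ofReal_add (by positivity) (by positivity)]
        congr 1
        ring

end Pool.Agent.Helper81.RIP
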