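import Pool.Agent.Helper81.RIP.S1
import Pool.Agent.Helper81.RIP.O4
import Pool.Agent.Helper81.RIP.B3

/-!
# S2: one step of the iteration
-/

namespace Pool.Agent.Helper81.RIP
open MeasureTheory ProbabilityTheory Matrix

variable {d : ℕ}

lemma Wm_mul_J {c ε : ℝ} (hc : 0 < c) (hε : 0 ≤ ε) (hε' : ε ≤ 1 / 36) {V : Mat d} (hV : Orth V)
    (hR : OpLe (Rm c V) ε) {i j : Fin d} (hij : i ≠ j) : Wm c (V * J i j) = Wm c V * J i j := by
  unfold Wm
  rw [((Phi_facts hc hε hε' hV hR).2 i j hij).1, clM_mul_J hc.le V hij, Matrix.sub_mul]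

lemma continuous_clM (c : ℝ) : Continuous (clM c : Mat d → Mat d) := by
  apply continuous_matrix
  intro i j
  exact (continuous_cl c).comp (continuous_id.matrix_elem i j)

theorem step (Lmax : ℝ) (hLmax : 1 ≤ Lmax) :
    ∃ τ₀ c C₃ : ℝ, 0 < τ₀ ∧ 0 < c ∧ 1 ≤ C₃ ∧
    ∀ (d : ℕ) (L κ q τ η : ℝ) (ν : Measure (Mat d)), 3 ≤ d → 1 ≤ L → L ≤ Lmax →
    1 ≤ κ → 0 < τ → τ ≤ τ₀ → 0 ≤ q → q ≤ c * τ ^ 8 / κ ^ 4 / 4 →
    1 ≤ d * τ ^ 3 → 144 * L ^ 2 ≤ d * τ ^ 2 →
    80 * Real.exp (-(d * τ ^ 2 / (2 * Lmax ^ 2))) ≤ 1 → 0 < η →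
    3 / 4 ≤ ν.real Set.univ → State L κ q ν →
    ∃ ν' : Measure (Mat d), State (L / (1 - 20 * τ)) (κ + η) (4 * Real.exp (-(η / (C₃ * τ)) ^ 2)) ν' ∧
      ν.real Set.univ ≤ ν'.real Set.univ +
        (q * κ ^ 4 / (c * τ ^ 8) + 12 * Real.exp (-(d * τ ^ 2 / (2 * Lmax ^ 2)))) := by
  obtain ⟨τ₁, cp, hτ₁, hcp, hop⟩ := op_event Lmax hLmax
  set C₃ : ℝ := 16 * 656 * Lmax with hC₃
  have hC₃1 : 1 ≤ C₃ := by rw [hC₃]; linarith
  have hC₃pos : 0 < C₃ := by linarith
  refine ⟨min (min τ₁ (1 / 360)) (1 / C₃), min cp 1, C₃, by positivity, by positivity, hC₃1, ?_⟩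
  intro d L κ q τ η ν hd hL hLm hκ hτ hττ hq hqc hdτ hdL hexp hη hmass hst
  have hτ1 : τ ≤ τ₁ := (hττ.trans (min_le_left _ _)).trans (min_le_left _ _)
  have hτ2 : τ ≤ 1 / 360 := (hττ.trans (min_le_left _ _)).trans (min_le_right _ _)
  have hτ3 : C₃ * τ ≤ 1 := by
    have := hττ.trans (min_le_right _ _)
    rwa [le_div_iff₀ hC₃pos, mul_comm] at this
  set c := min cp 1 with hc
  have hcpos : 0 < c := by rw [hc]; positivity
  have hc1 : c ≤ 1 := min_le_right _ _
  have hccp : c ≤ cp := min_le_left _ _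
  have hκpos : 0 < κ := by linarith
  have hd0 : (0 : ℝ) < d := by
    have : 0 < d := by omega
    exact_mod_cast this
  have hsd : 0 < Real.sqrt d := Real.sqrt_pos.mpr hd0
  set p := c * τ ^ 8 / κ ^ 4 with hp
  have hppos : 0 < p := by rw [hp]; positivity
  have hp1 : p ≤ cp * τ ^ 8 := by
    rw [hp, div_le_iff₀ (by positivity)]
    have h1 : (1 : ℝ) ≤ κ ^ 4 := one_le_pow₀ hκ
    have h2 : 0 ≤ cp * τ ^ 8 := by positivity
    calc c * τ ^ 8 ≤ cp * τ ^ 8 := mul_le_mul_of_nonneg_right hccp (by positivity)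
      _ = cp * τ ^ 8 * 1 := by ring
      _ ≤ cp * τ ^ 8 * κ ^ 4 := mul_le_mul_of_nonneg_left h1 h2
  set c0 := κ / Real.sqrt d with hc0
  have hc0pos : 0 < c0 := by rw [hc0]; positivity
  have hε : (0 : ℝ) ≤ 10 * τ := by positivity
  have hε' : 10 * τ ≤ 1 / 36 := by linarith
  set O : Set (Mat d) := Om c0 p (10 * τ) with hO
  have hOm : MeasurableSet O := Om_meas _ _ _
  have hfin : IsFiniteMeasure ν := ⟨lt_of_le_of_lt hst.le_one ENNReal.one_lt_top⟩
  set e := Real.exp (-(d * τ ^ 2 / (2 * Lmax ^ 2))) with he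
  have he0 : 0 ≤ e := (Real.exp_pos _).le
  have hbad : ν.real Oᶜ ≤ q / p + 12 * e :=
    ENNReal.toReal_le_of_le_ofReal (by positivity)
      (hop d L κ q p τ ν hd hL hLm hκpos hτ hτ1 hppos hp1 hq hqc hdτ hdL hmass hst)
  have hmassO : ν.real Set.univ = ν.real O + ν.real Oᶜ := (measureReal_add_measureReal_compl hOm).symm
  have hqp : q / p ≤ 1 / 4 := by rw [div_le_iff₀ hppos]; linarith
  have hOq : 1 / 4 ≤ ν.real O := by linarith
  have hqp' : q / p = q * κ ^ 4 / (c * τ ^ 8) := by
    rw [hp]; field_simp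
  have hae := aemeasurable_Phi (d := d) (p := p) hc0pos hε hε' ν
  set ν' : Measure (Mat d) := (ν.restrict O).map (Phi c0) with hν'
  -- the Lipschitz constant
  set l : ℝ := 65 * (10 * τ) + 6 * κ ^ 2 * Real.sqrt p with hl
  have hl0 : 0 ≤ l := by positivity
  have hl1 : l ≤ 656 * τ := by
    have h1 : κ ^ 2 * Real.sqrt p ≤ τ := by
      have h2 : Real.sqrt p ≤ τ ^ 4 / κ ^ 2 := by
        apply Real.sqrt_le_iff.mpr
        refine ⟨by positivity, ?_⟩
        rw [hp, div_pow, ← pow_mul, ← pow_mul]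
        apply div_le_div_of_nonneg_right _ (by positivity)
        calc c * τ ^ 8 ≤ 1 * τ ^ 8 := mul_le_mul_of_nonneg_right hc1 (by positivity)
          _ = _ := by norm_num
      calc κ ^ 2 * Real.sqrt p ≤ κ ^ 2 * (τ ^ 4 / κ ^ 2) :=
            mul_le_mul_of_nonneg_left h2 (by positivity)
        _ = τ ^ 4 := by field_simp
        _ ≤ τ ^ 1 := pow_le_pow_of_le_one hτ.le (by linarith) (by norm_num)
        _ = τ := pow_one τ
    rw [hl]
    linarith
  have hWlip : ∀ i j : Fin d, ∀ V ∈ O, ∀ V' ∈ O,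
      |Wm c0 V i j - Wm c0 V' i j| ≤ l * hs (V - V') := by
    intro i j V hV V' hV'
    exact Wm_lip hκpos hε hε' hppos.le (by omega) hV.1 hV'.1 hV.2.2 hV'.2.2 hV.2.1 hV'.2.1 i j
  have hWb : ∀ i j : Fin d, ∀ V ∈ O, |Wm c0 V i j| ≤ 1 + c0 := by
    intro i j V hV
    have h1 := (Phi_facts hc0pos hε hε' hV.1 hV.2.2).1.abs_entry_le i j
    have h2 := abs_cl_le hc0pos.le (V i j)
    calc |Wm c0 V i j| = |Phi c0 V i j - cl c0 (V i j)| := rfl
      _ ≤ |Phi c0 V i j| + |cl c0 (V i j)| := abs_sub _ _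
      _ ≤ _ := add_le_add h1 h2
  have hWc : ∀ i j : Fin d, ContinuousOn (fun V => Wm c0 V i j) O := fun i j =>
    continuousOn_of_lip (hWlip i j)
  have hWi : ∀ i j : Fin d, IntegrableOn (fun V => Wm c0 V i j) O ν := by
    intro i j
    apply Integrable.of_bound ((hWc i j).aestronglyMeasurable hOm) (1 + c0)
    filter_upwards [ae_restrict_mem hOm] with V hV
    rw [Real.norm_eq_abs]
    exact hWb i j V hV
  have hWmean : ∀ i j : Fin d, ∫ V in O, Wm c0 V i j ∂ν = 0 := by
    intro i j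
    apply inv_mean_zero (by omega) hst.le_one hst.inv hOm
    · intro a b hab V
      exact (Om_J hc0pos.le p (10 * τ) a b hab V).1
    · intro a b hab V hV
      exact Wm_mul_J hc0pos hε hε' hV.1 hV.2.2 hab
  have hWtail : ∀ i j : Fin d, ∀ u : ℝ, 0 < u →
      ν {V | V ∈ O ∧ C₃ * τ * u < Real.sqrt d * |Wm c0 V i j|} ≤
        ENNReal.ofReal (4 * Real.exp (-u ^ 2)) := by
    intro i j u hu
    refine le_trans (measure_mono ?_) (conc_mean (by omega) hL hst.le_one hst.conc hOm hOq hl0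
      (hWlip i j) (hWi i j) (hWmean i j) u hu)
    rintro V ⟨hV1, hV2⟩
    refine ⟨hV1, lt_of_le_of_lt ?_ hV2⟩
    rw [hC₃]
    calc 16 * l * L * u ≤ 16 * (656 * τ) * Lmax * u := by
          apply mul_le_mul_of_nonneg_right _ hu.le
          apply mul_le_mul (by linarith) hLm (by linarith) (by positivity)
      _ = _ := by ring
  have hν'le : ν' Set.univ ≤ 1 := by
    rw [hν', Measure.map_apply_of_aemeasurable hae MeasurableSet.univ, Set.preimage_univ,
      Measure.restrict_apply_univ]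
    exact (measure_mono (Set.subset_univ _)).trans hst.le_one
  have hν'real : ν'.real Set.univ = ν.real O := by
    rw [Measure.real, hν', Measure.map_apply_of_aemeasurable hae MeasurableSet.univ,
      Set.preimage_univ, Measure.restrict_apply_univ, Measure.real]
  refine ⟨ν', ?_, ?_⟩
  · have hu0 : 0 < η / (C₃ * τ) := by positivity
    refine ⟨hν'le, ?_, inv_map hc0pos hε hε' hst.le_one hst.inv, ?_, ?_, ?_⟩
    · -- orthogonality
      rw [hν', ae_map_iff hae isClosed_Orth.measurableSet]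
      filter_upwards [ae_restrict_mem hOm] with V hV
      exact (Phi_facts hc0pos hε hε' hV.1 hV.2.2).1
    · -- concentration
      have h1 := conc_map (c := c0) (p := p) hc0pos hε hε' hst.le_one hst.conc
      have h2 : (1 : ℝ) - 2 * (10 * τ) = 1 - 20 * τ := by ring
      rw [h2] at h1
      exact h1
    · -- probability
      intro i j
      have hSm : MeasurableSet {V : Mat d | (κ + η) / Real.sqrt d < |V i j|} :=
        (isOpen_lt continuous_const (continuous_id.matrix_elem i j).abs).measurableSet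
      rw [hν', Measure.map_apply_of_aemeasurable hae hSm, Measure.restrict_apply' hOm]
      refine le_trans (measure_mono ?_) (hWtail i j _ hu0)
      rintro V ⟨hV1, hV2⟩
      refine ⟨hV2, ?_⟩
      have h1 : (κ + η) / Real.sqrt d < |Phi c0 V i j| := hV1
      have h2 : |Phi c0 V i j| ≤ |Wm c0 V i j| + |cl c0 (V i j)| := by
        have : Phi c0 V i j = Wm c0 V i j + cl c0 (V i j) := by
          show Phi c0 V i j = (Phi c0 V i j - cl c0 (V i j)) + cl c0 (V i j)
          ring
        rw [this]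
        exact abs_add_le _ _
      have h3 := abs_cl_le hc0pos.le (V i j)
      have h4 : η / Real.sqrt d < |Wm c0 V i j| := by
        have : (κ + η) / Real.sqrt d = c0 + η / Real.sqrt d := by rw [hc0]; ring
        linarith
      rw [mul_div_cancel₀ _ (by positivity : C₃ * τ ≠ 0)]
      rwa [div_lt_iff₀ hsd, mul_comm] at h4
    · -- second moment
      intro i j
      have hcR : Continuous (fun V : Mat d =>
          ENNReal.ofReal (Rm ((κ + η) / Real.sqrt d) V i j ^ 2)) :=
        ENNReal.continuous_ofReal.comp (((continuous_Rm _).matrix_elem i j).pow 2)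
      rw [hν', lintegral_map' hcR.measurable.aemeasurable hae]
      set σ : ℝ := C₃ * τ / Real.sqrt d with hσ
      have hσpos : 0 < σ := by rw [hσ]; positivity
      set b : ℝ := η / (C₃ * τ) with hb
      have hσb : σ * b = η / Real.sqrt d := by
        rw [hσ, hb]; field_simp
      have h1 := tail_sq (ν := ν.restrict O) (f := fun V => Wm c0 V i j)
        ((hWc i j).aemeasurable hOm) hσpos (by
          intro u hu
          rw [Measure.restrict_apply' hOm]
          refine le_trans (measure_mono ?_) (hWtail i j u hu)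
          rintro V ⟨hV1, hV2⟩
          refine ⟨hV2, ?_⟩
          have h2 : σ * u < |Wm c0 V i j| := hV1
          rw [hσ] at h2
          have h3 : C₃ * τ / Real.sqrt d * u = C₃ * τ * u / Real.sqrt d := by ring
          rw [h3, div_lt_iff₀ hsd, mul_comm] at h2
          linarith) hu0.le
      refine le_trans (lintegral_mono_ae ?_) (h1.trans (ENNReal.ofReal_le_ofReal ?_))
      · filter_upwards [ae_restrict_mem hOm] with V hV
        apply ENNReal.ofReal_le_ofReal
        rw [← sq_abs, Rm_apply, abs_sub_cl (by positivity)]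
        apply pow_le_pow_left₀ (le_max_right _ _)
        apply max_le_max _ le_rfl
        have h2 : |Phi c0 V i j| ≤ |Wm c0 V i j| + |cl c0 (V i j)| := by
          have : Phi c0 V i j = Wm c0 V i j + cl c0 (V i j) := by
            show Phi c0 V i j = (Phi c0 V i j - cl c0 (V i j)) + cl c0 (V i j)
            ring
          rw [this]
          exact abs_add_le _ _
        have h3 := abs_cl_le hc0pos.le (V i j)
        have h4 : (κ + η) / Real.sqrt d = c0 + η / Real.sqrt d := by rw [hc0]; ring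
        rw [hσb, h4]
        linarith
      · have h2 : σ ^ 2 ≤ 1 / d := by
          rw [hσ, div_pow, Real.sq_sqrt hd0.le]
          apply div_le_div_of_nonneg_right _ hd0.le
          exact pow_le_one₀ (by positivity) hτ3
        calc 4 * σ ^ 2 * Real.exp (-b ^ 2) ≤ 4 * (1 / d) * Real.exp (-b ^ 2) := by gcongr
          _ = 4 * Real.exp (-b ^ 2) / d := by ring
  · rw [hν'real, hmassO, ← hqp']
    linarith

end Pool.Agent.Helper81.RIP
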