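import Pool.Agent.Helper81.RIP.A7
import Pool.Agent.Helper81.RIP.S2
import Pool.Agent.Helper81.RIP.I1

/-!
# The iteration (MP_00538b_an)
-/

namespace Pool.Agent.Helper81.RIP
open MeasureTheory ProbabilityTheory Matrix

variable {d : ℕ}

theorem Conc.mono {L L' : ℝ} (hL : L ≤ L') {ν : Measure (Mat d)} (h : Conc L ν) : Conc L' ν := by
  intro A f l hA hl hf
  obtain ⟨a, ha⟩ := h A f l hA hl hf
  refine ⟨a, fun u hu => (measure_mono ?_).trans (ha u hu)⟩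
  rintro V ⟨hV, h1⟩
  refine ⟨hV, lt_of_le_of_lt ?_ h1⟩
  gcongr

theorem State.mono {L κ q q' : ℝ} {ν : Measure (Mat d)} (h : State L κ q ν) (hq : q ≤ q') :
    State L κ q' ν where
  le_one := h.le_one
  orth := h.orth
  inv := h.inv
  conc := h.conc
  prob := fun i j => (h.prob i j).trans (ENNReal.ofReal_le_ofReal hq)
  sq := fun i j => (h.sq i j).trans (ENNReal.ofReal_le_ofReal
    (div_le_div_of_nonneg_right hq (Nat.cast_nonneg d)))

lemma exp_neg_le {x : ℝ} (hx : 0 < x) : Real.exp (-x) ≤ 5040 / x ^ 7 := by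
  have h := Real.pow_div_factorial_le_exp x hx.le 7
  have h7 : ((Nat.factorial 7 : ℕ) : ℝ) = 5040 := by norm_num [Nat.factorial]
  rw [h7] at h
  rw [Real.exp_neg, inv_eq_one_div, div_le_div_iff₀ (Real.exp_pos x) (by positivity)]
  rw [div_le_iff₀ (by norm_num)] at h
  linarith

lemma qbound {A C₄ τ : ℝ} (hA : 0 < A) (hC : 0 < C₄) (hτ : 0 < τ) (n : ℕ) :
    A * Real.exp (-(16 ^ n / (C₄ * τ) ^ 2)) ≤ A * 5040 * C₄ ^ 14 * τ ^ 14 / 2 ^ (28 * n) := by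
  have hx : 0 < (16 : ℝ) ^ n / (C₄ * τ) ^ 2 := by positivity
  have h1 := exp_neg_le hx
  have h2 : 5040 / ((16 : ℝ) ^ n / (C₄ * τ) ^ 2) ^ 7 = 5040 * C₄ ^ 14 * τ ^ 14 / 2 ^ (28 * n) := by
    have : (2 : ℝ) ^ (28 * n) = (16 ^ n) ^ 7 := by
      rw [← pow_mul, show (16 : ℝ) = 2 ^ 4 by norm_num, ← pow_mul]; congr 1; ring
    rw [this]
    field_simp
  rw [h2] at h1
  calc _ ≤ A * (5040 * C₄ ^ 14 * τ ^ 14 / 2 ^ (28 * n)) := by gcongr
    _ = _ := by ring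

lemma qcond {A C₄ c τ : ℝ} (hA : 0 < A) (hC : 0 < C₄) (hc : 0 < c) (hτ : 0 < τ)
    (hM : A * 5040 * 81 * C₄ ^ 14 * τ ^ 2 / c ≤ 1 / 64) (n : ℕ) {κ : ℝ} (hκ : 0 < κ)
    (hκ' : κ ≤ 3 / τ) :
    A * Real.exp (-(16 ^ n / (C₄ * τ) ^ 2)) * κ ^ 4 / (c * (τ / 8 ^ n) ^ 8) ≤
      1 / 64 * (1 / 2) ^ n := by
  have h1 := qbound hA hC hτ n
  have h3 : κ ^ 4 ≤ 81 / τ ^ 4 := by
    calc κ ^ 4 ≤ (3 / τ) ^ 4 := by gcongr
      _ = _ := by rw [div_pow]; norm_num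
  have h8 : ((τ / 8 ^ n) ^ 8 : ℝ) = τ ^ 8 / 2 ^ (24 * n) := by
    rw [div_pow, ← pow_mul, show (8 : ℝ) = 2 ^ 3 by norm_num, ← pow_mul]; congr 2; ring
  rw [h8]
  calc _ ≤ (A * 5040 * C₄ ^ 14 * τ ^ 14 / 2 ^ (28 * n)) * (81 / τ ^ 4) /
        (c * (τ ^ 8 / 2 ^ (24 * n))) := by gcongr
    _ = (A * 5040 * 81 * C₄ ^ 14 * τ ^ 2 / c) * (1 / 2) ^ (4 * n) := by
        have : (2 : ℝ) ^ (28 * n) = 2 ^ (24 * n) * 2 ^ (4 * n) := by rw [← pow_add]; congr 1; ring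
        rw [this, _root_.one_div_pow]
        field_simp
    _ ≤ 1 / 64 * (1 / 2) ^ (4 * n) := by gcongr
    _ ≤ _ := by
        gcongr 1 / 64 * ?_
        apply pow_le_pow_of_le_one (by norm_num) (by norm_num); omega

lemma aux_L {L₀ L τ e : ℝ} (hL₀ : 1 ≤ L₀) (hτ : 0 < τ) (hτ50 : τ ≤ 1 / 50) (he : 0 < e)
    (he1 : e ≤ 1) (h1 : 1 ≤ L) (h2 : L ≤ L₀ * (2 - e)) :
    1 ≤ L / (1 - 20 * (τ * e)) ∧ L / (1 - 20 * (τ * e)) ≤ L₀ * (2 - e * (1 / 8)) := by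
  have hte : 0 < τ * e := mul_pos hτ he
  have hte1 : τ * e ≤ 1 / 50 * e := mul_le_mul_of_nonneg_right hτ50 he.le
  have hp : 0 < 1 - 20 * (τ * e) := by linarith
  constructor
  · rw [le_div_iff₀ hp]; linarith
  · rw [div_le_iff₀ hp]
    have h3 : (2 - e) ≤ (2 - e * (1 / 8)) * (1 - 20 * (τ * e)) := by
      have h4 : 0 ≤ e * (τ * e) := by positivity
      have h5 : (2 - e * (1 / 8)) * (1 - 20 * (τ * e)) =
          2 - e * (1 / 8) - 40 * (τ * e) + 20 / 8 * (e * (τ * e)) := by ring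
      rw [h5]; linarith
    calc L ≤ L₀ * (2 - e) := h2
      _ ≤ L₀ * ((2 - e * (1 / 8)) * (1 - 20 * (τ * e))) :=
          mul_le_mul_of_nonneg_left h3 (by linarith)
      _ = _ := by ring

lemma aux_q {q c t κ f : ℝ} (hc : 0 < c) (ht : 0 < t) (hκ : 0 < κ) (hf : f ≤ 1)
    (h : q * κ ^ 4 / (c * t ^ 8) ≤ 1 / 64 * f) : q ≤ c * t ^ 8 / κ ^ 4 / 4 := by
  have hct : 0 < c * t ^ 8 := by positivity
  have hk : 0 < κ ^ 4 := by positivity
  rw [div_le_iff₀ hct] at h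
  rw [div_div, le_div_iff₀ (by positivity)]
  have : 1 / 64 * f * (c * t ^ 8) ≤ 1 / 64 * (c * t ^ 8) := by
    apply mul_le_mul_of_nonneg_right _ hct.le; linarith
  linarith

lemma aux_exp {C₃ C₄ τ : ℝ} (hC₃ : 0 < C₃) (hC : 4 * C₃ ≤ C₄) (hτ : 0 < τ) (n : ℕ) :
    (16 : ℝ) ^ (n + 1) / (C₄ * τ) ^ 2 ≤ ((1 / 2) ^ n / (C₃ * (τ / 8 ^ n))) ^ 2 := by
  have h7 : ((1 / 2) ^ n / (C₃ * (τ / 8 ^ n))) ^ 2 = (16 : ℝ) ^ (n + 1) / (4 * C₃ * τ) ^ 2 := by
    have h8 : (8 : ℝ) ^ n = 4 ^ n * 2 ^ n := by rw [← mul_pow]; norm_num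
    have h9 : (16 : ℝ) ^ (n + 1) = (4 ^ n) ^ 2 * 16 := by
      rw [pow_succ, ← pow_mul, mul_comm n 2, pow_mul]; norm_num
    rw [h9, _root_.one_div_pow, h8]
    field_simp
    norm_num
  rw [h7]
  have : 0 < C₄ := by linarith
  gcongr

theorem exists_flat : ∃ (K L : ℝ) (d₀ : ℕ), 1 ≤ K ∧ 1 ≤ L ∧ 3 ≤ d₀ ∧ ∀ d : ℕ, d₀ ≤ d →
    ∃ ν : Measure (Mat d), ν Set.univ ≤ 1 ∧ 3 / 4 ≤ ν.real Set.univ ∧ (∀ᵐ V ∂ν, Orth V) ∧
      Inv ν ∧ Conc L ν ∧ ν {V | ∃ i j, K / Real.sqrt d < |V i j|} ≤ ENNReal.ofReal (1 / 8) := by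
  obtain ⟨L₀, hL₀, hμ⟩ := exists_measure
  obtain ⟨τ₀, c, C₃, hτ₀, hc, hC₃, hstep⟩ := step (2 * L₀) (by linarith)
  -- constants
  set C₄ : ℝ := 16 * L₀ + 4 * C₃ with hC₄
  have hC₄p : 0 < C₄ := by positivity
  set A : ℝ := 4 * (16 * L₀) ^ 2 with hA
  have hAp : 0 < A := by positivity
  have hA4 : 4 ≤ A := by rw [hA]; nlinarith
  obtain ⟨τ, hτ, hττ₀, hτ50, hM⟩ : ∃ τ : ℝ, 0 < τ ∧ τ ≤ τ₀ ∧ τ ≤ 1 / 50 ∧
      A * 5040 * 81 * C₄ ^ 14 * τ ^ 2 / c ≤ 1 / 64 := by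
    set M : ℝ := A * 5040 * 81 * C₄ ^ 14 / c with hM
    have hMp : 0 < M := by positivity
    refine ⟨min (min τ₀ (1 / 50)) (1 / (64 * M)), by positivity,
      (min_le_left _ _).trans (min_le_left _ _), (min_le_left _ _).trans (min_le_right _ _), ?_⟩
    set τ := min (min τ₀ (1 / 50)) (1 / (64 * M)) with hτ
    have h0 : 0 < τ := by rw [hτ]; positivity
    have h1 : τ ≤ 1 / 50 := (min_le_left _ _).trans (min_le_right _ _)
    have h2 : τ ≤ 1 / (64 * M) := min_le_right _ _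
    have h3 : A * 5040 * 81 * C₄ ^ 14 * τ ^ 2 / c = M * τ ^ 2 := by rw [hM]; ring
    rw [h3]
    have h4 : τ ^ 2 ≤ τ := by nlinarith
    calc M * τ ^ 2 ≤ M * (1 / (64 * M)) := by gcongr; exact h4.trans h2
      _ = 1 / 64 := by field_simp
  set κ₀ : ℝ := 1 / τ with hκ₀
  have hκ₀1 : 50 ≤ κ₀ := by rw [hκ₀, le_div_iff₀ hτ]; linarith
  set Lm : ℝ := 2 * L₀ with hLm
  have hLmp : 0 < Lm := by linarith
  set b : ℝ := τ ^ 2 / (2 * Lm ^ 2) with hb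
  have hbp : 0 < b := by positivity
  set M' : ℝ := 8 ^ 8 * (A * 5040 * C₄ ^ 14 * τ ^ 14) with hM'
  have hM'p : 0 < M' := by positivity
  set Tt : ℝ := 1 / τ ^ 3 + 144 * Lm ^ 2 / τ ^ 2 + 80 / b + 8 * M' with hTt
  set N₀ : ℕ := ⌈Tt⌉₊ + 1 with hN₀
  refine ⟨κ₀ + 2, Lm, 4096 ^ N₀, by linarith, by linarith, ?_, fun d hd => ?_⟩
  · calc 3 ≤ 4096 ^ 1 := by norm_num
      _ ≤ 4096 ^ N₀ := Nat.pow_le_pow_right (by norm_num) (by omega)
  have hd0 : d ≠ 0 := by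
    have : 0 < 4096 ^ N₀ := by positivity
    omega
  have hd3 : 3 ≤ d := by
    refine le_trans ?_ hd
    calc 3 ≤ 4096 ^ 1 := by norm_num
      _ ≤ 4096 ^ N₀ := Nat.pow_le_pow_right (by norm_num) (by omega)
  set N : ℕ := Nat.log 4096 d with hN
  have hNN : N₀ ≤ N := by
    rw [hN]
    exact (Nat.le_log_iff_pow_le (by norm_num) hd0).mpr hd
  have hTN : Tt ≤ 2 ^ N := by
    have h1 : Tt ≤ ⌈Tt⌉₊ := Nat.le_ceil _
    have h2 : (⌈Tt⌉₊ : ℝ) ≤ N := by exact_mod_cast (by omega : ⌈Tt⌉₊ ≤ N)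
    have h3 : (N : ℝ) ≤ 2 ^ N := by exact_mod_cast (Nat.lt_two_pow_self (n := N)).le
    linarith
  have hdl : (2 : ℝ) ^ (12 * N) ≤ d := by
    have h1 := Nat.pow_log_le_self 4096 hd0
    rw [← hN] at h1
    have h2 : ((4096 ^ N : ℕ) : ℝ) ≤ d := by exact_mod_cast h1
    rw [pow_mul]; push_cast at h2; norm_num; exact h2
  have hdu : (d : ℝ) ≤ 2 ^ (12 * (N + 1)) := by
    have h1 := Nat.lt_pow_succ_log_self (b := 4096) (by norm_num) d
    rw [← hN] at h1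
    have h2 : (d : ℝ) ≤ ((4096 ^ (N + 1) : ℕ) : ℝ) := by exact_mod_cast h1.le
    rw [pow_mul]; push_cast at h2; norm_num; exact h2
  have hp2 : (1 : ℝ) ≤ 2 ^ N := one_le_pow₀ (by norm_num)
  have hpos1 : 0 < 1 / τ ^ 3 := by positivity
  have hpos2 : 0 < 144 * Lm ^ 2 / τ ^ 2 := by positivity
  have hpos3 : 0 < 80 / b := by positivity
  have hc1 : 1 ≤ d * (τ / 8 ^ N) ^ 3 := by
    have h1 : 1 / τ ^ 3 ≤ 2 ^ N := by rw [hTt] at hTN; linarith
    rw [div_le_iff₀ (by positivity)] at h1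
    have h2 : (τ / 8 ^ N) ^ 3 = τ ^ 3 / 2 ^ (9 * N) := by
      rw [div_pow, ← pow_mul, show (8 : ℝ) = 2 ^ 3 by norm_num, ← pow_mul]; congr 2; ring
    rw [h2]
    calc (1 : ℝ) ≤ 2 ^ N * τ ^ 3 := h1
      _ ≤ 2 ^ (3 * N) * τ ^ 3 := by
          gcongr
          · norm_num
          · omega
      _ = 2 ^ (12 * N) * (τ ^ 3 / 2 ^ (9 * N)) := by
          have : (2 : ℝ) ^ (12 * N) = 2 ^ (3 * N) * 2 ^ (9 * N) := by rw [← pow_add]; congr 1; ring
          rw [this]; field_simp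
      _ ≤ _ := by gcongr
  have hsq : (2 : ℝ) ^ N * τ ^ 2 ≤ d * (τ / 8 ^ N) ^ 2 := by
    have h2 : (τ / 8 ^ N) ^ 2 = τ ^ 2 / 2 ^ (6 * N) := by
      rw [div_pow, ← pow_mul, show (8 : ℝ) = 2 ^ 3 by norm_num, ← pow_mul]; congr 2; ring
    rw [h2]
    calc (2 : ℝ) ^ N * τ ^ 2 ≤ 2 ^ (6 * N) * τ ^ 2 := by
          gcongr
          · norm_num
          · omega
      _ = 2 ^ (12 * N) * (τ ^ 2 / 2 ^ (6 * N)) := by
          have : (2 : ℝ) ^ (12 * N) = 2 ^ (6 * N) * 2 ^ (6 * N) := by rw [← pow_add]; congr 1; ring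
          rw [this]; field_simp
      _ ≤ _ := by gcongr
  have hsq' : (4 : ℝ) ^ N * τ ^ 2 ≤ d * (τ / 8 ^ N) ^ 2 := by
    have h2 : (τ / 8 ^ N) ^ 2 = τ ^ 2 / 2 ^ (6 * N) := by
      rw [div_pow, ← pow_mul, show (8 : ℝ) = 2 ^ 3 by norm_num, ← pow_mul]; congr 2; ring
    rw [h2]
    calc (4 : ℝ) ^ N * τ ^ 2 ≤ 2 ^ (6 * N) * τ ^ 2 := by
          gcongr ?_ * _
          rw [show (4 : ℝ) = 2 ^ 2 by norm_num, ← pow_mul]
          gcongr
          · norm_num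
          · omega
      _ = 2 ^ (12 * N) * (τ ^ 2 / 2 ^ (6 * N)) := by
          have : (2 : ℝ) ^ (12 * N) = 2 ^ (6 * N) * 2 ^ (6 * N) := by rw [← pow_add]; congr 1; ring
          rw [this]; field_simp
      _ ≤ _ := by gcongr
  have hc2 : 144 * Lm ^ 2 ≤ d * (τ / 8 ^ N) ^ 2 := by
    have h1 : 144 * Lm ^ 2 / τ ^ 2 ≤ 2 ^ N := by rw [hTt] at hTN; linarith
    rw [div_le_iff₀ (by positivity)] at h1
    linarith
  set E : ℝ := Real.exp (-(d * (τ / 8 ^ N) ^ 2 / (2 * Lm ^ 2))) with hE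
  have hEp : 0 < E := Real.exp_pos _
  have hc3 : 80 * (N + 1) * E ≤ 1 := by
    have h1 : 80 / b ≤ 2 ^ N := by rw [hTt] at hTN; linarith
    rw [div_le_iff₀ hbp] at h1
    have hx : 4 ^ N * b ≤ d * (τ / 8 ^ N) ^ 2 / (2 * Lm ^ 2) := by
      rw [hb, le_div_iff₀ (by positivity)]
      calc 4 ^ N * (τ ^ 2 / (2 * Lm ^ 2)) * (2 * Lm ^ 2) = 4 ^ N * τ ^ 2 := by field_simp
        _ ≤ _ := hsq'
    have h2 : E ≤ Real.exp (-(4 ^ N * b)) := by
      rw [hE]; apply Real.exp_le_exp.mpr; linarith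
    have h3 : Real.exp (-(4 ^ N * b)) ≤ 1 / (4 ^ N * b) := by
      rw [Real.exp_neg, ← one_div]
      apply one_div_le_one_div_of_le (by positivity)
      linarith [Real.add_one_le_exp (4 ^ N * b)]
    have h4 : (N : ℝ) + 1 ≤ 2 ^ N := by exact_mod_cast Nat.lt_two_pow_self (n := N)
    calc 80 * (N + 1) * E ≤ 80 * 2 ^ N * (1 / (4 ^ N * b)) := by
          gcongr; exact h2.trans h3
      _ = 80 / (2 ^ N * b) := by
          have : (4 : ℝ) ^ N = 2 ^ N * 2 ^ N := by rw [← mul_pow]; norm_num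
          rw [this]; field_simp
      _ ≤ 1 := by rw [div_le_one (by positivity)]; exact h1
  obtain ⟨μ, hμ1, hμ2, hμ3, hμ4⟩ := hμ d hd3
  -- the iteration
  have key : ∀ n : ℕ, n ≤ N → ∃ (ν : Measure (Mat d)) (L κ : ℝ), 1 ≤ L ∧
      L ≤ L₀ * (2 - (1 / 8) ^ n) ∧ 1 ≤ κ ∧ κ ≤ κ₀ + 2 - 2 * (1 / 2) ^ n ∧
      State L κ (A * Real.exp (-(16 ^ n / (C₄ * τ) ^ 2))) ν ∧
      1 - 1 / 32 * (1 - (1 / 2) ^ n) - 12 * n * E ≤ ν.real Set.univ := by
    intro n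
    induction n with
    | zero =>
      intro _
      refine ⟨μ, L₀, κ₀, hL₀, by norm_num, by linarith, by norm_num, ?_, ?_⟩
      · refine (start hL₀ hd3 hμ2 hμ3 hμ4 (κ := κ₀) (by linarith)).mono ?_
        rw [← hA]
        gcongr
        rw [hκ₀, pow_zero, div_div]
        have hle : 1 / (C₄ * τ) ≤ 1 / (τ * (16 * L₀)) := by
          apply one_div_le_one_div_of_le (by positivity)
          rw [mul_comm C₄]
          apply mul_le_mul_of_nonneg_left _ hτ.le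
          rw [hC₄]; linarith
        have h1 : 1 / (C₄ * τ) ^ 2 = (1 / (C₄ * τ)) ^ 2 := by rw [_root_.one_div_pow]
        rw [h1]
        exact pow_le_pow_left₀ (by positivity) hle 2
      · simp
    | succ n ih =>
      intro hn
      obtain ⟨ν, L, κ, h1, h2, h3, h4, h5, h6⟩ := ih (by omega)
      have he0 : (0 : ℝ) < (1 / 8) ^ n := by positivity
      have he1 : ((1 : ℝ) / 8) ^ n ≤ 1 := pow_le_one₀ (by norm_num) (by norm_num)
      have hf0 : (0 : ℝ) < (1 / 2) ^ n := by positivity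
      have hf1 : ((1 : ℝ) / 2) ^ n ≤ 1 := pow_le_one₀ (by norm_num) (by norm_num)
      have hτn : τ / 8 ^ n = τ * (1 / 8) ^ n := by rw [_root_.one_div_pow]; ring
      have hτn0 : 0 < τ / 8 ^ n := by positivity
      have hτn1 : τ / 8 ^ n ≤ τ := div_le_self hτ.le (one_le_pow₀ (by norm_num))
      have hτN : τ / 8 ^ N ≤ τ / 8 ^ n := by
        gcongr
        · norm_num
        · omega
      have hLm' : L ≤ Lm := by rw [hLm]; nlinarith
      have hκ3 : κ ≤ 3 / τ := by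
        have : 3 / τ = 3 * κ₀ := by rw [hκ₀]; ring
        rw [this]; linarith
      have hq := qcond hAp hC₄p hc hτ hM n (κ := κ) (by linarith) hκ3
      have hmass : 3 / 4 ≤ ν.real Set.univ := by
        have hh : 12 * n * E ≤ 12 / 80 := by
          have : (n : ℝ) ≤ N + 1 := by
            have : (n : ℝ) ≤ N := by exact_mod_cast (by omega : n ≤ N)
            linarith
          calc 12 * n * E ≤ 12 * (N + 1) * E := by gcongr
            _ ≤ 12 / 80 := by linarith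
        linarith
      have hE' : Real.exp (-(d * (τ / 8 ^ n) ^ 2 / (2 * Lm ^ 2))) ≤ E := by
        rw [hE]; gcongr
      have g1 := aux_q hc hτn0 (by linarith) hf1 hq
      have g2 : 1 ≤ d * (τ / 8 ^ n) ^ 3 := by
        calc (1 : ℝ) ≤ d * (τ / 8 ^ N) ^ 3 := hc1
          _ ≤ _ := by gcongr
      have g3 : 144 * L ^ 2 ≤ d * (τ / 8 ^ n) ^ 2 := by
        calc 144 * L ^ 2 ≤ 144 * Lm ^ 2 := by gcongr
          _ ≤ d * (τ / 8 ^ N) ^ 2 := hc2
          _ ≤ _ := by gcongr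
      have g4 : 80 * Real.exp (-(d * (τ / 8 ^ n) ^ 2 / (2 * Lm ^ 2))) ≤ 1 := by
        have h0 : (0 : ℝ) ≤ N := Nat.cast_nonneg N
        have h00 : 0 ≤ N * E := by positivity
        have h01 : 80 * (N + 1) * E = 80 * (N * E) + 80 * E := by ring
        linarith
      have g0 : 0 ≤ A * Real.exp (-(16 ^ n / (C₄ * τ) ^ 2)) := by positivity
      obtain ⟨ν', hν', hm⟩ := hstep d L κ (A * Real.exp (-(16 ^ n / (C₄ * τ) ^ 2))) (τ / 8 ^ n)
        ((1 / 2) ^ n) ν hd3 h1 hLm' h3 hτn0 (hτn1.trans hττ₀) g0 g1 g2 g3 g4 hf0 hmass h5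
      have hLL := aux_L hL₀ hτ hτ50 he0 he1 h1 h2
      rw [← hτn] at hLL
      refine ⟨ν', L / (1 - 20 * (τ / 8 ^ n)), κ + (1 / 2) ^ n, hLL.1, ?_, ?_, ?_, ?_, ?_⟩
      · rw [pow_succ]; exact hLL.2
      · linarith
      · rw [pow_succ]; linarith
      · refine hν'.mono ?_
        have := aux_exp (C₃ := C₃) (C₄ := C₄) (by linarith) (by rw [hC₄]; linarith) hτ n
        gcongr
      · push_cast
        rw [pow_succ]
        linarith
  obtain ⟨ν, L, κ, h1, h2, h3, h4, h5, h6⟩ := key N le_rfl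
  have hf0 : (0 : ℝ) < (1 / 2) ^ N := by positivity
  have hf1 : ((1 : ℝ) / 2) ^ N ≤ 1 := pow_le_one₀ (by norm_num) (by norm_num)
  refine ⟨ν, h5.le_one, by nlinarith, h5.orth, h5.inv, h5.conc.mono ?_, ?_⟩
  · have : (0 : ℝ) < (1 / 8) ^ N := by positivity
    rw [hLm]; nlinarith
  · have hsub : {V : Mat d | ∃ i j, (κ₀ + 2) / Real.sqrt d < |V i j|} ⊆
        ⋃ i : Fin d, ⋃ j : Fin d, {V : Mat d | κ / Real.sqrt d < |V i j|} := by
      rintro V ⟨i, j, hij⟩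
      simp only [Set.mem_iUnion]
      refine ⟨i, j, lt_of_le_of_lt ?_ hij⟩
      gcongr
      linarith
    calc ν {V : Mat d | ∃ i j, (κ₀ + 2) / Real.sqrt d < |V i j|}
        ≤ ∑ i : Fin d, ∑ j : Fin d, ν {V : Mat d | κ / Real.sqrt d < |V i j|} := by
          refine (measure_mono hsub).trans ((measure_iUnion_fintype_le _ _).trans ?_)
          exact Finset.sum_le_sum fun i _ => measure_iUnion_fintype_le _ _
      _ ≤ ∑ i : Fin d, ∑ j : Fin d,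
            ENNReal.ofReal (A * Real.exp (-(16 ^ N / (C₄ * τ) ^ 2))) :=
          Finset.sum_le_sum fun i _ => Finset.sum_le_sum fun j _ => h5.prob i j
      _ = ENNReal.ofReal (d ^ 2 * (A * Real.exp (-(16 ^ N / (C₄ * τ) ^ 2)))) := by
          simp only [Finset.sum_const, Finset.card_univ, Fintype.card_fin, nsmul_eq_mul]
          have hn : ENNReal.ofReal ((d : ℝ) ^ 2) = (d : ENNReal) ^ 2 := by
            rw [ENNReal.ofReal_pow (by positivity), ENNReal.ofReal_natCast]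
          rw [ENNReal.ofReal_mul (p := (d : ℝ) ^ 2) (by positivity), hn]
          ring
      _ ≤ _ := by
          apply ENNReal.ofReal_le_ofReal
          have h7 := qbound hAp hC₄p hτ N
          have h8 : 8 * M' ≤ 2 ^ N := by rw [hTt] at hTN; linarith
          calc (d : ℝ) ^ 2 * (A * Real.exp (-(16 ^ N / (C₄ * τ) ^ 2)))
              ≤ (2 ^ (12 * (N + 1))) ^ 2 * (A * 5040 * C₄ ^ 14 * τ ^ 14 / 2 ^ (28 * N)) := by
                gcongr
            _ = M' / 2 ^ (4 * N) := by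
                rw [hM']
                have e1 : ((2 : ℝ) ^ (12 * (N + 1))) ^ 2 = 8 ^ 8 * 2 ^ (24 * N) := by
                  rw [← pow_mul, show (8 : ℝ) ^ 8 = 2 ^ 24 by norm_num, ← pow_add]; congr 1; ring
                have e2 : (2 : ℝ) ^ (28 * N) = 2 ^ (24 * N) * 2 ^ (4 * N) := by
                  rw [← pow_add]; congr 1; ring
                rw [e1, e2]
                field_simp
            _ ≤ 1 / 8 := by
                rw [div_le_div_iff₀ (by positivity) (by norm_num)]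
                have : (2 : ℝ) ^ N ≤ 2 ^ (4 * N) := pow_le_pow_right₀ (by norm_num) (by omega)
                linarith

end Pool.Agent.Helper81.RIP
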