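import Pool.Agent.Helper81.RIP.Defs

/-!
# Helper lemmas for the parts O2 and O3: the tail `Rm`, the exceptional set `exc`
-/

namespace Pool.Agent.Helper81.RIP.OB
open MeasureTheory ProbabilityTheory Matrix
open Pool.Agent.Helper81.RIP

variable {d : ℕ}

lemma cl_neg {c : ℝ} (hc : 0 ≤ c) (s : ℝ) : cl c (-s) = - cl c s := by
  unfold cl
  rcases le_total s (-c) with h | h <;> rcases le_total s c with h' | h'
  · rw [min_eq_left (by linarith : c ≤ -s), max_eq_right (by linarith), min_eq_right h',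
      max_eq_left h]; ring
  · have : s = c := by linarith
    have : c = 0 := by linarith
    subst this; subst s; simp
  · rw [min_eq_right (by linarith : -s ≤ c), max_eq_right (by linarith), min_eq_right h',
      max_eq_right h]
  · rw [min_eq_right (by linarith : -s ≤ c), max_eq_left (by linarith), min_eq_left h',
      max_eq_right (by linarith)]

lemma tail_lip (c s t : ℝ) (hc : 0 ≤ c) : |(s - cl c s) - (t - cl c t)| ≤ |s - t| := by
  unfold cl
  simp only [max_def, min_def]
  split_ifs <;> rw [abs_le] <;> constructor <;>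
    (rcases abs_cases (s - t) with ⟨h, _⟩ | ⟨h, _⟩ <;> linarith)

lemma tail_zero {c : ℝ} (s : ℝ) (h : |s| ≤ c) : s - cl c s = 0 := by
  unfold cl
  have := abs_le.mp h
  rw [min_eq_right this.2, max_eq_right this.1]; ring

lemma Rm_apply (c : ℝ) (V : Mat d) (i j : Fin d) : Rm c V i j = V i j - cl c (V i j) := rfl

lemma Rm_zero_of {c : ℝ} {V : Mat d} {i j : Fin d} (h : (i, j) ∉ exc c V) : Rm c V i j = 0 := by
  rw [Rm_apply]
  apply tail_zero
  simpa [exc] using h

lemma Rm_lip_entry {c : ℝ} (hc : 0 ≤ c) (V V' : Mat d) (i j : Fin d) :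
    |Rm c V i j - Rm c V' i j| ≤ |V i j - V' i j| := by
  rw [Rm_apply, Rm_apply]; exact tail_lip c _ _ hc

lemma Rm_le {c : ℝ} (hc : 0 ≤ c) (V : Mat d) (i j : Fin d) : |Rm c V i j| ≤ |V i j| := by
  have h := Rm_lip_entry hc V 0 i j
  have h0 : Rm c (0 : Mat d) i j = 0 := by
    rw [Rm_apply]
    exact tail_zero _ (by simpa using hc)
  rw [h0] at h
  simpa using h

lemma hs_mono {A B : Mat d} (h : ∀ i j, |A i j| ≤ |B i j|) : hs A ≤ hs B := by
  unfold hs
  apply Real.sqrt_le_sqrt
  exact Finset.sum_le_sum fun i _ => Finset.sum_le_sum fun j _ => sq_le_sq.mpr (h i j)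

lemma Rm_lip {c : ℝ} (hc : 0 ≤ c) (V V' : Mat d) : hs (Rm c V - Rm c V') ≤ hs (V - V') :=
  hs_mono fun i j => Rm_lip_entry hc V V' i j

lemma Rm_mul_J {c : ℝ} (hc : 0 ≤ c) {i j : Fin d} (hij : i ≠ j) (V : Mat d) :
    Rm c (V * J i j) = Rm c V * J i j := by
  ext a b
  rw [mul_J_apply _ hij, Rm_apply, mul_J_apply _ hij]
  split_ifs with h1 h2
  · rfl
  · rw [cl_neg hc, Rm_apply]; ring
  · rfl

lemma abs_mul_J {i j : Fin d} (hij : i ≠ j) (V : Mat d) (a b : Fin d) :
    |(V * J i j) a b| = |V a (Equiv.swap i j b)| := by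
  rw [mul_J_apply _ hij]
  split_ifs with h1 h2
  · rw [h1, Equiv.swap_apply_left]
  · rw [h2, Equiv.swap_apply_right, abs_neg]
  · rw [Equiv.swap_apply_of_ne_of_ne h1 h2]

lemma card_exc_mul_J (c : ℝ) {i j : Fin d} (hij : i ≠ j) (V : Mat d) :
    (exc c (V * J i j)).card = (exc c V).card := by
  apply Finset.card_equiv ((Equiv.refl (Fin d)).prodCongr (Equiv.swap i j))
  rintro ⟨a, b⟩
  simp only [exc, Finset.mem_filter, Finset.mem_univ, true_and, abs_mul_J hij,
    Equiv.prodCongr_apply, Prod.map_apply, Equiv.refl_apply]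

lemma Orth_mul_J {i j : Fin d} (hij : i ≠ j) (V : Mat d) : Orth (V * J i j) ↔ Orth V := by
  refine ⟨fun h => ?_, fun h => h.mul (Orth_J hij)⟩
  have h2 := h.mul (Orth_J hij).transpose
  rwa [Matrix.mul_assoc, (Orth_J hij).mul_transpose, Matrix.mul_one] at h2

lemma continuous_entry (i j : Fin d) : Continuous fun V : Mat d => V i j :=
  continuous_id.matrix_elem i j

lemma continuous_Rm (c : ℝ) : Continuous (Rm c : Mat d → Mat d) := by
  unfold Rm clM cl
  refine continuous_id.sub ?_
  refine continuous_matrix fun i j => ?_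
  simp only [Matrix.of_apply]
  have := continuous_entry (d := d) i j
  fun_prop

lemma continuous_Rm_entry (c : ℝ) (i j : Fin d) : Continuous fun V : Mat d => Rm c V i j :=
  (continuous_Rm c).matrix_elem i j

lemma exc_card_eq (c : ℝ) (V : Mat d) :
    ((exc c V).card : ℝ) = ∑ p : Fin d × Fin d, if c < |V p.1 p.2| then (1 : ℝ) else 0 := by
  simp [exc]

lemma measurable_exc_card (c : ℝ) : Measurable fun V : Mat d => ((exc c V).card : ℝ) := by
  simp only [exc_card_eq]
  refine Finset.measurable_sum _ fun p _ => ?_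
  refine Measurable.ite ?_ measurable_const measurable_const
  exact measurableSet_lt measurable_const (continuous_entry p.1 p.2).abs.measurable

lemma measurableSet_Orth : MeasurableSet {V : Mat d | Orth V} := by
  have : IsClosed {V : Mat d | Orth V} := by
    unfold Orth
    exact isClosed_eq (by fun_prop) continuous_const
  exact this.measurableSet

lemma measurableSet_Ap (c p : ℝ) :
    MeasurableSet {V : Mat d | Orth V ∧ ((exc c V).card : ℝ) ≤ p * d ^ 2} :=
  measurableSet_Orth.inter (measurableSet_le (measurable_exc_card c) measurable_const)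

lemma Ap_J (c p : ℝ) {i j : Fin d} (hij : i ≠ j) (V : Mat d) :
    V * J i j ∈ {V : Mat d | Orth V ∧ ((exc c V).card : ℝ) ≤ p * d ^ 2} ↔
      V ∈ {V : Mat d | Orth V ∧ ((exc c V).card : ℝ) ≤ p * d ^ 2} := by
  simp only [Set.mem_setOf_eq, Orth_mul_J hij, card_exc_mul_J c hij]

end Pool.Agent.Helper81.RIP.OB
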