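import Pool.Agent.Helper81.RIP.S1a
import Pool.Agent.Helper81.RIP.B2

/-!
# S1: the image measure
-/

namespace Pool.Agent.Helper81.RIP
open MeasureTheory ProbabilityTheory Matrix

variable {d : ℕ}

section S1

/-! ### `Phi` on the good event -/

lemma continuousOn_Phi {c p ε : ℝ} (hc : 0 < c) (hε : 0 ≤ ε) (hε' : ε ≤ 1 / 36) :
    ContinuousOn (Phi c : Mat d → Mat d) (Om c p ε) := by
  intro V hV
  refine tendsto_pi_nhds.mpr fun i => tendsto_pi_nhds.mpr fun j => ?_
  rw [tendsto_iff_norm_sub_tendsto_zero]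
  have h0 : Filter.Tendsto (fun W : Mat d => (1 - 2 * ε)⁻¹ * hs (W - V)) (nhdsWithin V (Om c p ε))
      (nhds 0) := by
    have : Continuous (fun W : Mat d => (1 - 2 * ε)⁻¹ * hs (W - V)) :=
      continuous_const.mul (continuous_hs.comp (continuous_id.sub continuous_const))
    have h := this.tendsto V
    simp only [sub_self, hs_zero, mul_zero] at h
    exact h.mono_left nhdsWithin_le_nhds
  refine squeeze_zero' (Filter.Eventually.of_forall fun _ => norm_nonneg _) ?_ h0
  filter_upwards [self_mem_nhdsWithin] with W hW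
  have h1 := Phi_lip hc hε hε' hW.1 hV.1 hW.2.2 hV.2.2
  have h2 := abs_entry_le_hs (Phi c W - Phi c V) i j
  rw [Real.norm_eq_abs]
  have h3 : 0 < 1 - 2 * ε := by linarith
  rw [← div_eq_inv_mul, le_div_iff₀ h3]
  calc |Phi c W i j - Phi c V i j| * (1 - 2 * ε) ≤ hs (Phi c W - Phi c V) * (1 - 2 * ε) :=
        mul_le_mul_of_nonneg_right h2 h3.le
    _ ≤ _ := by rw [mul_comm]; exact h1

lemma aemeasurable_Phi {c p ε : ℝ} (hc : 0 < c) (hε : 0 ≤ ε) (hε' : ε ≤ 1 / 36)
    (ν : Measure (Mat d)) : AEMeasurable (Phi c) (ν.restrict (Om c p ε)) :=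
  (continuousOn_Phi hc hε hε').aemeasurable (Om_meas c p ε)

theorem conc_map {c p ε L : ℝ} (hc : 0 < c) (hε : 0 ≤ ε) (hε' : ε ≤ 1 / 36)
    {ν : Measure (Mat d)} (_hν : ν Set.univ ≤ 1) (h : Conc L ν) :
    Conc (L / (1 - 2 * ε)) ((ν.restrict (Om c p ε)).map (Phi c)) := by
  intro A f l hA hl hf
  have h3 : 0 < 1 - 2 * ε := by linarith
  have hcont := continuousOn_Phi (d := d) (p := p) hc hε hε'
  have hA' := measurableSet_inter_preimage (Om_meas c p ε) hcont hA
  obtain ⟨a, ha⟩ := h (Om c p ε ∩ Phi c ⁻¹' A) (fun V => f (Phi c V)) (l / (1 - 2 * ε)) hA'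
    (div_nonneg hl h3.le) (by
      intro V hV V' hV'
      have h1 := hf _ hV.2 _ hV'.2
      have h2 := Phi_lip hc hε hε' hV.1.1 hV'.1.1 hV.1.2.2 hV'.1.2.2
      calc |f (Phi c V) - f (Phi c V')| ≤ l * hs (Phi c V - Phi c V') := h1
        _ ≤ l * (hs (V - V') / (1 - 2 * ε)) := by
            apply mul_le_mul_of_nonneg_left _ hl
            rw [le_div_iff₀ h3, mul_comm]
            exact h2
        _ = _ := by ring)
  refine ⟨a, fun u hu => ?_⟩
  have hfc := continuousOn_of_lip hf
  have hSm : MeasurableSet {V | V ∈ A ∧ l * (L / (1 - 2 * ε)) * u < Real.sqrt d * |f V - a|} := by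
    have hg : ContinuousOn (fun V => Real.sqrt d * |f V - a|) A :=
      continuousOn_const.mul (hfc.sub continuousOn_const).abs
    exact measurableSet_inter_preimage hA hg measurableSet_Ioi
  rw [Measure.map_apply_of_aemeasurable (aemeasurable_Phi hc hε hε' ν) hSm,
    Measure.restrict_apply' (Om_meas c p ε)]
  refine le_trans (measure_mono ?_) (ha u hu)
  rintro V ⟨⟨hV1, hV2⟩, hV3⟩
  refine ⟨⟨hV3, hV1⟩, ?_⟩
  have : l / (1 - 2 * ε) * L * u = l * (L / (1 - 2 * ε)) * u := by ring
  rw [this]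
  exact hV2

theorem inv_map {c p ε : ℝ} (hc : 0 < c) (hε : 0 ≤ ε) (hε' : ε ≤ 1 / 36)
    {ν : Measure (Mat d)} (_hν : ν Set.univ ≤ 1) (h : Inv ν) :
    Inv ((ν.restrict (Om c p ε)).map (Phi c)) := by
  have key : ∀ T : Mat d → Mat d, Continuous T → (∀ V, T V ∈ Om c p ε ↔ V ∈ Om c p ε) →
      (∀ V ∈ Om c p ε, Phi c (T V) = T (Phi c V)) → ν.map T = ν →
      ((ν.restrict (Om c p ε)).map (Phi c)).map T = (ν.restrict (Om c p ε)).map (Phi c) := by
    intro T hT hTO hTP hTν
    have hOm := Om_meas (d := d) c p ε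
    have h1 : (ν.restrict (Om c p ε)).map T = ν.restrict (Om c p ε) := by
      have h2 := Measure.restrict_map (μ := ν) hT.measurable hOm
      have h3 : T ⁻¹' (Om c p ε) = Om c p ε := by
        ext V; exact hTO V
      rw [h3, hTν] at h2
      exact h2.symm
    have hae := aemeasurable_Phi (d := d) (p := p) hc hε hε' ν
    rw [AEMeasurable.map_map_of_aemeasurable (hT.measurable.aemeasurable) hae]
    have h4 : (T ∘ Phi c) =ᵐ[ν.restrict (Om c p ε)] (Phi c ∘ T) := by
      filter_upwards [ae_restrict_mem hOm] with V hV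
      exact (hTP V hV).symm
    rw [Measure.map_congr h4, ← AEMeasurable.map_map_of_aemeasurable _ hT.measurable.aemeasurable,
      h1]
    rw [h1]
    exact hae
  intro i j hij
  constructor
  · apply key (fun V => V * J i j) (continuous_id.matrix_mul continuous_const)
    · intro V; exact (Om_J hc.le p ε i j hij V).1
    · intro V hV
      exact ((Phi_facts hc hε hε' hV.1 hV.2.2).2 i j hij).1
    · exact (h i j hij).1
  · apply key (fun V => J i j * V) (continuous_const.matrix_mul continuous_id)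
    · intro V; exact (Om_J hc.le p ε i j hij V).2
    · intro V hV
      exact ((Phi_facts hc hε hε' hV.1 hV.2.2).2 i j hij).2
    · exact (h i j hij).2

end S1
end Pool.Agent.Helper81.RIP
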