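import Pool.Agent.Helper81.RIP.B2

/-!
# S1a: truncation, large entries, the good event
-/

namespace Pool.Agent.Helper81.RIP
open MeasureTheory ProbabilityTheory Matrix

variable {d : ℕ}

section S1a

/-! ### truncation -/

lemma abs_cl_le {c : ℝ} (hc : 0 ≤ c) (s : ℝ) : |cl c s| ≤ c := by
  unfold cl
  rw [abs_le]
  exact ⟨le_max_left _ _, max_le (by linarith) (min_le_left _ _)⟩

lemma continuous_cl (c : ℝ) : Continuous (cl c) := by
  unfold cl
  fun_prop

lemma abs_sub_cl {c : ℝ} (hc : 0 ≤ c) (s : ℝ) : |s - cl c s| = max (|s| - c) 0 := by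
  unfold cl
  rcases le_total s c with h | h
  · rcases le_total (-c) s with h' | h'
    · rw [min_eq_right h, max_eq_right h', sub_self, abs_zero, max_eq_right]
      have := abs_le.mpr ⟨h', h⟩
      linarith
    · rw [min_eq_right h, max_eq_left h', abs_of_nonpos (by linarith : s - -c ≤ 0),
        abs_of_nonpos (by linarith : s ≤ 0), max_eq_left (by linarith)]
      ring
  · rw [min_eq_left h, max_eq_right (by linarith), abs_of_nonneg (by linarith : 0 ≤ s - c),
        abs_of_nonneg (by linarith : 0 ≤ s), max_eq_left (by linarith)]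

lemma Rm_apply (c : ℝ) (V : Mat d) (i j : Fin d) : Rm c V i j = V i j - cl c (V i j) := rfl

lemma clM_apply (c : ℝ) (V : Mat d) (i j : Fin d) : clM c V i j = cl c (V i j) := rfl

lemma continuous_Rm (c : ℝ) : Continuous (Rm c : Mat d → Mat d) := by
  have h : Continuous (fun V : Mat d => V - clM c V) := by
    apply Continuous.sub continuous_id
    apply continuous_matrix
    intro i j
    exact (continuous_cl c).comp (continuous_id.matrix_elem i j)
  exact h

lemma clM_mul_J {c : ℝ} (hc : 0 ≤ c) (V : Mat d) {i j : Fin d} (hij : i ≠ j) :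
    clM c (V * J i j) = clM c V * J i j := by
  ext a b
  rw [mul_J_apply _ hij, clM_apply, mul_J_apply _ hij, clM_apply, clM_apply, clM_apply]
  split_ifs
  · rfl
  · exact cl_neg hc _
  · rfl

lemma Rm_mul_J {c : ℝ} (hc : 0 ≤ c) (V : Mat d) {i j : Fin d} (hij : i ≠ j) :
    Rm c (V * J i j) = Rm c V * J i j := by
  unfold Rm
  rw [clM_mul_J hc V hij, Matrix.sub_mul]

lemma clM_transpose (c : ℝ) (V : Mat d) : clM c Vᵀ = (clM c V)ᵀ := rfl

lemma Rm_transpose_mat (c : ℝ) (V : Mat d) : Rm c Vᵀ = (Rm c V)ᵀ := rfl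

lemma J_mul_eq (V : Mat d) {i j : Fin d} (hij : i ≠ j) : J i j * V = (Vᵀ * J j i)ᵀ := by
  rw [Matrix.transpose_mul, Matrix.transpose_transpose, J_transpose hij.symm]

lemma J_mul_J_symm {i j : Fin d} (hij : i ≠ j) : J i j * J j i = 1 := by
  have := (Orth_J hij).mul_transpose
  rwa [J_transpose hij] at this

/-! ### the number of large entries -/

lemma mem_exc {c : ℝ} {V : Mat d} {p : Fin d × Fin d} : p ∈ exc c V ↔ c < |V p.1 p.2| := by
  simp [exc]

lemma card_exc_transpose (c : ℝ) (V : Mat d) : (exc c Vᵀ).card = (exc c V).card := by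
  apply Finset.card_bij (fun p _ => (p.2, p.1))
  · intro p hp
    rw [mem_exc] at hp ⊢
    exact hp
  · intro p _ q _ h
    simp only [Prod.mk.injEq] at h
    exact Prod.ext h.2 h.1
  · intro p hp
    refine ⟨(p.2, p.1), ?_, rfl⟩
    rw [mem_exc] at hp ⊢
    exact hp

lemma abs_mul_J_apply (V : Mat d) {i j : Fin d} (hij : i ≠ j) (a b : Fin d) :
    |(V * J i j) a b| = |V a (Equiv.swap i j b)| := by
  rw [mul_J_apply _ hij]
  by_cases h1 : b = i
  · subst h1; simp
  · by_cases h2 : b = j
    · subst h2; simp [h1]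
    · rw [if_neg h1, if_neg h2, Equiv.swap_apply_of_ne_of_ne h1 h2]

lemma card_exc_mul_J (c : ℝ) (V : Mat d) {i j : Fin d} (hij : i ≠ j) :
    (exc c (V * J i j)).card = (exc c V).card := by
  apply Finset.card_bij (fun p _ => (p.1, Equiv.swap i j p.2))
  · intro p hp
    rw [mem_exc] at hp ⊢
    rw [abs_mul_J_apply V hij] at hp
    exact hp
  · intro p _ q _ h
    simp only [Prod.mk.injEq] at h
    exact Prod.ext h.1 ((Equiv.swap i j).injective h.2)
  · intro p hp
    refine ⟨(p.1, Equiv.swap i j p.2), ?_, by simp⟩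
    rw [mem_exc] at hp ⊢
    rw [abs_mul_J_apply V hij]
    simpa using hp

lemma measurable_card_exc (c : ℝ) : Measurable (fun V : Mat d => ((exc c V).card : ℝ)) := by
  have h : (fun V : Mat d => ((exc c V).card : ℝ)) =
      fun V => ∑ p : Fin d × Fin d, if c < |V p.1 p.2| then (1 : ℝ) else 0 := by
    funext V
    rw [exc, Finset.card_filter]
    push_cast
    rfl
  rw [h]
  apply Finset.measurable_sum
  intro p _
  apply Measurable.ite
  · exact (isOpen_lt continuous_const
      (continuous_id.matrix_elem p.1 p.2).abs).measurableSet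
  · exact measurable_const
  · exact measurable_const

lemma isClosed_Orth : IsClosed {V : Mat d | Orth V} := by
  unfold Orth
  apply isClosed_eq _ continuous_const
  exact (continuous_id.matrix_transpose).matrix_mul continuous_id

lemma continuous_vn : Continuous (vn : (Fin d → ℝ) → ℝ) := by
  unfold vn
  fun_prop

lemma isClosed_OpLe_Rm (c ε : ℝ) : IsClosed {V : Mat d | OpLe (Rm c V) ε} := by
  unfold OpLe
  rw [Set.ofPred_forall]
  apply isClosed_iInter
  intro x
  apply isClosed_le _ continuous_const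
  exact continuous_vn.comp ((continuous_Rm c).matrix_mulVec continuous_const)

theorem Om_meas (c p ε : ℝ) : MeasurableSet (Om c p ε : Set (Mat d)) := by
  have h : (Om c p ε : Set (Mat d)) = {V | Orth V} ∩ ({V | ((exc c V).card : ℝ) ≤ p * d ^ 2} ∩
      {V | OpLe (Rm c V) ε}) := rfl
  rw [h]
  exact isClosed_Orth.measurableSet.inter
    ((measurableSet_le (measurable_card_exc c) measurable_const).inter
      (isClosed_OpLe_Rm c ε).measurableSet)

lemma Orth_mul_J_iff (V : Mat d) {i j : Fin d} (hij : i ≠ j) : Orth (V * J i j) ↔ Orth V := by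
  constructor
  · intro h
    have h2 := h.mul (Orth_J hij.symm)
    rwa [Matrix.mul_assoc, J_mul_J_symm hij, Matrix.mul_one] at h2
  · intro h
    exact h.mul (Orth_J hij)

lemma OpLe_mul_J_iff (A : Mat d) {ε : ℝ} {i j : Fin d} (hij : i ≠ j) :
    OpLe (A * J i j) ε ↔ OpLe A ε := by
  constructor
  · intro h x
    have h2 := h (J j i *ᵥ x)
    rw [Matrix.mulVec_mulVec, Matrix.mul_assoc, J_mul_J_symm hij, Matrix.mul_one,
      (Orth_J hij.symm).vn_mulVec] at h2
    exact h2
  · intro h x
    rw [← Matrix.mulVec_mulVec]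
    have h2 := h (J i j *ᵥ x)
    rwa [(Orth_J hij).vn_mulVec] at h2

lemma Om_transpose (c p ε : ℝ) (V : Mat d) : Vᵀ ∈ Om c p ε ↔ V ∈ Om c p ε := by
  have key : ∀ W : Mat d, W ∈ Om c p ε → Wᵀ ∈ Om c p ε := by
    intro W hW
    refine ⟨hW.1.transpose, ?_, ?_⟩
    · rw [card_exc_transpose]; exact hW.2.1
    · rw [Rm_transpose_mat]; exact hW.2.2.transpose
  constructor
  · intro h
    simpa using key _ h
  · exact key V

theorem Om_J {c : ℝ} (hc : 0 ≤ c) (p ε : ℝ) (i j : Fin d) (hij : i ≠ j) (V : Mat d) :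
    (V * J i j ∈ Om c p ε ↔ V ∈ Om c p ε) ∧ (J i j * V ∈ Om c p ε ↔ V ∈ Om c p ε) := by
  have key : ∀ (W : Mat d) (i j : Fin d), i ≠ j → (W * J i j ∈ Om c p ε ↔ W ∈ Om c p ε) := by
    intro W i j hij
    unfold Om
    simp only [Set.mem_ofPred_eq]
    rw [Orth_mul_J_iff W hij, card_exc_mul_J c W hij, Rm_mul_J hc W hij, OpLe_mul_J_iff _ hij]
  refine ⟨key V i j hij, ?_⟩
  rw [J_mul_eq V hij, Om_transpose, key _ _ _ hij.symm, Om_transpose]

/-- the preimage of a measurable set under a map which is continuous on a measurable set -/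
lemma measurableSet_inter_preimage {X Y : Type*} [TopologicalSpace X] [MeasurableSpace X]
    [BorelSpace X] [TopologicalSpace Y] [MeasurableSpace Y] [BorelSpace Y] {s : Set X}
    (hs : MeasurableSet s) {g : X → Y} (hg : ContinuousOn g s) {A : Set Y} (hA : MeasurableSet A) :
    MeasurableSet (s ∩ g ⁻¹' A) := by
  have h1 : Measurable (s.domRestrict g) := (continuousOn_iff_continuous_domRestrict.mp hg).measurable
  have h2 := hs.subtype_image (h1 hA)
  have h3 : (Subtype.val '' ((s.domRestrict g) ⁻¹' A) : Set X) = s ∩ g ⁻¹' A := by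
    ext x
    simp only [Set.mem_image, Set.mem_preimage, Subtype.exists,
      exists_and_right, exists_eq_right, Set.mem_inter_iff]
    constructor
    · rintro ⟨h, h'⟩; exact ⟨h, h'⟩
    · rintro ⟨h, h'⟩; exact ⟨h, h'⟩
  rw [← h3]
  exact h2

/-- continuity of a function which is Lipschitz on a set -/
lemma continuousOn_of_lip {A : Set (Mat d)} {f : Mat d → ℝ} {l : ℝ}
    (hf : ∀ V ∈ A, ∀ V' ∈ A, |f V - f V'| ≤ l * hs (V - V')) : ContinuousOn f A := by
  intro V hV
  rw [ContinuousWithinAt, tendsto_iff_norm_sub_tendsto_zero]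
  have h0 : Filter.Tendsto (fun W : Mat d => l * hs (W - V)) (nhdsWithin V A) (nhds 0) := by
    have : Continuous (fun W : Mat d => l * hs (W - V)) :=
      continuous_const.mul (continuous_hs.comp (continuous_id.sub continuous_const))
    have h := this.tendsto V
    simp only [sub_self, hs_zero, mul_zero] at h
    exact h.mono_left nhdsWithin_le_nhds
  refine squeeze_zero' (Filter.Eventually.of_forall fun _ => norm_nonneg _) ?_ h0
  filter_upwards [self_mem_nhdsWithin] with W hW
  exact hf W hW V hV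

end S1a
end Pool.Agent.Helper81.RIP
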